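import Pool.Agent.Q299.CY.KPart

/-!
Derivatives of the partition function.
-/

set_option linter.unusedSectionVars false

namespace Pool.Agent.Q299.CY

open Finset Classical

theorem EE_continuous {α : Type*} [DecidableEq α] (S : Finset α) (f : Finset α → ℝ) :
    Continuous (fun p => EE p S f) := by
  unfold EE
  fun_prop

theorem EE_at_zero {α : Type*} [DecidableEq α] (S : Finset α) (f : Finset α → ℝ) :
    EE 0 S f = f ∅ := by
  induction S using Finset.induction_on generalizing f with
  | empty => exact EE_empty 0 f
  | insert a S ha ih => rw [EE_insert 0 ha, ih, ih]; ring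

theorem EE_hasDeriv {α : Type*} [DecidableEq α] (S : Finset α) (f : Finset α → ℝ) {p : ℝ}
    (hp0 : 0 < p) (hp1 : p < 1) :
    HasDerivAt (fun p => EE p S f)
      (EE p S (fun G => ((G.card : ℝ) - S.card * p) * f G) / (p * (1 - p))) p := by
  have hq : 0 < 1 - p := by linarith
  induction S using Finset.induction_on generalizing f with
  | empty =>
    have e : (fun p : ℝ => EE p (∅ : Finset α) f) = fun _ => f ∅ := by
      funext p
      exact EE_empty p f
    rw [e, EE_empty]
    simp only [Finset.card_empty, Nat.cast_zero, zero_mul, sub_zero, zero_div]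
    exact hasDerivAt_const p (f ∅)
  | insert a S ha ih =>
    have e : (fun p : ℝ => EE p (insert a S) f)
        = fun p => p * EE p S (fun G => f (insert a G)) + (1 - p) * EE p S f := by
      funext p
      exact EE_insert p ha f
    rw [e, EE_insert p ha]
    have h1 := (hasDerivAt_id' p).mul (ih (fun G => f (insert a G)))
    have h2 := ((hasDerivAt_id' p).const_sub 1).mul (ih f)
    have h3 := h1.add h2
    refine h3.congr_deriv ?_
    have e1 : EE p S (fun G => (((insert a G).card : ℝ) - ((insert a S).card : ℝ) * p)
        * f (insert a G)) = EE p S (fun G => ((G.card : ℝ) - S.card * p) * f (insert a G))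
          + (1 - p) * EE p S (fun G => f (insert a G)) := by
      rw [← EE_mul_left, ← EE_add]
      apply EE_congr
      intro G hG
      have : a ∉ G := fun h => ha (hG h)
      rw [Finset.card_insert_of_notMem this, Finset.card_insert_of_notMem ha]
      push_cast
      ring
    have e2 : EE p S (fun G => ((G.card : ℝ) - ((insert a S).card : ℝ) * p) * f G)
        = EE p S (fun G => ((G.card : ℝ) - S.card * p) * f G) - p * EE p S f := by
      rw [← EE_mul_left, ← EE_sub]
      apply EE_congr
      intro G hG
      rw [Finset.card_insert_of_notMem ha]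
      push_cast
      ring
    rw [e1, e2]
    field_simp
    ring

variable {V : Type*} [Fintype V] [DecidableEq V]

theorem card_EU (U : Finset V) : ((EU U).card : ℝ) = U.card * ((U.card : ℝ) - 1) / 2 := by
  induction U using Finset.induction_on with
  | empty => rw [EU_empty]; simp
  | insert v U hv ih =>
    have h1 : (star v U).card = U.card := by unfold star; rw [Finset.card_map]
    rw [EU_insert hv, Finset.card_union_of_disjoint (EU_star_disjoint hv U), h1,
      Finset.card_insert_of_notMem hv]
    push_cast
    rw [ih]
    ring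

theorem MM_card {p : ℝ} {k : ℕ} {q s : ℝ} (hM : Mom V p k q s) :
    MM p k (fun G : Finset (Sym2 V) => (G.card : ℝ))
      = ((EU (Finset.univ : Finset V)).card : ℝ) * (q * ZZ V p k) := by
  have h1 : MM p k (fun G : Finset (Sym2 V) => (G.card : ℝ))
      = MM p k (fun G => ∑ e ∈ EU (Finset.univ : Finset V), ic (e ∈ G)) := by
    apply MM_congr
    intro G hG
    have : ∑ e ∈ EU (Finset.univ : Finset V), ic (e ∈ G) = ∑ e ∈ G, (1:ℝ) := by
      rw [← Finset.sum_subset hG]
      · apply Finset.sum_congr rfl
        intro e he
        exact ic_pos he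
      · intro e _ he
        exact ic_neg he
    rw [this]
    simp
  rw [h1, MM_sum, Finset.sum_congr rfl (g := fun _ => q * ZZ V p k)]
  · rw [Finset.sum_const, nsmul_eq_mul]
  · intro e he
    induction e using Sym2.ind with
    | _ x y =>
      have hxy := (mk_mem_EU.1 he).1
      rw [← hM.one x y hxy]
      apply MM_congr
      intro G _
      rw [adj_eq_ic]

theorem ZZ_hasDeriv {p : ℝ} {k : ℕ} {q s : ℝ} (hp0 : 0 < p) (hp1 : p < 1)
    (hM : Mom V p k q s) :
    HasDerivAt (fun p => ZZ V p k)
      (((Fintype.card V : ℝ) * ((Fintype.card V : ℝ) - 1) / 2) * ((q - p) * ZZ V p k)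
        / (p * (1 - p))) p := by
  have h := EE_hasDeriv (EU (Finset.univ : Finset V)) (aA k) hp0 hp1
  refine h.congr_deriv ?_
  congr 1
  have e1 : EE p (EU (Finset.univ : Finset V))
      (fun G => ((G.card : ℝ) - (EU (Finset.univ : Finset V)).card * p) * aA k G)
      = MM p k (fun G : Finset (Sym2 V) => (G.card : ℝ))
        - ((EU (Finset.univ : Finset V)).card * p) * ZZ V p k := by
    rw [← MM_const, ← MM_sub]
    rfl
  rw [e1, MM_card hM, card_EU, Finset.card_univ]
  ring

theorem ZZ_zero (k : ℕ) : ZZ V 0 k = 1 := by
  unfold ZZ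
  rw [EE_at_zero, aA_empty]

theorem ZZ_continuous (k : ℕ) : Continuous (fun p => ZZ V p k) := EE_continuous _ _

end Pool.Agent.Q299.CY
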