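import Pool.Agent.Q299.CY.Stage2

/-!
The hard-core lower bound for the edge density.
-/

set_option linter.unusedSectionVars false

namespace Pool.Agent.Q299.CY

open Finset Classical

variable {V : Type*} [Fintype V] [DecidableEq V]

/-- Triangles of conflicts. -/
noncomputable def Tri (k : ℕ) (G : Finset (Sym2 V)) (v : V) : ℝ :=
  ∑ y : V, ∑ y' : V, ic (conf k G v y) * (ic (conf k G v y') * ic (conf k G y y'))

theorem Tri_mono {k : ℕ} {G H : Finset (Sym2 V)} (h : G ⊆ H) (v : V) : Tri k G v ≤ Tri k H v := by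
  apply Finset.sum_le_sum
  intro y _
  apply Finset.sum_le_sum
  intro y' _
  apply mul_le_mul (ic_mono (conf_mono h)) _ (mul_nonneg (ic_nonneg _) (ic_nonneg _)) (ic_nonneg _)
  exact mul_le_mul (ic_mono (conf_mono h)) (ic_mono (conf_mono h)) (ic_nonneg _) (ic_nonneg _)

/-- Tripods force a meeting or a new path. -/
theorem tripod {k : ℕ} (hk : 2 ≤ k) {G : Finset (Sym2 V)} {v : V} {l1 l2 : List V}
    (h1 : l1.length = 2 * k - 2) (h2 : l2.length = 2 * k - 2)
    (hn1 : (v :: l1).Nodup)
    (hc : conf k G (lst v l1) (lst v l2)) :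
    nw {v} (l1 ++ l2) < (l1 ++ l2).length ∨
    ∃ l3 : List V, l3.length = 2 * k - 2 ∧ (lst v l1 :: l3).Nodup ∧
      lst (lst v l1) l3 ∈ (v :: (l1 ++ l2)).toFinset ∧
      ¬ edg (lst v l1) l3 ⊆ edg v l2 ∪ edg v l1 ∧ edg (lst v l1) l3 ⊆ G := by
  by_cases hnw : nw {v} (l1 ++ l2) < (l1 ++ l2).length
  · exact Or.inl hnw
  right
  obtain ⟨l3, g1, g2, g3, g4⟩ := hc
  have hl2 : l2 ≠ [] := by
    intro h
    rw [h] at h2
    simp at h2
    omega
  refine ⟨l3, g1, g2, ?_, ?_, g3⟩
  · rw [g4, List.mem_toFinset]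
    exact List.mem_cons_of_mem _ (List.mem_append_right _ (lst_mem_tail hl2))
  · intro hsub
    have heq : nw {v} (l1 ++ l2) = (l1 ++ l2).length :=
      le_antisymm (nw_le _ _) (not_lt.1 hnw)
    obtain ⟨hnd, hav⟩ := nw_eq_length heq
    obtain ⟨hnd1, hnd2, hdis⟩ := List.nodup_append'.1 hnd
    have hv2 : v ∉ l2 := fun h => hav v (List.mem_append_right _ h) (Finset.mem_singleton_self v)
    obtain ⟨l', e1, e2, e3, e4, e5⟩ := exists_reverse hn1
    -- the concatenated path
    have hq : (lst v l1 :: (l' ++ l2)).Nodup := by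
      have : lst v l1 :: (l' ++ l2) = (lst v l1 :: l') ++ l2 := rfl
      rw [this]
      refine List.nodup_append'.2 ⟨e2, hnd2, ?_⟩
      intro a ha ha2
      rcases List.mem_cons.1 ((e5 a).1 ha) with h | h
      · exact hv2 (h ▸ ha2)
      · exact hdis h ha2
    have hedge : edg (lst v l1) (l' ++ l2) = edg v l2 ∪ edg v l1 := by
      cases l2 with
      | nil => exact absurd rfl hl2
      | cons z l2 =>
        rw [edg_append, e3, e4]
        simp only [edg]
        ext e
        simp only [Finset.mem_insert, Finset.mem_union]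
        tauto
    have hf := follow g2 hq (by rw [hedge]; exact hsub)
    have h3 : l3 = l' := by
      have hp : l' <+: l' ++ l2 := List.prefix_append l' l2
      have := List.prefix_of_prefix_length_le hf hp (by omega)
      exact this.eq_of_length (by omega)
    rw [h3, e4] at g4
    have := lst_mem_tail (x := v) hl2
    rw [← g4] at this
    exact hv2 this

section expect

variable {p : ℝ}

theorem toFinset_card_le2 (x : V) {l l' : List V} {L : ℕ} (hl : l.length = L)
    (hl' : l'.length = L) : ((x :: (l ++ l')).toFinset.card : ℝ) ≤ 1 + (2 * L : ℕ) := by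
  have := List.toFinset_card_le (x :: (l ++ l'))
  simp only [List.length_cons, List.length_append, hl, hl'] at this
  have h2 : ((x :: (l ++ l')).toFinset.card : ℝ) ≤ ((L + L + 1 : ℕ) : ℝ) := by exact_mod_cast this
  push_cast at h2 ⊢
  linarith

/-- Expected number of conflict triangles at a vertex. -/
theorem EE_Tri {k : ℕ} (hk : 2 ≤ k) (hp0 : 0 ≤ p) (hp1 : p ≤ 1) (S : Finset (Sym2 V)) (v : V) :
    EE p S (fun G => Tri k G v)
      ≤ ((2 * (2 * k - 2) : ℕ) : ℝ) * (1 + (2 * (2 * k - 2) : ℕ)) *
          ((Fintype.card V : ℝ) * p + 1 + (2 * (2 * k - 2) : ℕ)) ^ (2 * (2 * k - 2) - 1)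
        + ((2 * k - 2 : ℕ) * (p * (1 + (2 * (2 * k - 2) : ℕ)) *
          ((Fintype.card V : ℝ) * p + 1 + (2 * (2 * k - 2) : ℕ)) ^ (2 * k - 2 - 1)))
          * ((Fintype.card V : ℝ) * p + 1 + (2 * (2 * k - 2) : ℕ)) ^ (2 * (2 * k - 2)) := by
  set L : ℕ := 2 * k - 2 with hL
  set X : ℝ := (Fintype.card V : ℝ) * p + 1 + (2 * L : ℕ) with hX
  have hX0 : 0 ≤ X := by positivity
  -- pointwise
  have e1 : ∀ G, Tri k G v ≤ sw L (fun l1 => sw L (fun l2 =>
      ic (nw {v} (l1 ++ l2) < (l1 ++ l2).length ∧ edg v l2 ∪ edg v l1 ⊆ G)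
      + sw L (fun l3 => ic (((lst v l1 :: l3).Nodup ∧
      lst (lst v l1) l3 ∈ (v :: (l1 ++ l2)).toFinset ∧
      ¬ edg (lst v l1) l3 ⊆ edg v l2 ∪ edg v l1) ∧
      edg (lst v l1) l3 ∪ (edg v l2 ∪ edg v l1) ⊆ G)))) := by
    intro G
    -- first replace by sums over l1, l2
    have h1 : Tri k G v ≤ sw L (fun l1 => sw L (fun l2 =>
        ic ((v :: l1).Nodup ∧ edg v l1 ⊆ G ∧ edg v l2 ⊆ G ∧ conf k G (lst v l1) (lst v l2)))) := by
      have h2 : ∀ y y' : V, ic (conf k G v y) * (ic (conf k G v y') * ic (conf k G y y'))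
          ≤ sw L (fun l1 => sw L (fun l2 =>
            ic (((v :: l1).Nodup ∧ edg v l1 ⊆ G ∧ edg v l2 ⊆ G ∧
              conf k G (lst v l1) (lst v l2)) ∧ lst v l1 = y ∧ lst v l2 = y'))) := by
        intro y y'
        rw [← ic_and, ← ic_and]
        by_cases h : conf k G v y ∧ conf k G v y' ∧ conf k G y y'
        · rw [ic_pos h]
          obtain ⟨⟨l1, a1, a2, a3, a4⟩, ⟨l2, b1, b2, b3, b4⟩, hc⟩ := h
          have h3 := sw_single_le (L := L) (F := fun l1 => sw L (fun l2 =>
            ic (((v :: l1).Nodup ∧ edg v l1 ⊆ G ∧ edg v l2 ⊆ G ∧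
              conf k G (lst v l1) (lst v l2)) ∧ lst v l1 = y ∧ lst v l2 = y')))
            (fun l => sw_nonneg (fun l' _ => ic_nonneg _)) l1 a1
          refine le_trans ?_ h3
          have h4 := sw_single_le (L := L) (F := fun l2 =>
            ic (((v :: l1).Nodup ∧ edg v l1 ⊆ G ∧ edg v l2 ⊆ G ∧
              conf k G (lst v l1) (lst v l2)) ∧ lst v l1 = y ∧ lst v l2 = y'))
            (fun l => ic_nonneg _) l2 b1
          refine le_trans ?_ h4
          beta_reduce
          rw [ic_pos]
          refine ⟨⟨a2, a3, b3, ?_⟩, a4, b4⟩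
          rw [a4, b4]
          exact hc
        · rw [ic_neg h]
          exact sw_nonneg (fun l _ => sw_nonneg (fun l' _ => ic_nonneg _))
      unfold Tri
      refine (Finset.sum_le_sum (fun y _ => Finset.sum_le_sum (fun y' _ => h2 y y'))).trans ?_
      have h3 : ∀ y : V, ∑ y' : V, sw L (fun l1 => sw L (fun l2 =>
            ic (((v :: l1).Nodup ∧ edg v l1 ⊆ G ∧ edg v l2 ⊆ G ∧
              conf k G (lst v l1) (lst v l2)) ∧ lst v l1 = y ∧ lst v l2 = y')))
          = sw L (fun l1 => sw L (fun l2 => ∑ y' : V,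
            ic (((v :: l1).Nodup ∧ edg v l1 ⊆ G ∧ edg v l2 ⊆ G ∧
              conf k G (lst v l1) (lst v l2)) ∧ lst v l1 = y ∧ lst v l2 = y'))) := by
        intro y
        rw [← sw_sum]
        apply sw_congr
        intro l1 _
        rw [← sw_sum]
      rw [Finset.sum_congr rfl (fun y _ => h3 y), ← sw_sum]
      apply sw_mono
      intro l1 _
      rw [← sw_sum]
      apply sw_mono
      intro l2 _
      rw [Finset.sum_eq_single (lst v l1), Finset.sum_eq_single (lst v l2)]
      · exact ic_mono (fun h => h.1)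
      · intro z _ hz
        exact ic_neg (fun h => hz h.2.2.symm)
      · intro h; exact absurd (Finset.mem_univ _) h
      · intro z _ hz
        apply Finset.sum_eq_zero
        intro y' _
        exact ic_neg (fun h => hz h.2.1.symm)
      · intro h; exact absurd (Finset.mem_univ _) h
    refine h1.trans ?_
    apply sw_mono
    intro l1 hl1
    apply sw_mono
    intro l2 hl2
    by_cases h : (v :: l1).Nodup ∧ edg v l1 ⊆ G ∧ edg v l2 ⊆ G ∧ conf k G (lst v l1) (lst v l2)
    · rw [ic_pos h]
      obtain ⟨a1, a2, a3, a4⟩ := h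
      have hnn : 0 ≤ sw L (fun l3 => ic (((lst v l1 :: l3).Nodup ∧
        lst (lst v l1) l3 ∈ (v :: (l1 ++ l2)).toFinset ∧
        ¬ edg (lst v l1) l3 ⊆ edg v l2 ∪ edg v l1) ∧
        edg (lst v l1) l3 ∪ (edg v l2 ∪ edg v l1) ⊆ G)) := sw_nonneg (fun l _ => ic_nonneg _)
      rcases tripod hk hl1 hl2 a1 a4 with h5 | ⟨l3, c1, c2, c3, c4, c5⟩
      · rw [ic_pos (P := nw {v} (l1 ++ l2) < (l1 ++ l2).length ∧ edg v l2 ∪ edg v l1 ⊆ G)
          ⟨h5, Finset.union_subset a3 a2⟩]
        linarith
      · have h6 := sw_single_le (L := L) (F := fun l3 => ic (((lst v l1 :: l3).Nodup ∧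
          lst (lst v l1) l3 ∈ (v :: (l1 ++ l2)).toFinset ∧
          ¬ edg (lst v l1) l3 ⊆ edg v l2 ∪ edg v l1) ∧
          edg (lst v l1) l3 ∪ (edg v l2 ∪ edg v l1) ⊆ G)) (fun l => ic_nonneg _) l3 c1
        beta_reduce at h6
        rw [ic_pos ⟨⟨c2, c3, c4⟩, Finset.union_subset c5 (Finset.union_subset a3 a2)⟩] at h6
        have := ic_nonneg (nw {v} (l1 ++ l2) < (l1 ++ l2).length ∧ edg v l2 ∪ edg v l1 ⊆ G)
        linarith
    · rw [ic_neg h]
      exact add_nonneg (ic_nonneg _) (sw_nonneg (fun l _ => ic_nonneg _))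
  refine (EE_mono hp0 hp1 (fun G _ => e1 G)).trans ?_
  rw [EE_sw]
  -- bound termwise
  have e2 : sw L (fun l1 => EE p S (fun G => sw L (fun l2 =>
      ic (nw {v} (l1 ++ l2) < (l1 ++ l2).length ∧ edg v l2 ∪ edg v l1 ⊆ G)
      + sw L (fun l3 => ic (((lst v l1 :: l3).Nodup ∧
      lst (lst v l1) l3 ∈ (v :: (l1 ++ l2)).toFinset ∧
      ¬ edg (lst v l1) l3 ⊆ edg v l2 ∪ edg v l1) ∧
      edg (lst v l1) l3 ∪ (edg v l2 ∪ edg v l1) ⊆ G)))))
      ≤ sw L (fun l1 => sw L (fun l2 =>
        (if nw {v} (l1 ++ l2) < (l1 ++ l2).length then p ^ (nw {v} (l1 ++ l2)) else 0)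
        + (L * (p * (1 + (2 * L : ℕ)) * X ^ (L - 1))) * p ^ (nw {v} (l1 ++ l2)))) := by
    apply sw_mono
    intro l1 hl1
    rw [EE_sw]
    apply sw_mono
    intro l2 hl2
    rw [EE_add]
    apply add_le_add
    · by_cases h : nw {v} (l1 ++ l2) < (l1 ++ l2).length
      · rw [if_pos h]
        refine (EE_mono hp0 hp1 (g := fun G => ic (edg v l2 ∪ edg v l1 ⊆ G))
          (fun G _ => ic_mono (fun h' => h'.2))).trans ?_
        exact (EE_ic_subset_le hp0 S _).trans (pow_le_pow_p hp0 hp1 (nw_pair v l1 l2))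
      · rw [if_neg h]
        have : EE p S (fun G => ic (nw {v} (l1 ++ l2) < (l1 ++ l2).length ∧
            edg v l2 ∪ edg v l1 ⊆ G)) = EE p S (fun _ => 0) := by
          apply EE_congr
          intro G _
          exact ic_neg (fun h' => h h'.1)
        rw [this, EE_const]
    · set F := edg v l2 ∪ edg v l1 with hFdef
      set T := (v :: (l1 ++ l2)).toFinset with hT
      set y := lst v l1 with hy
      have hF : ∀ e ∈ F, ∀ a ∈ e, a ∈ T := by
        intro e he a ha
        rw [hT, List.mem_toFinset]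
        rcases Finset.mem_union.1 he with h | h
        · rcases List.mem_cons.1 (edg_mem h a ha) with h' | h'
          · rw [h']; simp
          · exact List.mem_cons_of_mem _ (List.mem_append_right _ h')
        · rcases List.mem_cons.1 (edg_mem h a ha) with h' | h'
          · rw [h']; simp
          · exact List.mem_cons_of_mem _ (List.mem_append_left _ h')
      rw [EE_sw]
      have h1 := gw_new hp0 T F hF L y
      have hc := toFinset_card_le2 v hl1 hl2
      rw [← hT] at hc
      have h2 : (L:ℝ) * (p * (T.card : ℝ) * ((Fintype.card V : ℝ) * p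
          + (T.card : ℝ)) ^ (L - 1)) ≤ L * (p * (1 + (2 * L : ℕ)) * X ^ (L - 1)) := by
        apply mul_le_mul_of_nonneg_left _ (Nat.cast_nonneg L)
        apply mul_le_mul
        · exact mul_le_mul_of_nonneg_left hc hp0
        · apply pow_le_pow_left₀ (by positivity)
          rw [hX]; linarith
        · positivity
        · positivity
      have h3 : sw L (fun l3 => EE p S (fun G => ic (((y :: l3).Nodup ∧ lst y l3 ∈ T ∧
          ¬ edg y l3 ⊆ F) ∧ edg y l3 ∪ F ⊆ G)))
          ≤ sw L (fun l3 => p ^ (nw {v} (l1 ++ l2)) * (if lst y l3 ∈ T ∧ ¬ edg y l3 ⊆ F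
            then gw p F y l3 else 0)) := by
        apply sw_mono
        intro l3 _
        by_cases hcond : (y :: l3).Nodup ∧ lst y l3 ∈ T ∧ ¬ edg y l3 ⊆ F
        · rw [if_pos hcond.2]
          refine (EE_mono hp0 hp1 (g := fun G => ic (edg y l3 ∪ F ⊆ G))
            (fun G _ => ic_mono (fun h' => h'.2))).trans ?_
          refine (EE_ic_subset_le hp0 S _).trans ?_
          have e3 : (edg y l3 ∪ F).card = F.card + (edg y l3 \ F).card := by
            rw [add_comm, ← Finset.card_sdiff_add_card]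
          rw [e3, pow_add, gw_eq p F hcond.1]
          apply mul_le_mul_of_nonneg_right _ (gw_nonneg hp0 _ _ _)
          exact pow_le_pow_p hp0 hp1 (nw_pair v l1 l2)
        · have : EE p S (fun G => ic (((y :: l3).Nodup ∧ lst y l3 ∈ T ∧
            ¬ edg y l3 ⊆ F) ∧ edg y l3 ∪ F ⊆ G)) = EE p S (fun _ => 0) := by
            apply EE_congr
            intro G _
            exact ic_neg (fun h' => hcond h'.1)
          rw [this, EE_const]
          apply mul_nonneg (by positivity)
          split_ifs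
          · exact gw_nonneg hp0 _ _ _
          · exact le_refl _
      refine h3.trans ?_
      rw [sw_mul_left, mul_comm]
      exact mul_le_mul_of_nonneg_right (h1.trans h2) (by positivity)
  refine e2.trans ?_
  have e3 : sw L (fun l1 => sw L (fun l2 =>
        (if nw {v} (l1 ++ l2) < (l1 ++ l2).length then p ^ (nw {v} (l1 ++ l2)) else 0)
        + (L * (p * (1 + (2 * L : ℕ)) * X ^ (L - 1))) * p ^ (nw {v} (l1 ++ l2))))
      = sw (2 * L) (fun l => if nw {v} l < l.length then p ^ (nw {v} l) else 0)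
        + (L * (p * (1 + (2 * L : ℕ)) * X ^ (L - 1))) * sw (2 * L) (fun l => p ^ (nw {v} l)) := by
    rw [two_mul, sw_append, sw_append, ← sw_mul_left, ← sw_add]
    apply sw_congr
    intro l1 _
    rw [← sw_mul_left, ← sw_add]
  rw [e3]
  have h1 := cnt_old hp0 ({v} : Finset V) (2 * L)
  have h2 := cnt_all hp0 ({v} : Finset V) (2 * L)
  simp only [Finset.card_singleton, Nat.cast_one] at h1 h2
  apply add_le_add h1
  exact mul_le_mul_of_nonneg_left h2 (by positivity)

end expect

section main

variable {p : ℝ} {k : ℕ} {q s : ℝ}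

theorem insert_erase_univ (u : V) : insert u (Finset.univ.erase u) = (Finset.univ : Finset V) :=
  Finset.insert_erase (Finset.mem_univ u)

theorem hs_univ (u : V) (H : Finset (Sym2 V)) :
    hs p k u (Finset.univ.erase u) H = fun N => aA k (H ∪ star u N) := by
  funext N
  unfold hs
  rw [insert_erase_univ, fr_univ]

theorem hcore_hs (hk : 2 ≤ k) (u : V) {H : Finset (Sym2 V)} (hH : H ⊆ EU (Finset.univ.erase u)) :
    HCore (Finset.univ.erase u) (conf k H) (hs p k u (Finset.univ.erase u) H) := by
  rw [hs_univ]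
  exact hcore_star hk (Finset.notMem_erase u _) hH

/-- Number of externally uncovered conflict neighbours. -/
noncomputable def cU (k : ℕ) (u v : V) (G : Finset (Sym2 V)) : ℕ :=
  (unc (Finset.univ.erase u) (conf k (G ∩ EU (Finset.univ.erase u))) v
    (nb u (Finset.univ.erase u) G)).card

theorem q_ge (hk : 2 ≤ k) (hp0 : 0 < p) (hp1 : p < 1) (hM : Mom V p k q s) {u v : V}
    (huv : v ≠ u) : p * MM p k (fun G => (1 - p) ^ (cU k u v G)) ≤ q * ZZ V p k := by
  set U : Finset V := Finset.univ.erase u with hU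
  have hu : u ∉ U := Finset.notMem_erase u _
  have hvU : v ∈ U := Finset.mem_erase.2 ⟨huv, Finset.mem_univ v⟩
  have h1 := MM_stage_mass (p := p) (k := k) hu hvU (fun _ => 1)
  simp only [one_mul] at h1
  rw [← hM.one v u huv, ← h1]
  have h2 := MM_stage (p := p) (k := k) hu
    (fun H N => (1 - p) ^ ((unc U (conf k H) v N).card))
  have h3 : MM p k (fun G => (1 - p) ^ (cU k u v G))
      = MM p k (fun G => (1 - p) ^ ((unc U (conf k (G ∩ EU U)) v (nb u U G)).card)) := rfl
  rw [h3, ← h2, ← EE_mul_left]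
  apply EE_mono hp0.le hp1.le
  intro H hH
  have h4 := hc_lower hp0 hp1 (hcore_hs (p := p) hk u hH) hvU
  refine le_trans (le_of_eq ?_) h4
  congr 1
  apply EE_congr
  intro N _
  unfold hs
  ring

theorem cU_le (hk : 2 ≤ k) (hp0 : 0 < p) (hp1 : p < 1) {u v : V} (huv : v ≠ u) :
    MM p k (fun G => (cU k u v G : ℝ))
      ≤ MM p k (fun G => (1 / p) * (∑ y : V, ic (conf k G v y) * adj G y u)
        + p * Tri k G v) := by
  set U : Finset V := Finset.univ.erase u with hU
  have hu : u ∉ U := Finset.notMem_erase u _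
  have hvU : v ∈ U := Finset.mem_erase.2 ⟨huv, Finset.mem_univ v⟩
  have h2 := MM_stage (p := p) (k := k) hu
    (fun H N => ((unc U (conf k H) v N).card : ℝ))
  have h3 : MM p k (fun G => (cU k u v G : ℝ))
      = MM p k (fun G => ((unc U (conf k (G ∩ EU U)) v (nb u U G)).card : ℝ)) := rfl
  rw [h3, ← h2]
  have h4 : EE p (EU U) (fun H => EE p U (fun N => ((unc U (conf k H) v N).card : ℝ)
      * fr p k (EU (insert u U)) (H ∪ star u N)))
      ≤ EE p (EU U) (fun H => ∑ y ∈ U, (((1 / p) * ic (conf k H v y)) *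
        mass p U (hs p k u U H) y + (p * (ic (conf k H v y) *
          ∑ y' ∈ U, ic (conf k H v y') * ic (conf k H y y'))) * fr p k (EU U) H)) := by
    apply EE_mono hp0.le hp1.le
    intro H hH
    have h5 := hc_exp hp0 hp1 (hcore_hs (p := p) hk u hH) v
    refine le_trans (le_of_eq ?_) (h5.trans (le_of_eq ?_))
    · apply EE_congr
      intro N _
      unfold hs
      rw [← hU]
      ring
    · rw [hs_total hu hH]
      unfold cn
      rw [Finset.sum_filter]
      apply Finset.sum_congr rfl
      intro y _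
      by_cases hc : conf k H v y
      · rw [if_pos hc, ic_pos hc]
        have e1 : ((((U.filter (fun y => conf k H v y)).filter
            (fun y' => conf k H y y')).card : ℕ) : ℝ)
            = ∑ y' ∈ U, ic (conf k H v y') * ic (conf k H y y') := by
          rw [Finset.filter_filter, Finset.card_filter]
          push_cast
          apply Finset.sum_congr rfl
          intro y' _
          rw [← ic_and]
          unfold ic
          congr
        rw [e1]
        ring
      · rw [if_neg hc, ic_neg hc]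
        ring
  refine h4.trans ?_
  rw [EE_sum]
  have h5 : ∀ y ∈ U, EE p (EU U) (fun H => ((1 / p) * ic (conf k H v y)) *
        mass p U (hs p k u U H) y + (p * (ic (conf k H v y) *
          ∑ y' ∈ U, ic (conf k H v y') * ic (conf k H y y'))) * fr p k (EU U) H)
      = MM p k (fun G => ((1 / p) * ic (conf k (G ∩ EU U) v y)) * adj G y u
        + p * (ic (conf k (G ∩ EU U) v y) *
          ∑ y' ∈ U, ic (conf k (G ∩ EU U) v y') * ic (conf k (G ∩ EU U) y y'))) := by
    intro y hy
    rw [EE_add, MM_stage_mass hu hy (fun H => (1 / p) * ic (conf k H v y)),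
      MM_stage_H hu (fun H => p * (ic (conf k H v y) *
          ∑ y' ∈ U, ic (conf k H v y') * ic (conf k H y y'))), ← MM_add]
  rw [Finset.sum_congr rfl h5, ← MM_sum]
  apply MM_mono hp0.le hp1.le
  intro G _
  have hGU : G ∩ EU U ⊆ G := Finset.inter_subset_left
  rw [Finset.sum_add_distrib]
  apply add_le_add
  · rw [Finset.mul_sum]
    calc ∑ y ∈ U, (1 / p) * ic (conf k (G ∩ EU U) v y) * adj G y u
        ≤ ∑ y ∈ U, (1 / p) * (ic (conf k G v y) * adj G y u) := by
          apply Finset.sum_le_sum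
          intro y _
          rw [mul_assoc]
          apply mul_le_mul_of_nonneg_left _ (by positivity)
          exact mul_le_mul_of_nonneg_right (ic_mono (conf_mono hGU)) (adj_nonneg _ _ _)
      _ ≤ ∑ y : V, (1 / p) * (ic (conf k G v y) * adj G y u) :=
          Finset.sum_le_sum_of_subset_of_nonneg (Finset.subset_univ U)
            (fun y _ _ => mul_nonneg (by positivity)
              (mul_nonneg (ic_nonneg _) (adj_nonneg _ _ _)))
  · unfold Tri
    rw [← Finset.mul_sum]
    apply mul_le_mul_of_nonneg_left _ hp0.le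
    calc ∑ y ∈ U, ic (conf k (G ∩ EU U) v y) *
          ∑ y' ∈ U, ic (conf k (G ∩ EU U) v y') * ic (conf k (G ∩ EU U) y y')
        ≤ ∑ y ∈ U, ∑ y' : V, ic (conf k G v y) * (ic (conf k G v y') * ic (conf k G y y')) := by
          apply Finset.sum_le_sum
          intro y _
          rw [← Finset.mul_sum]
          apply mul_le_mul (ic_mono (conf_mono hGU)) _
            (Finset.sum_nonneg (fun y' _ => mul_nonneg (ic_nonneg _) (ic_nonneg _))) (ic_nonneg _)
          calc ∑ y' ∈ U, ic (conf k (G ∩ EU U) v y') * ic (conf k (G ∩ EU U) y y')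
              ≤ ∑ y' ∈ U, ic (conf k G v y') * ic (conf k G y y') := by
                apply Finset.sum_le_sum
                intro y' _
                exact mul_le_mul (ic_mono (conf_mono hGU)) (ic_mono (conf_mono hGU))
                  (ic_nonneg _) (ic_nonneg _)
            _ ≤ ∑ y' : V, ic (conf k G v y') * ic (conf k G y y') :=
                Finset.sum_le_sum_of_subset_of_nonneg (Finset.subset_univ U)
                  (fun y' _ _ => mul_nonneg (ic_nonneg _) (ic_nonneg _))
      _ ≤ _ := Finset.sum_le_sum_of_subset_of_nonneg (Finset.subset_univ U)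
            (fun y _ _ => Finset.sum_nonneg (fun y' _ =>
              mul_nonneg (ic_nonneg _) (mul_nonneg (ic_nonneg _) (ic_nonneg _))))

theorem exp_pow_bound (hp0 : 0 < p) (hp1 : p < 1) (X : Finset (Sym2 V) → ℕ) :
    ZZ V p k * Real.exp (Real.log (1 - p) * (MM p k (fun G => (X G : ℝ)) / ZZ V p k))
      ≤ MM p k (fun G => (1 - p) ^ (X G)) := by
  have hZ := ZZ_pos (V := V) (k := k) hp0 hp1
  have hq : 0 < 1 - p := by linarith
  set x := MM p k (fun G => (X G : ℝ)) / ZZ V p k with hx
  set b := Real.log (1 - p) with hb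
  have h1 : MM p k (fun G => Real.exp (b * x) * (1 - b * x) + (Real.exp (b * x) * b) * (X G : ℝ))
      ≤ MM p k (fun G => (1 - p) ^ (X G)) := by
    apply MM_mono hp0.le hp1.le
    intro G _
    have e1 : (1 - p) ^ (X G) = Real.exp (b * X G) := by
      rw [hb, Real.exp_mul, Real.exp_log hq, Real.rpow_natCast]
    rw [e1]
    have h2 := Real.add_one_le_exp (b * X G - b * x)
    have h3 := mul_le_mul_of_nonneg_left h2 (Real.exp_pos (b * x)).le
    rw [← Real.exp_add] at h3
    have e2 : b * x + (b * (X G : ℝ) - b * x) = b * X G := by ring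
    rw [e2] at h3
    linarith
  refine le_trans (le_of_eq ?_) h1
  rw [MM_add, MM_const, MM_mul_left]
  have h4 : MM p k (fun G => (X G : ℝ)) = x * ZZ V p k := by
    rw [hx, div_mul_cancel₀ _ hZ.ne']
  rw [h4]
  ring

/-- The lower bound for the density of edges. -/
theorem L_bound (hk : 2 ≤ k) (hp0 : 0 < p) (hp1 : p < 1) (hM : Mom V p k q s) :
    (Fintype.card V : ℝ) * ((Fintype.card V : ℝ) - 1) * Real.log (p / q)
      ≤ (1 / (1 - p)) * ((MM p k (fun G => ∑ u : V, uw (adj G) (2 * k - 1) u)
        + p ^ 2 * Fintype.card V * MM p k (fun G => ∑ v : V, Tri k G v)) / ZZ V p k) := by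
  have hZ := ZZ_pos (V := V) (k := k) hp0 hp1
  have hq : 0 < 1 - p := by linarith
  have hq0 := hM.q_pos
  -- per pair
  have hpair : ∀ u v : V, v ≠ u → Real.log (p / q)
      ≤ (p / (1 - p)) * (MM p k (fun G => (cU k u v G : ℝ)) / ZZ V p k) := by
    intro u v huv
    set x := MM p k (fun G => (cU k u v G : ℝ)) / ZZ V p k with hx
    have hx0 : 0 ≤ x := div_nonneg (MM_nonneg hp0.le hp1.le (fun G _ => Nat.cast_nonneg _)) hZ.le
    have h1 := q_ge hk hp0 hp1 hM huv
    have h2 := exp_pow_bound (V := V) (k := k) hp0 hp1 (fun G => cU k u v G)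
    rw [← hx] at h2
    have h3 : p * Real.exp (Real.log (1 - p) * x) ≤ q := by
      have h4 := (mul_le_mul_of_nonneg_left h2 hp0.le).trans h1
      have h5 : (p * Real.exp (Real.log (1 - p) * x)) * ZZ V p k ≤ q * ZZ V p k := by linarith
      exact le_of_mul_le_mul_right h5 hZ
    have h4 := Real.log_le_log (by positivity) h3
    rw [Real.log_mul hp0.ne' (Real.exp_pos _).ne', Real.log_exp] at h4
    rw [Real.log_div hp0.ne' hq0.ne']
    have h5 : - Real.log (1 - p) ≤ p / (1 - p) := by
      have := Real.log_le_sub_one_of_pos (inv_pos.2 hq)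
      rw [Real.log_inv] at this
      have e : (1 - p)⁻¹ - 1 = p / (1 - p) := by field_simp; ring
      rw [e] at this
      exact this
    have h6 := mul_le_mul_of_nonneg_right h5 hx0
    linarith
  -- sum over pairs
  have hsum : ∑ u : V, ∑ v ∈ Finset.univ.erase u, Real.log (p / q)
      ≤ ∑ u : V, ∑ v ∈ Finset.univ.erase u,
        (p / (1 - p)) * (MM p k (fun G => (cU k u v G : ℝ)) / ZZ V p k) := by
    apply Finset.sum_le_sum
    intro u _
    apply Finset.sum_le_sum
    intro v hv
    exact hpair u v (Finset.ne_of_mem_erase hv)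
  have e1 : ∑ u : V, ∑ v ∈ Finset.univ.erase u, Real.log (p / q)
      = (Fintype.card V : ℝ) * ((Fintype.card V : ℝ) - 1) * Real.log (p / q) := by
    have : ∀ u : V, ∑ v ∈ Finset.univ.erase u, Real.log (p / q)
        = ((Fintype.card V : ℝ) - 1) * Real.log (p / q) := by
      intro u
      rw [Finset.sum_const, nsmul_eq_mul, card_erase_real (Finset.mem_univ u), Finset.card_univ]
    rw [Finset.sum_congr rfl (fun u _ => this u), Finset.sum_const, nsmul_eq_mul,
      Finset.card_univ]
    ring
  rw [e1] at hsum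
  refine hsum.trans ?_
  have h2 : ∑ u : V, ∑ v ∈ Finset.univ.erase u, MM p k (fun G => (cU k u v G : ℝ))
      ≤ (1 / p) * MM p k (fun G => ∑ u : V, uw (adj G) (2 * k - 1) u)
        + p * Fintype.card V * MM p k (fun G => ∑ v : V, Tri k G v) := by
    have h3 : ∑ u : V, ∑ v ∈ Finset.univ.erase u, MM p k (fun G => (cU k u v G : ℝ))
        ≤ ∑ u : V, ∑ v : V, MM p k (fun G => (1 / p) * (∑ y : V, ic (conf k G v y) * adj G y u)
        + p * Tri k G v) := by
      apply Finset.sum_le_sum
      intro u _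
      refine (Finset.sum_le_sum (fun v hv =>
        cU_le hk hp0 hp1 (Finset.ne_of_mem_erase hv))).trans ?_
      apply Finset.sum_le_sum_of_subset_of_nonneg (Finset.subset_univ _)
      intro v _ _
      apply MM_nonneg hp0.le hp1.le
      intro G _
      apply add_nonneg
      · exact mul_nonneg (by positivity) (Finset.sum_nonneg (fun y _ =>
          mul_nonneg (ic_nonneg _) (adj_nonneg _ _ _)))
      · exact mul_nonneg hp0.le (Finset.sum_nonneg (fun y _ => Finset.sum_nonneg (fun y' _ =>
          mul_nonneg (ic_nonneg _) (mul_nonneg (ic_nonneg _) (ic_nonneg _)))))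
    refine h3.trans ?_
    have h4 : ∀ u : V, ∑ v : V, MM p k (fun G => (1 / p) * (∑ y : V, ic (conf k G v y) * adj G y u)
        + p * Tri k G v) ≤ MM p k (fun G => (1 / p) * uw (adj G) (2 * k - 1) u
        + p * ∑ v : V, Tri k G v) := by
      intro u
      rw [← MM_sum]
      apply MM_mono hp0.le hp1.le
      intro G _
      rw [Finset.sum_add_distrib, ← Finset.mul_sum, ← Finset.mul_sum]
      apply add_le_add_left
      apply mul_le_mul_of_nonneg_left _ (by positivity)
      have hk1 : 2 * k - 1 = (2 * k - 2) + 1 := by omega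
      rw [hk1]
      simp only [uw]
      rw [Finset.sum_comm]
      apply Finset.sum_le_sum
      intro y _
      rw [← Finset.sum_mul, mul_comm, adj_symm]
      apply mul_le_mul_of_nonneg_left _ (adj_nonneg _ _ _)
      rw [← sum_mw]
      apply Finset.sum_le_sum
      intro v _
      by_cases hc : conf k G v y
      · rw [ic_pos hc]
        exact mw_conf (conf_symm hc)
      · rw [ic_neg hc]
        exact mw_nonneg _ _ _ _
    refine (Finset.sum_le_sum (fun u _ => h4 u)).trans ?_
    have h5 : ∀ u : V, MM p k (fun G => (1 / p) * uw (adj G) (2 * k - 1) u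
        + p * ∑ v : V, Tri k G v) = (1 / p) * MM p k (fun G => uw (adj G) (2 * k - 1) u)
          + p * MM p k (fun G => ∑ v : V, Tri k G v) := by
      intro u
      rw [MM_add, MM_mul_left, MM_mul_left]
    rw [Finset.sum_congr rfl (fun u _ => h5 u), Finset.sum_add_distrib, ← Finset.mul_sum,
      ← MM_sum, Finset.sum_const, nsmul_eq_mul, Finset.card_univ]
    apply le_of_eq
    ring
  have e2 : ∑ u : V, ∑ v ∈ Finset.univ.erase u,
        (p / (1 - p)) * (MM p k (fun G => (cU k u v G : ℝ)) / ZZ V p k)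
      = (p / ((1 - p) * ZZ V p k)) *
        ∑ u : V, ∑ v ∈ Finset.univ.erase u, MM p k (fun G => (cU k u v G : ℝ)) := by
    rw [Finset.mul_sum]
    apply Finset.sum_congr rfl
    intro u _
    rw [Finset.mul_sum]
    apply Finset.sum_congr rfl
    intro v _
    field_simp
  rw [e2]
  have h3 := mul_le_mul_of_nonneg_left h2 (by positivity : (0:ℝ) ≤ p / ((1 - p) * ZZ V p k))
  refine h3.trans (le_of_eq ?_)
  field_simp

end main

end Pool.Agent.Q299.CY
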