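import Pool.Agent.Q299.CY.BR

/-!
The limiting function and the comparison argument.
-/

set_option linter.unusedSectionVars false

namespace Pool.Agent.Q299.CY

open Set Filter Topology

/-- The map inverted by the fixed point. -/
noncomputable def psi (l : ℕ) (r : ℝ) : ℝ := r * Real.exp (r ^ l)

theorem psi_strictMono (l : ℕ) {a b : ℝ} (ha : 0 ≤ a) (hab : a < b) : psi l a < psi l b := by
  unfold psi
  have hb : 0 < b := lt_of_le_of_lt ha hab
  have h1 : a ^ l ≤ b ^ l := pow_le_pow_left₀ ha hab.le l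
  have h2 : Real.exp (a ^ l) ≤ Real.exp (b ^ l) := Real.exp_le_exp.2 h1
  calc a * Real.exp (a ^ l) ≤ a * Real.exp (b ^ l) := mul_le_mul_of_nonneg_left h2 ha
    _ < b * Real.exp (b ^ l) := mul_lt_mul_of_pos_right hab (Real.exp_pos _)

theorem psi_cont (l : ℕ) : Continuous (psi l) := by
  unfold psi
  fun_prop

theorem exists_root (l : ℕ) {c : ℝ} (hc : 0 < c) : ∃ r, 0 < r ∧ r ≤ c ∧ psi l r = c := by
  have h1 : psi l 0 ≤ c := by unfold psi; simp [hc.le]
  have h2 : c ≤ psi l c := by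
    unfold psi
    have : 1 ≤ Real.exp (c ^ l) := Real.one_le_exp (by positivity)
    nlinarith
  obtain ⟨r, hr, hrc⟩ := intermediate_value_Icc hc.le (psi_cont l).continuousOn
    (show c ∈ Icc (psi l 0) (psi l c) from ⟨h1, h2⟩)
  refine ⟨r, ?_, hr.2, hrc⟩
  rcases hr.1.lt_or_eq with h | h
  · exact h
  · exfalso
    rw [← h] at hrc
    unfold psi at hrc
    simp at hrc
    exact hc.ne hrc

theorem root_unique (l : ℕ) {a b : ℝ} (ha : 0 < a) (hb : 0 < b) (h : psi l a = psi l b) :
    a = b := by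
  rcases lt_trichotomy a b with h1 | h1 | h1
  · exact absurd h (psi_strictMono l ha.le h1).ne
  · exact h1
  · exact absurd h.symm (psi_strictMono l hb.le h1).ne

open Classical in
/-- The fixed point. -/
noncomputable def rr (l : ℕ) (c : ℝ) : ℝ :=
  if h : 0 < c then Classical.choose (exists_root l h) else 0

theorem rr_pos (l : ℕ) {c : ℝ} (hc : 0 < c) : 0 < rr l c := by
  unfold rr
  rw [dif_pos hc]
  exact (Classical.choose_spec (exists_root l hc)).1

theorem rr_le (l : ℕ) {c : ℝ} (hc : 0 < c) : rr l c ≤ c := by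
  unfold rr
  rw [dif_pos hc]
  exact (Classical.choose_spec (exists_root l hc)).2.1

theorem psi_rr (l : ℕ) {c : ℝ} (hc : 0 < c) : psi l (rr l c) = c := by
  unfold rr
  rw [dif_pos hc]
  exact (Classical.choose_spec (exists_root l hc)).2.2

theorem psi_pos (l : ℕ) {x : ℝ} (hx : 0 < x) : 0 < psi l x := mul_pos hx (Real.exp_pos _)

theorem rr_psi (l : ℕ) {x : ℝ} (hx : 0 < x) : rr l (psi l x) = x :=
  root_unique l (rr_pos l (psi_pos l hx)) hx (psi_rr l (psi_pos l hx))

theorem rr_zero (l : ℕ) : rr l 0 = 0 := by unfold rr; simp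

theorem rr_log (l : ℕ) {c : ℝ} (hc : 0 < c) : Real.log (rr l c) + (rr l c) ^ l = Real.log c := by
  have h := psi_rr l hc
  conv_rhs => rw [← h]
  unfold psi
  rw [Real.log_mul (rr_pos l hc).ne' (Real.exp_pos _).ne', Real.log_exp]

theorem psi_deriv (l : ℕ) (x : ℝ) :
    HasDerivAt (psi l) (Real.exp (x ^ l) + x * (Real.exp (x ^ l) * (l * x ^ (l - 1)))) x := by
  have h1 : HasDerivAt (fun x : ℝ => x ^ l) (l * x ^ (l - 1)) x := by
    simpa using hasDerivAt_pow l x
  have h2 : HasDerivAt (fun x : ℝ => x * Real.exp (x ^ l))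
      (1 * Real.exp (x ^ l) + x * (Real.exp (x ^ l) * (l * x ^ (l - 1)))) x :=
    (hasDerivAt_id' x).mul h1.exp
  rw [one_mul] at h2
  exact h2

theorem psi_analytic (l : ℕ) (x : ℝ) : AnalyticAt ℝ (psi l) x := by
  unfold psi
  fun_prop

theorem psi_deriv_pos (l : ℕ) {x : ℝ} (hx : 0 < x) :
    0 < Real.exp (x ^ l) + x * (Real.exp (x ^ l) * (l * x ^ (l - 1))) := by
  positivity

theorem rr_analytic (l : ℕ) {c : ℝ} (hc : 0 < c) : AnalyticAt ℝ (rr l) c := by
  have hr := rr_pos l hc
  have hd : deriv (psi l) (rr l c) ≠ 0 := by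
    rw [(psi_deriv l _).deriv]
    exact (psi_deriv_pos l hr).ne'
  have h1 := (psi_analytic l (rr l c)).analyticAt_localInverse hd
  rw [psi_rr l hc] at h1
  refine h1.congr ?_
  have h2 : ∀ᶠ x in 𝓝 (rr l c), rr l (psi l x) = x := by
    filter_upwards [lt_mem_nhds hr] with x hx
    exact rr_psi l hx
  have h3 := HasStrictFDerivAt.localInverse_unique
    ((psi_analytic l (rr l c)).hasStrictDerivAt.hasStrictFDerivAt_equiv hd) h2
  rw [psi_rr l hc] at h3
  filter_upwards [h3] with y hy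
  exact hy.symm

/-- The limit of the scaled free energy. -/
noncomputable def Ds (k : ℕ) (c : ℝ) : ℝ :=
  c - rr (2 * k - 1) c - (1 - 1 / (2 * k)) * rr (2 * k - 1) c ^ (2 * k)

theorem Ds_analytic (k : ℕ) {c : ℝ} (hc : 0 < c) : AnalyticAt ℝ (Ds k) c := by
  have h := rr_analytic (2 * k - 1) hc
  unfold Ds
  exact (analyticAt_id.sub h).sub (analyticAt_const.mul (h.pow _))

theorem Ds_deriv {k : ℕ} (hk : 1 ≤ k) {c : ℝ} (hc : 0 < c) :
    HasDerivAt (Ds k) (1 - rr (2 * k - 1) c / c) c := by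
  set l := 2 * k - 1 with hl
  have hr := rr_pos l hc
  have hd : HasDerivAt (rr l) (deriv (rr l) c) c :=
    (rr_analytic l hc).differentiableAt.hasDerivAt
  set d := deriv (rr l) c with hddef
  set r := rr l c with hrdef
  -- chain rule
  have hcomp : HasDerivAt (fun x => rr l (psi l x))
      (d * (Real.exp (r ^ l) + r * (Real.exp (r ^ l) * (l * r ^ (l - 1))))) r := by
    have h1 : HasDerivAt (rr l) d (psi l r) := by rw [hrdef, psi_rr l hc]; exact hd
    exact h1.comp r (psi_deriv l r)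
  have hid : HasDerivAt (fun x => rr l (psi l x)) 1 r := by
    have h1 : (fun x => rr l (psi l x)) =ᶠ[𝓝 r] id := by
      filter_upwards [lt_mem_nhds hr] with x hx
      exact rr_psi l hx
    exact (hasDerivAt_id r).congr_of_eventuallyEq h1
  have hprod := hcomp.unique hid
  have hl1 : r * r ^ (l - 1) = r ^ l := by
    rw [← pow_succ']
    congr 1
    omega
  have hprod2 : d * (Real.exp (r ^ l) * (1 + l * r ^ l)) = 1 := by
    have e0 : d * (Real.exp (r ^ l) * (1 + l * r ^ l))
        = d * (Real.exp (r ^ l) + r * (Real.exp (r ^ l) * (l * r ^ (l - 1)))) := by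
      have : (l:ℝ) * r ^ l = r * (l * r ^ (l - 1)) := by rw [← hl1]; ring
      rw [this]
      ring
    rw [e0, hprod]
  have hDs : HasDerivAt (Ds k) (1 - d - (1 - 1 / (2 * k)) * ((2 * k : ℕ) * r ^ (2 * k - 1) * d))
      c := by
    unfold Ds
    have h1 := hd.pow (2 * k)
    exact ((hasDerivAt_id c).sub hd).sub (h1.const_mul _)
  convert hDs using 1
  have hk0 : (0:ℝ) < k := by exact_mod_cast hk
  have hlr : (l : ℝ) = 2 * k - 1 := by
    rw [hl, Nat.cast_sub (by omega)]
    push_cast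
    ring
  have e1 : (1 - 1 / (2 * (k:ℝ))) * (((2 * k : ℕ) : ℝ) * r ^ (2 * k - 1) * d)
      = d * (l * r ^ l) := by
    rw [← hl, hlr]
    push_cast
    field_simp
  rw [e1]
  have hpsi : r * Real.exp (r ^ l) = c := psi_rr l hc
  have e2 : r / c = d * (1 + l * r ^ l) := by
    rw [div_eq_iff hc.ne', ← hpsi]
    have : d * (1 + l * r ^ l) * (r * Real.exp (r ^ l))
        = r * (d * (Real.exp (r ^ l) * (1 + l * r ^ l))) := by ring
    rw [this, hprod2, mul_one]
  rw [e2]
  ring

theorem Ds_zero (k : ℕ) (hk : 1 ≤ k) : Ds k 0 = 0 := by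
  unfold Ds
  rw [rr_zero, zero_pow (by omega)]
  ring

theorem Ds_contAt_zero {k : ℕ} (hk : 1 ≤ k) : ContinuousWithinAt (Ds k) (Ici 0) 0 := by
  have h1 : Tendsto (rr (2 * k - 1)) (𝓝[Ici 0] 0) (𝓝 0) := by
    refine tendsto_of_tendsto_of_tendsto_of_le_of_le' (g := fun _ => (0:ℝ)) (h := fun c => c)
      tendsto_const_nhds ?_ ?_ ?_
    · exact tendsto_nhdsWithin_of_tendsto_nhds tendsto_id
    · filter_upwards [self_mem_nhdsWithin] with c hc
      rcases (show (0:ℝ) ≤ c from hc).lt_or_eq with h | h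
      · exact (rr_pos _ h).le
      · rw [← h, rr_zero]
    · filter_upwards [self_mem_nhdsWithin] with c hc
      rcases (show (0:ℝ) ≤ c from hc).lt_or_eq with h | h
      · exact rr_le _ h
      · rw [← h, rr_zero]
  have h2 : Tendsto (fun c : ℝ => c) (𝓝[Ici 0] 0) (𝓝 0) :=
    tendsto_nhdsWithin_of_tendsto_nhds tendsto_id
  unfold ContinuousWithinAt
  rw [Ds_zero k hk]
  unfold Ds
  have h3 := (h2.sub h1).sub ((h1.pow (2 * k)).const_mul (1 - 1 / (2 * (k:ℝ))))
  rw [zero_pow (by omega)] at h3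
  simpa using h3

theorem Ds_cont {k : ℕ} (hk : 1 ≤ k) : ContinuousOn (Ds k) (Ici 0) := by
  intro c hc
  rcases (show (0:ℝ) ≤ c from hc).lt_or_eq with h | h
  · exact (Ds_analytic k h).continuousAt.continuousWithinAt
  · rw [← h]
    exact Ds_contAt_zero hk

/-- The variational function. -/
noncomputable def FF (k : ℕ) (r c : ℝ) : ℝ :=
  r * Real.log (r / c) - r + c + r ^ (2 * k) / (2 * k)

theorem FF_ge {k : ℕ} (hk : 1 ≤ k) {r c : ℝ} (hc : 0 < c) (hr : 0 < r) : Ds k c ≤ FF k r c := by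
  set l := 2 * k - 1 with hl
  set t := rr l c with ht
  have ht0 : 0 < t := rr_pos l hc
  have hlog : Real.log t + t ^ l = Real.log c := rr_log l hc
  have hk0 : (0:ℝ) < k := by exact_mod_cast hk
  have h1 := xlog_ge hr.le ht0
  obtain ⟨j, hj⟩ : ∃ j, 2 * k = j + 1 := ⟨2 * k - 1, by omega⟩
  have hlj : l = j := by omega
  have h2 := pow_tangent hr.le ht0.le j
  have hjr : (j:ℝ) + 1 = 2 * k := by
    have : ((2 * k : ℕ) : ℝ) = ((j + 1 : ℕ) : ℝ) := by rw [hj]
    push_cast at this
    linarith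
  rw [← hj, hjr, ← hlj] at h2
  unfold FF Ds
  rw [← hl, ← ht, Real.log_div hr.ne' hc.ne']
  have h3 : t ^ (2 * k) = t * t ^ l := by
    rw [← pow_succ']
    congr 1
    omega
  have h4 : t ^ (2 * k) / (2 * k) + t ^ l * (r - t) ≤ r ^ (2 * k) / (2 * k) := by
    rw [← sub_nonneg]
    have : r ^ (2 * k) / (2 * k) - (t ^ (2 * k) / (2 * k) + t ^ l * (r - t))
        = (r ^ (2 * k) - (t ^ (2 * k) + 2 * k * t ^ l * (r - t))) / (2 * k) := by
      field_simp
    rw [this]
    exact div_nonneg (by linarith) (by positivity)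
  have h5 : (1 - 1 / (2 * (k:ℝ))) * t ^ (2 * k) = t * t ^ l - t ^ (2 * k) / (2 * k) := by
    rw [← h3]; ring
  rw [h5]
  nlinarith

/-- The comparison lemma. -/
theorem compare {k : ℕ} (hk : 1 ≤ k) {c1 κ C ε : ℝ} (hc1 : 0 < c1) (hκ : 0 < κ) (hC : 0 ≤ C)
    (hε : 0 ≤ ε) {D D' : ℝ → ℝ} (hcont : ContinuousOn D (Icc 0 c1)) (hD0 : D 0 = 0)
    (hder : ∀ c ∈ Ioo 0 c1, HasDerivAt D (D' c) c)
    (hmain : ∀ c ∈ Ioo 0 c1, ∃ r v : ℝ, 0 < r ∧ r ≤ c ∧ 0 ≤ v ∧ FF k r c + κ * v - ε ≤ D c ∧
      Real.log (c / r) ≤ r ^ (2 * k - 1) + C * v + ε ∧ D' c ≤ 1 - r / c + ε) :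
    ∀ c ∈ Icc 0 c1, |D c - Ds k c| ≤ 3 * ε * Real.exp ((C / κ + 1) * c1) := by
  set B : ℝ := C / κ + 1 with hB
  have hB1 : 1 ≤ B := by
    have : 0 ≤ C / κ := by positivity
    linarith
  set l := 2 * k - 1 with hl
  have hDsc : ContinuousOn (Ds k) (Icc 0 c1) := (Ds_cont hk).mono Icc_subset_Ici_self
  have hδc : ContinuousOn (fun c => D c - Ds k c) (Icc 0 c1) := hcont.sub hDsc
  -- pointwise facts
  have hfacts : ∀ c ∈ Ioo 0 c1, -ε ≤ D c - Ds k c ∧
      D' c - (1 - rr l c / c) ≤ B * (D c - Ds k c + 3 * ε) := by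
    intro c hc
    obtain ⟨r, v, hr, hrc, hv, h1, h2, h3⟩ := hmain c hc
    have hc0 : 0 < c := hc.1
    have hF := FF_ge hk hc0 hr
    have hv1 : κ * v ≤ D c - Ds k c + ε := by linarith
    refine ⟨by nlinarith, ?_⟩
    set t := rr l c with ht
    have ht0 : 0 < t := rr_pos l hc0
    have htc : t ≤ c := rr_le l hc0
    have hlog : Real.log t + t ^ l = Real.log c := rr_log l hc0
    have h4 : (t - r) / c ≤ C * v + ε := by
      by_cases hrt : t ≤ r
      · have : (t - r) / c ≤ 0 := div_nonpos_of_nonpos_of_nonneg (by linarith) hc0.le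
        have : 0 ≤ C * v := by positivity
        linarith
      · push Not at hrt
        have h5 : Real.log (r / t) ≤ r / t - 1 := Real.log_le_sub_one_of_pos (by positivity)
        rw [Real.log_div hr.ne' ht0.ne'] at h5
        rw [Real.log_div hc0.ne' hr.ne'] at h2
        have h6 : r ^ l ≤ t ^ l := pow_le_pow_left₀ hr.le hrt.le l
        have h7 : (t - r) / t ≤ C * v + ε := by
          have : (t - r) / t = 1 - r / t := by field_simp
          rw [this]
          linarith
        have h8 : (t - r) / c ≤ (t - r) / t :=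
          div_le_div_of_nonneg_left (by linarith) ht0 htc
        linarith
    have h5 : D' c - (1 - t / c) ≤ C * v + 2 * ε := by
      have : (t - r) / c = t / c - r / c := by ring
      rw [this] at h4
      linarith
    have h6 : C * v ≤ (C / κ) * (D c - Ds k c + ε) := by
      have : C * v = (C / κ) * (κ * v) := by field_simp
      rw [this]
      exact mul_le_mul_of_nonneg_left hv1 (by positivity)
    have h7 : 0 ≤ D c - Ds k c + ε := by nlinarith
    have h8 : (C / κ) * (D c - Ds k c + ε) ≤ B * (D c - Ds k c + ε) :=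
      mul_le_mul_of_nonneg_right (by linarith) h7
    nlinarith
  -- Gronwall
  set g : ℝ → ℝ := fun c => (D c - Ds k c + 3 * ε) * Real.exp (-(B * c)) with hg
  have hganti : AntitoneOn g (Icc 0 c1) := by
    apply antitoneOn_of_deriv_nonpos (convex_Icc 0 c1)
    · apply ContinuousOn.mul
      · exact hδc.add continuousOn_const
      · fun_prop
    · rw [interior_Icc]
      intro c hc
      have h1 := ((hder c hc).sub (Ds_deriv hk hc.1)).add_const (3 * ε)
      have h2 : HasDerivAt (fun c : ℝ => Real.exp (-(B * c))) (Real.exp (-(B * c)) * (-B)) c := by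
        have h3 : HasDerivAt (fun c : ℝ => -(B * c)) (-(B * 1)) c :=
          ((hasDerivAt_id' c).const_mul B).neg
        rw [mul_one] at h3
        exact h3.exp
      exact (h1.mul h2).differentiableAt.differentiableWithinAt
    · rw [interior_Icc]
      intro c hc
      have h1 := ((hder c hc).sub (Ds_deriv hk hc.1)).add_const (3 * ε)
      have h2 : HasDerivAt (fun c : ℝ => Real.exp (-(B * c))) (Real.exp (-(B * c)) * (-B)) c := by
        have h3 : HasDerivAt (fun c : ℝ => -(B * c)) (-(B * 1)) c :=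
          ((hasDerivAt_id' c).const_mul B).neg
        rw [mul_one] at h3
        exact h3.exp
      have h3 := (h1.mul h2).deriv
      have h4 : deriv g c = _ := h3
      rw [h4]
      have h5 := (hfacts c hc).2
      have h6 := mul_le_mul_of_nonneg_right h5 (Real.exp_pos (-(B * c))).le
      simp only [Pi.sub_apply] at *
      nlinarith
  have hDs0 : Ds k 0 = 0 := Ds_zero k hk
  have hlow : ∀ c ∈ Icc 0 c1, -ε ≤ D c - Ds k c := by
    have hcl : closure (Ioo 0 c1) = Icc 0 c1 := closure_Ioo hc1.ne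
    intro c hc
    rw [← hcl] at hc hδc
    have := closure_minimal (s := Ioo 0 c1) (t := Icc 0 c1 ∩ {c | -ε ≤ D c - Ds k c}) ?_ ?_ hc
    · exact this.2
    · intro x hx
      exact ⟨Ioo_subset_Icc_self hx, (hfacts x hx).1⟩
    · rw [hcl] at hδc
      exact hδc.preimage_isClosed_of_isClosed isClosed_Icc isClosed_Ici
  intro c hc
  have h1 := hganti (left_mem_Icc.2 hc1.le) hc hc.1
  simp only [hg] at h1
  rw [hD0, hDs0] at h1
  simp only [mul_zero, neg_zero, Real.exp_zero, mul_one, sub_zero, zero_add] at h1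
  have h2 : D c - Ds k c + 3 * ε ≤ 3 * ε * Real.exp (B * c) := by
    have h3 := mul_le_mul_of_nonneg_right h1 (Real.exp_pos (B * c)).le
    rw [mul_assoc, ← Real.exp_add, neg_add_cancel, Real.exp_zero, mul_one] at h3
    exact h3
  have h3 : Real.exp (B * c) ≤ Real.exp (B * c1) :=
    Real.exp_le_exp.2 (mul_le_mul_of_nonneg_left hc.2 (by linarith))
  have h4 : 3 * ε * Real.exp (B * c) ≤ 3 * ε * Real.exp (B * c1) :=
    mul_le_mul_of_nonneg_left h3 (by positivity)
  have h5 : (1:ℝ) ≤ Real.exp (B * c1) := Real.one_le_exp (by positivity)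
  rw [abs_le]
  constructor
  · have := hlow c hc
    nlinarith
  · linarith

end Pool.Agent.Q299.CY
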