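import Pool.Agent.Q299.CY.Stage3
import Pool.Agent.Q299.CY.LPart
import Pool.Agent.Q299.CY.Deriv
import Pool.Agent.Q299.CY.Ode

/-!
Asymptotic forms of the bounds.
-/

set_option linter.unusedSectionVars false

namespace Pool.Agent.Q299.CY

open Finset Classical

section reals

variable {k : ℕ} {c1 m n c r p q w : ℝ}

theorem n_ge_m (hk : 2 ≤ k) (hm : 1 ≤ m) (hn : n = m ^ (2 * k - 1)) : m ≤ n := by
  rw [hn]
  exact le_self_pow₀ hm (by omega)

/-- Entropy term. -/
theorem termA (hn1 : 1 ≤ n) (hm : 1 ≤ m) (hq0 : 0 < q) (hqp : q ≤ p)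
    (hp1 : p < 1) (hpc : n * p = c * m) (hqr : n * q = r * m) (hc : 0 < c) (hr : 0 < r) :
    r * Real.log (r / c) - r + c - 1 / m ≤ (2 / (n * m)) * ((n * (n - 1) / 2) * phi p q) := by
  have hn0 : 0 < n := by linarith
  have hm0 : 0 < m := by linarith
  have hp0 : 0 < p := by linarith
  have h1 : Real.log ((1 - p) / (1 - q)) ≤ (1 - p) / (1 - q) - 1 :=
    Real.log_le_sub_one_of_pos (div_pos (by linarith) (by linarith))
  have hq1 : 0 < 1 - q := by linarith
  have h2 : p - q ≤ (1 - q) * Real.log ((1 - q) / (1 - p)) := by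
    rw [Real.log_div (by linarith) (by linarith)] at h1 ⊢
    have h3 := mul_le_mul_of_nonneg_left h1 hq1.le
    have h4 : (1 - q) * ((1 - p) / (1 - q) - 1) = q - p := by field_simp; ring
    rw [h4] at h3
    linarith
  have hg : q * Real.log (q / p) - q + p ≤ phi p q := by unfold phi; linarith
  have hratio : q / p = r / c := by
    rw [div_eq_div_iff hp0.ne' hc.ne']
    have h3 : n * (q * c) = n * (r * p) := by
      calc n * (q * c) = (n * q) * c := by ring
        _ = (r * m) * c := by rw [hqr]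
        _ = r * (c * m) := by ring
        _ = r * (n * p) := by rw [hpc]
        _ = n * (r * p) := by ring
    exact mul_left_cancel₀ hn0.ne' h3
  have e : (2 / (n * m)) * ((n * (n - 1) / 2) * phi p q) = ((n - 1) / m) * phi p q := by
    field_simp
  rw [e]
  have h5 : ((n - 1) / m) * (q * Real.log (q / p) - q + p) ≤ ((n - 1) / m) * phi p q :=
    mul_le_mul_of_nonneg_left hg (div_nonneg (by linarith) hm0.le)
  refine le_trans ?_ h5
  have h6 : ((n - 1) / m) * (q * Real.log (q / p) - q + p)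
      = (n * q / m) * Real.log (q / p) - n * q / m + n * p / m
        - (q * Real.log (q / p) - q + p) / m := by ring
  rw [h6, hqr, hpc, hratio]
  have h7 : r * m / m = r := by field_simp
  have h8 : c * m / m = c := by field_simp
  rw [h7, h8]
  have h9 : q * Real.log (r / c) - q + p ≤ 1 := by
    have : Real.log (r / c) ≤ 0 := by
      rw [← hratio]
      exact Real.log_nonpos (by positivity) (by rw [div_le_one hp0]; exact hqp)
    nlinarith
  have h10 : (q * Real.log (r / c) - q + p) / m ≤ 1 / m :=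
    div_le_div_of_nonneg_right h9 hm0.le
  linarith

/-- Variance term. -/
theorem termB (hn2 : 2 ≤ n) (hm : 1 ≤ m) (hp0 : 0 < p) (hpc : n * p = c * m) (hc : 0 < c)
    (hcc : c ≤ c1) (hw : 0 ≤ w) :
    (1 / (8 * c1)) * ((n / m) ^ 2 * w) ≤ (2 / (n * m)) * ((n * (n - 1) / 2) * (w / (4 * p))) := by
  have hn0 : 0 < n := by linarith
  have hm0 : 0 < m := by linarith
  have hc1 : 0 < c1 := by linarith
  have e1 : (2 / (n * m)) * ((n * (n - 1) / 2) * (w / (4 * p)))
      = (n * (n - 1) * w) / (4 * m * (n * p)) := by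
    field_simp
  rw [e1, hpc]
  have e2 : (1 / (8 * c1)) * ((n / m) ^ 2 * w) = (n * n * w) / (4 * m * (2 * c1 * m)) := by
    field_simp
    ring
  rw [e2, div_le_div_iff₀ (by positivity) (by positivity)]
  have h1 : 0 ≤ n * w := by positivity
  have h2 : n * c ≤ 2 * (n - 1) * c1 := by nlinarith
  have h3 : 0 ≤ (n * w) * (4 * m * m) := by positivity
  have := mul_le_mul_of_nonneg_left h2 h3
  nlinarith

/-- Cycle term. -/
theorem termC (hk : 2 ≤ k) (hm : 1 ≤ m) (hn : n = m ^ (2 * k - 1)) (hn2 : 2 ≤ n)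
    (hqr : n * q = r * m) (hr : 0 < r) (hrc : r ≤ c1) :
    r ^ (2 * k) / (2 * k) - c1 ^ (2 * k) / m
      ≤ (2 / (n * m)) * (((n - 1) * q) ^ (2 * k) / (4 * k)) := by
  have hn0 : 0 < n := by linarith
  have hm0 : 0 < m := by linarith
  have hk0 : (0:ℝ) < k := by exact_mod_cast (by omega : 0 < k)
  have hmn := n_ge_m hk hm hn
  have e1 : (n - 1) * q = (r * m) * (1 - 1 / n) := by
    rw [← hqr]; field_simp
  have h1 : 1 - (2 * k : ℕ) / n ≤ (1 - 1 / n) ^ (2 * k) := by
    have h2 : (-2:ℝ) ≤ -(1 / n) := by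
      have : 1 / n ≤ 1 := by rw [div_le_one hn0]; linarith
      linarith
    have h3 := one_add_mul_le_pow h2 (2 * k)
    have e2 : 1 + ((2 * k : ℕ) : ℝ) * -(1 / n) = 1 - (2 * k : ℕ) / n := by ring
    rw [e2] at h3
    have e3 : 1 + -(1 / n) = 1 - 1 / n := by ring
    rwa [e3] at h3
  have e4 : m ^ (2 * k) = n * m := by
    rw [hn, ← pow_succ]
    congr 1
    omega
  have e5 : (2 / (n * m)) * (((n - 1) * q) ^ (2 * k) / (4 * k))
      = (r ^ (2 * k) / (2 * k)) * (1 - 1 / n) ^ (2 * k) := by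
    rw [e1, mul_pow, mul_pow, e4]
    field_simp
    ring
  rw [e5]
  have h4 := mul_le_mul_of_nonneg_left h1 (by positivity : (0:ℝ) ≤ r ^ (2 * k) / (2 * k))
  refine le_trans ?_ h4
  have e6 : (r ^ (2 * k) / (2 * k)) * (1 - (2 * k : ℕ) / n)
      = r ^ (2 * k) / (2 * k) - r ^ (2 * k) / n := by
    push_cast
    field_simp
  rw [e6]
  have h5 : r ^ (2 * k) / n ≤ c1 ^ (2 * k) / m := by
    apply div_le_div₀ (by have : 0 < c1 := by linarith
                          positivity) (pow_le_pow_left₀ hr.le hrc _) hm0 hmn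
  linarith

/-- Returning walks. -/
theorem termE (hk : 2 ≤ k) (hm : 1 ≤ m) (hn : n = m ^ (2 * k - 1))
    (hpc : n * p = c * m) (hqr : n * q = r * m) (hr : 0 < r) (hc : 0 < c) (hcc : c ≤ c1)
    (hrc : r ≤ c1) :
    (2 / (n * m)) * ((n * q) ^ k * sret n p k)
      ≤ (2 * (k * (1 + k)) * (c1 + 1 + k) ^ (2 * k - 1)) / m := by
  have hm0 : 0 < m := by linarith
  have hn0 : 0 < n := by rw [hn]; positivity
  set Y : ℝ := c1 + 1 + k with hY
  have hk0 : (0:ℝ) ≤ k := Nat.cast_nonneg k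
  have hY0 : 0 < Y := by linarith
  unfold sret
  rw [hqr, hpc]
  have h1 : (r * m) ^ k ≤ (Y * m) ^ k := by
    apply pow_le_pow_left₀ (by positivity)
    exact mul_le_mul_of_nonneg_right (by linarith) hm0.le
  have h2 : (c * m + 1 + k) ^ (k - 1) ≤ (Y * m) ^ (k - 1) := by
    apply pow_le_pow_left₀ (by positivity)
    rw [hY]
    nlinarith
  have h3 : (r * m) ^ k * (k * (1 + k) * (c * m + 1 + k) ^ (k - 1))
      ≤ (k * (1 + k)) * (Y ^ (2 * k - 1) * n) := by
    have h4 := mul_le_mul h1 h2 (by positivity) (by positivity)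
    have e1 : (Y * m) ^ k * (Y * m) ^ (k - 1) = Y ^ (2 * k - 1) * n := by
      rw [← pow_add, hn, ← mul_pow]
      congr 1
      omega
    rw [e1] at h4
    have h5 := mul_le_mul_of_nonneg_left h4 (by positivity : (0:ℝ) ≤ k * (1 + k))
    calc _ = (k * (1 + k)) * ((r * m) ^ k * (c * m + 1 + k) ^ (k - 1)) := by ring
      _ ≤ _ := h5
  have h4 := mul_le_mul_of_nonneg_left h3 (by positivity : (0:ℝ) ≤ 2 / (n * m))
  refine h4.trans (le_of_eq ?_)
  field_simp

/-- The stage error constant. -/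
noncomputable def CF (k : ℕ) (c1 : ℝ) : ℝ :=
  c1 ^ 2 * (((2 * k - 2 : ℕ) : ℝ) * (1 + (2 * k - 2 : ℕ)) *
    (c1 + 1 + (2 * k - 2 : ℕ)) ^ (2 * k - 2 - 1))
    * (1 + c1 * (c1 + 1 + (2 * k - 2 : ℕ)) ^ (2 * k - 2))

theorem termF (hk : 2 ≤ k) (hm : 1 ≤ m) (hn : n = m ^ (2 * k - 1))
    (hpc : n * p = c * m) (hc : 0 < c) (hcc : c ≤ c1) (hp0 : 0 < p) :
    (2 / (n * m)) * (n * serr n p k) ≤ (2 * CF k c1) / m := by
  have hm0 : 0 < m := by linarith
  have hn0 : 0 < n := by rw [hn]; positivity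
  have hc1 : 0 < c1 := by linarith
  obtain ⟨L, hL⟩ : ∃ L, 2 * k - 2 = L + 1 := ⟨2 * k - 3, by omega⟩
  have hL3 : 2 * k - 1 = L + 2 := by omega
  have hsub : L + 1 - 1 = L := by omega
  rw [hL3] at hn
  set Y : ℝ := c1 + 1 + ((L + 1 : ℕ) : ℝ) with hY
  have hY0 : 0 < Y := by positivity
  have h1 : c * m + 1 + ((L + 1 : ℕ) : ℝ) ≤ Y * m := by
    rw [hY]
    have : (0:ℝ) ≤ ((L + 1 : ℕ) : ℝ) := Nat.cast_nonneg _
    nlinarith
  have h2 : (c * m + 1 + ((L + 1 : ℕ) : ℝ)) ^ L ≤ Y ^ L * m ^ L := by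
    rw [← mul_pow]
    exact pow_le_pow_left₀ (by positivity) h1 _
  have h3 : (c * m + 1 + ((L + 1 : ℕ) : ℝ)) ^ (L + 1) ≤ Y ^ (L + 1) * m ^ (L + 1) := by
    rw [← mul_pow]
    exact pow_le_pow_left₀ (by positivity) h1 _
  have hserr : serr n p k ≤ CF k c1 := by
    unfold serr CF
    rw [hL, hsub, ← hY, hpc]
    set A : ℝ := ((L + 1 : ℕ) : ℝ) * (1 + ((L + 1 : ℕ) : ℝ)) with hA
    have hA0 : 0 ≤ A := by positivity
    -- p = c m / n
    have hp : p = c * m / n := by rw [← hpc]; field_simp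
    have e1 : n * p ^ 2 = c ^ 2 * m ^ 2 / n := by rw [hp]; field_simp
    have h4 : n * p ^ 2 * (A * (c * m + 1 + ((L + 1 : ℕ) : ℝ)) ^ L) ≤ c1 ^ 2 * (A * Y ^ L) := by
      rw [e1]
      have h5 : c ^ 2 * m ^ 2 / n * (A * (c * m + 1 + ((L + 1 : ℕ) : ℝ)) ^ L)
          ≤ c1 ^ 2 * m ^ 2 / n * (A * (Y ^ L * m ^ L)) := by
        apply mul_le_mul
        · apply div_le_div_of_nonneg_right _ hn0.le
          exact mul_le_mul_of_nonneg_right (pow_le_pow_left₀ hc.le hcc 2) (by positivity)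
        · exact mul_le_mul_of_nonneg_left h2 hA0
        · positivity
        · positivity
      refine h5.trans (le_of_eq ?_)
      rw [hn]
      field_simp
      ring
    have h6 : p * (c * m + 1 + ((L + 1 : ℕ) : ℝ)) ^ (L + 1) ≤ c1 * Y ^ (L + 1) := by
      rw [hp]
      have h7 : c * m / n * (c * m + 1 + ((L + 1 : ℕ) : ℝ)) ^ (L + 1)
          ≤ c1 * m / n * (Y ^ (L + 1) * m ^ (L + 1)) := by
        apply mul_le_mul
        · apply div_le_div_of_nonneg_right _ hn0.le
          exact mul_le_mul_of_nonneg_right hcc hm0.le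
        · exact h3
        · positivity
        · positivity
      refine h7.trans (le_of_eq ?_)
      rw [hn]
      field_simp
      ring
    apply mul_le_mul h4 (by linarith) (by positivity) (by positivity)
  have h4 := mul_le_mul_of_nonneg_left hserr (by positivity : (0:ℝ) ≤ 2 / m)
  have e : (2 / (n * m)) * (n * serr n p k) = 2 / m * serr n p k := by field_simp
  rw [e]
  refine h4.trans (le_of_eq ?_)
  ring

/-- Constant of the entropy bound. -/
noncomputable def C1 (k : ℕ) (c1 : ℝ) : ℝ :=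
  2 + c1 ^ (2 * k) + 2 * (k * (1 + k)) * (c1 + 1 + k) ^ (2 * k - 1) + 2 * CF k c1

theorem est1 (hk : 2 ≤ k) (hm : 1 ≤ m) (hn : n = m ^ (2 * k - 1)) (hn2 : 2 ≤ n)
    (hp1 : p < 1) (hq0 : 0 < q) (hqp : q ≤ p)
    (hpc : n * p = c * m) (hqr : n * q = r * m) (hr : 0 < r) (hc : 0 < c) (hrc : r ≤ c)
    (hcc : c ≤ c1) (hw : 0 ≤ w) :
    FF k r c + (1 / (8 * c1)) * ((n / m) ^ 2 * w) - C1 k c1 / m
      ≤ (2 / (n * m)) * ((n * (n - 1) / 2) * (phi p q + w / (4 * p))
        + ((n - 1) * q) ^ (2 * k) / (4 * k) - n / 2 - (n * q) ^ k * sret n p k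
        - n * serr n p k) := by
  have hm0 : 0 < m := by linarith
  have hn0 : 0 < n := by linarith
  have hp0 : 0 < p := by linarith
  have a := termA (by linarith) hm hq0 hqp hp1 hpc hqr hc hr
  have b := termB (c1 := c1) hn2 hm hp0 hpc hc hcc hw
  have c' := termC hk hm hn hn2 hqr hr (hrc.trans hcc)
  have e := termE hk hm hn hpc hqr hr hc hcc (hrc.trans hcc)
  have f := termF hk hm hn hpc hc hcc hp0
  have d : (2 / (n * m)) * (n / 2) = 1 / m := by field_simp
  have e0 : (2 / (n * m)) * ((n * (n - 1) / 2) * (phi p q + w / (4 * p))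
        + ((n - 1) * q) ^ (2 * k) / (4 * k) - n / 2 - (n * q) ^ k * sret n p k
        - n * serr n p k)
      = (2 / (n * m)) * ((n * (n - 1) / 2) * phi p q)
        + (2 / (n * m)) * ((n * (n - 1) / 2) * (w / (4 * p)))
        + (2 / (n * m)) * (((n - 1) * q) ^ (2 * k) / (4 * k)) - (2 / (n * m)) * (n / 2)
        - (2 / (n * m)) * ((n * q) ^ k * sret n p k) - (2 / (n * m)) * (n * serr n p k) := by
    ring
  rw [e0, d]
  unfold FF C1
  have e1 : (2 + c1 ^ (2 * k) + 2 * (k * (1 + k)) * (c1 + 1 + k) ^ (2 * k - 1) + 2 * CF k c1) / m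
      = 1 / m + 1 / m + c1 ^ (2 * k) / m + (2 * (k * (1 + k)) * (c1 + 1 + k) ^ (2 * k - 1)) / m
        + (2 * CF k c1) / m := by ring
  rw [e1]
  linarith

end reals

end Pool.Agent.Q299.CY
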