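import Pool.Agent.Q299.CY.Asym

/-!
Asymptotic form of the density bound.
-/

set_option linter.unusedSectionVars false

namespace Pool.Agent.Q299.CY

open Finset Classical

section reals

variable {k : ℕ} {c1 m n c r p q w : ℝ}

theorem m_sq_le_n (hk : 2 ≤ k) (hm : 1 ≤ m) (hn : n = m ^ (2 * k - 1)) : m * m ≤ n := by
  rw [hn, ← pow_two]
  exact pow_le_pow_right₀ hm (by omega)

theorem p_le (hk : 2 ≤ k) (hm : 1 ≤ m) (hn : n = m ^ (2 * k - 1)) (hpc : n * p = c * m)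
    (hc : 0 < c) (hcc : c ≤ c1) : p ≤ c1 / m := by
  have hm0 : 0 < m := by linarith
  have hn0 : 0 < n := by rw [hn]; positivity
  have h1 := m_sq_le_n hk hm hn
  have hp : p = c * m / n := by rw [← hpc]; field_simp
  rw [hp, div_le_div_iff₀ hn0 hm0]
  calc c * m * m = c * (m * m) := by ring
    _ ≤ c1 * n := mul_le_mul hcc h1 (by positivity) (by linarith)

/-- The prefactor. -/
theorem pref (hn2 : 2 ≤ n) (hp0 : 0 < p) (hp2 : p ≤ 1 / 2) {T : ℝ} (hT : 0 ≤ T) :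
    (1 / (1 - p)) * (T / (n * (n - 1))) ≤ (1 + 2 * p) * (1 + 2 / n) * (T / n ^ 2) := by
  have hn0 : 0 < n := by linarith
  have h1 : 1 / (1 - p) ≤ 1 + 2 * p := by
    rw [div_le_iff₀ (by linarith)]
    nlinarith
  have h2 : T / (n * (n - 1)) ≤ (1 + 2 / n) * (T / n ^ 2) := by
    have h3 : (0:ℝ) < n * (n - 1) := mul_pos hn0 (by linarith)
    rw [div_le_iff₀ h3]
    have e : (1 + 2 / n) * (T / n ^ 2) * (n * (n - 1)) = T * ((n + 2) * (n - 1) / n ^ 2) := by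
      field_simp
    rw [e]
    have h4 : 1 ≤ (n + 2) * (n - 1) / n ^ 2 := by
      rw [le_div_iff₀ (by positivity)]
      nlinarith
    nlinarith
  have h5 : 0 ≤ T / (n * (n - 1)) := div_nonneg hT (mul_nonneg hn0.le (by linarith))
  calc (1 / (1 - p)) * (T / (n * (n - 1))) ≤ (1 + 2 * p) * (T / (n * (n - 1))) :=
        mul_le_mul_of_nonneg_right h1 h5
    _ ≤ (1 + 2 * p) * ((1 + 2 / n) * (T / n ^ 2)) :=
        mul_le_mul_of_nonneg_left h2 (by linarith)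
    _ = _ := by ring

theorem pref4 (hn2 : 2 ≤ n) (hp0 : 0 < p) (hp2 : p ≤ 1 / 2) {T : ℝ} (hT : 0 ≤ T) :
    (1 / (1 - p)) * (T / (n * (n - 1))) ≤ 4 * (T / n ^ 2) := by
  have hn0 : 0 < n := by linarith
  refine (pref hn2 hp0 hp2 hT).trans ?_
  apply mul_le_mul_of_nonneg_right _ (by positivity)
  have h1 : 2 / n ≤ 1 := by rw [div_le_one hn0]; exact hn2
  have h2 : 0 < 2 / n := by positivity
  nlinarith

theorem part1 (hk : 2 ≤ k) (hm : 1 ≤ m) (hn : n = m ^ (2 * k - 1)) (hn2 : 2 ≤ n)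
    (hp0 : 0 < p) (hp2 : p ≤ 1 / 2) (hq0 : 0 < q)
    (hpc : n * p = c * m) (hqr : n * q = r * m) (hr : 0 < r) (hc : 0 < c) (hrc : r ≤ c)
    (hcc : c ≤ c1) :
    (1 / (1 - p)) * ((n * ((n - 1) * q) ^ (2 * k - 1)) / (n * (n - 1)))
      ≤ r ^ (2 * k - 1) + (c1 ^ (2 * k - 1) * (2 * c1 + 4)) / m := by
  have hm0 : 0 < m := by linarith
  have hn0 : 0 < n := by linarith
  have hT0 : 0 ≤ n * ((n - 1) * q) ^ (2 * k - 1) :=
    mul_nonneg hn0.le (pow_nonneg (mul_nonneg (by linarith) hq0.le) _)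
  refine (pref hn2 hp0 hp2 hT0).trans ?_
  have h1 : n * ((n - 1) * q) ^ (2 * k - 1) / n ^ 2 ≤ r ^ (2 * k - 1) := by
    rw [div_le_iff₀ (by positivity)]
    have h2 : ((n - 1) * q) ^ (2 * k - 1) ≤ (r * m) ^ (2 * k - 1) := by
      apply pow_le_pow_left₀ (mul_nonneg (by linarith) hq0.le)
      rw [← hqr]
      nlinarith
    rw [mul_pow r m, ← hn] at h2
    nlinarith [mul_le_mul_of_nonneg_left h2 hn0.le]
  have hrl : 0 ≤ r ^ (2 * k - 1) := by positivity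
  have h3 : (1 + 2 * p) * (1 + 2 / n) * (n * ((n - 1) * q) ^ (2 * k - 1) / n ^ 2)
      ≤ (1 + 2 * p) * (1 + 2 / n) * r ^ (2 * k - 1) :=
    mul_le_mul_of_nonneg_left h1 (by positivity)
  refine h3.trans ?_
  have hpm := p_le hk hm hn hpc hc hcc
  have hmn := n_ge_m hk hm hn
  have h4 : 1 / n ≤ 1 / m := one_div_le_one_div_of_le hm0 hmn
  have h5 : (1 + 2 * p) * (1 + 2 / n) ≤ 1 + (2 * c1 + 4) / m := by
    have e1 : (1 + 2 * p) * (1 + 2 / n) = 1 + 2 * p + 2 * (1 / n) + 4 * p * (1 / n) := by ring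
    have e2 : (2 * c1 + 4) / m = 2 * (c1 / m) + 4 * (1 / m) := by ring
    rw [e1, e2]
    have h6 : 0 < 1 / n := by positivity
    nlinarith
  have h6 : r ^ (2 * k - 1) ≤ c1 ^ (2 * k - 1) := pow_le_pow_left₀ hr.le (hrc.trans hcc) _
  have h7 := mul_le_mul_of_nonneg_right h5 hrl
  have hc1 : 0 < c1 := by linarith
  have h8 : (2 * c1 + 4) / m * r ^ (2 * k - 1) ≤ (2 * c1 + 4) / m * c1 ^ (2 * k - 1) :=
    mul_le_mul_of_nonneg_left h6 (by positivity)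
  have e3 : (c1 ^ (2 * k - 1) * (2 * c1 + 4)) / m = (2 * c1 + 4) / m * c1 ^ (2 * k - 1) := by ring
  rw [e3]
  nlinarith

theorem part2 (hk : 2 ≤ k) (hm : 1 ≤ m) (hn : n = m ^ (2 * k - 1)) (hn2 : 2 ≤ n)
    (hp0 : 0 < p) (hp2 : p ≤ 1 / 2) (hq0 : 0 < q)
    (hqr : n * q = r * m) (hc : 0 < c) (hrc : r ≤ c)
    (hcc : c ≤ c1) (hw : 0 ≤ w) :
    (1 / (1 - p)) * (((2 * k - 1 : ℝ) ^ 2 * ((3 * c1 * m) ^ (2 * k - 3) * (n ^ 2 *
        (q + n * w)))) / (n * (n - 1)))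
      ≤ (4 * (2 * k - 1 : ℝ) ^ 2 * (3 * c1) ^ (2 * k - 3)) * ((n / m) ^ 2 * w)
        + (4 * (2 * k - 1 : ℝ) ^ 2 * (3 * c1) ^ (2 * k - 3) * c1) / m := by
  have hm0 : 0 < m := by linarith
  have hn0 : 0 < n := by linarith
  have hc1 : 0 < c1 := by linarith
  refine (pref4 hn2 hp0 hp2 (by positivity)).trans ?_
  obtain ⟨j, hj⟩ : ∃ j, 2 * k - 3 = j := ⟨_, rfl⟩
  have hj2 : 2 * k - 1 = j + 2 := by omega
  rw [hj]
  rw [hj2] at hn
  have e1 : 4 * ((2 * k - 1 : ℝ) ^ 2 * ((3 * c1 * m) ^ j * (n ^ 2 * (q + n * w))) / n ^ 2)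
      = (4 * (2 * k - 1 : ℝ) ^ 2 * (3 * c1) ^ j) * (m ^ j * q)
        + (4 * (2 * k - 1 : ℝ) ^ 2 * (3 * c1) ^ j) * (m ^ j * n * w) := by
    rw [mul_pow (3 * c1) m]
    field_simp
  rw [e1]
  have e2 : m ^ j * q = r / m := by
    have hq : q = r * m / n := by rw [← hqr]; field_simp
    rw [hq, hn]
    field_simp
    ring
  have e3 : m ^ j * n * w = (n / m) ^ 2 * w := by
    have : m ^ j * n * m ^ 2 = n ^ 2 := by
      rw [hn]; ring
    field_simp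
    nlinarith
  rw [e2, e3]
  have h1 : r / m ≤ c1 / m := div_le_div_of_nonneg_right (hrc.trans hcc) hm0.le
  have h2 := mul_le_mul_of_nonneg_left h1
    (by positivity : (0:ℝ) ≤ 4 * (2 * k - 1 : ℝ) ^ 2 * (3 * c1) ^ j)
  have e4 : (4 * (2 * k - 1 : ℝ) ^ 2 * (3 * c1) ^ j * c1) / m
      = (4 * (2 * k - 1 : ℝ) ^ 2 * (3 * c1) ^ j) * (c1 / m) := by ring
  rw [e4]
  linarith

theorem part3 (hk : 2 ≤ k) (hm : 1 ≤ m) (hn : n = m ^ (2 * k - 1)) (hn2 : 2 ≤ n)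
    (hp0 : 0 < p) (hp2 : p ≤ 1 / 2)
    (hpc : n * p = c * m) (hc : 0 < c) (hcc : c ≤ c1) :
    (1 / (1 - p)) * (((2 * k - 1 : ℝ) ^ 2 * (n ^ (2 * k - 3) * n ^ 3 *
        (n * Real.exp (2 * (n * p) - 3 * c1 * m)))) / (n * (n - 1)))
      ≤ (4 * (2 * k - 1 : ℝ) ^ 2 * (((2 * k - 1) * (2 * k - 1) + 1).factorial
        / c1 ^ ((2 * k - 1) * (2 * k - 1) + 1))) / m := by
  have hm0 : 0 < m := by linarith
  have hn0 : 0 < n := by linarith
  have hc1 : 0 < c1 := by linarith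
  refine (pref4 hn2 hp0 hp2 (by positivity)).trans ?_
  set l := 2 * k - 1 with hl
  have e1 : n ^ (2 * k - 3) * n ^ 3 * (n * Real.exp (2 * (n * p) - 3 * c1 * m))
      = n ^ 2 * (n ^ l * Real.exp (2 * (n * p) - 3 * c1 * m)) := by
    have h1 : n ^ (2 * k - 3) * n ^ 3 * n = n ^ 2 * n ^ l := by
      rw [← pow_add, ← pow_succ, ← pow_add]
      congr 1
      omega
    calc _ = (n ^ (2 * k - 3) * n ^ 3 * n) * Real.exp (2 * (n * p) - 3 * c1 * m) := by ring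
      _ = _ := by rw [h1]; ring
  rw [e1]
  have e2 : n ^ l = m ^ (l * l) := by
    rw [hn, ← pow_mul]
  rw [e2]
  have h1 : Real.exp (2 * (n * p) - 3 * c1 * m) ≤ Real.exp (-(c1 * m)) := by
    apply Real.exp_le_exp.2
    rw [hpc]
    nlinarith
  have h2 : m ^ (l * l) * Real.exp (-(c1 * m))
      ≤ ((l * l + 1).factorial / c1 ^ (l * l + 1)) / m := by
    have h3 := Real.pow_div_factorial_le_exp (c1 * m) (by positivity) (l * l + 1)
    rw [Real.exp_neg]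
    have h4 : 0 < (c1 * m) ^ (l * l + 1) / ((l * l + 1).factorial : ℝ) := by positivity
    have h5 := inv_anti₀ h4 h3
    have h6 := mul_le_mul_of_nonneg_left h5 (by positivity : (0:ℝ) ≤ m ^ (l * l))
    refine h6.trans (le_of_eq ?_)
    rw [mul_pow, pow_succ m]
    field_simp
  have h3 : m ^ (l * l) * Real.exp (2 * (n * p) - 3 * c1 * m)
      ≤ ((l * l + 1).factorial / c1 ^ (l * l + 1)) / m :=
    (mul_le_mul_of_nonneg_left h1 (by positivity)).trans h2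
  have h4 := mul_le_mul_of_nonneg_left h3 (by positivity : (0:ℝ) ≤ 4 * (2 * k - 1 : ℝ) ^ 2)
  calc 4 * ((2 * k - 1 : ℝ) ^ 2 * (n ^ 2 * (m ^ (l * l) *
        Real.exp (2 * (n * p) - 3 * c1 * m))) / n ^ 2)
      = 4 * (2 * k - 1 : ℝ) ^ 2 * (m ^ (l * l) * Real.exp (2 * (n * p) - 3 * c1 * m)) := by
        field_simp
    _ ≤ _ := h4
    _ = _ := by ring

/-- Triangle term per vertex. -/
noncomputable def tau (n p : ℝ) (k : ℕ) : ℝ :=
  ((2 * (2 * k - 2) : ℕ) : ℝ) * (1 + (2 * (2 * k - 2) : ℕ)) *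
          (n * p + 1 + (2 * (2 * k - 2) : ℕ)) ^ (2 * (2 * k - 2) - 1)
        + ((2 * k - 2 : ℕ) * (p * (1 + (2 * (2 * k - 2) : ℕ)) *
          (n * p + 1 + (2 * (2 * k - 2) : ℕ)) ^ (2 * k - 2 - 1)))
          * (n * p + 1 + (2 * (2 * k - 2) : ℕ)) ^ (2 * (2 * k - 2))

/-- Constant of the triangle term. -/
noncomputable def CT (k : ℕ) (c1 : ℝ) : ℝ :=
  ((2 * (2 * k - 2) : ℕ) : ℝ) * (1 + (2 * (2 * k - 2) : ℕ)) * c1 ^ 2 *
          (c1 + 1 + (2 * (2 * k - 2) : ℕ)) ^ (2 * (2 * k - 2) - 1)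
        + ((2 * k - 2 : ℕ) : ℝ) * (1 + (2 * (2 * k - 2) : ℕ)) * c1 ^ 3 *
          (c1 + 1 + (2 * (2 * k - 2) : ℕ)) ^ (3 * (2 * k - 2) - 1)

theorem part4 (hk : 2 ≤ k) (hm : 1 ≤ m) (hn : n = m ^ (2 * k - 1)) (hn2 : 2 ≤ n)
    (hp0 : 0 < p) (hp2 : p ≤ 1 / 2)
    (hpc : n * p = c * m) (hc : 0 < c) (hcc : c ≤ c1) :
    (1 / (1 - p)) * ((p ^ 2 * n * (n * tau n p k)) / (n * (n - 1))) ≤ (4 * CT k c1) / m := by
  have hm0 : 0 < m := by linarith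
  have hn0 : 0 < n := by linarith
  have hc1 : 0 < c1 := by linarith
  have htau : 0 ≤ tau n p k := by unfold tau; positivity
  refine (pref4 hn2 hp0 hp2 (by positivity)).trans ?_
  have e0 : 4 * (p ^ 2 * n * (n * tau n p k) / n ^ 2) = 4 * (p ^ 2 * tau n p k) := by field_simp
  rw [e0, mul_div_assoc]
  apply mul_le_mul_of_nonneg_left _ (by norm_num)
  obtain ⟨L, hL⟩ : ∃ L, 2 * k - 2 = L + 1 := ⟨2 * k - 3, by omega⟩
  have hL3 : 2 * k - 1 = L + 2 := by omega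
  unfold tau CT
  rw [hL]
  have hs1 : 2 * (L + 1) - 1 = 2 * L + 1 := by omega
  have hs2 : L + 1 - 1 = L := by omega
  have hs3 : 3 * (L + 1) - 1 = 3 * L + 2 := by omega
  rw [hs1, hs2, hs3, hpc]
  rw [hL3] at hn
  set Y : ℝ := c1 + 1 + ((2 * (L + 1) : ℕ) : ℝ) with hY
  set B : ℝ := 1 + ((2 * (L + 1) : ℕ) : ℝ) with hB
  have hY0 : 0 < Y := by positivity
  set X : ℝ := c * m + 1 + ((2 * (L + 1) : ℕ) : ℝ) with hX
  have hX0 : 0 ≤ X := by positivity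
  have h1 : X ≤ Y * m := by
    rw [hX, hY]
    have : (0:ℝ) ≤ ((2 * (L + 1) : ℕ) : ℝ) := Nat.cast_nonneg _
    nlinarith
  have h2 : X ^ (2 * L + 1) ≤ Y ^ (2 * L + 1) * m ^ (2 * L + 1) := by
    rw [← mul_pow]; exact pow_le_pow_left₀ hX0 h1 _
  have h3 : X ^ L * X ^ (2 * (L + 1)) ≤ Y ^ (3 * L + 2) * m ^ (3 * L + 2) := by
    rw [← mul_pow, ← pow_add]
    have : L + 2 * (L + 1) = 3 * L + 2 := by ring
    rw [this]
    exact pow_le_pow_left₀ hX0 h1 _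
  have hp : p = c * m / n := by rw [← hpc]; field_simp
  have hc2 : c ^ 2 ≤ c1 ^ 2 := pow_le_pow_left₀ hc.le hcc 2
  have hc3 : c ^ 3 ≤ c1 ^ 3 := pow_le_pow_left₀ hc.le hcc 3
  have hB0 : 0 ≤ B := by positivity
  have g1 : p ^ 2 * X ^ (2 * L + 1) ≤ c1 ^ 2 * Y ^ (2 * L + 1) / m := by
    calc p ^ 2 * X ^ (2 * L + 1) ≤ p ^ 2 * (Y ^ (2 * L + 1) * m ^ (2 * L + 1)) :=
          mul_le_mul_of_nonneg_left h2 (by positivity)
      _ = c ^ 2 * Y ^ (2 * L + 1) / m := by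
          rw [hp, hn]; field_simp; ring
      _ ≤ _ := by
          apply div_le_div_of_nonneg_right _ hm0.le
          exact mul_le_mul_of_nonneg_right hc2 (by positivity)
  have g2 : p ^ 3 * (X ^ L * X ^ (2 * (L + 1))) ≤ c1 ^ 3 * Y ^ (3 * L + 2) / m := by
    calc p ^ 3 * (X ^ L * X ^ (2 * (L + 1))) ≤ p ^ 3 * (Y ^ (3 * L + 2) * m ^ (3 * L + 2)) :=
          mul_le_mul_of_nonneg_left h3 (by positivity)
      _ = c ^ 3 * Y ^ (3 * L + 2) / m := by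
          rw [hp, hn]; field_simp; ring
      _ ≤ _ := by
          apply div_le_div_of_nonneg_right _ hm0.le
          exact mul_le_mul_of_nonneg_right hc3 (by positivity)
  set A : ℝ := ((2 * (L + 1) : ℕ) : ℝ) with hA
  have hA0 : 0 ≤ A := Nat.cast_nonneg _
  set L1 : ℝ := ((L + 1 : ℕ) : ℝ) with hL1
  have hL10 : 0 ≤ L1 := Nat.cast_nonneg _
  have f1 := mul_le_mul_of_nonneg_left g1 (by positivity : (0:ℝ) ≤ A * B)
  have f2 := mul_le_mul_of_nonneg_left g2 (by positivity : (0:ℝ) ≤ L1 * B)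
  calc p ^ 2 * (A * B * X ^ (2 * L + 1) + L1 * (p * B * X ^ L) * X ^ (2 * (L + 1)))
      = A * B * (p ^ 2 * X ^ (2 * L + 1)) + L1 * B * (p ^ 3 * (X ^ L * X ^ (2 * (L + 1)))) := by
        ring
    _ ≤ A * B * (c1 ^ 2 * Y ^ (2 * L + 1) / m) + L1 * B * (c1 ^ 3 * Y ^ (3 * L + 2) / m) :=
        add_le_add f1 f2
    _ = _ := by ring

/-- Coefficient of the variance. -/
noncomputable def C2 (k : ℕ) (c1 : ℝ) : ℝ := 4 * (2 * k - 1 : ℝ) ^ 2 * (3 * c1) ^ (2 * k - 3)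

/-- Constant of the density bound. -/
noncomputable def C3 (k : ℕ) (c1 : ℝ) : ℝ :=
  c1 ^ (2 * k - 1) * (2 * c1 + 4) + 4 * (2 * k - 1 : ℝ) ^ 2 * (3 * c1) ^ (2 * k - 3) * c1
    + 4 * (2 * k - 1 : ℝ) ^ 2 * (((2 * k - 1) * (2 * k - 1) + 1).factorial
        / c1 ^ ((2 * k - 1) * (2 * k - 1) + 1)) + 4 * CT k c1

theorem est2 (hk : 2 ≤ k) (hm : 1 ≤ m) (hn : n = m ^ (2 * k - 1)) (hn2 : 2 ≤ n)
    (hp0 : 0 < p) (hp2 : p ≤ 1 / 2) (hq0 : 0 < q)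
    (hpc : n * p = c * m) (hqr : n * q = r * m) (hr : 0 < r) (hc : 0 < c) (hrc : r ≤ c)
    (hcc : c ≤ c1) (hw : 0 ≤ w) {T : ℝ}
    (hT : T ≤ n * ((n - 1) * q) ^ (2 * k - 1)
        + (2 * k - 1 : ℝ) ^ 2 * ((3 * c1 * m) ^ (2 * k - 3) * (n ^ 2 * (q + n * w))
          + n ^ (2 * k - 3) * n ^ 3 * (n * Real.exp (2 * (n * p) - 3 * c1 * m)))
        + p ^ 2 * n * (n * tau n p k))
    (hL : n * (n - 1) * Real.log (p / q) ≤ (1 / (1 - p)) * T) :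
    Real.log (c / r) ≤ r ^ (2 * k - 1) + C2 k c1 * ((n / m) ^ 2 * w) + C3 k c1 / m := by
  have hm0 : 0 < m := by linarith
  have hn0 : 0 < n := by linarith
  have hnn : 0 < n * (n - 1) := mul_pos hn0 (by linarith)
  have hratio : p / q = c / r := by
    rw [div_eq_div_iff hq0.ne' hr.ne']
    have h3 : n * (p * r) = n * (c * q) := by
      calc n * (p * r) = (n * p) * r := by ring
        _ = (c * m) * r := by rw [hpc]
        _ = c * (r * m) := by ring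
        _ = c * (n * q) := by rw [hqr]
        _ = n * (c * q) := by ring
    exact mul_left_cancel₀ hn0.ne' h3
  rw [hratio] at hL
  have h1 : Real.log (c / r) ≤ (1 / (1 - p)) * (T / (n * (n - 1))) := by
    have : (1 / (1 - p)) * (T / (n * (n - 1))) = ((1 / (1 - p)) * T) / (n * (n - 1)) := by ring
    rw [this, le_div_iff₀ hnn]
    linarith
  refine h1.trans ?_
  have hp1 : 0 < 1 - p := by linarith
  have h2 : (1 / (1 - p)) * (T / (n * (n - 1)))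
      ≤ (1 / (1 - p)) * ((n * ((n - 1) * q) ^ (2 * k - 1)
        + (2 * k - 1 : ℝ) ^ 2 * ((3 * c1 * m) ^ (2 * k - 3) * (n ^ 2 * (q + n * w))
          + n ^ (2 * k - 3) * n ^ 3 * (n * Real.exp (2 * (n * p) - 3 * c1 * m)))
        + p ^ 2 * n * (n * tau n p k)) / (n * (n - 1))) := by
    apply mul_le_mul_of_nonneg_left _ (by positivity)
    exact div_le_div_of_nonneg_right hT hnn.le
  refine h2.trans ?_
  have a1 := part1 hk hm hn hn2 hp0 hp2 hq0 hpc hqr hr hc hrc hcc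
  have a2 := part2 (c1 := c1) hk hm hn hn2 hp0 hp2 hq0 hqr hc hrc hcc hw
  have a3 := part3 (c1 := c1) hk hm hn hn2 hp0 hp2 hpc hc hcc
  have a4 := part4 (c1 := c1) hk hm hn hn2 hp0 hp2 hpc hc hcc
  have e1 : (1 / (1 - p)) * ((n * ((n - 1) * q) ^ (2 * k - 1)
        + (2 * k - 1 : ℝ) ^ 2 * ((3 * c1 * m) ^ (2 * k - 3) * (n ^ 2 * (q + n * w))
          + n ^ (2 * k - 3) * n ^ 3 * (n * Real.exp (2 * (n * p) - 3 * c1 * m)))
        + p ^ 2 * n * (n * tau n p k)) / (n * (n - 1)))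
      = (1 / (1 - p)) * ((n * ((n - 1) * q) ^ (2 * k - 1)) / (n * (n - 1)))
        + (1 / (1 - p)) * (((2 * k - 1 : ℝ) ^ 2 * ((3 * c1 * m) ^ (2 * k - 3) * (n ^ 2 *
        (q + n * w)))) / (n * (n - 1)))
        + (1 / (1 - p)) * (((2 * k - 1 : ℝ) ^ 2 * (n ^ (2 * k - 3) * n ^ 3 *
        (n * Real.exp (2 * (n * p) - 3 * c1 * m)))) / (n * (n - 1)))
        + (1 / (1 - p)) * ((p ^ 2 * n * (n * tau n p k)) / (n * (n - 1))) := by ring
  rw [e1]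
  unfold C2 C3
  have e2 : (c1 ^ (2 * k - 1) * (2 * c1 + 4)
      + 4 * (2 * k - 1 : ℝ) ^ 2 * (3 * c1) ^ (2 * k - 3) * c1
      + 4 * (2 * k - 1 : ℝ) ^ 2 * (((2 * k - 1) * (2 * k - 1) + 1).factorial
        / c1 ^ ((2 * k - 1) * (2 * k - 1) + 1)) + 4 * CT k c1) / m
      = (c1 ^ (2 * k - 1) * (2 * c1 + 4)) / m
        + (4 * (2 * k - 1 : ℝ) ^ 2 * (3 * c1) ^ (2 * k - 3) * c1) / m
        + (4 * (2 * k - 1 : ℝ) ^ 2 * (((2 * k - 1) * (2 * k - 1) + 1).factorial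
        / c1 ^ ((2 * k - 1) * (2 * k - 1) + 1))) / m + (4 * CT k c1) / m := by ring
  rw [e2]
  linarith

theorem est3 (hk : 2 ≤ k) (hm : 1 ≤ m) (hn : n = m ^ (2 * k - 1)) (hn2 : 2 ≤ n)
    (hp0 : 0 < p) (hp2 : p ≤ 1 / 2)
    (hpc : n * p = c * m) (hr : 0 < r) (hc : 0 < c) (hrc : r ≤ c)
    (hcc : c ≤ c1) :
    ((n - 1) / n) * ((1 - r / c) / (1 - p)) ≤ 1 - r / c + (2 * c1) / m := by
  have hm0 : 0 < m := by linarith
  have hn0 : 0 < n := by linarith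
  have h1 : r / c ≤ 1 := by rw [div_le_one hc]; exact hrc
  have h0 : 0 < r / c := by positivity
  have h2 : (1 - r / c) / (1 - p) ≤ (1 - r / c) * (1 + 2 * p) := by
    rw [div_le_iff₀ (by linarith)]
    have h3 : 1 ≤ (1 + 2 * p) * (1 - p) := by nlinarith
    have h4 : 0 ≤ 1 - r / c := by linarith
    nlinarith
  have h3 : 0 ≤ (1 - r / c) / (1 - p) := div_nonneg (by linarith) (by linarith)
  have h4 : (n - 1) / n ≤ 1 := by rw [div_le_one hn0]; linarith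
  have h5 : ((n - 1) / n) * ((1 - r / c) / (1 - p)) ≤ 1 * ((1 - r / c) / (1 - p)) :=
    mul_le_mul_of_nonneg_right h4 h3
  have hpm := p_le hk hm hn hpc hc hcc
  have h6 : (1 - r / c) * (1 + 2 * p) ≤ 1 - r / c + 2 * p := by nlinarith
  have e : (2 * c1) / m = 2 * (c1 / m) := by ring
  rw [e]
  linarith

end reals

end Pool.Agent.Q299.CY
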