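import Mathlib

/-!
The Blakley and Roy inequality for walks.
-/

set_option linter.unusedSectionVars false

namespace Pool.Agent.Q299.CY

open Finset

variable {V : Type*} [Fintype V] [DecidableEq V]

/-- Weighted number of walks of length `j` from `x`. -/
noncomputable def uw (A : V → V → ℝ) : ℕ → V → ℝ
  | 0, _ => 1
  | j + 1, x => ∑ y, A x y * uw A j y

theorem uw_nonneg {A : V → V → ℝ} (hA : ∀ x y, 0 ≤ A x y) (j : ℕ) (x : V) : 0 ≤ uw A j x := by
  induction j generalizing x with
  | zero => simp [uw]
  | succ j ih => exact Finset.sum_nonneg (fun y _ => mul_nonneg (hA x y) (ih y))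

theorem uw_pos {A : V → V → ℝ} (hA : ∀ x y, 0 ≤ A x y) (hs : ∀ x y, A x y = A y x) (j : ℕ)
    {x : V} (hx : 0 < ∑ y, A x y) : 0 < uw A j x := by
  induction j generalizing x with
  | zero => simp [uw]
  | succ j ih =>
    obtain ⟨y, _, hy⟩ : ∃ y ∈ Finset.univ, 0 < A x y := by
      by_contra h
      push Not at h
      exact absurd hx (not_lt.2 (Finset.sum_nonpos h))
    have hyd : 0 < ∑ z, A y z := by
      refine lt_of_lt_of_le (b := A y x) (by rw [← hs]; exact hy) ?_
      exact Finset.single_le_sum (f := fun z => A y z) (fun z _ => hA y z) (Finset.mem_univ x)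
    refine lt_of_lt_of_le (mul_pos hy (ih hyd)) ?_
    exact Finset.single_le_sum (f := fun z => A x z * uw A j z)
      (fun z _ => mul_nonneg (hA x z) (uw_nonneg hA j z)) (Finset.mem_univ y)

theorem xlog_ge {x t : ℝ} (hx : 0 ≤ x) (ht : 0 < t) : x * Real.log t + x - t ≤ x * Real.log x := by
  rcases hx.lt_or_eq with h | h
  · have h1 : Real.log (t / x) ≤ t / x - 1 := Real.log_le_sub_one_of_pos (by positivity)
    rw [Real.log_div ht.ne' h.ne'] at h1
    have h2 := mul_le_mul_of_nonneg_left h1 h.le
    have h3 : x * (t / x - 1) = t - x := by field_simp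
    rw [h3] at h2
    linarith
  · rw [← h]; simp; exact ht.le

theorem blakley_roy {A : V → V → ℝ} (hA : ∀ x y, 0 ≤ A x y) (hs : ∀ x y, A x y = A y x)
    {U : Finset V} (hU : ∀ x y, x ∉ U → A x y = 0) (hne : U.Nonempty) (j : ℕ) :
    U.card * ((∑ x, ∑ y, A x y) / U.card) ^ (j + 1) ≤ ∑ x, uw A (j + 1) x := by
  set d : V → ℝ := fun x => ∑ y, A x y with hd
  set S : ℝ := ∑ x, d x with hS
  have hd0 : ∀ x, 0 ≤ d x := fun x => Finset.sum_nonneg (fun y _ => hA x y)
  have hS0 : 0 ≤ S := Finset.sum_nonneg (fun x _ => hd0 x)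
  have hUc : (0:ℝ) < U.card := by exact_mod_cast hne.card_pos
  rcases hS0.lt_or_eq with hSp | hSz
  swap
  · rw [← hSz]
    simp only [zero_div]
    rw [zero_pow (by omega), mul_zero]
    exact Finset.sum_nonneg (fun x _ => uw_nonneg hA _ x)
  -- potential
  set Λ : ℝ := ∑ x, d x * Real.log (d x) with hΛ
  have hstep : ∀ j, ∑ x, d x * Real.log (uw A j x) + Λ ≤ ∑ x, d x * Real.log (uw A (j + 1) x) := by
    intro j
    have e : ∑ x, d x * Real.log (uw A j x) = ∑ x, ∑ y, A x y * Real.log (uw A j y) := by
      rw [Finset.sum_comm]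
      apply Finset.sum_congr rfl
      intro y _
      rw [← Finset.sum_mul]
      congr 1
      apply Finset.sum_congr rfl
      intro x _
      exact hs y x
    rw [e, hΛ, ← Finset.sum_add_distrib]
    apply Finset.sum_le_sum
    intro x _
    rcases (hd0 x).lt_or_eq with hx | hx
    · have hux : 0 < uw A (j + 1) x := uw_pos hA hs _ hx
      have h1 : ∀ y, A x y * Real.log (uw A j y) ≤
          A x y * Real.log (uw A (j + 1) x / d x) + (A x y * uw A j y * (d x / uw A (j + 1) x)
            - A x y) := by
        intro y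
        rcases (hA x y).lt_or_eq with hxy | hxy
        · have hyd : 0 < ∑ z, A y z := by
            refine lt_of_lt_of_le (b := A y x) (by rw [← hs]; exact hxy) ?_
            exact Finset.single_le_sum (f := fun z => A y z) (fun z _ => hA y z)
              (Finset.mem_univ x)
          have huy : 0 < uw A j y := uw_pos hA hs _ hyd
          have h2 : Real.log (uw A j y / (uw A (j + 1) x / d x))
              ≤ uw A j y / (uw A (j + 1) x / d x) - 1 :=
            Real.log_le_sub_one_of_pos (by positivity)
          rw [Real.log_div huy.ne' (by positivity)] at h2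
          have h3 := mul_le_mul_of_nonneg_left h2 hxy.le
          have h4 : A x y * (uw A j y / (uw A (j + 1) x / d x) - 1)
              = A x y * uw A j y * (d x / uw A (j + 1) x) - A x y := by
            field_simp
          rw [h4] at h3
          linarith
        · rw [← hxy]; simp
      have h2 := Finset.sum_le_sum (fun y (_ : y ∈ Finset.univ) => h1 y)
      rw [Finset.sum_add_distrib, Finset.sum_sub_distrib, ← Finset.sum_mul, ← Finset.sum_mul] at h2
      have h3 : (∑ y, A x y * uw A j y) * (d x / uw A (j + 1) x) = d x := by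
        have : ∑ y, A x y * uw A j y = uw A (j + 1) x := rfl
        rw [this]
        field_simp
      rw [h3] at h2
      have h4 : ∑ y, A x y = d x := rfl
      rw [h4, Real.log_div hux.ne' hx.ne'] at h2
      linarith
    · have h1 : ∀ y, A x y = 0 := by
        intro y
        exact (Finset.sum_eq_zero_iff_of_nonneg (fun y _ => hA x y)).1 hx.symm y (Finset.mem_univ y)
      rw [← hx]
      simp [h1]
  have hpot : ∀ j : ℕ, (j:ℝ) * Λ ≤ ∑ x, d x * Real.log (uw A j x) := by
    intro j
    induction j with
    | zero => simp [uw]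
    | succ j ih =>
      have := hstep j
      push_cast
      linarith
  -- Λ bound
  have hΛb : S * Real.log (S / U.card) ≤ Λ := by
    have hsub : ∀ f : V → ℝ, ∑ x, d x * f x = ∑ x ∈ U, d x * f x := by
      intro f
      symm
      apply Finset.sum_subset (Finset.subset_univ U)
      intro x _ hx
      have : d x = 0 := Finset.sum_eq_zero (fun y _ => hU x y hx)
      rw [this, zero_mul]
    have hSU : S = ∑ x ∈ U, d x := by
      have := hsub (fun _ => 1)
      simpa using this
    rw [hΛ, hsub]
    have h1 : ∀ x ∈ U, d x * Real.log (S / U.card) + d x - S / U.card ≤ d x * Real.log (d x) :=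
      fun x _ => xlog_ge (hd0 x) (by positivity)
    have h2 := Finset.sum_le_sum h1
    rw [Finset.sum_sub_distrib, Finset.sum_add_distrib, ← Finset.sum_mul, ← hSU,
      Finset.sum_const, nsmul_eq_mul] at h2
    have h3 : (U.card : ℝ) * (S / U.card) = S := mul_div_cancel₀ S hUc.ne'
    rw [h3] at h2
    linarith
  -- final
  have hW : ∑ x, uw A (j + 1) x = ∑ y, d y * uw A j y := by
    have : ∀ x, uw A (j + 1) x = ∑ y, A x y * uw A j y := fun x => rfl
    simp_rw [this]
    rw [Finset.sum_comm]
    apply Finset.sum_congr rfl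
    intro y _
    rw [← Finset.sum_mul]
    congr 1
    apply Finset.sum_congr rfl
    intro x _
    exact hs x y
  set P := ∑ x, d x * Real.log (uw A j x) with hP
  set a := P / S with ha
  have h1 : ∀ y, d y * (Real.exp a * (1 + Real.log (uw A j y) - a)) ≤ d y * uw A j y := by
    intro y
    rcases (hd0 y).lt_or_eq with hy | hy
    · apply mul_le_mul_of_nonneg_left _ hy.le
      have hu := uw_pos hA hs j hy
      have h2 : Real.log (uw A j y) - a + 1 ≤ Real.exp (Real.log (uw A j y) - a) :=
        Real.add_one_le_exp _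
      rw [Real.exp_sub, Real.exp_log hu] at h2
      have h3 := mul_le_mul_of_nonneg_left h2 (Real.exp_pos a).le
      have h4 : Real.exp a * (uw A j y / Real.exp a) = uw A j y := by
        field_simp
      rw [h4] at h3
      linarith
    · rw [← hy]; simp
  have h2 := Finset.sum_le_sum (fun y (_ : y ∈ Finset.univ) => h1 y)
  rw [← hW] at h2
  have h3 : ∑ y, d y * (Real.exp a * (1 + Real.log (uw A j y) - a)) = S * Real.exp a := by
    have : ∀ y, d y * (Real.exp a * (1 + Real.log (uw A j y) - a))
        = Real.exp a * (d y * Real.log (uw A j y)) + Real.exp a * (1 - a) * d y := by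
      intro y; ring
    simp_rw [this]
    rw [Finset.sum_add_distrib, ← Finset.mul_sum, ← Finset.mul_sum]
    have h4 : a * S = P := by rw [ha]; field_simp
    have h5 : ∑ x, d x * Real.log (uw A j x) = P := rfl
    have h6 : ∑ x, d x = S := rfl
    rw [h5, h6]
    rw [← h4]
    ring
  rw [h3] at h2
  refine le_trans ?_ h2
  have h4 : (j:ℝ) * Real.log (S / U.card) ≤ a := by
    rw [ha, le_div_iff₀ hSp]
    have h5 := hpot j
    have h6 := mul_le_mul_of_nonneg_left hΛb (Nat.cast_nonneg j : (0:ℝ) ≤ j)
    calc (j:ℝ) * Real.log (S / U.card) * S = j * (S * Real.log (S / U.card)) := by ring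
      _ ≤ j * Λ := h6
      _ ≤ P := h5
  have h5 : Real.exp ((j:ℝ) * Real.log (S / U.card)) = (S / U.card) ^ j := by
    rw [mul_comm, Real.exp_mul, Real.exp_log (by positivity), Real.rpow_natCast]
  have h6 := Real.exp_le_exp.2 h4
  rw [h5] at h6
  calc (U.card : ℝ) * (S / U.card) ^ (j + 1) = S * (S / U.card) ^ j := by
        rw [pow_succ]; field_simp
    _ ≤ S * Real.exp a := mul_le_mul_of_nonneg_left h6 hS0

/-- Tangent inequality for powers. -/
theorem pow_tangent {x t : ℝ} (hx : 0 ≤ x) (ht : 0 ≤ t) (k : ℕ) :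
    t ^ (k + 1) + (k + 1) * t ^ k * (x - t) ≤ x ^ (k + 1) := by
  induction k with
  | zero => simp
  | succ k ih =>
    have h1 := mul_le_mul_of_nonneg_left ih hx
    have h2 : 0 ≤ (k + 1) * t ^ k * (x - t) ^ 2 := by positivity
    have e : x ^ (k + 1 + 1) = x * x ^ (k + 1) := by ring
    rw [e]
    refine le_trans ?_ h1
    push_cast
    have e2 : x * (t ^ (k + 1) + (k + 1) * t ^ k * (x - t))
        - (t ^ (k + 1 + 1) + ((k:ℝ) + 1 + 1) * t ^ (k + 1) * (x - t))
        = (k + 1) * t ^ k * (x - t) ^ 2 := by ring
    linarith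

end Pool.Agent.Q299.CY
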