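import Pool.Agent.Q299.CY.Ep

/-!
Entropy inequality for a random subset with pairwise exclusions.
-/

set_option linter.unusedSectionVars false

namespace Pool.Agent.Q299.CY

open Finset

variable {α β : Type*} [DecidableEq α] [DecidableEq β]

/-- `x log x`. -/
noncomputable def xi (x : ℝ) : ℝ := x * Real.log x

theorem xi_zero : xi 0 = 0 := by simp [xi]

theorem xi_mul {c : ℝ} (hc : 0 < c) {x : ℝ} (hx : 0 ≤ x) :
    xi (c * x) = c * xi x + c * Real.log c * x := by
  unfold xi
  rcases hx.lt_or_eq with h | h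
  · rw [Real.log_mul hc.ne' h.ne']
    ring
  · rw [← h]; simp

/-- Homogeneous relative entropy of a Bernoulli variable. -/
noncomputable def Psi (p a Z : ℝ) : ℝ :=
  xi a + xi (Z - a) - xi Z - a * Real.log p - (Z - a) * Real.log (1 - p)

theorem cell {m r c T : ℝ} (hm : 0 ≤ m) (hr : m ≤ r) (hc : m ≤ c) (hT : 0 < T) :
    m - r * c / T ≤ m * Real.log m - m * Real.log r - m * Real.log c + m * Real.log T := by
  rcases hm.lt_or_eq with h | h
  · have hr' : 0 < r := by linarith
    have hc' : 0 < c := by linarith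
    have h1 : Real.log (r * c / (m * T)) ≤ r * c / (m * T) - 1 :=
      Real.log_le_sub_one_of_pos (by positivity)
    rw [Real.log_div (by positivity) (by positivity), Real.log_mul hr'.ne' hc'.ne',
      Real.log_mul h.ne' hT.ne'] at h1
    have h2 : m * (r * c / (m * T)) = r * c / T := by field_simp
    nlinarith [mul_le_mul_of_nonneg_left h1 hm]
  · subst h
    have : 0 ≤ r * c / T := by positivity
    simp only [zero_mul]
    linarith

/-- Mutual information of a `2 × 2` table is nonnegative. -/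
theorem mi_nonneg {a b c d : ℝ} (ha : 0 ≤ a) (hb : 0 ≤ b) (hc : 0 ≤ c) (hd : 0 ≤ d) :
    0 ≤ xi a + xi b + xi c + xi d - xi (a + b) - xi (c + d) - xi (a + c) - xi (b + d)
      + xi (a + b + c + d) := by
  by_cases hT : 0 < a + b + c + d
  · have h1 := cell (m := a) (r := a + b) (c := a + c) ha (by linarith) (by linarith) hT
    have h2 := cell (m := b) (r := a + b) (c := b + d) hb (by linarith) (by linarith) hT
    have h3 := cell (m := c) (r := c + d) (c := a + c) hc (by linarith) (by linarith) hT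
    have h4 := cell (m := d) (r := c + d) (c := b + d) hd (by linarith) (by linarith) hT
    have e : (a + b) * (a + c) / (a + b + c + d) + (a + b) * (b + d) / (a + b + c + d)
        + (c + d) * (a + c) / (a + b + c + d) + (c + d) * (b + d) / (a + b + c + d)
        = a + b + c + d := by
      field_simp
      ring
    unfold xi
    nlinarith
  · have ha' : a = 0 := by linarith
    have hb' : b = 0 := by linarith
    have hc' : c = 0 := by linarith
    have hd' : d = 0 := by linarith
    subst ha' hb' hc' hd'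
    simp [xi]

/-- Mutual information of two mutually exclusive events. -/
theorem mi_excl {a b Z : ℝ} (ha : 0 ≤ a) (hb : 0 ≤ b) (hab : a + b ≤ Z) :
    a * b / Z ≤ xi Z - xi (Z - a) - xi (Z - b) + xi (Z - a - b) := by
  by_cases hZ : 0 < Z
  swap
  · have hZ0 : Z = 0 := by linarith
    have ha' : a = 0 := by linarith
    have hb' : b = 0 := by linarith
    subst hZ0 ha' hb'
    simp [xi]
  rcases ha.lt_or_eq with ha1 | ha1
  swap
  · subst ha1
    simp [xi]
  rcases hb.lt_or_eq with hb1 | hb1
  swap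
  · subst hb1
    simp [xi]
  have hZa : 0 < Z - a := by linarith
  have hZb : 0 < Z - b := by linarith
  -- main estimate
  have k1 : a / Z ≤ Real.log Z - Real.log (Z - a) := by
    have := Real.log_le_sub_one_of_pos (show 0 < (Z - a) / Z by positivity)
    rw [Real.log_div hZa.ne' hZ.ne'] at this
    have e : (Z - a) / Z - 1 = - (a / Z) := by field_simp; ring
    linarith
  have k2 : b / Z ≤ Real.log Z - Real.log (Z - b) := by
    have := Real.log_le_sub_one_of_pos (show 0 < (Z - b) / Z by positivity)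
    rw [Real.log_div hZb.ne' hZ.ne'] at this
    have e : (Z - b) / Z - 1 = - (b / Z) := by field_simp; ring
    linarith
  have hw : 0 ≤ Z - a - b := by linarith
  have k3 : (Z - a - b) - (Z - a) * (Z - b) / Z
      ≤ (Z - a - b) * Real.log (Z - a - b) - (Z - a - b) * Real.log (Z - a)
        - (Z - a - b) * Real.log (Z - b) + (Z - a - b) * Real.log Z :=
    cell hw (by linarith) (by linarith) hZ
  have e3 : (Z - a - b) - (Z - a) * (Z - b) / Z = - (a * b / Z) := by
    field_simp
    ring
  rw [e3] at k3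
  have k1' := mul_le_mul_of_nonneg_left k1 hb
  have k2' := mul_le_mul_of_nonneg_left k2 ha
  have e1 : b * (a / Z) = a * b / Z := by ring
  have e2 : a * (b / Z) = a * b / Z := by ring
  rw [e1] at k1'
  rw [e2] at k2'
  unfold xi
  nlinarith

/-- Joint convexity of `Psi`. -/
theorem Psi_convex {p : ℝ} (hp0 : 0 < p) (hp1 : p < 1) {a1 Z1 a0 Z0 : ℝ}
    (h1 : 0 ≤ a1) (h1' : a1 ≤ Z1) (h0 : 0 ≤ a0) (h0' : a0 ≤ Z0) :
    Psi p (p * a1 + (1 - p) * a0) (p * Z1 + (1 - p) * Z0)
      ≤ p * Psi p a1 Z1 + (1 - p) * Psi p a0 Z0 := by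
  have hq : 0 < 1 - p := by linarith
  have key := mi_nonneg (a := p * a1) (b := p * (Z1 - a1)) (c := (1 - p) * a0)
    (d := (1 - p) * (Z0 - a0)) (by positivity)
    (mul_nonneg hp0.le (by linarith)) (by positivity) (mul_nonneg hq.le (by linarith))
  have e1 : p * a1 + p * (Z1 - a1) = p * Z1 := by ring
  have e2 : (1 - p) * a0 + (1 - p) * (Z0 - a0) = (1 - p) * Z0 := by ring
  have e3 : p * (Z1 - a1) + (1 - p) * (Z0 - a0)
      = (p * Z1 + (1 - p) * Z0) - (p * a1 + (1 - p) * a0) := by ring
  have e4 : p * a1 + p * (Z1 - a1) + (1 - p) * a0 + (1 - p) * (Z0 - a0)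
      = p * Z1 + (1 - p) * Z0 := by ring
  rw [e4, e1, e2, e3, xi_mul hp0 h1, xi_mul hp0 (by linarith : 0 ≤ Z1 - a1),
    xi_mul hq h0, xi_mul hq (by linarith : 0 ≤ Z0 - a0), xi_mul hp0 (h1.trans h1'),
    xi_mul hq (h0.trans h0')] at key
  unfold Psi
  nlinarith

/-- Gain in `Psi` when the two events are exclusive. -/
theorem Psi_excl {p : ℝ} (hp0 : 0 < p) (hp1 : p < 1) {Z1 a0 Z0 : ℝ}
    (h1 : 0 ≤ Z1) (h0 : 0 ≤ a0) (h0' : a0 ≤ Z0) :
    Psi p ((1 - p) * a0) (p * Z1 + (1 - p) * Z0)
      + ((1 - p) * a0) * (p * Z1) / (p * Z1 + (1 - p) * Z0)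
      ≤ p * Psi p 0 Z1 + (1 - p) * Psi p a0 Z0 := by
  have hq : 0 < 1 - p := by linarith
  have key := mi_excl (a := (1 - p) * a0) (b := p * Z1) (Z := p * Z1 + (1 - p) * Z0)
    (by positivity) (by positivity) (by nlinarith)
  have e1 : p * Z1 + (1 - p) * Z0 - p * Z1 = (1 - p) * Z0 := by ring
  have e2 : p * Z1 + (1 - p) * Z0 - (1 - p) * a0 - p * Z1 = (1 - p) * (Z0 - a0) := by ring
  rw [e2, e1, xi_mul hq (h0.trans h0'), xi_mul hq (by linarith : 0 ≤ Z0 - a0)] at key
  unfold Psi
  rw [xi_mul hq h0, xi_zero]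
  have e3 : Z1 - 0 = Z1 := by ring
  rw [e3]
  nlinarith

/-- The entropy functional. -/
noncomputable def Ent (p : ℝ) (V : Finset α) (h : Finset α → ℝ) : ℝ :=
  EE p V (fun N => xi (h N)) - xi (EE p V h)

/-- The mass of the event `x ∈ N`. -/
noncomputable def mass (p : ℝ) (V : Finset α) (h : Finset α → ℝ) (x : α) : ℝ :=
  EE p V (fun N => if x ∈ N then h N else 0)

theorem EE_erase (p : ℝ) {z : α} {V : Finset α} (hz : z ∈ V) (h : Finset α → ℝ) :
    EE p V h = p * EE p (V.erase z) (fun N => h (insert z N)) + (1 - p) * EE p (V.erase z) h := by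
  have := EE_insert p (Finset.notMem_erase z V) h
  rwa [Finset.insert_erase hz] at this

theorem mass_self (p : ℝ) {z : α} {V : Finset α} (hz : z ∈ V) (h : Finset α → ℝ) :
    mass p V h z = p * EE p (V.erase z) (fun N => h (insert z N)) := by
  unfold mass
  rw [EE_erase p hz]
  have e0 : EE p (V.erase z) (fun N => if z ∈ N then h N else 0) = 0 := by
    have : EE p (V.erase z) (fun N => if z ∈ N then h N else 0) = EE p (V.erase z) (fun _ => 0) := by
      apply EE_congr
      intro N hN
      have : z ∉ N := fun h' => Finset.notMem_erase z V (hN h')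
      simp [this]
    rw [this, EE_const]
  rw [e0]
  simp

theorem mass_other (p : ℝ) {x z : α} {V : Finset α} (hz : z ∈ V) (hxz : x ≠ z)
    (h : Finset α → ℝ) :
    mass p V h x = p * mass p (V.erase z) (fun N => h (insert z N)) x
      + (1 - p) * mass p (V.erase z) h x := by
  unfold mass
  rw [EE_erase p hz]
  congr 2
  apply EE_congr
  intro N _
  simp [hxz]

theorem mass_nonneg {p : ℝ} (hp0 : 0 ≤ p) (hp1 : p ≤ 1) {V : Finset α} {h : Finset α → ℝ}
    (hh : ∀ N ⊆ V, 0 ≤ h N) (x : α) : 0 ≤ mass p V h x := by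
  apply EE_nonneg hp0 hp1
  intro N hN
  split_ifs
  · exact hh N hN
  · exact le_refl _

theorem mass_le {p : ℝ} (hp0 : 0 ≤ p) (hp1 : p ≤ 1) {V : Finset α} {h : Finset α → ℝ}
    (hh : ∀ N ⊆ V, 0 ≤ h N) (x : α) : mass p V h x ≤ EE p V h := by
  apply EE_mono hp0 hp1
  intro N hN
  split_ifs
  · exact le_refl _
  · exact hh N hN

/-- For a decreasing density the marginals are at most `p`. -/
theorem mass_le_p {p : ℝ} (hp0 : 0 ≤ p) (hp1 : p ≤ 1) {V : Finset α} {h : Finset α → ℝ}
    (hh : Antitone h) (hh0 : ∀ N, 0 ≤ h N) (x : α) : mass p V h x ≤ p * EE p V h := by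
  by_cases hx : x ∈ V
  · rw [mass_self p hx, EE_erase p hx]
    have h1 : EE p (V.erase x) (fun N => h (insert x N)) ≤ EE p (V.erase x) h :=
      EE_mono hp0 hp1 (fun N _ => hh (Finset.subset_insert x N))
    have h2 : 0 ≤ 1 - p := by linarith
    have : EE p (V.erase x) (fun N => h (insert x N)) ≤
        p * EE p (V.erase x) (fun N => h (insert x N)) + (1 - p) * EE p (V.erase x) h := by
      nlinarith
    exact mul_le_mul_of_nonneg_left this hp0
  · have : mass p V h x = 0 := by
      unfold mass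
      have : EE p V (fun N => if x ∈ N then h N else 0) = EE p V (fun _ => 0) := by
        apply EE_congr
        intro N hN
        have : x ∉ N := fun h' => hx (hN h')
        simp [this]
      rw [this, EE_const]
    rw [this]
    exact mul_nonneg hp0 (EE_nonneg hp0 hp1 (fun N _ => hh0 N))

/-- One step of the chain rule. -/
theorem Ent_chain {p : ℝ} (hp0 : 0 < p) (hp1 : p < 1) {z : α} {V : Finset α} (hz : z ∈ V)
    {h : Finset α → ℝ} (hh : ∀ N ⊆ V, 0 ≤ h N) :
    Ent p V h = p * Ent p (V.erase z) (fun N => h (insert z N)) + (1 - p) * Ent p (V.erase z) h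
      + Psi p (mass p V h z) (EE p V h) := by
  have hq : 0 < 1 - p := by linarith
  have hZ1 : 0 ≤ EE p (V.erase z) (fun N => h (insert z N)) :=
    EE_nonneg hp0.le hp1.le (fun N hN => hh _ (Finset.insert_subset hz
      (hN.trans (Finset.erase_subset z V))))
  have hZ0 : 0 ≤ EE p (V.erase z) h :=
    EE_nonneg hp0.le hp1.le (fun N hN => hh _ (hN.trans (Finset.erase_subset z V)))
  unfold Ent Psi
  rw [mass_self p hz, EE_erase p hz (fun N => xi (h N)), EE_erase p hz h]
  set Z1 := EE p (V.erase z) (fun N => h (insert z N))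
  set Z0 := EE p (V.erase z) h
  have e1 : p * Z1 + (1 - p) * Z0 - p * Z1 = (1 - p) * Z0 := by ring
  rw [e1, xi_mul hp0 hZ1, xi_mul hq hZ0]
  ring

end Pool.Agent.Q299.CY
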