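import Pool.Agent.Q299.CY.Ent

/-!
The key entropy inequality.
-/

set_option linter.unusedSectionVars false

namespace Pool.Agent.Q299.CY

open Finset

variable {α β : Type*} [DecidableEq α] [DecidableEq β]

theorem titu {x y s t : ℝ} (hs : 0 ≤ s) (ht : 0 ≤ t) (hx : s = 0 → x = 0) (hy : t = 0 → y = 0) :
    (x + y) ^ 2 / (s + t) ≤ x ^ 2 / s + y ^ 2 / t := by
  rcases hs.lt_or_eq with h1 | h1
  · rcases ht.lt_or_eq with h2 | h2
    · rw [div_add_div _ _ h1.ne' h2.ne', div_le_div_iff₀ (by positivity) (by positivity)]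
      nlinarith [sq_nonneg (x * t - y * s), mul_pos h1 h2]
    · have : y = 0 := hy h2.symm
      subst this
      rw [← h2]
      simp
  · have : x = 0 := hx h1.symm
    subst this
    rw [← h1]
    simp

theorem mass_zero_of_EE_zero {p : ℝ} (hp0 : 0 ≤ p) (hp1 : p ≤ 1) {V : Finset α}
    {h : Finset α → ℝ} (hh : ∀ N ⊆ V, 0 ≤ h N) (hz : EE p V h = 0) (x : α) :
    mass p V h x = 0 :=
  le_antisymm ((mass_le hp0 hp1 hh x).trans hz.le) (mass_nonneg hp0 hp1 hh x)

theorem sum_erase_eq {V : Finset α} {z : α} (hz : z ∈ V) (f : α → ℝ) :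
    ∑ x ∈ V.erase z, f x = ∑ x ∈ V, f x - f z := by
  rw [← Finset.sum_erase_add V f hz]
  ring

/-- Key entropy inequality. -/
theorem ent_lower {γ : Type*} {p : ℝ} (hp0 : 0 < p) (hp1 : p < 1) (Y : Finset γ) (B : γ → α → ℝ)
    (R : α → α → ℝ) (hR : ∀ x z, 0 ≤ R x z) (hRd : ∀ x, R x x = 0) :
    ∀ (m : ℕ) (V : Finset α) (h : Finset α → ℝ), V.card = m → Antitone h → (∀ N, 0 ≤ h N) →
    (∀ x ∈ V, ∀ z ∈ V, x ≠ z → (∑ y ∈ Y, B y x * B y z - R x z ≤ 0) ∨
      (∑ y ∈ Y, B y x * B y z - R x z ≤ 1 ∧ ∀ N : Finset α, x ∈ N → z ∈ N → h N = 0)) →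
    ∑ x ∈ V, Psi p (mass p V h x) (EE p V h)
      + (1 / 2) * ((∑ y ∈ Y, (∑ x ∈ V, B y x * mass p V h x) ^ 2) / EE p V h
        - p * ∑ x ∈ V, (∑ y ∈ Y, B y x ^ 2) * mass p V h x
        - p ^ 2 * EE p V h * ∑ x ∈ V, ∑ z ∈ V, R x z) ≤ Ent p V h := by
  intro m
  induction m with
  | zero =>
    intro V h hV _ hh _
    have : V = ∅ := Finset.card_eq_zero.1 hV
    subst this
    simp [Ent, EE_empty]
  | succ m ih =>
    intro V h hV hanti hh hex
    have hq : 0 < 1 - p := by linarith
    have hhV : ∀ N ⊆ V, 0 ≤ h N := fun N _ => hh N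
    rcases (EE_nonneg hp0.le hp1.le hhV).lt_or_eq with hZ | hZ
    swap
    · -- trivial case
      have hm0 : ∀ x, mass p V h x = 0 :=
        fun x => mass_zero_of_EE_zero hp0.le hp1.le hhV hZ.symm x
      have h0 := EE_eq_zero hp0 hp1 hhV hZ.symm
      have hE : Ent p V h = 0 := by
        unfold Ent
        rw [← hZ, xi_zero]
        have : EE p V (fun N => xi (h N)) = EE p V (fun _ => 0) := by
          apply EE_congr
          intro N hN
          rw [h0 N hN, xi_zero]
        rw [this, EE_const]
        ring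
      rw [hE, ← hZ]
      simp only [hm0]
      simp [Psi, xi]
    · set Z := EE p V h with hZdef
      set a := fun x => mass p V h x with hadef
      have ha0 : ∀ x, 0 ≤ a x := fun x => mass_nonneg hp0.le hp1.le hhV x
      have hap : ∀ x, a x ≤ p * Z := fun x => mass_le_p hp0.le hp1.le hanti hh x
      -- inequality for a single z
      have key : ∀ z ∈ V,
          ∑ x ∈ V, Psi p (a x) Z
            + ∑ x ∈ V.erase z, (∑ y ∈ Y, B y x * B y z - R x z) * (a x * a z / Z)
            + (1 / 2) * ((∑ y ∈ Y, (∑ x ∈ V.erase z, B y x * a x) ^ 2) / Z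
              - p * ∑ x ∈ V.erase z, (∑ y ∈ Y, B y x ^ 2) * a x
              - p ^ 2 * Z * ∑ x ∈ V.erase z, ∑ x' ∈ V.erase z, R x x') ≤ Ent p V h := by
        intro z hz
        have hcard : (V.erase z).card = m := by
          rw [Finset.card_erase_of_mem hz, hV]; rfl
        set W := V.erase z with hWdef
        have hWV : W ⊆ V := Finset.erase_subset z V
        have hanti1 : Antitone (fun N => h (insert z N)) :=
          fun G H hGH => hanti (Finset.insert_subset_insert z hGH)
        have ih1 := ih W (fun N => h (insert z N)) hcard hanti1 (fun N => hh _) (by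
          intro x hx x' hx' hne
          rcases hex x (hWV hx) x' (hWV hx') hne with h1 | ⟨h1, h2⟩
          · exact Or.inl h1
          · exact Or.inr ⟨h1, fun N hxN hx'N => h2 _ (Finset.mem_insert_of_mem hxN)
              (Finset.mem_insert_of_mem hx'N)⟩)
        have ih0 := ih W h hcard hanti hh (by
          intro x hx x' hx' hne
          rcases hex x (hWV hx) x' (hWV hx') hne with h1 | ⟨h1, h2⟩
          · exact Or.inl h1
          · exact Or.inr ⟨h1, h2⟩)
        rw [Ent_chain hp0 hp1 hz hhV]
        set Z1 := EE p W (fun N => h (insert z N)) with hZ1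
        set Z0 := EE p W h with hZ0
        set a1 := fun x => mass p W (fun N => h (insert z N)) x with ha1
        set a0 := fun x => mass p W h x with ha0'
        have hZeq : Z = p * Z1 + (1 - p) * Z0 := EE_erase p hz h
        have haz : a z = p * Z1 := mass_self p hz h
        have haeq : ∀ x ∈ W, a x = p * a1 x + (1 - p) * a0 x := by
          intro x hx
          exact mass_other p hz (Finset.ne_of_mem_erase hx) h
        have hZ1n : 0 ≤ Z1 := EE_nonneg hp0.le hp1.le (fun N _ => hh _)
        have hZ0n : 0 ≤ Z0 := EE_nonneg hp0.le hp1.le (fun N _ => hh _)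
        have ha1n : ∀ x, 0 ≤ a1 x := fun x => mass_nonneg hp0.le hp1.le (fun N _ => hh _) x
        have ha0n : ∀ x, 0 ≤ a0 x := fun x => mass_nonneg hp0.le hp1.le (fun N _ => hh _) x
        have ha1Z : ∀ x, a1 x ≤ Z1 := fun x => mass_le hp0.le hp1.le (fun N _ => hh _) x
        have ha0Z : ∀ x, a0 x ≤ Z0 := fun x => mass_le hp0.le hp1.le (fun N _ => hh _) x
        -- Psi part
        have hPsi : ∑ x ∈ W, (Psi p (a x) Z
              + (∑ y ∈ Y, B y x * B y z - R x z) * (a x * a z / Z))
            ≤ ∑ x ∈ W, (p * Psi p (a1 x) Z1 + (1 - p) * Psi p (a0 x) Z0) := by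
          apply Finset.sum_le_sum
          intro x hx
          have hxz : x ≠ z := Finset.ne_of_mem_erase hx
          have hprod : 0 ≤ a x * a z / Z :=
            div_nonneg (mul_nonneg (ha0 x) (ha0 z)) hZ.le
          rcases hex x (hWV hx) z hz hxz with h1 | ⟨h1, h2⟩
          · have h3 := Psi_convex hp0 hp1 (ha1n x) (ha1Z x) (ha0n x) (ha0Z x)
            rw [← haeq x hx, ← hZeq] at h3
            nlinarith [mul_nonneg (sub_nonneg.2 h1) hprod]
          · have ha1x : a1 x = 0 := by
              have : a1 x = EE p W (fun _ => 0) := by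
                apply EE_congr
                intro N _
                by_cases hxN : x ∈ N
                · simp only [hxN, if_true]
                  exact h2 _ (Finset.mem_insert_of_mem hxN) (Finset.mem_insert_self z N)
                · simp [hxN]
              rw [this, EE_const]
            have hax : a x = (1 - p) * a0 x := by
              rw [haeq x hx, ha1x]; ring
            have h3 := Psi_excl hp0 hp1 hZ1n (ha0n x) (ha0Z x)
            rw [← hax, ← hZeq, ← haz] at h3
            rw [ha1x]
            nlinarith [mul_nonneg (sub_nonneg.2 h1) hprod]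
        -- quadratic part
        have hQ : (∑ y ∈ Y, (∑ x ∈ W, B y x * a x) ^ 2) / Z
            ≤ p * ((∑ y ∈ Y, (∑ x ∈ W, B y x * a1 x) ^ 2) / Z1)
              + (1 - p) * ((∑ y ∈ Y, (∑ x ∈ W, B y x * a0 x) ^ 2) / Z0) := by
          rw [Finset.sum_div, Finset.sum_div, Finset.sum_div, Finset.mul_sum, Finset.mul_sum,
            ← Finset.sum_add_distrib]
          apply Finset.sum_le_sum
          intro y _
          have hlin : ∑ x ∈ W, B y x * a x
              = p * (∑ x ∈ W, B y x * a1 x) + (1 - p) * (∑ x ∈ W, B y x * a0 x) := by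
            rw [Finset.mul_sum, Finset.mul_sum, ← Finset.sum_add_distrib]
            apply Finset.sum_congr rfl
            intro x hx
            rw [haeq x hx]
            ring
          rw [hlin]
          have hu1 : Z1 = 0 → ∑ x ∈ W, B y x * a1 x = 0 := by
            intro h0
            apply Finset.sum_eq_zero
            intro x _
            have : a1 x = 0 := mass_zero_of_EE_zero hp0.le hp1.le (fun N _ => hh _) h0 x
            rw [this, mul_zero]
          have hu0 : Z0 = 0 → ∑ x ∈ W, B y x * a0 x = 0 := by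
            intro h0
            apply Finset.sum_eq_zero
            intro x _
            have : a0 x = 0 := mass_zero_of_EE_zero hp0.le hp1.le (fun N _ => hh _) h0 x
            rw [this, mul_zero]
          set u1 := ∑ x ∈ W, B y x * a1 x
          set u0 := ∑ x ∈ W, B y x * a0 x
          have ht := titu (x := p * u1) (y := (1 - p) * u0) (s := p * Z1) (t := (1 - p) * Z0)
            (by positivity) (by positivity)
            (fun h0 => by
              have : Z1 = 0 := by
                rcases mul_eq_zero.1 h0 with h | h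
                · linarith
                · exact h
              rw [hu1 this, mul_zero])
            (fun h0 => by
              have : Z0 = 0 := by
                rcases mul_eq_zero.1 h0 with h | h
                · linarith
                · exact h
              rw [hu0 this, mul_zero])
          rw [← hZeq] at ht
          have e1 : (p * u1) ^ 2 / (p * Z1) = p * (u1 ^ 2 / Z1) := by
            rw [mul_pow, pow_two p, mul_assoc, mul_div_mul_left _ _ hp0.ne', mul_div_assoc]
          have e0 : ((1 - p) * u0) ^ 2 / ((1 - p) * Z0) = (1 - p) * (u0 ^ 2 / Z0) := by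
            rw [mul_pow, pow_two (1 - p), mul_assoc, mul_div_mul_left _ _ hq.ne', mul_div_assoc]
          rw [e1, e0] at ht
          exact ht
        -- diagonal part
        have hD : ∑ x ∈ W, (∑ y ∈ Y, B y x ^ 2) * a x
            = p * (∑ x ∈ W, (∑ y ∈ Y, B y x ^ 2) * a1 x)
              + (1 - p) * (∑ x ∈ W, (∑ y ∈ Y, B y x ^ 2) * a0 x) := by
          rw [Finset.mul_sum, Finset.mul_sum, ← Finset.sum_add_distrib]
          apply Finset.sum_congr rfl
          intro x hx
          rw [haeq x hx]
          ring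
        have hS : ∑ x ∈ V, Psi p (a x) Z = ∑ x ∈ W, Psi p (a x) Z + Psi p (a z) Z :=
          (Finset.sum_erase_add V _ hz).symm
        rw [Finset.sum_add_distrib] at hPsi
        rw [Finset.sum_add_distrib, ← Finset.mul_sum, ← Finset.mul_sum] at hPsi
        have m1 := mul_le_mul_of_nonneg_left ih1 hp0.le
        have m0 := mul_le_mul_of_nonneg_left ih0 hq.le
        rw [hS, hD]
        set RW := ∑ x ∈ W, ∑ x' ∈ W, R x x'
        have hZR : p ^ 2 * Z * RW = p * (p ^ 2 * Z1 * RW) + (1 - p) * (p ^ 2 * Z0 * RW) := by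
          rw [hZeq]; ring
        rw [hZR]
        nlinarith
      -- sum over z
      have hsum := Finset.sum_le_sum key
      rw [Finset.sum_const, hV, nsmul_eq_mul] at hsum
      -- notation
      set Q := ∑ y ∈ Y, (∑ x ∈ V, B y x * a x) ^ 2 with hQdef
      set D := ∑ x ∈ V, (∑ y ∈ Y, B y x ^ 2) * a x with hDdef
      set D2 := ∑ x ∈ V, (∑ y ∈ Y, B y x ^ 2) * a x ^ 2 with hD2def
      set Rt := ∑ x ∈ V, ∑ z ∈ V, R x z with hRtdef
      set Raa := ∑ x ∈ V, ∑ z ∈ V, R x z * (a x * a z) with hRaadef
      have hmc : ((V.card : ℕ) : ℝ) = (m : ℝ) + 1 := by rw [hV]; push_cast; ring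
      have s1 : ∑ z ∈ V, ∑ x ∈ V.erase z, (∑ y ∈ Y, B y x * B y z - R x z) * (a x * a z / Z)
          = (Q - D2 - Raa) / Z := by
        have : ∀ z ∈ V, ∑ x ∈ V.erase z, (∑ y ∈ Y, B y x * B y z - R x z) * (a x * a z / Z)
            = (∑ y ∈ Y, (∑ x ∈ V, B y x * a x) * (B y z * a z)
              - (∑ y ∈ Y, B y z ^ 2) * a z ^ 2 - ∑ x ∈ V, R x z * (a x * a z)) / Z := by
          intro z hz
          rw [sum_erase_eq hz, hRd z]
          have e1 : ∑ x ∈ V, (∑ y ∈ Y, B y x * B y z - R x z) * (a x * a z / Z)
              = (∑ x ∈ V, (∑ y ∈ Y, B y x * B y z) * (a x * a z)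
                - ∑ x ∈ V, R x z * (a x * a z)) / Z := by
            rw [← Finset.sum_sub_distrib, Finset.sum_div]
            apply Finset.sum_congr rfl
            intro x _
            ring
          have e2 : ∑ x ∈ V, (∑ y ∈ Y, B y x * B y z) * (a x * a z)
              = ∑ y ∈ Y, (∑ x ∈ V, B y x * a x) * (B y z * a z) := by
            simp_rw [Finset.sum_mul]
            rw [Finset.sum_comm]
            apply Finset.sum_congr rfl
            intro y _
            apply Finset.sum_congr rfl
            intro x _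
            ring
          have e3 : ∑ y ∈ Y, B y z * B y z = ∑ y ∈ Y, B y z ^ 2 := by
            apply Finset.sum_congr rfl
            intro y _
            ring
          rw [e1, e2, e3]
          ring
        rw [Finset.sum_congr rfl this, ← Finset.sum_div, Finset.sum_sub_distrib,
          Finset.sum_sub_distrib]
        congr 2
        · congr 1
          rw [Finset.sum_comm, hQdef]
          apply Finset.sum_congr rfl
          intro y _
          rw [← Finset.mul_sum]
          ring
        · rw [hRaadef, Finset.sum_comm]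
      have s2 : ∑ z ∈ V, (∑ y ∈ Y, (∑ x ∈ V.erase z, B y x * a x) ^ 2)
          = ((m:ℝ) - 1) * Q + D2 := by
        have : ∀ z ∈ V, (∑ y ∈ Y, (∑ x ∈ V.erase z, B y x * a x) ^ 2)
            = Q - 2 * (∑ y ∈ Y, (∑ x ∈ V, B y x * a x) * (B y z * a z))
              + (∑ y ∈ Y, B y z ^ 2) * a z ^ 2 := by
          intro z hz
          rw [hQdef, Finset.mul_sum, Finset.sum_mul, ← Finset.sum_sub_distrib,
            ← Finset.sum_add_distrib]
          apply Finset.sum_congr rfl
          intro y _
          rw [sum_erase_eq hz]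
          ring
        rw [Finset.sum_congr rfl this, Finset.sum_add_distrib, Finset.sum_sub_distrib,
          Finset.sum_const, nsmul_eq_mul, hmc, ← Finset.mul_sum]
        have e : ∑ z ∈ V, ∑ y ∈ Y, (∑ x ∈ V, B y x * a x) * (B y z * a z) = Q := by
          rw [Finset.sum_comm, hQdef]
          apply Finset.sum_congr rfl
          intro y _
          rw [← Finset.mul_sum]
          ring
        rw [e]
        ring
      have s3 : ∑ z ∈ V, ∑ x ∈ V.erase z, (∑ y ∈ Y, B y x ^ 2) * a x = (m:ℝ) * D := by
        have : ∀ z ∈ V, ∑ x ∈ V.erase z, (∑ y ∈ Y, B y x ^ 2) * a x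
            = D - (∑ y ∈ Y, B y z ^ 2) * a z := fun z hz => sum_erase_eq hz _
        rw [Finset.sum_congr rfl this, Finset.sum_sub_distrib, Finset.sum_const, nsmul_eq_mul,
          hmc]
        ring
      have s4 : ∑ z ∈ V, ∑ x ∈ V.erase z, ∑ x' ∈ V.erase z, R x x' = ((m:ℝ) - 1) * Rt := by
        have : ∀ z ∈ V, ∑ x ∈ V.erase z, ∑ x' ∈ V.erase z, R x x'
            = Rt - ∑ x ∈ V, R x z - ∑ x' ∈ V, R z x' := by
          intro z hz
          rw [sum_erase_eq hz]
          have : ∑ x ∈ V, ∑ x' ∈ V.erase z, R x x' = Rt - ∑ x ∈ V, R x z := by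
            rw [hRtdef, ← Finset.sum_sub_distrib]
            apply Finset.sum_congr rfl
            intro x _
            exact sum_erase_eq hz _
          rw [this, sum_erase_eq hz, hRd z]
          ring
        rw [Finset.sum_congr rfl this, Finset.sum_sub_distrib, Finset.sum_sub_distrib,
          Finset.sum_const, nsmul_eq_mul, hmc]
        have e1 : ∑ z ∈ V, ∑ x ∈ V, R x z = Rt := by rw [hRtdef, Finset.sum_comm]
        rw [e1]
        ring
      -- expand hsum
      have hexp : ∑ z ∈ V, (∑ x ∈ V, Psi p (a x) Z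
            + ∑ x ∈ V.erase z, (∑ y ∈ Y, B y x * B y z - R x z) * (a x * a z / Z)
            + (1 / 2) * ((∑ y ∈ Y, (∑ x ∈ V.erase z, B y x * a x) ^ 2) / Z
              - p * ∑ x ∈ V.erase z, (∑ y ∈ Y, B y x ^ 2) * a x
              - p ^ 2 * Z * ∑ x ∈ V.erase z, ∑ x' ∈ V.erase z, R x x'))
          = ((m:ℝ) + 1) * ∑ x ∈ V, Psi p (a x) Z + (Q - D2 - Raa) / Z
            + (1 / 2) * ((((m:ℝ) - 1) * Q + D2) / Z - p * ((m:ℝ) * D)
              - p ^ 2 * Z * (((m:ℝ) - 1) * Rt)) := by
        rw [Finset.sum_add_distrib, Finset.sum_add_distrib, Finset.sum_const, nsmul_eq_mul, hmc,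
          s1, ← Finset.mul_sum, Finset.sum_sub_distrib, Finset.sum_sub_distrib, ← Finset.sum_div,
          s2, ← Finset.mul_sum, s3, ← Finset.mul_sum, s4]
      rw [hexp] at hsum
      push_cast at hsum
      -- bounds
      have hRaa : Raa ≤ p ^ 2 * Z ^ 2 * Rt := by
        rw [hRaadef, hRtdef, Finset.mul_sum]
        apply Finset.sum_le_sum
        intro x _
        rw [Finset.mul_sum]
        apply Finset.sum_le_sum
        intro z _
        have h1 : a x * a z ≤ (p * Z) * (p * Z) :=
          mul_le_mul (hap x) (hap z) (ha0 z) (by positivity)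
        nlinarith [mul_le_mul_of_nonneg_left h1 (hR x z)]
      have hRaa' : Raa / Z ≤ p ^ 2 * Z * Rt := by
        rw [div_le_iff₀ hZ]
        nlinarith
      have hD2 : D2 / Z ≤ p * D := by
        rw [div_le_iff₀ hZ, hD2def, hDdef, Finset.mul_sum, Finset.sum_mul]
        apply Finset.sum_le_sum
        intro x _
        have h1 : a x ^ 2 ≤ (p * Z) * a x := by nlinarith [hap x, ha0 x]
        have h2 : 0 ≤ ∑ y ∈ Y, B y x ^ 2 := Finset.sum_nonneg (fun y _ => sq_nonneg _)
        nlinarith [mul_le_mul_of_nonneg_left h1 h2]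
      have hm1 : (0:ℝ) < (m:ℝ) + 1 := by positivity
      have hfin : ((m:ℝ) + 1) * (∑ x ∈ V, Psi p (a x) Z
          + (1 / 2) * (Q / Z - p * D - p ^ 2 * Z * Rt)) ≤ ((m:ℝ) + 1) * Ent p V h := by
        refine le_trans ?_ hsum
        have e1 : (Q - D2 - Raa) / Z = Q / Z - D2 / Z - Raa / Z := by ring
        have e2 : (((m:ℝ) - 1) * Q + D2) / Z = ((m:ℝ) - 1) * (Q / Z) + D2 / Z := by ring
        rw [e1, e2]
        nlinarith
      exact le_of_mul_le_mul_left hfin hm1

end Pool.Agent.Q299.CY
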