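import Mathlib

/-!
Expectation over a `p`-random subset of a finite set.
-/

set_option linter.unusedSectionVars false

namespace Pool.Agent.Q299.CY

open Finset

variable {α β : Type*} [DecidableEq α] [DecidableEq β]

/-- Expectation of `f` over the random subset of `S` which keeps each element with
probability `p` independently. -/
noncomputable def EE (p : ℝ) (S : Finset α) (f : Finset α → ℝ) : ℝ :=
  ∑ G ∈ S.powerset, p ^ G.card * (1 - p) ^ (S.card - G.card) * f G

theorem EE_empty (p : ℝ) (f : Finset α → ℝ) : EE p ∅ f = f ∅ := by
  simp [EE]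

theorem EE_insert (p : ℝ) {a : α} {S : Finset α} (h : a ∉ S) (f : Finset α → ℝ) :
    EE p (insert a S) f = p * EE p S (fun G => f (insert a G)) + (1 - p) * EE p S f := by
  unfold EE
  rw [Finset.sum_powerset_insert h, add_comm, Finset.mul_sum, Finset.mul_sum]
  congr 1
  · apply Finset.sum_congr rfl
    intro G hG
    have hGS := Finset.mem_powerset.1 hG
    have haG : a ∉ G := fun h' => h (hGS h')
    rw [Finset.card_insert_of_notMem h, Finset.card_insert_of_notMem haG]
    have : S.card + 1 - (G.card + 1) = S.card - G.card := by omega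
    rw [this, pow_succ]
    ring
  · apply Finset.sum_congr rfl
    intro G hG
    have hGS := Finset.mem_powerset.1 hG
    have hc := Finset.card_le_card hGS
    rw [Finset.card_insert_of_notMem h]
    have : S.card + 1 - G.card = (S.card - G.card) + 1 := by omega
    rw [this, pow_succ]
    ring

theorem EE_congr {p : ℝ} {S : Finset α} {f g : Finset α → ℝ}
    (h : ∀ G ⊆ S, f G = g G) : EE p S f = EE p S g := by
  unfold EE
  apply Finset.sum_congr rfl
  intro G hG
  rw [h G (Finset.mem_powerset.1 hG)]

theorem EE_add (p : ℝ) (S : Finset α) (f g : Finset α → ℝ) :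
    EE p S (fun G => f G + g G) = EE p S f + EE p S g := by
  unfold EE
  rw [← Finset.sum_add_distrib]
  apply Finset.sum_congr rfl
  intro G _
  ring

theorem EE_sub (p : ℝ) (S : Finset α) (f g : Finset α → ℝ) :
    EE p S (fun G => f G - g G) = EE p S f - EE p S g := by
  unfold EE
  rw [← Finset.sum_sub_distrib]
  apply Finset.sum_congr rfl
  intro G _
  ring

theorem EE_mul_left (p c : ℝ) (S : Finset α) (f : Finset α → ℝ) :
    EE p S (fun G => c * f G) = c * EE p S f := by
  unfold EE
  rw [Finset.mul_sum]
  apply Finset.sum_congr rfl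
  intro G _
  ring

theorem EE_mul_right (p c : ℝ) (S : Finset α) (f : Finset α → ℝ) :
    EE p S (fun G => f G * c) = EE p S f * c := by
  unfold EE
  rw [Finset.sum_mul]
  apply Finset.sum_congr rfl
  intro G _
  ring

theorem EE_neg (p : ℝ) (S : Finset α) (f : Finset α → ℝ) :
    EE p S (fun G => - f G) = - EE p S f := by
  unfold EE
  rw [← Finset.sum_neg_distrib]
  apply Finset.sum_congr rfl
  intro G _
  ring

theorem EE_sum {ι : Type*} (p : ℝ) (S : Finset α) (T : Finset ι) (f : ι → Finset α → ℝ) :
    EE p S (fun G => ∑ i ∈ T, f i G) = ∑ i ∈ T, EE p S (f i) := by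
  unfold EE
  rw [Finset.sum_comm]
  apply Finset.sum_congr rfl
  intro G _
  rw [Finset.mul_sum]

theorem EE_one (p : ℝ) (S : Finset α) : EE p S (fun _ => 1) = 1 := by
  induction S using Finset.induction_on with
  | empty => simp [EE]
  | insert a S h ih => rw [EE_insert p h, ih]; ring

theorem EE_const (p c : ℝ) (S : Finset α) : EE p S (fun _ => c) = c := by
  have := EE_mul_left p c S (fun _ => 1)
  simp only [mul_one] at this
  rw [this, EE_one, mul_one]

theorem EE_nonneg {p : ℝ} (hp0 : 0 ≤ p) (hp1 : p ≤ 1) {S : Finset α} {f : Finset α → ℝ}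
    (h : ∀ G ⊆ S, 0 ≤ f G) : 0 ≤ EE p S f := by
  unfold EE
  apply Finset.sum_nonneg
  intro G hG
  have := h G (Finset.mem_powerset.1 hG)
  have h1 : 0 ≤ 1 - p := by linarith
  positivity

theorem EE_mono {p : ℝ} (hp0 : 0 ≤ p) (hp1 : p ≤ 1) {S : Finset α} {f g : Finset α → ℝ}
    (h : ∀ G ⊆ S, f G ≤ g G) : EE p S f ≤ EE p S g := by
  have := EE_nonneg hp0 hp1 (S := S) (f := fun G => g G - f G)
    (fun G hG => by have := h G hG; linarith)
  rw [EE_sub] at this
  linarith

theorem EE_eq_zero {p : ℝ} (hp0 : 0 < p) (hp1 : p < 1) {S : Finset α} {f : Finset α → ℝ}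
    (h : ∀ G ⊆ S, 0 ≤ f G) (h0 : EE p S f = 0) : ∀ G ⊆ S, f G = 0 := by
  intro G hG
  unfold EE at h0
  have h1 : 0 < 1 - p := by linarith
  have := (Finset.sum_eq_zero_iff_of_nonneg (fun G hG => by
    have := h G (Finset.mem_powerset.1 hG)
    positivity)).1 h0 G (Finset.mem_powerset.2 hG)
  rcases mul_eq_zero.1 this with h2 | h2
  · exfalso
    have : 0 < p ^ G.card * (1 - p) ^ (S.card - G.card) := by positivity
    linarith
  · exact h2

theorem EE_pos {p : ℝ} (hp0 : 0 < p) (hp1 : p < 1) {S : Finset α} {f : Finset α → ℝ}
    (h : ∀ G ⊆ S, 0 ≤ f G) {G₀ : Finset α} (hG₀ : G₀ ⊆ S) (h0 : 0 < f G₀) : 0 < EE p S f := by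
  rcases (EE_nonneg hp0.le hp1.le h).lt_or_eq with h1 | h1
  · exact h1
  · have := EE_eq_zero hp0 hp1 h h1.symm G₀ hG₀
    linarith

/-- Fubini for a disjoint union. -/
theorem EE_union (p : ℝ) {S T : Finset α} (h : Disjoint S T) (f : Finset α → ℝ) :
    EE p (S ∪ T) f = EE p S (fun G => EE p T (fun H => f (G ∪ H))) := by
  induction T using Finset.induction_on generalizing f with
  | empty => simp [EE_empty]
  | insert a T ha ih =>
    have haS : a ∉ S := fun h' => (Finset.disjoint_left.1 h h') (Finset.mem_insert_self a T)
    have hST : Disjoint S T := h.mono_right (Finset.subset_insert a T)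
    have haST : a ∉ S ∪ T := by simp [haS, ha]
    have : S ∪ insert a T = insert a (S ∪ T) := by simp
    rw [this, EE_insert p haST, ih hST, ih hST]
    have e1 : ∀ G, EE p (insert a T) (fun H => f (G ∪ H))
        = p * EE p T (fun H => f (insert a (G ∪ H))) + (1 - p) * EE p T (fun H => f (G ∪ H)) := by
      intro G
      rw [EE_insert p ha]
      congr 2
      apply EE_congr
      intro H _
      simp
    simp_rw [e1]
    rw [EE_add, EE_mul_left, EE_mul_left]

theorem EE_map (p : ℝ) (φ : α ↪ β) (S : Finset α) (f : Finset β → ℝ) :
    EE p (S.map φ) f = EE p S (fun G => f (G.map φ)) := by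
  induction S using Finset.induction_on generalizing f with
  | empty => simp [EE_empty]
  | insert a S ha ih =>
    have h1 : φ a ∉ S.map φ := by simpa using ha
    rw [Finset.map_insert, EE_insert p h1, EE_insert p ha, ih, ih]
    congr 2
    apply EE_congr
    intro G _
    rw [Finset.map_insert]

/-- Harris inequality. -/
theorem harris {p : ℝ} (hp0 : 0 ≤ p) (hp1 : p ≤ 1) (S : Finset α) {f g : Finset α → ℝ}
    (hf : Monotone f) (hg : Monotone g) :
    EE p S f * EE p S g ≤ EE p S (fun G => f G * g G) := by
  induction S using Finset.induction_on generalizing f g with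
  | empty => simp [EE_empty]
  | insert a S ha ih =>
    rw [EE_insert p ha, EE_insert p ha, EE_insert p ha]
    have hf1 : Monotone (fun G => f (insert a G)) :=
      fun G H h => hf (Finset.insert_subset_insert a h)
    have hg1 : Monotone (fun G => g (insert a G)) :=
      fun G H h => hg (Finset.insert_subset_insert a h)
    have i1 := ih hf1 hg1
    have i0 := ih hf hg
    have m1 : EE p S f ≤ EE p S (fun G => f (insert a G)) :=
      EE_mono hp0 hp1 (fun G _ => hf (Finset.subset_insert a G))
    have m2 : EE p S g ≤ EE p S (fun G => g (insert a G)) :=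
      EE_mono hp0 hp1 (fun G _ => hg (Finset.subset_insert a G))
    set A := EE p S (fun G => f (insert a G))
    set B := EE p S (fun G => g (insert a G))
    set C := EE p S f
    set D := EE p S g
    have h1 : 0 ≤ 1 - p := by linarith
    nlinarith [mul_nonneg (mul_nonneg hp0 h1) (mul_nonneg (sub_nonneg.2 m1) (sub_nonneg.2 m2)),
      mul_le_mul_of_nonneg_left i1 hp0, mul_le_mul_of_nonneg_left i0 h1]

/-- Harris inequality for an increasing and a decreasing function. -/
theorem harris_anti {p : ℝ} (hp0 : 0 ≤ p) (hp1 : p ≤ 1) (S : Finset α) {f g : Finset α → ℝ}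
    (hf : Monotone f) (hg : Antitone g) :
    EE p S (fun G => f G * g G) ≤ EE p S f * EE p S g := by
  have := harris hp0 hp1 S hf (g := fun G => - g G) (fun G H h => neg_le_neg (hg h))
  rw [EE_neg] at this
  have e : EE p S (fun G => f G * - g G) = - EE p S (fun G => f G * g G) := by
    rw [← EE_neg]
    apply EE_congr
    intro G _
    ring
  rw [e] at this
  linarith

/-- Probability that the random set contains a given set. -/
theorem EE_contains (p : ℝ) {S F : Finset α} (hF : F ⊆ S) :
    EE p S (fun G => if F ⊆ G then 1 else 0) = p ^ F.card := by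
  induction S using Finset.induction_on generalizing F with
  | empty =>
    have : F = ∅ := Finset.subset_empty.1 hF
    subst this
    simp [EE_empty]
  | insert a S ha ih =>
    rw [EE_insert p ha]
    by_cases haF : a ∈ F
    · have e1 : EE p S (fun G => if F ⊆ insert a G then (1:ℝ) else 0)
          = EE p S (fun G => if F.erase a ⊆ G then (1:ℝ) else 0) := by
        apply EE_congr
        intro G _
        have : F ⊆ insert a G ↔ F.erase a ⊆ G := Finset.subset_insert_iff
        simp only [this]
      have e0 : EE p S (fun G => if F ⊆ G then (1:ℝ) else 0) = 0 := by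
        have : EE p S (fun G => if F ⊆ G then (1:ℝ) else 0) = EE p S (fun _ => 0) := by
          apply EE_congr
          intro G hG
          have : ¬ F ⊆ G := fun h => ha (hG (h haF))
          simp [this]
        rw [this, EE_const]
      rw [e1, e0, ih (Finset.subset_insert_iff.1 hF), Finset.card_erase_of_mem haF]
      have hc : 0 < F.card := Finset.card_pos.2 ⟨a, haF⟩
      obtain ⟨m, hm⟩ : ∃ m, F.card = m + 1 := ⟨F.card - 1, by omega⟩
      rw [hm]
      simp [pow_succ]
      ring
    · have hFS : F ⊆ S := (Finset.subset_insert_iff_of_notMem haF).1 hF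
      have e1 : EE p S (fun G => if F ⊆ insert a G then (1:ℝ) else 0)
          = EE p S (fun G => if F ⊆ G then (1:ℝ) else 0) := by
        apply EE_congr
        intro G _
        have : F ⊆ insert a G ↔ F ⊆ G := Finset.subset_insert_iff_of_notMem haF
        simp only [this]
      rw [e1, ih hFS]
      ring

/-- Probability of containing a set which need not lie inside the ground set. -/
theorem EE_contains_le {p : ℝ} (hp0 : 0 ≤ p) (S F : Finset α) :
    EE p S (fun G => if F ⊆ G then 1 else 0) ≤ p ^ F.card := by
  by_cases hF : F ⊆ S
  · exact (EE_contains p hF).le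
  · have : EE p S (fun G => if F ⊆ G then (1:ℝ) else 0) = EE p S (fun _ => 0) := by
      apply EE_congr
      intro G hG
      have : ¬ F ⊆ G := fun h => hF (h.trans hG)
      simp [this]
    rw [this, EE_const]
    positivity

/-- Probability of avoiding a set. -/
theorem EE_avoid (p : ℝ) {S F : Finset α} (hF : F ⊆ S) :
    EE p S (fun G => if Disjoint F G then 1 else 0) = (1 - p) ^ F.card := by
  induction S using Finset.induction_on generalizing F with
  | empty =>
    have : F = ∅ := Finset.subset_empty.1 hF
    subst this
    simp [EE_empty]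
  | insert a S ha ih =>
    rw [EE_insert p ha]
    by_cases haF : a ∈ F
    · have e1 : EE p S (fun G => if Disjoint F (insert a G) then (1:ℝ) else 0) = 0 := by
        have : EE p S (fun G => if Disjoint F (insert a G) then (1:ℝ) else 0)
            = EE p S (fun _ => 0) := by
          apply EE_congr
          intro G _
          have : ¬ Disjoint F (insert a G) := fun h =>
            Finset.disjoint_left.1 h haF (Finset.mem_insert_self a G)
          simp [this]
        rw [this, EE_const]
      have e0 : EE p S (fun G => if Disjoint F G then (1:ℝ) else 0)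
          = EE p S (fun G => if Disjoint (F.erase a) G then (1:ℝ) else 0) := by
        apply EE_congr
        intro G hG
        have : Disjoint F G ↔ Disjoint (F.erase a) G := by
          constructor
          · intro h
            exact h.mono_left (Finset.erase_subset a F)
          · intro h
            rw [Finset.disjoint_left] at h ⊢
            intro x hx hxG
            by_cases hxa : x = a
            · subst hxa
              exact ha (hG hxG)
            · exact h (Finset.mem_erase.2 ⟨hxa, hx⟩) hxG
        simp only [this]
      rw [e1, e0, ih (Finset.subset_insert_iff.1 hF), Finset.card_erase_of_mem haF]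
      have hc : 0 < F.card := Finset.card_pos.2 ⟨a, haF⟩
      obtain ⟨m, hm⟩ : ∃ m, F.card = m + 1 := ⟨F.card - 1, by omega⟩
      rw [hm]
      simp [pow_succ]
      ring
    · have hFS : F ⊆ S := (Finset.subset_insert_iff_of_notMem haF).1 hF
      have e1 : EE p S (fun G => if Disjoint F (insert a G) then (1:ℝ) else 0)
          = EE p S (fun G => if Disjoint F G then (1:ℝ) else 0) := by
        apply EE_congr
        intro G _
        have : Disjoint F (insert a G) ↔ Disjoint F G := by
          simp [Finset.disjoint_insert_right, haF]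
        simp only [this]
      rw [e1, ih hFS]
      ring

/-- Exponential moment of the number of elements of `T` kept. -/
theorem EE_pow_inter (p c : ℝ) (S T : Finset α) :
    EE p S (fun G => c ^ (G ∩ T).card) = (1 + p * (c - 1)) ^ (S ∩ T).card := by
  induction S using Finset.induction_on with
  | empty => simp [EE_empty]
  | insert a S ha ih =>
    rw [EE_insert p ha]
    by_cases haT : a ∈ T
    · have e1 : EE p S (fun G => c ^ (insert a G ∩ T).card)
          = c * EE p S (fun G => c ^ (G ∩ T).card) := by
        rw [← EE_mul_left]
        apply EE_congr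
        intro G hG
        have h1 : insert a G ∩ T = insert a (G ∩ T) := Finset.insert_inter_of_mem haT
        have h2 : a ∉ G ∩ T := fun h => ha (hG (Finset.mem_inter.1 h).1)
        rw [h1, Finset.card_insert_of_notMem h2, pow_succ]
        ring
      have h1 : insert a S ∩ T = insert a (S ∩ T) := Finset.insert_inter_of_mem haT
      have h2 : a ∉ S ∩ T := fun h => ha (Finset.mem_inter.1 h).1
      rw [e1, ih, h1, Finset.card_insert_of_notMem h2, pow_succ]
      ring
    · have e1 : EE p S (fun G => c ^ (insert a G ∩ T).card)
          = EE p S (fun G => c ^ (G ∩ T).card) := by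
        apply EE_congr
        intro G _
        rw [Finset.insert_inter_of_notMem haT]
      rw [e1, Finset.insert_inter_of_notMem haT, ih]
      ring

end Pool.Agent.Q299.CY
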