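import Pool.Agent.Q299.CY.Ent

/-!
The hard-core lower bound.
-/

set_option linter.unusedSectionVars false

namespace Pool.Agent.Q299.CY

open Finset Classical

variable {α : Type*} [DecidableEq α]

/-- A density of hard-core type. -/
structure HCore (R : Finset α) (C : α → α → Prop) (h : Finset α → ℝ) : Prop where
  anti : Antitone h
  nn : ∀ N, 0 ≤ h N
  ins : ∀ y ∈ R, ∀ N ⊆ R, y ∉ N → (∀ x ∈ N, ¬ C x y) → h (insert y N) = h N
  zer : ∀ N ⊆ R, ∀ x ∈ N, ∀ y ∈ N, C x y → h N = 0
  symm : ∀ x y, C x y → C y x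
  irr : ∀ x, ¬ C x x

/-- Conflict neighbours. -/
noncomputable def cn (R : Finset α) (C : α → α → Prop) (v : α) : Finset α :=
  R.filter (fun y => C v y)

/-- Externally uncovered conflict neighbours. -/
noncomputable def unc (R : Finset α) (C : α → α → Prop) (v : α) (N : Finset α) : Finset α :=
  (cn R C v).filter (fun y => ∀ x ∈ N \ cn R C v, ¬ C x y)

variable {p : ℝ} {R : Finset α} {C : α → α → Prop} {h : Finset α → ℝ}

theorem hc_mass (hp0 : 0 < p) (hp1 : p < 1) (H : HCore R C h) {v : α} (hv : v ∈ R) :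
    mass p R h v = p * EE p R (fun N => if (∀ x ∈ N, ¬ C x v) then h N else 0) := by
  rw [mass_self p hv]
  congr 1
  have hcase : ∀ N ⊆ R.erase v, h (insert v N) = if (∀ x ∈ N, ¬ C x v) then h N else 0 := by
    intro N hN
    have hNR : N ⊆ R := hN.trans (Finset.erase_subset v R)
    have hvN : v ∉ N := fun h' => Finset.notMem_erase v R (hN h')
    split_ifs with h1
    · exact H.ins v hv N hNR hvN h1
    · push Not at h1
      obtain ⟨x, hx, hC⟩ := h1
      exact H.zer _ (Finset.insert_subset hv hNR) x (Finset.mem_insert_of_mem hx) v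
        (Finset.mem_insert_self v N) hC
  rw [EE_congr hcase]
  rw [EE_erase p hv (fun N => if (∀ x ∈ N, ¬ C x v) then h N else 0)]
  have e : EE p (R.erase v) (fun N => if (∀ x ∈ insert v N, ¬ C x v) then h (insert v N) else 0)
      = EE p (R.erase v) (fun N => if (∀ x ∈ N, ¬ C x v) then h N else 0) := by
    apply EE_congr
    intro N hN
    have h1 : (∀ x ∈ insert v N, ¬ C x v) ↔ (∀ x ∈ N, ¬ C x v) := by
      simp only [Finset.forall_mem_insert]
      exact ⟨fun h => h.2, fun h => ⟨H.irr v, h⟩⟩
    by_cases h2 : ∀ x ∈ N, ¬ C x v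
    · rw [if_pos (h1.2 h2), if_pos h2, hcase N hN, if_pos h2]
    · rw [if_neg (fun h3 => h2 (h1.1 h3)), if_neg h2]
  rw [e]
  ring

theorem EE_split (p : ℝ) {R S : Finset α} (hS : S ⊆ R) (f : Finset α → ℝ) :
    EE p R f = EE p (R \ S) (fun J => EE p S (fun T => f (J ∪ T))) := by
  rw [← EE_union p Finset.sdiff_disjoint, Finset.sdiff_union_of_subset hS]

theorem hc_lower (hp0 : 0 < p) (hp1 : p < 1) (H : HCore R C h) {v : α} (hv : v ∈ R) :
    p * EE p R (fun N => h N * (1 - p) ^ ((unc R C v N).card)) ≤ mass p R h v := by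
  have hq : 0 < 1 - p := by linarith
  rw [hc_mass hp0 hp1 H hv]
  apply mul_le_mul_of_nonneg_left _ hp0.le
  set S := cn R C v with hS
  have hSR : S ⊆ R := Finset.filter_subset _ _
  rw [EE_split p hSR, EE_split p hSR]
  apply EE_mono hp0.le hp1.le
  intro J hJ
  have hJR : J ⊆ R := hJ.trans Finset.sdiff_subset
  have hJS : Disjoint J S := Finset.disjoint_of_subset_left hJ Finset.sdiff_disjoint
  have hJT : ∀ T ⊆ S, (J ∪ T) \ S = J := by
    intro T hT
    ext z
    simp only [Finset.mem_sdiff, Finset.mem_union]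
    constructor
    · rintro ⟨h1 | h1, h2⟩
      · exact h1
      · exact absurd (hT h1) h2
    · intro h1
      exact ⟨Or.inl h1, fun h2 => Finset.disjoint_left.1 hJS h1 h2⟩
  set U := S.filter (fun y => ∀ x ∈ J, ¬ C x y) with hU
  have hunc : ∀ T ⊆ S, unc R C v (J ∪ T) = U := by
    intro T hT
    unfold unc
    rw [← hS, hJT T hT]
  have hUS : U ⊆ S := Finset.filter_subset _ _
  -- right side
  have hright : EE p S (fun T => if (∀ x ∈ J ∪ T, ¬ C x v) then h (J ∪ T) else 0)
      = h J * (1 - p) ^ S.card := by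
    have : EE p S (fun T => if (∀ x ∈ J ∪ T, ¬ C x v) then h (J ∪ T) else 0)
        = EE p S (fun T => h J * (if Disjoint S T then 1 else 0)) := by
      apply EE_congr
      intro T hT
      by_cases h1 : Disjoint S T
      · have hT0 : T = ∅ := by
          rw [← Finset.disjoint_self_iff_empty]
          exact Finset.disjoint_of_subset_left hT h1
        subst hT0
        rw [if_pos h1, if_pos, Finset.union_empty, mul_one]
        intro x hx hC
        rw [Finset.union_empty] at hx
        exact Finset.disjoint_left.1 hJS hx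
          (Finset.mem_filter.2 ⟨hJR hx, H.symm _ _ hC⟩)
      · rw [if_neg h1, mul_zero, if_neg]
        intro h2
        apply h1
        rw [Finset.disjoint_left]
        intro a haS haT
        exact h2 a (Finset.mem_union_right _ haT) (H.symm _ _ (Finset.mem_filter.1 haS).2)
    rw [this, EE_mul_left, EE_avoid p (Finset.Subset.refl S)]
  rw [hright]
  -- left side
  have hleft : EE p S (fun T => h (J ∪ T) * (1 - p) ^ ((unc R C v (J ∪ T)).card))
      ≤ EE p S (fun T => (h J * (1 - p) ^ U.card) * (if Disjoint (S \ U) T then 1 else 0)) := by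
    apply EE_mono hp0.le hp1.le
    intro T hT
    rw [hunc T hT]
    by_cases h1 : Disjoint (S \ U) T
    · rw [if_pos h1, mul_one]
      exact mul_le_mul_of_nonneg_right (H.anti Finset.subset_union_left) (by positivity)
    · rw [if_neg h1, mul_zero]
      rw [Finset.not_disjoint_iff] at h1
      obtain ⟨y, hy1, hy2⟩ := h1
      rw [Finset.mem_sdiff, hU, Finset.mem_filter] at hy1
      obtain ⟨hyS, hyU⟩ := hy1
      have : ∃ x ∈ J, C x y := by
        by_contra h3
        push Not at h3
        exact hyU ⟨hyS, h3⟩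
      obtain ⟨x, hx, hC⟩ := this
      rw [H.zer (J ∪ T) (Finset.union_subset hJR (hT.trans hSR)) x
        (Finset.mem_union_left _ hx) y (Finset.mem_union_right _ hy2) hC, zero_mul]
  refine hleft.trans ?_
  rw [EE_mul_left, EE_avoid p Finset.sdiff_subset, mul_assoc, ← pow_add]
  have : U.card + (S \ U).card = S.card := by
    rw [add_comm]; exact Finset.card_sdiff_add_card_eq_card hUS
  rw [this]

theorem hc_exp (hp0 : 0 < p) (hp1 : p < 1) (H : HCore R C h) (v : α) :
    EE p R (fun N => h N * ((unc R C v N).card : ℝ))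
      ≤ ∑ y ∈ cn R C v, (mass p R h y / p
        + p * (((cn R C v).filter (fun y' => C y y')).card : ℝ) * EE p R h) := by
  have e : ∀ N, h N * ((unc R C v N).card : ℝ)
      = ∑ y ∈ cn R C v, (if y ∈ unc R C v N then h N else 0) := by
    intro N
    rw [Finset.sum_ite_mem]
    have : cn R C v ∩ unc R C v N = unc R C v N :=
      Finset.inter_eq_right.2 (Finset.filter_subset _ _)
    rw [this, Finset.sum_const, nsmul_eq_mul, mul_comm]
  simp_rw [e]
  rw [EE_sum]
  apply Finset.sum_le_sum
  intro y hy
  have hyR : y ∈ R := (Finset.mem_filter.1 hy).1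
  have hb : EE p R (fun N => if y ∈ unc R C v N then h N else 0)
      ≤ EE p R (fun N => (if (∀ x ∈ N, ¬ C x y) then h N else 0)
        + ∑ y' ∈ (cn R C v).filter (fun y' => C y y'), (if y' ∈ N then h N else 0)) := by
    apply EE_mono hp0.le hp1.le
    intro N hN
    have hnn : 0 ≤ ∑ y' ∈ (cn R C v).filter (fun y' => C y y'), (if y' ∈ N then h N else 0) :=
      Finset.sum_nonneg (fun y' _ => by split_ifs; exacts [H.nn N, le_refl _])
    by_cases h1 : ∀ x ∈ N, ¬ C x y
    · rw [if_pos h1]
      split_ifs
      · linarith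
      · linarith [H.nn N]
    · rw [if_neg h1, zero_add]
      by_cases h2 : y ∈ unc R C v N
      · rw [if_pos h2]
        push Not at h1
        obtain ⟨x, hx, hC⟩ := h1
        have hxS : x ∈ cn R C v := by
          by_contra h3
          exact (Finset.mem_filter.1 h2).2 x (Finset.mem_sdiff.2 ⟨hx, h3⟩) hC
        have := Finset.single_le_sum (f := fun y' => if y' ∈ N then h N else 0)
          (fun y' _ => by
            show (0:ℝ) ≤ if y' ∈ N then h N else 0
            split_ifs; exacts [H.nn N, le_refl _])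
          (Finset.mem_filter.2 ⟨hxS, H.symm _ _ hC⟩ :
            x ∈ (cn R C v).filter (fun y' => C y y'))
        simpa [hx] using this
      · rw [if_neg h2]
        exact hnn
  refine hb.trans ?_
  rw [EE_add, EE_sum]
  have h1 : EE p R (fun N => if (∀ x ∈ N, ¬ C x y) then h N else 0) = mass p R h y / p := by
    rw [hc_mass hp0 hp1 H hyR]
    field_simp
  rw [h1]
  have h2 : ∑ y' ∈ (cn R C v).filter (fun y' => C y y'),
      EE p R (fun N => if y' ∈ N then h N else 0)
      ≤ ∑ y' ∈ (cn R C v).filter (fun y' => C y y'), p * EE p R h := by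
    apply Finset.sum_le_sum
    intro y' _
    exact mass_le_p hp0.le hp1.le H.anti H.nn y'
  rw [Finset.sum_const, nsmul_eq_mul] at h2
  linarith

end Pool.Agent.Q299.CY
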