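import Pool.Agent.Q299.CY.SW2
import Pool.Agent.Q299.CY.HC

/-!
Graphs as sets of unordered pairs, even cycles, conflicts.
-/

set_option linter.unusedSectionVars false

namespace Pool.Agent.Q299.CY

open Finset Classical

variable {V : Type*} [Fintype V] [DecidableEq V]

/-- The pairs inside `U`. -/
noncomputable def EU (U : Finset V) : Finset (Sym2 V) :=
  Finset.univ.filter (fun e => ¬ e.IsDiag ∧ ∀ a ∈ e, a ∈ U)

theorem mem_EU {U : Finset V} {e : Sym2 V} : e ∈ EU U ↔ ¬ e.IsDiag ∧ ∀ a ∈ e, a ∈ U := by
  simp [EU]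

theorem mk_mem_EU {U : Finset V} {x y : V} : s(x, y) ∈ EU U ↔ x ≠ y ∧ x ∈ U ∧ y ∈ U := by
  simp [mem_EU]

theorem EU_mono {U W : Finset V} (h : U ⊆ W) : EU U ⊆ EU W := by
  intro e he
  rw [mem_EU] at he ⊢
  exact ⟨he.1, fun a ha => h (he.2 a ha)⟩

theorem mk_right_inj {x y v : V} (h : s(x, v) = s(y, v)) : x = y := by
  rw [Sym2.eq_iff] at h
  rcases h with h | h
  · exact h.1
  · exact h.1.trans h.2

/-- The embedding `x ↦ s(x, v)`. -/
def emb (v : V) : V ↪ Sym2 V := ⟨fun x => s(x, v), fun _ _ h => mk_right_inj h⟩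

theorem emb_apply (v x : V) : emb v x = s(x, v) := rfl

/-- The star. -/
def star (v : V) (N : Finset V) : Finset (Sym2 V) := N.map (emb v)

theorem mk_mem_star {v x : V} {N : Finset V} : s(x, v) ∈ star v N ↔ x ∈ N := by
  unfold star
  rw [Finset.mem_map]
  constructor
  · rintro ⟨y, hy, h⟩
    rw [emb_apply] at h
    have : y = x := mk_right_inj h
    exact this ▸ hy
  · intro h
    exact ⟨x, h, rfl⟩

theorem mem_star {v : V} {e : Sym2 V} {N : Finset V} : e ∈ star v N ↔ ∃ x ∈ N, e = s(x, v) := by
  unfold star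
  rw [Finset.mem_map]
  constructor
  · rintro ⟨y, hy, h⟩
    exact ⟨y, hy, h.symm⟩
  · rintro ⟨y, hy, h⟩
    exact ⟨y, hy, h.symm⟩

theorem star_mono {v : V} {N M : Finset V} (h : N ⊆ M) : star v N ⊆ star v M :=
  Finset.map_subset_map.2 h

theorem star_insert (v x : V) (N : Finset V) : star v (insert x N) = insert s(x, v) (star v N) := by
  unfold star
  rw [Finset.map_insert]
  rfl

theorem EU_insert {v : V} {U : Finset V} (hv : v ∉ U) : EU (insert v U) = EU U ∪ star v U := by
  ext e
  rw [Finset.mem_union, mem_star]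
  induction e using Sym2.ind with
  | _ x y =>
    rw [mk_mem_EU, mk_mem_EU]
    constructor
    · rintro ⟨h1, h2, h3⟩
      rcases Finset.mem_insert.1 h2 with h4 | h4
      · rcases Finset.mem_insert.1 h3 with h5 | h5
        · exact absurd (h4.trans h5.symm) h1
        · exact Or.inr ⟨y, h5, by rw [h4, Sym2.eq_swap]⟩
      · rcases Finset.mem_insert.1 h3 with h5 | h5
        · exact Or.inr ⟨x, h4, by rw [h5]⟩
        · exact Or.inl ⟨h1, h4, h5⟩
    · rintro (⟨h1, h2, h3⟩ | ⟨z, hz, h⟩)
      · exact ⟨h1, Finset.mem_insert_of_mem h2, Finset.mem_insert_of_mem h3⟩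
      · have hzv : z ≠ v := fun h' => hv (h' ▸ hz)
        rw [Sym2.eq_iff] at h
        rcases h with ⟨rfl, rfl⟩ | ⟨rfl, rfl⟩
        · exact ⟨hzv, Finset.mem_insert_of_mem hz, Finset.mem_insert_self _ _⟩
        · exact ⟨hzv.symm, Finset.mem_insert_self _ _, Finset.mem_insert_of_mem hz⟩

theorem EU_star_disjoint {v : V} {U : Finset V} (hv : v ∉ U) (N : Finset V) :
    Disjoint (EU U) (star v N) := by
  rw [Finset.disjoint_left]
  intro e he hs
  obtain ⟨x, _, rfl⟩ := mem_star.1 hs
  exact hv (mk_mem_EU.1 he).2.2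

theorem EE_star (p : ℝ) (v : V) (U : Finset V) (f : Finset (Sym2 V) → ℝ) :
    EE p (star v U) f = EE p U (fun N => f (star v N)) := EE_map p (emb v) U f

theorem EU_empty : EU (∅ : Finset V) = ∅ := by
  ext e
  induction e using Sym2.ind with
  | _ x y => simp [mk_mem_EU]

/-- Vertices of a nontrivial walk are covered by its edges. -/
theorem mem_edg_of_mem {x : V} {l : List V} (hl : l ≠ []) {a : V} (ha : a ∈ x :: l) :
    ∃ e ∈ edg x l, a ∈ e := by
  induction l generalizing x with
  | nil => exact absurd rfl hl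
  | cons y l ih =>
    rcases List.mem_cons.1 ha with rfl | ha
    · exact ⟨s(a, y), by simp [edg], by simp⟩
    · cases l with
      | nil =>
        have : a = y := by simpa using ha
        subst this
        exact ⟨s(x, a), by simp [edg], by simp⟩
      | cons z l =>
        obtain ⟨e, he, hae⟩ := ih (x := y) (by simp) ha
        exact ⟨e, by simp only [edg, Finset.mem_insert] at he ⊢; tauto, hae⟩

/-- `G` contains a cycle of length `2 * k`. -/
def Cyc (k : ℕ) (G : Finset (Sym2 V)) : Prop :=
  ∃ f : ZMod (2 * k) → V, Function.Injective f ∧ ∀ i, s(f i, f (i + 1)) ∈ G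

theorem Cyc_mono {k : ℕ} {G H : Finset (Sym2 V)} (h : G ⊆ H) (hG : Cyc k G) : Cyc k H := by
  obtain ⟨f, hf, h1⟩ := hG
  exact ⟨f, hf, fun i => h (h1 i)⟩

/-- Indicator of being free of cycles of length `2 * k`. -/
noncomputable def aA (k : ℕ) (G : Finset (Sym2 V)) : ℝ := if Cyc k G then 0 else 1

theorem aA_anti (k : ℕ) : Antitone (aA k : Finset (Sym2 V) → ℝ) := by
  intro G H h
  unfold aA
  by_cases h1 : Cyc k G
  · rw [if_pos (Cyc_mono h h1), if_pos h1]
  · rw [if_neg h1]
    split_ifs <;> norm_num

theorem aA_nonneg (k : ℕ) (G : Finset (Sym2 V)) : 0 ≤ aA k G := by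
  unfold aA; split_ifs <;> norm_num

theorem aA_le_one (k : ℕ) (G : Finset (Sym2 V)) : aA k G ≤ 1 := by
  unfold aA; split_ifs <;> norm_num

theorem aA_empty (k : ℕ) : aA k (∅ : Finset (Sym2 V)) = 1 := by
  unfold aA
  rw [if_neg]
  rintro ⟨f, _, h⟩
  exact absurd (h 0) (Finset.notMem_empty _)

theorem xi_aA (k : ℕ) (G : Finset (Sym2 V)) : xi (aA k G) = 0 := by
  unfold aA; split_ifs <;> simp [xi]

theorem getElem_edg (x : V) (l : List V) (d : V) (i : ℕ) (hi : i < l.length) :
    s((x :: l).getD i d, (x :: l).getD (i + 1) d) ∈ edg x l := by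
  induction l generalizing x i with
  | nil => simp at hi
  | cons y l ih =>
    cases i with
    | zero => simp [edg]
    | succ i =>
      have := ih y i (by simpa using hi)
      simp only [edg, Finset.mem_insert]
      right
      simpa using this

theorem getD_lst (x : V) (l : List V) (d : V) : (x :: l).getD l.length d = lst x l := by
  induction l generalizing x with
  | nil => rfl
  | cons y l ih => simpa [lst] using ih y

/-- Closing a path through a further vertex gives a cycle. -/
theorem cyc_of_path {k : ℕ} (hk : 2 ≤ k) {u y : V} {l : List V} {G : Finset (Sym2 V)}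
    (hlen : l.length = 2 * k - 2) (hn : (u :: y :: l).Nodup) (he : edg y l ⊆ G)
    (h1 : s(y, u) ∈ G) (h2 : s(lst y l, u) ∈ G) : Cyc k G := by
  have : NeZero (2 * k) := ⟨by omega⟩
  set m := u :: y :: l with hm
  have hml : m.length = 2 * k := by simp [hm, hlen]; omega
  refine ⟨fun i => m.getD i.val u, ?_, ?_⟩
  · intro i j hij
    have hi := ZMod.val_lt i
    have hj := ZMod.val_lt j
    simp only at hij
    rw [List.getD_eq_getElem _ _ (by omega), List.getD_eq_getElem _ _ (by omega)] at hij
    have := (List.Nodup.getElem_inj_iff hn).1 hij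
    exact ZMod.val_injective _ this
  · intro i
    have hi := ZMod.val_lt i
    by_cases h : i.val + 1 < 2 * k
    · have hv : (i + 1).val = i.val + 1 := by
        have h1k : (1 : ZMod (2 * k)).val = 1 := by
          have : Fact (1 < 2 * k) := ⟨by omega⟩
          exact ZMod.val_one _
        rw [ZMod.val_add_of_lt (by rw [h1k]; exact h), h1k]
      simp only
      rw [hv]
      have := getElem_edg u (y :: l) u i.val (by simp [hlen]; omega)
      have hsub : edg u (y :: l) ⊆ G := by
        simp only [edg]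
        exact Finset.insert_subset (by rw [Sym2.eq_swap]; exact h1) he
      exact hsub this
    · have hv0 : i.val = 2 * k - 1 := by omega
      have hv : i + 1 = 0 := by
        have : i = ((2 * k - 1 : ℕ) : ZMod (2 * k)) := by
          rw [← hv0, ZMod.natCast_zmod_val]
        rw [this]
        have h3 : ((2 * k - 1 : ℕ) : ZMod (2 * k)) + 1 = ((2 * k - 1 + 1 : ℕ) : ZMod (2 * k)) := by
          push_cast; ring
        rw [h3]
        have : 2 * k - 1 + 1 = 2 * k := by omega
        rw [this, ZMod.natCast_self]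
      simp only
      rw [hv, hv0]
      have e1 : m.getD (2 * k - 1) u = lst y l := by
        have := getD_lst u (y :: l) u
        have hl : (y :: l).length = 2 * k - 1 := by simp [hlen]; omega
        rw [hl] at this
        exact this
      rw [e1]
      have e2 : m.getD (0 : ZMod (2 * k)).val u = u := by
        rw [ZMod.val_zero]
        rfl
      rw [e2]
      exact h2

/-- Conflicts. -/
def conf (k : ℕ) (H : Finset (Sym2 V)) (y z : V) : Prop :=
  ∃ l : List V, l.length = 2 * k - 2 ∧ (y :: l).Nodup ∧ edg y l ⊆ H ∧ lst y l = z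

theorem conf_symm {k : ℕ} {H : Finset (Sym2 V)} {y z : V} (h : conf k H y z) : conf k H z y := by
  obtain ⟨l, h1, h2, h3, h4⟩ := h
  obtain ⟨l', g1, g2, g3, g4, _⟩ := exists_reverse h2
  rw [h4] at g2 g3 g4
  exact ⟨l', by omega, g2, by rw [g3]; exact h3, g4⟩

theorem conf_irr {k : ℕ} (hk : 2 ≤ k) {H : Finset (Sym2 V)} (y : V) : ¬ conf k H y y := by
  rintro ⟨l, h1, h2, _, h4⟩
  have hl : l ≠ [] := by
    intro h
    rw [h] at h1
    simp at h1
    omega
  have := lst_mem_tail (x := y) hl
  rw [h4] at this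
  exact (List.nodup_cons.1 h2).1 this

theorem conf_mono {k : ℕ} {H G : Finset (Sym2 V)} (hHG : H ⊆ G) {y z : V} (h : conf k H y z) :
    conf k G y z := by
  obtain ⟨l, h1, h2, h3, h4⟩ := h
  exact ⟨l, h1, h2, h3.trans hHG, h4⟩

/-- Two conflicting neighbours give a cycle. -/
theorem cyc_of_conf {k : ℕ} (hk : 2 ≤ k) {u : V} {U N : Finset V} {H : Finset (Sym2 V)}
    (hu : u ∉ U) (hH : H ⊆ EU U) {x y : V} (hx : x ∈ N) (hy : y ∈ N)
    (h : conf k H x y) : Cyc k (H ∪ star u N) := by
  obtain ⟨l, h1, h2, h3, h4⟩ := h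
  have hl : l ≠ [] := by
    intro h
    rw [h] at h1
    simp at h1
    omega
  refine cyc_of_path hk (u := u) (y := x) (l := l) h1 ?_ ?_ ?_ ?_
  · refine List.nodup_cons.2 ⟨?_, h2⟩
    intro hmem
    obtain ⟨e, he, hue⟩ := mem_edg_of_mem hl hmem
    exact hu ((mem_EU.1 (hH (h3 he))).2 u hue)
  · exact h3.trans Finset.subset_union_left
  · exact Finset.mem_union_right _ (mk_mem_star.2 hx)
  · rw [h4]
    exact Finset.mem_union_right _ (mk_mem_star.2 hy)

theorem range_edg (g : ℕ → V) (j L : ℕ) {H : Finset (Sym2 V)}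
    (h : ∀ i, j ≤ i → i < j + L → s(g i, g (i + 1)) ∈ H) :
    edg (g j) ((List.range' (j + 1) L).map g) ⊆ H := by
  induction L generalizing j with
  | zero => simp [edg]
  | succ L ih =>
    rw [List.range'_succ, List.map_cons]
    simp only [edg]
    refine Finset.insert_subset (h j le_rfl (by omega)) (ih (j + 1) ?_)
    intro i h1 h2
    exact h i (by omega) (by omega)

theorem range_lst (g : ℕ → V) (j L : ℕ) :
    lst (g j) ((List.range' (j + 1) L).map g) = g (j + L) := by
  induction L generalizing j with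
  | zero => rfl
  | succ L ih =>
    rw [List.range'_succ, List.map_cons]
    simp only [lst]
    rw [ih]
    congr 1
    omega

/-- Adding an edge at `u` can only create a cycle through a conflict. -/
theorem no_new_cyc {k : ℕ} (hk : 2 ≤ k) {u : V} {U N : Finset V} {H : Finset (Sym2 V)}
    (hu : u ∉ U) (hH : H ⊆ EU U) {y : V} (hyU : y ∈ U) (hyN : ∀ x ∈ N, ¬ conf k H x y)
    (h : Cyc k (H ∪ star u (insert y N))) : Cyc k (H ∪ star u N) := by
  have : NeZero (2 * k) := ⟨by omega⟩
  have hins : H ∪ star u (insert y N) = insert s(y, u) (H ∪ star u N) := by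
    rw [star_insert, Finset.union_insert]
  -- normal form
  have key : ∀ f : ZMod (2 * k) → V, Function.Injective f →
      (∀ i, s(f i, f (i + 1)) ∈ H ∪ star u (insert y N)) → f 0 = u → f 1 = y → False := by
    intro f hf hadj h0 h1
    set g : ℕ → V := fun i => f (i : ZMod (2 * k)) with hg
    have hinj : ∀ i j : ℕ, i < 2 * k → j < 2 * k → g i = g j → i = j := by
      intro i j hi hj hij
      have := hf hij
      have h2 := congrArg ZMod.val this
      rwa [ZMod.val_natCast_of_lt hi, ZMod.val_natCast_of_lt hj] at h2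
    have hg0 : g 0 = u := by simp [hg, h0]
    have hg1 : g 1 = y := by simp [hg, h1]
    have hgadj : ∀ i : ℕ, s(g i, g (i + 1)) ∈ H ∪ star u (insert y N) := by
      intro i
      have := hadj (i : ZMod (2 * k))
      simp only [hg]
      push_cast
      exact this
    have hg2k : g (2 * k) = u := by
      simp only [hg]
      rw [ZMod.natCast_self, h0]
    -- inner edges are in H
    have hinner : ∀ i, 1 ≤ i → i < 1 + (2 * k - 2) → s(g i, g (i + 1)) ∈ H := by
      intro i hi1 hi2
      rcases Finset.mem_union.1 (hgadj i) with h | h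
      · exact h
      · exfalso
        obtain ⟨x, _, hx⟩ := mem_star.1 h
        have h3 : u ∈ s(g i, g (i + 1)) := by rw [hx]; simp
        rw [Sym2.mem_iff] at h3
        rcases h3 with h3 | h3
        · have := hinj 0 i (by omega) (by omega) (hg0.trans h3)
          omega
        · have := hinj 0 (i + 1) (by omega) (by omega) (hg0.trans h3)
          omega
    set z := g (2 * k - 1) with hz
    have hzN : z ∈ N := by
      have h3 := hgadj (2 * k - 1)
      have e : 2 * k - 1 + 1 = 2 * k := by omega
      rw [e, hg2k] at h3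
      rcases Finset.mem_union.1 h3 with h3 | h3
      · exact absurd (mk_mem_EU.1 (hH h3)).2.2 hu
      · have h4 := mk_mem_star.1 h3
        rcases Finset.mem_insert.1 h4 with h4 | h4
        · exfalso
          have := hinj (2 * k - 1) 1 (by omega) (by omega) (h4.trans hg1.symm)
          omega
        · exact h4
    refine hyN z hzN (conf_symm ⟨(List.range' 2 (2 * k - 2)).map g, by simp, ?_, ?_, ?_⟩)
    · have e1 : y :: (List.range' 2 (2 * k - 2)).map g = (List.range' 1 (2 * k - 1)).map g := by
        have : 2 * k - 1 = (2 * k - 2) + 1 := by omega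
        rw [this, List.range'_succ, List.map_cons, hg1]
      rw [e1]
      rw [List.nodup_map_iff_inj_on (List.nodup_range' (step := 1) (by omega))]
      intro a ha b hb hab
      rw [List.mem_range'_1] at ha hb
      exact hinj a b (by omega) (by omega) hab
    · have := range_edg g 1 (2 * k - 2) hinner
      rwa [hg1] at this
    · have := range_lst g 1 (2 * k - 2)
      rw [hg1] at this
      rw [this, hz]
      congr 1
      omega
  obtain ⟨f, hf, hadj⟩ := h
  by_cases hex : ∃ i, s(f i, f (i + 1)) = s(y, u)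
  · exfalso
    obtain ⟨i, hi⟩ := hex
    rw [Sym2.eq_iff] at hi
    rcases hi with ⟨h1, h2⟩ | ⟨h1, h2⟩
    · -- f i = y, f (i+1) = u : reflect
      refine key (fun j => f (i + 1 - j)) ?_ ?_ ?_ ?_
      · intro a b hab
        have := hf hab
        exact sub_right_injective this
      · intro j
        have := hadj (i + 1 - (j + 1))
        have e : i + 1 - (j + 1) + 1 = i + 1 - j := by ring
        rw [e, Sym2.eq_swap] at this
        exact this
      · rw [sub_zero]; exact h2
      · rw [add_sub_cancel_right]; exact h1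
    · refine key (fun j => f (i + j)) ?_ ?_ ?_ ?_
      · intro a b hab
        have := hf hab
        exact add_left_cancel this
      · intro j
        have := hadj (i + j)
        rw [add_assoc] at this
        exact this
      · rw [add_zero]; exact h1
      · exact h2
  · push Not at hex
    refine ⟨f, hf, fun i => ?_⟩
    have := hadj i
    rw [hins, Finset.mem_insert] at this
    rcases this with h | h
    · exact absurd h (hex i)
    · exact h

/-- The star density is of hard-core type. -/
theorem hcore_star {k : ℕ} (hk : 2 ≤ k) {u : V} {U : Finset V} {H : Finset (Sym2 V)}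
    (hu : u ∉ U) (hH : H ⊆ EU U) :
    HCore U (conf k H) (fun N => aA k (H ∪ star u N)) where
  anti := by
    intro N M h
    exact aA_anti k (Finset.union_subset_union_right (star_mono h))
  nn := fun N => aA_nonneg k _
  ins := by
    intro y hy N _ _ hN
    unfold aA
    by_cases h1 : Cyc k (H ∪ star u N)
    · rw [if_pos h1, if_pos]
      exact Cyc_mono (Finset.union_subset_union_right (star_mono (Finset.subset_insert y N))) h1
    · rw [if_neg h1, if_neg]
      intro h2
      exact h1 (no_new_cyc hk hu hH hy hN h2)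
  zer := by
    intro N _ x hx y hy hC
    unfold aA
    rw [if_pos (cyc_of_conf hk hu hH hx hy hC)]
  symm := fun x y => conf_symm
  irr := fun x => conf_irr hk x

/-- The relabelling embedding. -/
def pm (σ : Equiv.Perm V) : Sym2 V ↪ Sym2 V := ⟨Sym2.map σ, Sym2.map.injective σ.injective⟩

theorem pm_mk (σ : Equiv.Perm V) (x y : V) : pm σ s(x, y) = s(σ x, σ y) := rfl

theorem mk_mem_pm (σ : Equiv.Perm V) {x y : V} {G : Finset (Sym2 V)} :
    s(σ x, σ y) ∈ G.map (pm σ) ↔ s(x, y) ∈ G := by
  rw [← pm_mk, Finset.mem_map']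

theorem pm_symm (σ : Equiv.Perm V) (G : Finset (Sym2 V)) : (G.map (pm σ)).map (pm σ.symm) = G := by
  ext e
  induction e using Sym2.ind with
  | _ x y =>
    have h1 := mk_mem_pm σ.symm (x := σ x) (y := σ y) (G := G.map (pm σ))
    rw [σ.symm_apply_apply, σ.symm_apply_apply] at h1
    rw [h1, mk_mem_pm]

theorem pm_EU (σ : Equiv.Perm V) (U : Finset V) :
    (EU U).map (pm σ) = EU (U.map σ.toEmbedding) := by
  ext e
  induction e using Sym2.ind with
  | _ x y =>
    have h1 := mk_mem_pm σ (x := σ.symm x) (y := σ.symm y) (G := EU U)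
    rw [σ.apply_symm_apply, σ.apply_symm_apply] at h1
    rw [h1, mk_mem_EU, mk_mem_EU]
    have h2 : ∀ z, z ∈ U.map σ.toEmbedding ↔ σ.symm z ∈ U := by
      intro z
      rw [Finset.mem_map]
      constructor
      · rintro ⟨w, hw, rfl⟩
        simpa using hw
      · intro h
        exact ⟨σ.symm z, h, by simp⟩
    rw [h2, h2]
    simp

theorem pm_Cyc_imp {k : ℕ} (σ : Equiv.Perm V) {G : Finset (Sym2 V)} (h : Cyc k G) :
    Cyc k (G.map (pm σ)) := by
  obtain ⟨f, hf, h1⟩ := h
  exact ⟨σ ∘ f, σ.injective.comp hf, fun i => (mk_mem_pm σ).2 (h1 i)⟩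

theorem pm_Cyc {k : ℕ} (σ : Equiv.Perm V) (G : Finset (Sym2 V)) :
    Cyc k (G.map (pm σ)) ↔ Cyc k G := by
  constructor
  · intro h
    have := pm_Cyc_imp σ.symm h
    rwa [pm_symm] at this
  · exact pm_Cyc_imp σ

theorem pm_aA {k : ℕ} (σ : Equiv.Perm V) (G : Finset (Sym2 V)) : aA k (G.map (pm σ)) = aA k G := by
  unfold aA
  by_cases h : Cyc k G
  · rw [if_pos h, if_pos ((pm_Cyc σ G).2 h)]
  · rw [if_neg h, if_neg (fun h' => h ((pm_Cyc σ G).1 h'))]

theorem pm_edg (σ : Equiv.Perm V) (x : V) (l : List V) :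
    edg (σ x) (l.map σ) = (edg x l).map (pm σ) := by
  induction l generalizing x with
  | nil => simp [edg]
  | cons y l ih =>
    rw [List.map_cons]
    simp only [edg]
    rw [ih, Finset.map_insert, pm_mk]

theorem pm_edg_subset (σ : Equiv.Perm V) (x : V) (l : List V) (G : Finset (Sym2 V)) :
    edg (σ x) (l.map σ) ⊆ G.map (pm σ) ↔ edg x l ⊆ G := by
  rw [pm_edg, Finset.map_subset_map]

theorem pm_inter (σ : Equiv.Perm V) (G F : Finset (Sym2 V)) :
    (G ∩ F).map (pm σ) = G.map (pm σ) ∩ F.map (pm σ) := Finset.map_inter _ _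

end Pool.Agent.Q299.CY
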