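import Pool.Agent.Q299.CY.Stage2

/-!
Upper bound for the mean number of walks.
-/

set_option linter.unusedSectionVars false

namespace Pool.Agent.Q299.CY

open Finset Classical

variable {V : Type*} [Fintype V] [DecidableEq V]

section main

variable {p : ℝ} {k : ℕ} {q s : ℝ}

theorem sum_adj_eq {G : Finset (Sym2 V)} (hG : G ⊆ EU (Finset.univ : Finset V)) (x : V) :
    ∑ y, adj G x y = ∑ y ∈ Finset.univ.erase x, adj G x y := by
  rw [← Finset.add_sum_erase _ _ (Finset.mem_univ x), adj_zero hG (Or.inr (Or.inr rfl)), zero_add]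

theorem sum_adj_card {G : Finset (Sym2 V)} (hG : G ⊆ EU (Finset.univ : Finset V)) (x : V) :
    ∑ y, adj G x y = ((G ∩ star x (Finset.univ.erase x)).card : ℝ) := by
  have h1 : G ∩ star x (Finset.univ.erase x) = (nb x (Finset.univ.erase x) G).map (emb x) := by
    ext e
    rw [Finset.mem_inter, mem_star, Finset.mem_map]
    constructor
    · rintro ⟨h1, y, hy, rfl⟩
      exact ⟨y, Finset.mem_filter.2 ⟨hy, h1⟩, rfl⟩
    · rintro ⟨y, hy, rfl⟩
      have := Finset.mem_filter.1 hy
      exact ⟨this.2, y, this.1, rfl⟩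
  rw [h1, Finset.card_map, sum_adj_eq hG]
  unfold nb
  rw [Finset.card_filter]
  push_cast
  apply Finset.sum_congr rfl
  intro y _
  unfold adj
  rw [Sym2.eq_swap]

theorem deg_le_card (G : Finset (Sym2 V)) (x : V) : ∑ y, adj G x y ≤ Fintype.card V := by
  refine (Finset.sum_le_sum (fun y _ => adj_le_one G x y)).trans ?_
  simp

theorem EE_big_deg (hp0 : 0 < p) (hp1 : p < 1) (K : ℝ) :
    EE p (EU (Finset.univ : Finset V)) (fun G => ic (∃ x, K < ∑ y, adj G x y))
      ≤ Fintype.card V * Real.exp (2 * (Fintype.card V * p) - K) := by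
  have h1 : EE p (EU (Finset.univ : Finset V)) (fun G => ic (∃ x, K < ∑ y, adj G x y))
      ≤ EE p (EU (Finset.univ : Finset V)) (fun G => ∑ x : V, Real.exp (-K) *
        (Real.exp 1) ^ ((G ∩ star x (Finset.univ.erase x)).card)) := by
    apply EE_mono hp0.le hp1.le
    intro G hG
    by_cases h : ∃ x, K < ∑ y, adj G x y
    · rw [ic_pos h]
      obtain ⟨x, hx⟩ := h
      have h2 : (1:ℝ) ≤ Real.exp (-K) * (Real.exp 1) ^ ((G ∩ star x (Finset.univ.erase x)).card) := by
        rw [sum_adj_card hG] at hx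
        rw [← Real.exp_nat_mul, ← Real.exp_add]
        apply Real.one_le_exp
        linarith
      refine h2.trans ?_
      exact Finset.single_le_sum (f := fun x => Real.exp (-K) *
        (Real.exp 1) ^ ((G ∩ star x (Finset.univ.erase x)).card))
        (fun x _ => by positivity) (Finset.mem_univ x)
    · rw [ic_neg h]
      exact Finset.sum_nonneg (fun x _ => by positivity)
  refine h1.trans ?_
  rw [EE_sum]
  have h2 : ∀ x : V, EE p (EU (Finset.univ : Finset V)) (fun G => Real.exp (-K) *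
        (Real.exp 1) ^ ((G ∩ star x (Finset.univ.erase x)).card))
      ≤ Real.exp (2 * (Fintype.card V * p) - K) := by
    intro x
    rw [EE_mul_left, EE_pow_inter]
    have h3 : 1 + p * (Real.exp 1 - 1) ≤ Real.exp (2 * p) := by
      have h4 := Real.add_one_le_exp (p * (Real.exp 1 - 1))
      have h5 : p * (Real.exp 1 - 1) ≤ 2 * p := by
        have := Real.exp_one_lt_d9
        nlinarith
      have h6 := Real.exp_le_exp.2 h5
      linarith
    have h4 : (1:ℝ) ≤ 1 + p * (Real.exp 1 - 1) := by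
      have : (1:ℝ) ≤ Real.exp 1 := Real.one_le_exp (by norm_num)
      nlinarith
    have h5 : (EU (Finset.univ : Finset V) ∩ star x (Finset.univ.erase x)).card
        ≤ Fintype.card V := by
      refine (Finset.card_le_card Finset.inter_subset_right).trans ?_
      unfold star
      rw [Finset.card_map]
      exact Finset.card_le_univ _
    have h6 : (1 + p * (Real.exp 1 - 1)) ^ (EU (Finset.univ : Finset V)
        ∩ star x (Finset.univ.erase x)).card ≤ Real.exp (2 * p) ^ (Fintype.card V) :=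
      (pow_le_pow_right₀ h4 h5).trans (pow_le_pow_left₀ (by linarith) h3 _)
    rw [← Real.exp_nat_mul] at h6
    have h7 := mul_le_mul_of_nonneg_left h6 (Real.exp_pos (-K)).le
    refine h7.trans (le_of_eq ?_)
    rw [← Real.exp_add]
    congr 1
    ring
  refine (Finset.sum_le_sum (fun x _ => h2 x)).trans ?_
  rw [Finset.sum_const, nsmul_eq_mul, Finset.card_univ]

theorem MM_Q (hp0 : 0 < p) (hp1 : p < 1) (hM : Mom V p k q s) (hn : 2 ≤ Fintype.card V) :
    MM p k (fun G : Finset (Sym2 V) =>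
      ∑ x : V, ((∑ y : V, adj G x y) - ((Fintype.card V : ℝ) - 1) * q) ^ 2)
      ≤ (Fintype.card V : ℝ) ^ 2 * (q + Fintype.card V * max s 0) * ZZ V p k := by
  set n : ℝ := (Fintype.card V : ℝ) with hndef
  have hn2 : (2:ℝ) ≤ n := by rw [hndef]; exact_mod_cast hn
  have hZ := ZZ_pos (V := V) (k := k) hp0 hp1
  rw [MM_sum]
  have h1 : ∀ x : V, MM p k (fun G => ((∑ y, adj G x y) - (n - 1) * q) ^ 2)
      ≤ n * (q + n * max s 0) * ZZ V p k := by
    intro x
    have h2 : MM p k (fun G => ((∑ y, adj G x y) - (n - 1) * q) ^ 2)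
        = MM p k (fun G => Yc q (Finset.univ : Finset V) x G ^ 2) := by
      apply MM_congr
      intro G hG
      unfold Yc
      rw [sum_adj_eq hG, Finset.card_univ]
    rw [h2, MM_Y_sq hM (Finset.mem_univ x), Finset.card_univ, ← hndef]
    apply mul_le_mul_of_nonneg_right _ hZ.le
    have hq0 := hM.q_pos
    have h3 : s ≤ max s 0 := le_max_left _ _
    have h4 : 0 ≤ max s 0 := le_max_right _ _
    have h5 : (n - 2) * s ≤ (n - 2) * max s 0 := mul_le_mul_of_nonneg_left h3 (by linarith)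
    have h6 : (n - 2) * max s 0 ≤ n * max s 0 := mul_le_mul_of_nonneg_right (by linarith) h4
    have h7 : q - q ^ 2 + (n - 2) * s ≤ q + n * max s 0 := by nlinarith [sq_nonneg q]
    have h8 : 0 ≤ q + n * max s 0 := by positivity
    calc (n - 1) * (q - q ^ 2 + (n - 2) * s) ≤ (n - 1) * (q + n * max s 0) :=
          mul_le_mul_of_nonneg_left h7 (by linarith)
      _ ≤ n * (q + n * max s 0) := mul_le_mul_of_nonneg_right (by linarith) h8
  refine (Finset.sum_le_sum (fun x _ => h1 x)).trans (le_of_eq ?_)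
  rw [Finset.sum_const, nsmul_eq_mul, Finset.card_univ]
  ring

/-- Upper bound for the mean number of walks of length `2 * k - 1`. -/
theorem W_bound (hk : 2 ≤ k) (hp0 : 0 < p) (hp1 : p < 1) (hM : Mom V p k q s)
    (hn : 2 ≤ Fintype.card V) {K : ℝ} (hK : Fintype.card V * p ≤ K) :
    MM p k (fun G => ∑ u : V, uw (adj G) (2 * k - 1) u)
      ≤ ((Fintype.card V : ℝ) * (((Fintype.card V : ℝ) - 1) * q) ^ (2 * k - 1)
        + (2 * k - 1 : ℝ) ^ 2 * (K ^ (2 * k - 3) * ((Fintype.card V : ℝ) ^ 2 *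
          (q + Fintype.card V * max s 0))
          + (Fintype.card V : ℝ) ^ (2 * k - 3) * (Fintype.card V : ℝ) ^ 3 *
            (Fintype.card V * Real.exp (2 * (Fintype.card V * p) - K)))) * ZZ V p k := by
  set n : ℝ := (Fintype.card V : ℝ) with hndef
  have hn2 : (2:ℝ) ≤ n := by rw [hndef]; exact_mod_cast hn
  have hZ := ZZ_pos (V := V) (k := k) hp0 hp1
  have hq0 := hM.q_pos
  have hqp := hM.q_le
  set d0 : ℝ := (n - 1) * q with hd0
  have hd00 : 0 ≤ d0 := mul_nonneg (by linarith) hq0.le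
  have hd0K : d0 ≤ K := by
    have : (n - 1) * q ≤ n * p := mul_le_mul (by linarith) hqp hq0.le (by linarith)
    linarith
  have hd0n : d0 ≤ n := by
    have : (n - 1) * q ≤ n * 1 := mul_le_mul (by linarith) (by linarith) hq0.le (by linarith)
    linarith
  have hK0 : 0 ≤ K := hd00.trans hd0K
  obtain ⟨j, hj⟩ : ∃ j, 2 * k - 3 = j := ⟨_, rfl⟩
  have hj1 : 2 * k - 1 = j + 2 := by omega
  have hjr : (2 * k - 1 : ℝ) = j + 2 := by
    have h2 : ((2 * k - 1 : ℕ) : ℝ) = ((j + 2 : ℕ) : ℝ) := by rw [hj1]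
    rw [Nat.cast_sub (by omega)] at h2
    push_cast at h2
    linarith
  rw [hj, hj1, hjr]
  set Q : Finset (Sym2 V) → ℝ := fun G => ∑ x, ((∑ y, adj G x y) - d0) ^ 2 with hQ
  have hQ0 : ∀ G, 0 ≤ Q G := fun G => Finset.sum_nonneg (fun x _ => sq_nonneg _)
  have hQn : ∀ G, Q G ≤ n ^ 3 := by
    intro G
    have h1 : ∀ x : V, ((∑ y, adj G x y) - d0) ^ 2 ≤ n ^ 2 := by
      intro x
      have h2 := deg_le_card G x
      have h3 : 0 ≤ ∑ y, adj G x y := Finset.sum_nonneg (fun y _ => adj_nonneg _ _ _)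
      rw [← hndef] at h2
      apply sq_le_sq'
      · linarith
      · linarith
    refine (Finset.sum_le_sum (fun x _ => h1 x)).trans (le_of_eq ?_)
    rw [Finset.sum_const, nsmul_eq_mul, Finset.card_univ]
    ring
  have h1 : MM p k (fun G => ∑ u : V, uw (adj G) (j + 2) u)
      ≤ MM p k (fun G => n * d0 ^ (j + 2)
        + ((j + 2) * d0 ^ (j + 1)) * ((∑ x, ∑ y, adj (G ∩ EU (Finset.univ : Finset V)) x y)
          - n * d0)
        + (j + 2) ^ 2 * (K ^ j * Q G + (n ^ j * n ^ 3) * ic (∃ x, K < ∑ y, adj G x y))) := by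
    apply MM_mono hp0.le hp1.le
    intro G hG
    have hGE : G ∩ EU (Finset.univ : Finset V) = G := Finset.inter_eq_left.2 hG
    rw [hGE]
    have e1 : ∑ x, ((∑ y, adj G x y) - d0) = (∑ x, ∑ y, adj G x y) - n * d0 := by
      rw [Finset.sum_sub_distrib, Finset.sum_const, nsmul_eq_mul, Finset.card_univ]
    by_cases hbig : ∃ x, K < ∑ y, adj G x y
    · rw [ic_pos hbig]
      have h2 := walks_upper (A := adj G) (adj_nonneg G) (adj_symm G) (D := n)
        (fun x => deg_le_card G x) hd00 hd0n j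
      rw [e1] at h2
      refine h2.trans ?_
      apply add_le_add_right
      apply mul_le_mul_of_nonneg_left _ (by positivity)
      have h3 : n ^ j * Q G ≤ n ^ j * n ^ 3 :=
        mul_le_mul_of_nonneg_left (hQn G) (by positivity)
      have h4 : 0 ≤ K ^ j * Q G := mul_nonneg (by positivity) (hQ0 G)
      have h5 : n ^ j * ∑ x, ((∑ y, adj G x y) - d0) ^ 2 = n ^ j * Q G := rfl
      rw [h5]
      linarith
    · rw [ic_neg hbig, mul_zero, add_zero]
      push Not at hbig
      have h2 := walks_upper (A := adj G) (adj_nonneg G) (adj_symm G) (D := K)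
        hbig hd00 hd0K j
      rw [e1] at h2
      exact h2
  refine h1.trans ?_
  rw [MM_add, MM_add, MM_const, MM_mul_left, MM_mul_left, MM_add, MM_mul_left, MM_mul_left,
    MM_sub, MM_S hM, MM_const, Finset.card_univ, ← hndef]
  have e2 : n * (n - 1) * q * ZZ V p k - n * d0 * ZZ V p k = 0 := by rw [hd0]; ring
  rw [e2, mul_zero, add_zero]
  have h2 := MM_Q hp0 hp1 hM hn
  rw [← hndef, ← hd0] at h2
  have h3 : MM p k (fun G : Finset (Sym2 V) => ic (∃ x, K < ∑ y, adj G x y))
      ≤ (n * Real.exp (2 * (n * p) - K)) * ZZ V p k := by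
    have hmono : Monotone (fun G : Finset (Sym2 V) => ic (∃ x, K < ∑ y, adj G x y)) := by
      intro G H h
      apply ic_mono
      rintro ⟨x, hx⟩
      exact ⟨x, hx.trans_le (Finset.sum_le_sum (fun y _ => adj_mono h x y))⟩
    refine (MM_harris hp0.le hp1.le hmono).trans ?_
    exact mul_le_mul_of_nonneg_right (EE_big_deg hp0 hp1 K) hZ.le
  have h4 := mul_le_mul_of_nonneg_left h2 (by positivity : (0:ℝ) ≤ K ^ j)
  have h5 := mul_le_mul_of_nonneg_left h3 (by positivity : (0:ℝ) ≤ n ^ j * n ^ 3)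
  have h6 := mul_le_mul_of_nonneg_left (add_le_add h4 h5)
    (by positivity : (0:ℝ) ≤ ((j:ℝ) + 2) ^ 2)
  have h7 : MM p k (fun G => Q G) = MM p k Q := rfl
  rw [h7] at *
  linarith

end main

end Pool.Agent.Q299.CY
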