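import Pool.Agent.Q299.CY.BR

/-!
Upper bound for the number of walks of an almost regular graph.
-/

set_option linter.unusedSectionVars false

namespace Pool.Agent.Q299.CY

open Finset

variable {V : Type*} [Fintype V] [DecidableEq V]

/-- `A ^ j g`. -/
noncomputable def ua (A : V → V → ℝ) (g : V → ℝ) : ℕ → V → ℝ
  | 0, x => g x
  | j + 1, x => ∑ y, A x y * ua A g j y

theorem ua_one (A : V → V → ℝ) (j : ℕ) (x : V) : ua A (fun _ => 1) j x = uw A j x := by
  induction j generalizing x with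
  | zero => rfl
  | succ j ih =>
    simp only [ua, uw]
    apply Finset.sum_congr rfl
    intro y _
    rw [ih]

theorem ua_swap {A : V → V → ℝ} (hs : ∀ x y, A x y = A y x) (f g : V → ℝ) :
    ∑ x, f x * (∑ y, A x y * g y) = ∑ x, (∑ y, A x y * f y) * g x := by
  simp_rw [Finset.mul_sum, Finset.sum_mul]
  rw [Finset.sum_comm]
  apply Finset.sum_congr rfl
  intro x _
  apply Finset.sum_congr rfl
  intro y _
  rw [hs y x]
  ring

theorem ua_adj {A : V → V → ℝ} (hs : ∀ x y, A x y = A y x) (f g : V → ℝ) (j : ℕ) :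
    ∑ x, f x * ua A g j x = ∑ x, ua A f j x * g x := by
  induction j generalizing f with
  | zero => rfl
  | succ j ih =>
    have e1 : ∑ x, f x * ua A g (j + 1) x = ∑ x, (∑ y, A x y * f y) * ua A g j x :=
      ua_swap hs f (ua A g j)
    rw [e1, ih (fun x => ∑ y, A x y * f y)]
    apply Finset.sum_congr rfl
    intro x _
    congr 1
    -- ua A (A f) j = ua A f (j+1)
    have : ∀ (j : ℕ) (x : V), ua A (fun x => ∑ y, A x y * f y) j x = ua A f (j + 1) x := by
      intro j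
      induction j with
      | zero => intro x; rfl
      | succ j ih2 =>
        intro x
        show ∑ y, A x y * ua A (fun x => ∑ y, A x y * f y) j y = ∑ y, A x y * ua A f (j + 1) y
        apply Finset.sum_congr rfl
        intro y _
        rw [ih2]
    exact this j x

theorem norm_step {A : V → V → ℝ} (hA : ∀ x y, 0 ≤ A x y) (hs : ∀ x y, A x y = A y x) {D : ℝ}
    (hD : ∀ x, ∑ y, A x y ≤ D) (hD0 : 0 ≤ D) (g : V → ℝ) :
    ∑ x, (∑ y, A x y * g y) ^ 2 ≤ D ^ 2 * ∑ x, g x ^ 2 := by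
  have h1 : ∀ x, (∑ y, A x y * g y) ^ 2 ≤ D * ∑ y, A x y * g y ^ 2 := by
    intro x
    have h2 := Finset.sum_mul_sq_le_sq_mul_sq Finset.univ (fun y => Real.sqrt (A x y))
      (fun y => Real.sqrt (A x y) * g y)
    have e1 : ∀ y, Real.sqrt (A x y) * (Real.sqrt (A x y) * g y) = A x y * g y := by
      intro y
      rw [← mul_assoc, Real.mul_self_sqrt (hA x y)]
    have e2 : ∀ y, Real.sqrt (A x y) ^ 2 = A x y := fun y => Real.sq_sqrt (hA x y)
    have e3 : ∀ y, (Real.sqrt (A x y) * g y) ^ 2 = A x y * g y ^ 2 := by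
      intro y
      rw [mul_pow, e2]
    simp only [e1, e2, e3] at h2
    refine h2.trans ?_
    exact mul_le_mul_of_nonneg_right (hD x)
      (Finset.sum_nonneg (fun y _ => mul_nonneg (hA x y) (sq_nonneg _)))
  refine (Finset.sum_le_sum (fun x _ => h1 x)).trans ?_
  rw [← Finset.mul_sum, Finset.sum_comm]
  have h3 : ∑ y, ∑ x, A x y * g y ^ 2 ≤ D * ∑ y, g y ^ 2 := by
    rw [Finset.mul_sum]
    apply Finset.sum_le_sum
    intro y _
    rw [← Finset.sum_mul]
    apply mul_le_mul_of_nonneg_right _ (sq_nonneg _)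
    have : ∑ x, A x y = ∑ x, A y x := Finset.sum_congr rfl (fun x _ => hs x y)
    rw [this]
    exact hD y
  have := mul_le_mul_of_nonneg_left h3 hD0
  calc _ ≤ D * (D * ∑ y, g y ^ 2) := this
    _ = _ := by ring

theorem norm_ua {A : V → V → ℝ} (hA : ∀ x y, 0 ≤ A x y) (hs : ∀ x y, A x y = A y x) {D : ℝ}
    (hD : ∀ x, ∑ y, A x y ≤ D) (hD0 : 0 ≤ D) (g : V → ℝ) (j : ℕ) :
    ∑ x, ua A g j x ^ 2 ≤ (D ^ j) ^ 2 * ∑ x, g x ^ 2 := by
  induction j with
  | zero => simp [ua]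
  | succ j ih =>
    have h1 := norm_step hA hs hD hD0 (ua A g j)
    have h2 := mul_le_mul_of_nonneg_left ih (sq_nonneg D)
    calc ∑ x, ua A g (j + 1) x ^ 2 ≤ D ^ 2 * ∑ x, ua A g j x ^ 2 := h1
      _ ≤ D ^ 2 * ((D ^ j) ^ 2 * ∑ x, g x ^ 2) := h2
      _ = _ := by ring

theorem form_ua {A : V → V → ℝ} (hA : ∀ x y, 0 ≤ A x y) (hs : ∀ x y, A x y = A y x) {D : ℝ}
    (hD : ∀ x, ∑ y, A x y ≤ D) (hD0 : 0 ≤ D) (g : V → ℝ) (j : ℕ) :
    ∑ x, g x * ua A g j x ≤ D ^ j * ∑ x, g x ^ 2 := by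
  have h1 := Finset.sum_mul_sq_le_sq_mul_sq Finset.univ g (ua A g j)
  have h2 := norm_ua hA hs hD hD0 g j
  have hg : 0 ≤ ∑ x, g x ^ 2 := Finset.sum_nonneg (fun x _ => sq_nonneg _)
  have h3 : (∑ x, g x * ua A g j x) ^ 2 ≤ (D ^ j * ∑ x, g x ^ 2) ^ 2 := by
    refine h1.trans ?_
    calc (∑ x, g x ^ 2) * ∑ x, ua A g j x ^ 2
        ≤ (∑ x, g x ^ 2) * ((D ^ j) ^ 2 * ∑ x, g x ^ 2) := mul_le_mul_of_nonneg_left h2 hg
      _ = _ := by ring
  exact le_of_abs_le (abs_le_of_sq_le_sq h3 (by positivity))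

theorem walks_upper {A : V → V → ℝ} (hA : ∀ x y, 0 ≤ A x y) (hs : ∀ x y, A x y = A y x) {D : ℝ}
    (hD : ∀ x, ∑ y, A x y ≤ D) {d0 : ℝ} (h0 : 0 ≤ d0) (h0D : d0 ≤ D) (j : ℕ) :
    ∑ x, uw A (j + 2) x ≤ Fintype.card V * d0 ^ (j + 2)
      + (j + 2) * d0 ^ (j + 1) * (∑ x, ((∑ y, A x y) - d0))
      + (j + 2) ^ 2 * (D ^ j * ∑ x, ((∑ y, A x y) - d0) ^ 2) := by
  have hD0 : 0 ≤ D := h0.trans h0D
  set η : V → ℝ := fun x => (∑ y, A x y) - d0 with hη
  set Q : ℝ := ∑ x, η x ^ 2 with hQ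
  have hQ0 : 0 ≤ Q := Finset.sum_nonneg (fun x _ => sq_nonneg _)
  set W : ℕ → ℝ := fun j => ∑ x, uw A j x with hW
  set b : ℕ → ℝ := fun j => ∑ x, ua A η j x with hb
  have hdx : ∀ x, ∑ y, A x y = d0 + η x := fun x => by simp [hη]
  have hW1 : ∀ j, W (j + 1) = d0 * W j + b j := by
    intro j
    have e1 : W (j + 1) = ∑ x, (1:ℝ) * (∑ y, A x y * uw A j y) := by
      simp only [hW, one_mul]; rfl
    rw [e1, ua_swap hs (fun _ => 1) (uw A j)]
    have e2 : ∀ x, (∑ y, A x y * 1) * uw A j x = d0 * uw A j x + ua A (fun _ => 1) j x * η x := by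
      intro x
      simp only [mul_one]
      rw [hdx, ua_one]; ring
    rw [Finset.sum_congr rfl (fun x _ => e2 x), Finset.sum_add_distrib, ← Finset.mul_sum,
      ← ua_adj hs (fun _ => 1) η j]
    simp [hW, hb]
  have hb1 : ∀ j, b (j + 1) ≤ d0 * b j + D ^ j * Q := by
    intro j
    have e1 : b (j + 1) = ∑ x, (1:ℝ) * (∑ y, A x y * ua A η j y) := by
      simp only [hb, one_mul]; rfl
    rw [e1, ua_swap hs (fun _ => 1) (ua A η j)]
    have e2 : ∀ x, (∑ y, A x y * 1) * ua A η j x = d0 * ua A η j x + η x * ua A η j x := by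
      intro x
      simp only [mul_one]
      rw [hdx]; ring
    rw [Finset.sum_congr rfl (fun x _ => e2 x), Finset.sum_add_distrib, ← Finset.mul_sum]
    have := form_ua hA hs hD hD0 η j
    have e3 : ∑ x, ua A η j x = b j := rfl
    rw [e3]
    linarith
  have hbj : ∀ j : ℕ, b (j + 1) ≤ d0 ^ (j + 1) * b 0 + (j + 1) * (D ^ j * Q) := by
    intro j
    induction j with
    | zero =>
      have := hb1 0
      simp only [zero_add, pow_one, pow_zero, Nat.cast_zero, one_mul] at this ⊢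
      linarith
    | succ j ih =>
      have h1 := hb1 (j + 1)
      have h2 := mul_le_mul_of_nonneg_left ih h0
      have h3 : d0 * (D ^ j * Q) ≤ D ^ (j + 1) * Q := by
        rw [pow_succ]
        have : d0 * (D ^ j * Q) ≤ D * (D ^ j * Q) :=
          mul_le_mul_of_nonneg_right h0D (by positivity)
        linarith
      have h4 := mul_le_mul_of_nonneg_left h3 (by positivity : (0:ℝ) ≤ (j:ℝ) + 1)
      push_cast
      have e : d0 ^ (j + 1 + 1) * b 0 = d0 * (d0 ^ (j + 1) * b 0) := by ring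
      rw [e]
      nlinarith
  have hW0 : W 0 = Fintype.card V := by simp [hW, uw]
  have hb0 : b 0 = ∑ x, η x := rfl
  rw [← hb0]
  show W (j + 2) ≤ _
  induction j with
  | zero =>
    have h1 := hW1 0
    have h2 := hW1 1
    have h3 := hb1 0
    simp only [zero_add, pow_zero, one_mul, Nat.cast_zero, pow_one] at h1 h2 h3 ⊢
    rw [h2, h1, hW0]
    nlinarith
  | succ j ih =>
    have h1 := hW1 (j + 2)
    have h2 := hbj (j + 1)
    have h3 := mul_le_mul_of_nonneg_left ih h0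
    have h4 : d0 * (D ^ j * Q) ≤ D ^ (j + 1) * Q := by
      rw [pow_succ]
      have : d0 * (D ^ j * Q) ≤ D * (D ^ j * Q) :=
        mul_le_mul_of_nonneg_right h0D (by positivity)
      linarith
    have h5 := mul_le_mul_of_nonneg_left h4 (by positivity : (0:ℝ) ≤ ((j:ℝ) + 2) ^ 2)
    have h6 : 0 ≤ D ^ (j + 1) * Q := by positivity
    have e : j + 1 + 2 = j + 2 + 1 := by ring
    rw [e, h1]
    push_cast at *
    have e2 : (Fintype.card V : ℝ) * d0 ^ (j + 2 + 1) = d0 * (Fintype.card V * d0 ^ (j + 2)) := by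
      ring
    have e3 : ((j:ℝ) + 1 + 2) * d0 ^ (j + 1 + 1) * b 0
        = d0 * ((j + 2) * d0 ^ (j + 1) * b 0) + d0 ^ (j + 1 + 1) * b 0 := by ring
    rw [e2, e3]
    nlinarith [mul_nonneg (by positivity : (0:ℝ) ≤ (j:ℝ)) h6]

end Pool.Agent.Q299.CY
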