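import Pool.Agent.Q299.CY.Asym2

/-!
Assembly.
-/

set_option linter.unusedSectionVars false

namespace Pool.Agent.Q299.CY

open Finset Classical

section fixed

variable {k N : ℕ}

/-- The scaled free energy. -/
noncomputable def Dn (k N : ℕ) (m : ℝ) (c : ℝ) : ℝ :=
  -(2 / ((N + 1 : ℕ) * m)) * Real.log (ZZ (Fin (N + 1)) (c * m / (N + 1 : ℕ)) k)

theorem Dn_main (hk : 2 ≤ k) {m c1 : ℝ} (hN : 2 ≤ N) (hm : 1 ≤ m)
    (hn : ((N + 1 : ℕ) : ℝ) = m ^ (2 * k - 1)) (hc1 : 0 < c1) (hmc : 2 * c1 ≤ m) :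
    ∀ c ∈ Set.Icc 0 c1, |Dn k N m c - Ds k c|
      ≤ 3 * ((C1 k c1 + C3 k c1 + 2 * c1) / m)
        * Real.exp ((C2 k c1 / (1 / (8 * c1)) + 1) * c1) := by
  set n : ℝ := ((N + 1 : ℕ) : ℝ) with hndef
  have hm0 : 0 < m := by linarith
  have hn3 : (3:ℝ) ≤ n := by rw [hndef]; exact_mod_cast (by omega : 3 ≤ N + 1)
  have hn0 : 0 < n := by linarith
  have hNn : (N : ℝ) = n - 1 := by rw [hndef]; push_cast; ring
  have hcard : Fintype.card (Fin (N + 1)) = N + 1 := Fintype.card_fin _
  have hpb : ∀ c, 0 < c → c ≤ c1 → 0 < c * m / n ∧ c * m / n ≤ 1 / 2 := by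
    intro c hc hcc
    refine ⟨by positivity, ?_⟩
    have h1 := p_le (p := c * m / n) hk hm hn (by field_simp) hc hcc
    refine h1.trans ?_
    rw [div_le_div_iff₀ hm0 (by norm_num)]
    linarith
  have hC1 : 0 ≤ C1 k c1 := by unfold C1 CF; positivity
  have hk2 : (2:ℝ) ≤ k := by exact_mod_cast hk
  have hCT : 0 ≤ CT k c1 := by unfold CT; positivity
  have hC3 : 0 ≤ C3 k c1 := by unfold C3; positivity
  have hC2 : 0 ≤ C2 k c1 := by unfold C2; positivity
  -- differentiability data
  have hderiv : ∀ c, 0 < c → c ≤ c1 → ∀ q s, Mom (Fin (N + 1)) (c * m / n) k q s →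
      HasDerivAt (Dn k N m) (((n - 1) / n) * ((1 - (q * n / m) / c) / (1 - c * m / n))) c := by
    intro c hc hcc q s hM
    obtain ⟨hp0, hp2⟩ := hpb c hc hcc
    have hZ := ZZ_pos (V := Fin (N + 1)) (k := k) hp0 (by linarith)
    have h1 := ZZ_hasDeriv hp0 (by linarith) hM
    have h2 : HasDerivAt (fun c : ℝ => c * m / n) (m / n) c := by
      have := ((hasDerivAt_id' c).mul_const m).div_const n
      simpa using this
    have h3 := (h1.comp c h2)
    have h4 := (h3.log (by exact hZ.ne')).const_mul (-(2 / (n * m)))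
    refine HasDerivAt.congr_deriv h4 ?_
    rw [hcard, ← hndef]
    have key : ∀ P Z : ℝ, 0 < P → P < 1 → 0 < Z → n * P = c * m →
        -(2 / (n * m)) * (n * (n - 1) / 2 * ((q - P) * Z) / (P * (1 - P)) * (m / n) / Z)
          = (n - 1) / n * ((1 - q * n / m / c) / (1 - P)) := by
      intro P Z hP hP1 hZ' hnP
      have h5 : (1 - P) ≠ 0 := by linarith
      have h7 : q * n / m / c = q / P := by
        rw [div_div, mul_comm m c, ← hnP]
        field_simp
      rw [h7]
      field_simp
      ring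
    exact key (c * m / n) _ hp0 (by linarith) hZ (by field_simp)
  have hcomp := compare (k := k) (by omega) (c1 := c1) (κ := 1 / (8 * c1)) (C := C2 k c1)
    (ε := (C1 k c1 + C3 k c1 + 2 * c1) / m) hc1 (by positivity) hC2 (by positivity)
    (D := Dn k N m) (D' := deriv (Dn k N m)) ?_ ?_ ?_ ?_
  · exact hcomp
  · -- continuity
    have h1 : ContinuousOn (fun c : ℝ => ZZ (Fin (N + 1)) (c * m / n) k) (Set.Icc 0 c1) :=
      ((ZZ_continuous k).comp (by fun_prop)).continuousOn
    have h2 : ∀ c ∈ Set.Icc 0 c1, ZZ (Fin (N + 1)) (c * m / n) k ≠ 0 := by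
      intro c hc
      rcases hc.1.lt_or_eq with h | h
      · obtain ⟨hp0, hp2⟩ := hpb c h hc.2
        exact (ZZ_pos hp0 (by linarith)).ne'
      · rw [← h, zero_mul, zero_div, ZZ_zero]
        norm_num
    exact continuousOn_const.mul (h1.log h2)
  · unfold Dn
    rw [zero_mul, zero_div, ZZ_zero, Real.log_one, mul_zero]
  · intro c hc
    obtain ⟨hp0, hp2⟩ := hpb c hc.1 hc.2.le
    obtain ⟨q, s, hM⟩ := exists_mom (V := Fin (N + 1)) hk hp0 (by linarith)
      (by rw [hcard]; omega)
    exact (hderiv c hc.1 hc.2.le q s hM).differentiableAt.hasDerivAt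
  · intro c hc
    have hc0 := hc.1
    have hcc := hc.2.le
    obtain ⟨hp0, hp2⟩ := hpb c hc0 hcc
    set p := c * m / n with hp
    obtain ⟨q, s, hM⟩ := exists_mom (V := Fin (N + 1)) hk hp0 (by linarith)
      (by rw [hcard]; omega)
    have hq0 := hM.q_pos
    have hqp := hM.q_le
    set r := q * n / m with hr
    have hpc : n * p = c * m := by rw [hp]; field_simp
    have hqr : n * q = r * m := by rw [hr]; field_simp
    have hr0 : 0 < r := by positivity
    have hrc : r ≤ c := by
      rw [hr, div_le_iff₀ hm0, ← hpc]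
      nlinarith
    set w := max s 0 with hw
    have hw0 : 0 ≤ w := le_max_right _ _
    have hZ := ZZ_pos (V := Fin (N + 1)) (k := k) hp0 (by linarith)
    refine ⟨r, (n / m) ^ 2 * w, hr0, hrc, by positivity, ?_, ?_, ?_⟩
    · -- entropy bound
      have h1 := E_bound hk hp0 (by linarith) hM (m := N) hcard
      have h2 := est1 (c1 := c1) hk hm hn (by linarith) (by linarith) hq0 hqp hpc hqr hr0 hc0 hrc
        hcc hw0
      have e1 : (N:ℝ) + 1 = n := by rw [hNn]; ring
      rw [e1, hNn] at h1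
      have h3 := mul_le_mul_of_nonneg_left h1 (by positivity : (0:ℝ) ≤ 2 / (n * m))
      have e2 : (2 / (n * m)) * -Real.log (ZZ (Fin (N + 1)) p k) = Dn k N m c := by
        unfold Dn
        rw [← hndef, ← hp]
        ring
      rw [e2] at h3
      have h4 := h2.trans h3
      have h5 : C1 k c1 / m ≤ (C1 k c1 + C3 k c1 + 2 * c1) / m :=
        div_le_div_of_nonneg_right (by linarith) hm0.le
      linarith
    · -- density bound
      have h1 := L_bound hk hp0 (by linarith) hM
      have h2 := W_bound hk hp0 (by linarith) hM (by rw [hcard]; omega)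
        (K := 3 * c1 * m) (by
          rw [hcard, ← hndef, hpc]
          nlinarith)
      have h3 : MM p k (fun G : Finset (Sym2 (Fin (N + 1))) => ∑ v, Tri k G v)
          ≤ (n * tau n p k) * ZZ (Fin (N + 1)) p k := by
        have hmono : Monotone (fun G : Finset (Sym2 (Fin (N + 1))) => ∑ v, Tri k G v) := by
          intro G H h
          exact Finset.sum_le_sum (fun v _ => Tri_mono h v)
        refine (MM_harris hp0.le (by linarith) hmono).trans ?_
        apply mul_le_mul_of_nonneg_right _ hZ.le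
        rw [EE_sum]
        have h4 := Finset.sum_le_sum (fun v (_ : v ∈ (Finset.univ : Finset (Fin (N + 1)))) =>
          EE_Tri hk hp0.le (by linarith) (EU (Finset.univ : Finset (Fin (N + 1)))) v)
        refine h4.trans (le_of_eq ?_)
        rw [Finset.sum_const, nsmul_eq_mul, Finset.card_univ, hcard, ← hndef]
        rfl
      rw [hcard, ← hndef] at h1 h2
      have h4 : (MM p k (fun G : Finset (Sym2 (Fin (N + 1))) => ∑ u, uw (adj G) (2 * k - 1) u)
          + p ^ 2 * n * MM p k (fun G : Finset (Sym2 (Fin (N + 1))) => ∑ v, Tri k G v))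
            / ZZ (Fin (N + 1)) p k
          ≤ n * ((n - 1) * q) ^ (2 * k - 1)
            + (2 * k - 1 : ℝ) ^ 2 * ((3 * c1 * m) ^ (2 * k - 3) * (n ^ 2 * (q + n * w))
            + n ^ (2 * k - 3) * n ^ 3 * (n * Real.exp (2 * (n * p) - 3 * c1 * m)))
            + p ^ 2 * n * (n * tau n p k) := by
        rw [div_le_iff₀ hZ, add_mul]
        apply add_le_add h2
        calc p ^ 2 * n * MM p k (fun G : Finset (Sym2 (Fin (N + 1))) => ∑ v, Tri k G v)
            ≤ p ^ 2 * n * ((n * tau n p k) * ZZ (Fin (N + 1)) p k) :=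
              mul_le_mul_of_nonneg_left h3 (by positivity)
          _ = _ := by ring
      have h5 := est2 (c1 := c1) hk hm hn (by linarith) hp0 hp2 hq0 hpc hqr hr0 hc0 hrc hcc hw0
        h4 h1
      have h6 : C3 k c1 / m ≤ (C1 k c1 + C3 k c1 + 2 * c1) / m :=
        div_le_div_of_nonneg_right (by linarith) hm0.le
      linarith
    · -- derivative
      rw [(hderiv c hc0 hcc q s hM).deriv]
      have h1 := est3 (c1 := c1) hk hm hn (by linarith) hp0 hp2 hpc hr0 hc0 hrc hcc
      have h6 : (2 * c1) / m ≤ (C1 k c1 + C3 k c1 + 2 * c1) / m :=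
        div_le_div_of_nonneg_right (by linarith) hm0.le
      linarith

end fixed

/-- Copies of the cycle. -/
theorem cyc_iff {V : Type*} (N : ℕ) (hN : 2 ≤ N) (G : SimpleGraph V) :
    (∃ f : ZMod N → V, Function.Injective f ∧ ∀ i, G.Adj (f i) (f (i + 1)))
      ↔ (SimpleGraph.cycleGraph N).IsContained G := by
  obtain ⟨j, rfl⟩ : ∃ j, N = j + 2 := ⟨N - 2, by omega⟩
  constructor
  · rintro ⟨f, hf, hadj⟩
    refine ⟨⟨⟨f, ?_⟩, hf⟩⟩
    intro a b hab
    rw [SimpleGraph.cycleGraph_adj] at hab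
    rcases hab with h | h
    · have h1 : a = b + 1 := by rw [← h]; exact (add_sub_cancel b a).symm
      have := hadj b
      rw [h1]
      exact this.symm
    · have h1 : b = a + 1 := by rw [← h]; exact (add_sub_cancel a b).symm
      have := hadj a
      rw [h1]
      exact this
  · rintro ⟨⟨f, hf⟩⟩
    refine ⟨f, hf, ?_⟩
    intro i
    apply f.map_rel
    have key : ∀ a : Fin (j + 2), (SimpleGraph.cycleGraph (j + 2)).Adj a (a + 1) := by
      intro a
      rw [SimpleGraph.cycleGraph_adj]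
      exact Or.inr (add_sub_cancel_left a 1)
    exact key i

theorem Cyc_iff {n k : ℕ} (hk : 1 ≤ k) (G : SimpleGraph (Fin n)) :
    Cyc k G.edgeFinset ↔ (SimpleGraph.cycleGraph (2 * k)).IsContained G := by
  rw [← cyc_iff (2 * k) (by omega) G]
  unfold Cyc
  simp only [SimpleGraph.mem_edgeFinset, SimpleGraph.mem_edgeSet]

/-- The law of `G(n, p)` evaluated on a property. -/
noncomputable def gnp (n : ℕ) (p : ℝ) (P : SimpleGraph (Fin n) → Prop) : ℝ :=
  ∑ G : SimpleGraph (Fin n),
    if P G then p ^ G.edgeFinset.card * (1 - p) ^ (n.choose 2 - G.edgeFinset.card) else 0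

theorem EU_univ_eq (n : ℕ) :
    EU (Finset.univ : Finset (Fin n)) = (⊤ : SimpleGraph (Fin n)).edgeFinset := by
  ext e
  rw [mem_EU, SimpleGraph.mem_edgeFinset]
  induction e using Sym2.ind with
  | _ x y => simp

theorem card_EU_univ (n : ℕ) : (EU (Finset.univ : Finset (Fin n))).card = n.choose 2 := by
  rw [EU_univ_eq, SimpleGraph.card_edgeFinset_top_eq_card_choose_two, Fintype.card_fin]

theorem mem_ef {V : Type*} {G : SimpleGraph V} {h : Fintype G.edgeSet} {e : Sym2 V} :
    e ∈ @SimpleGraph.edgeFinset V G h ↔ e ∈ G.edgeSet := SimpleGraph.mem_edgeFinset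

theorem gnp_eq_ZZ (n k : ℕ) (hk : 1 ≤ k) (p : ℝ) :
    gnp n p (fun G => (SimpleGraph.cycleGraph (2 * k)).Free G) = ZZ (Fin n) p k := by
  unfold gnp ZZ EE
  refine Finset.sum_bij' (fun G _ => G.edgeFinset)
    (fun S _ => SimpleGraph.fromEdgeSet (S : Set (Sym2 (Fin n)))) ?_ ?_ ?_ ?_ ?_
  · intro G _
    rw [Finset.mem_powerset, EU_univ_eq]
    exact SimpleGraph.edgeFinset_subset_edgeFinset.2 le_top
  · intro S _
    exact Finset.mem_univ _
  · intro G _
    ext x y
    simp only [SimpleGraph.fromEdgeSet_adj, SimpleGraph.coe_edgeFinset, SimpleGraph.mem_edgeSet]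
    exact ⟨fun h => h.1, fun h => ⟨h, h.ne⟩⟩
  · intro S hS
    ext e
    refine Iff.trans mem_ef ?_
    induction e using Sym2.ind with
    | _ x y =>
      rw [SimpleGraph.mem_edgeSet, SimpleGraph.fromEdgeSet_adj, Finset.mem_coe]
      constructor
      · exact fun h => h.1
      · intro h
        exact ⟨h, (mk_mem_EU.1 (Finset.mem_powerset.1 hS h)).1⟩
  · intro G _
    rw [card_EU_univ]
    unfold aA
    by_cases h : Cyc k G.edgeFinset
    · rw [if_pos h, if_neg (fun h' => h' ((Cyc_iff hk G).1 h)), mul_zero]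
    · rw [if_neg h, if_pos (fun h' => h ((Cyc_iff hk G).2 h')), mul_one]

end Pool.Agent.Q299.CY
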