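import Pool.Agent.Q299.CY.Graph

/-!
The conditioned measure and its moments.
-/

set_option linter.unusedSectionVars false

namespace Pool.Agent.Q299.CY

open Finset Classical

variable {V : Type*} [Fintype V] [DecidableEq V]

/-- Unnormalised expectation under the conditioned measure. -/
noncomputable def MM (p : ℝ) (k : ℕ) (f : Finset (Sym2 V) → ℝ) : ℝ :=
  EE p (EU (Finset.univ : Finset V)) (fun G => f G * aA k G)

/-- The probability of being free of cycles of length `2 * k`. -/
noncomputable def ZZ (V : Type*) [Fintype V] [DecidableEq V] (p : ℝ) (k : ℕ) : ℝ :=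
  EE p (EU (Finset.univ : Finset V)) (aA k)

section basic

variable {p : ℝ} {k : ℕ}

theorem ZZ_pos (hp0 : 0 < p) (hp1 : p < 1) : 0 < ZZ V p k :=
  EE_pos hp0 hp1 (fun G _ => aA_nonneg k G) (G₀ := ∅) (Finset.empty_subset _)
    (by rw [aA_empty]; norm_num)

theorem MM_congr {f g : Finset (Sym2 V) → ℝ} (h : ∀ G ⊆ EU (Finset.univ : Finset V), f G = g G) :
    MM p k f = MM p k g := by
  unfold MM
  apply EE_congr
  intro G hG
  rw [h G hG]

theorem MM_mono (hp0 : 0 ≤ p) (hp1 : p ≤ 1) {f g : Finset (Sym2 V) → ℝ}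
    (h : ∀ G ⊆ EU (Finset.univ : Finset V), f G ≤ g G) : MM p k f ≤ MM p k g := by
  unfold MM
  apply EE_mono hp0 hp1
  intro G hG
  exact mul_le_mul_of_nonneg_right (h G hG) (aA_nonneg k G)

theorem MM_nonneg (hp0 : 0 ≤ p) (hp1 : p ≤ 1) {f : Finset (Sym2 V) → ℝ}
    (h : ∀ G ⊆ EU (Finset.univ : Finset V), 0 ≤ f G) : 0 ≤ MM p k f := by
  unfold MM
  apply EE_nonneg hp0 hp1
  intro G hG
  exact mul_nonneg (h G hG) (aA_nonneg k G)

theorem MM_add (f g : Finset (Sym2 V) → ℝ) :
    MM p k (fun G => f G + g G) = MM p k f + MM p k g := by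
  unfold MM
  rw [← EE_add]
  apply EE_congr
  intro G _
  ring

theorem MM_sub (f g : Finset (Sym2 V) → ℝ) :
    MM p k (fun G => f G - g G) = MM p k f - MM p k g := by
  unfold MM
  rw [← EE_sub]
  apply EE_congr
  intro G _
  ring

theorem MM_mul_left (c : ℝ) (f : Finset (Sym2 V) → ℝ) :
    MM p k (fun G => c * f G) = c * MM p k f := by
  unfold MM
  rw [← EE_mul_left]
  apply EE_congr
  intro G _
  ring

theorem MM_sum {ι : Type*} (T : Finset ι) (f : ι → Finset (Sym2 V) → ℝ) :
    MM p k (fun G => ∑ i ∈ T, f i G) = ∑ i ∈ T, MM p k (f i) := by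
  unfold MM
  rw [← EE_sum]
  apply EE_congr
  intro G _
  rw [Finset.sum_mul]

theorem MM_one : MM p k (fun _ : Finset (Sym2 V) => 1) = ZZ V p k := by
  unfold MM ZZ
  apply EE_congr
  intro G _
  ring

theorem MM_const (c : ℝ) : MM p k (fun _ : Finset (Sym2 V) => c) = c * ZZ V p k := by
  rw [← MM_one, ← MM_mul_left]
  simp

theorem MM_harris (hp0 : 0 ≤ p) (hp1 : p ≤ 1) {f : Finset (Sym2 V) → ℝ} (hf : Monotone f) :
    MM p k f ≤ EE p (EU (Finset.univ : Finset V)) f * ZZ V p k :=
  harris_anti hp0 hp1 _ hf (aA_anti k)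

theorem MM_perm (σ : Equiv.Perm V) (f : Finset (Sym2 V) → ℝ) :
    MM p k (fun G => f (G.map (pm σ))) = MM p k f := by
  unfold MM
  have h1 : EU (Finset.univ : Finset V) = (EU (Finset.univ : Finset V)).map (pm σ) := by
    rw [pm_EU]
    congr 1
    ext z
    simp only [Finset.mem_univ, Finset.mem_map, true_and, true_iff]
    exact ⟨σ.symm z, by simp⟩
  conv_rhs => rw [h1, EE_map]
  apply EE_congr
  intro G _
  rw [pm_aA]

end basic

/-- Adjacency. -/
noncomputable def adj (G : Finset (Sym2 V)) (x y : V) : ℝ := if s(x, y) ∈ G then 1 else 0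

theorem adj_nonneg (G : Finset (Sym2 V)) (x y : V) : 0 ≤ adj G x y := by
  unfold adj; split_ifs <;> norm_num

theorem adj_le_one (G : Finset (Sym2 V)) (x y : V) : adj G x y ≤ 1 := by
  unfold adj; split_ifs <;> norm_num

theorem adj_symm (G : Finset (Sym2 V)) (x y : V) : adj G x y = adj G y x := by
  unfold adj; rw [Sym2.eq_swap]

theorem adj_sq (G : Finset (Sym2 V)) (x y : V) : adj G x y * adj G x y = adj G x y := by
  unfold adj; split_ifs <;> norm_num

theorem adj_mono {G H : Finset (Sym2 V)} (h : G ⊆ H) (x y : V) : adj G x y ≤ adj H x y := by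
  unfold adj
  by_cases h1 : s(x, y) ∈ G
  · rw [if_pos h1, if_pos (h h1)]
  · rw [if_neg h1]; split_ifs <;> norm_num

theorem adj_perm (σ : Equiv.Perm V) (G : Finset (Sym2 V)) (x y : V) :
    adj (G.map (pm σ)) (σ x) (σ y) = adj G x y := by
  unfold adj
  simp only [mk_mem_pm]

theorem adj_zero {U : Finset V} {G : Finset (Sym2 V)} (hG : G ⊆ EU U) {x y : V}
    (h : x ∉ U ∨ y ∉ U ∨ x = y) : adj G x y = 0 := by
  unfold adj
  rw [if_neg]
  intro h1
  have := mk_mem_EU.1 (hG h1)
  rcases h with h | h | h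
  · exact h this.2.1
  · exact h this.2.2
  · exact this.1 h

/-- First and second moments of the conditioned measure. -/
structure Mom (V : Type*) [Fintype V] [DecidableEq V] (p : ℝ) (k : ℕ) (q s : ℝ) : Prop where
  one : ∀ x y : V, x ≠ y → MM p k (fun G => adj G x y) = q * ZZ V p k
  two : ∀ x y z : V, x ≠ y → x ≠ z → y ≠ z →
    MM p k (fun G => adj G x y * adj G x z) = (s + q ^ 2) * ZZ V p k
  q_pos : 0 < q
  q_le : q ≤ p
  s_le : s ≤ q

theorem MM_adj_eq {p : ℝ} {k : ℕ} (x y : V) :
    MM p k (fun G => adj G x y) = mass p (EU (Finset.univ : Finset V)) (aA k) s(x, y) := by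
  unfold MM mass
  apply EE_congr
  intro G _
  unfold adj
  beta_reduce
  by_cases h : s(x, y) ∈ G
  · rw [if_pos h, if_pos h, one_mul]
  · rw [if_neg h, if_neg h, zero_mul]

theorem inj2 {x y : V} (h : x ≠ y) : Function.Injective ![x, y] := by
  intro i j hij
  fin_cases i <;> fin_cases j <;>
    first | rfl | exact absurd hij h | exact absurd hij.symm h

theorem inj3 {x y z : V} (hxy : x ≠ y) (hxz : x ≠ z) (hyz : y ≠ z) :
    Function.Injective ![x, y, z] := by
  intro i j hij
  fin_cases i <;> fin_cases j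
  · rfl
  · exact absurd hij hxy
  · exact absurd hij hxz
  · exact absurd hij.symm hxy
  · rfl
  · exact absurd hij hyz
  · exact absurd hij.symm hxz
  · exact absurd hij.symm hyz
  · rfl

theorem exists_mom {p : ℝ} {k : ℕ} (hk : 2 ≤ k) (hp0 : 0 < p) (hp1 : p < 1)
    (hn : 3 ≤ Fintype.card V) : ∃ q s, Mom V p k q s := by
  have hZ := ZZ_pos (V := V) (k := k) hp0 hp1
  obtain ⟨w⟩ : Nonempty (Fin 3 ↪ V) := by
    apply Function.Embedding.nonempty_of_card_le
    simpa using hn
  set Z := ZZ V p k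
  set q := MM p k (fun G => adj G (w 0) (w 1)) / Z with hq
  set s := MM p k (fun G => adj G (w 0) (w 1) * adj G (w 0) (w 2)) / Z - q ^ 2 with hs
  have hqZ : MM p k (fun G => adj G (w 0) (w 1)) = q * Z := by
    rw [hq, div_mul_cancel₀ _ hZ.ne']
  have hsZ : MM p k (fun G => adj G (w 0) (w 1) * adj G (w 0) (w 2)) = (s + q ^ 2) * Z := by
    rw [hs, sub_add_cancel, div_mul_cancel₀ _ hZ.ne']
  have hw01 : w 0 ≠ w 1 := fun h => by simpa using w.injective h
  refine ⟨q, s, ?_, ?_, ?_, ?_, ?_⟩
  · intro x y hxy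
    obtain ⟨σ, hσ⟩ := Equiv.Perm.exists_extending_pair (fun i : Fin 2 => w (Fin.castSucc i))
      ![x, y] (by
        intro i j h
        have := w.injective h
        exact Fin.castSucc_injective _ this) (inj2 hxy)
    have h0 := hσ 0
    have h1 := hσ 1
    simp only [Matrix.cons_val_zero, Matrix.cons_val_one] at h0 h1
    rw [← hqZ, ← MM_perm σ (fun G => adj G x y)]
    apply MM_congr
    intro G _
    rw [← h0, ← h1]
    exact adj_perm σ G _ _
  · intro x y z hxy hxz hyz
    obtain ⟨σ, hσ⟩ := Equiv.Perm.exists_extending_pair w ![x, y, z] w.injective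
      (inj3 hxy hxz hyz)
    have h0 := hσ 0
    have h1 := hσ 1
    have h2 := hσ 2
    simp only [Matrix.cons_val_zero, Matrix.cons_val_one, Matrix.cons_val] at h0 h1 h2
    rw [← hsZ, ← MM_perm σ (fun G => adj G x y * adj G x z)]
    apply MM_congr
    intro G _
    rw [← h0, ← h1, ← h2, adj_perm, adj_perm]
  · have h1 : 0 < MM p k (fun G => adj G (w 0) (w 1)) := by
      unfold MM
      apply EE_pos hp0 hp1 (fun G _ => mul_nonneg (adj_nonneg _ _ _) (aA_nonneg k G))
        (G₀ := {s(w 0, w 1)})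
      · intro e he
        rw [Finset.mem_singleton.1 he, mk_mem_EU]
        exact ⟨hw01, Finset.mem_univ _, Finset.mem_univ _⟩
      · have h2 : ¬ Cyc k ({s(w 0, w 1)} : Finset (Sym2 V)) := by
          rintro ⟨f, hf, hadj⟩
          have : Fact (2 < 2 * k) := ⟨by omega⟩
          have g0 := Finset.mem_singleton.1 (hadj 0)
          have g1 := Finset.mem_singleton.1 (hadj 1)
          rw [← g0, Sym2.eq_iff] at g1
          have h10 : (1 : ZMod (2 * k)) ≠ 0 := by
            have : Fact (1 < 2 * k) := ⟨by omega⟩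
            exact one_ne_zero
          have h20 : (1 : ZMod (2 * k)) + 1 ≠ 0 := by
            intro h
            have h3 : ((2 : ℕ) : ZMod (2 * k)) = 0 := by
              push_cast; rw [← h]; norm_num
            rw [ZMod.natCast_eq_zero_iff] at h3
            have := Nat.le_of_dvd (by omega) h3
            omega
          rcases g1 with ⟨g, _⟩ | ⟨_, g⟩
          · exact h10 (hf g)
          · exact h20 (hf g)
        unfold aA adj
        rw [if_neg h2]
        simp
    rw [hq]
    exact div_pos h1 hZ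
  · rw [hq, div_le_iff₀ hZ, MM_adj_eq]
    exact mass_le_p hp0.le hp1.le (aA_anti k) (aA_nonneg k) _
  · have h1 : (s + q ^ 2) * Z ≤ q * Z := by
      rw [← hsZ, ← hqZ]
      apply MM_mono hp0.le hp1.le
      intro G _
      have := adj_le_one G (w 0) (w 2)
      have := adj_nonneg G (w 0) (w 1)
      nlinarith
    have h2 := le_of_mul_le_mul_right h1 hZ
    nlinarith [sq_nonneg q]

/-- Free energy of a partial exposure. -/
noncomputable def fr (p : ℝ) (k : ℕ) (T H : Finset (Sym2 V)) : ℝ :=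
  EE p (EU (Finset.univ : Finset V) \ T) (fun G => aA k (H ∪ G))

theorem fr_nonneg {p : ℝ} {k : ℕ} (hp0 : 0 ≤ p) (hp1 : p ≤ 1) (T H : Finset (Sym2 V)) :
    0 ≤ fr p k T H := EE_nonneg hp0 hp1 (fun G _ => aA_nonneg k _)

theorem fr_anti {p : ℝ} {k : ℕ} (hp0 : 0 ≤ p) (hp1 : p ≤ 1) (T : Finset (Sym2 V))
    {H H' : Finset (Sym2 V)} (h : H ⊆ H') : fr p k T H' ≤ fr p k T H := by
  apply EE_mono hp0 hp1
  intro G _
  exact aA_anti k (Finset.union_subset_union_left h)

theorem fr_univ (p : ℝ) (k : ℕ) (H : Finset (Sym2 V)) :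
    fr p k (EU (Finset.univ : Finset V)) H = aA k H := by
  unfold fr
  rw [Finset.sdiff_self, EE_empty, Finset.union_empty]

theorem fr_empty (p : ℝ) (k : ℕ) :
    fr p k (∅ : Finset (Sym2 V)) ∅ = ZZ V p k := by
  unfold fr ZZ
  rw [Finset.sdiff_empty]
  apply EE_congr
  intro G _
  rw [Finset.empty_union]

/-- Neighbours of `v` in `U`. -/
noncomputable def nb (v : V) (U : Finset V) (G : Finset (Sym2 V)) : Finset V :=
  U.filter (fun x => s(x, v) ∈ G)

section stage

variable {p : ℝ} {k : ℕ} {U : Finset V} {v : V}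

theorem star_subset_EU (hv : v ∉ U) : star v U ⊆ EU (Finset.univ : Finset V) := by
  intro e he
  obtain ⟨x, hx, rfl⟩ := mem_star.1 he
  rw [mk_mem_EU]
  exact ⟨fun h => hv (h ▸ hx), Finset.mem_univ _, Finset.mem_univ _⟩

theorem inter_EU (hv : v ∉ U) {H G' : Finset (Sym2 V)} {N : Finset V} (hH : H ⊆ EU U)
    (hG' : G' ⊆ EU (Finset.univ : Finset V) \ EU (insert v U)) :
    (H ∪ star v N ∪ G') ∩ EU U = H := by
  ext e
  simp only [Finset.mem_inter, Finset.mem_union]
  constructor
  · rintro ⟨(h | h) | h, h2⟩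
    · exact h
    · exact absurd h (Finset.disjoint_left.1 (EU_star_disjoint hv N) h2)
    · exact absurd (EU_mono (Finset.subset_insert v U) h2) (Finset.mem_sdiff.1 (hG' h)).2
  · intro h
    exact ⟨Or.inl (Or.inl h), hH h⟩

theorem nb_eq (hv : v ∉ U) {H G' : Finset (Sym2 V)} {N : Finset V} (hH : H ⊆ EU U) (hN : N ⊆ U)
    (hG' : G' ⊆ EU (Finset.univ : Finset V) \ EU (insert v U)) :
    nb v U (H ∪ star v N ∪ G') = N := by
  ext x
  simp only [nb, Finset.mem_filter, Finset.mem_union]
  constructor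
  · rintro ⟨hx, (h | h) | h⟩
    · exact absurd (mk_mem_EU.1 (hH h)).2.2 hv
    · exact mk_mem_star.1 h
    · exfalso
      have := (Finset.mem_sdiff.1 (hG' h)).2
      apply this
      rw [EU_insert hv]
      exact Finset.mem_union_right _ (mk_mem_star.2 hx)
  · intro h
    exact ⟨hN h, Or.inl (Or.inr (mk_mem_star.2 h))⟩

theorem MM_stage (hv : v ∉ U) (Θ : Finset (Sym2 V) → Finset V → ℝ) :
    EE p (EU U) (fun H => EE p U (fun N => Θ H N * fr p k (EU (insert v U)) (H ∪ star v N)))
      = MM p k (fun G => Θ (G ∩ EU U) (nb v U G)) := by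
  unfold MM
  have h1 : EU (Finset.univ : Finset V)
      = (EU U ∪ star v U) ∪ (EU (Finset.univ : Finset V) \ EU (insert v U)) := by
    rw [← EU_insert hv, Finset.union_sdiff_of_subset (EU_mono (Finset.subset_univ _))]
  have hd : Disjoint (EU U ∪ star v U) (EU (Finset.univ : Finset V) \ EU (insert v U)) := by
    rw [← EU_insert hv]
    exact Finset.disjoint_sdiff
  conv_rhs => rw [h1, EE_union p hd, EE_union p (EU_star_disjoint hv U)]
  apply EE_congr
  intro H hH
  rw [EE_star]
  apply EE_congr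
  intro N hN
  unfold fr
  rw [← EE_mul_left]
  apply EE_congr
  intro G' hG'
  beta_reduce
  rw [inter_EU hv hH hG', nb_eq hv hH hN hG']

theorem fr_tower (hv : v ∉ U) {H : Finset (Sym2 V)} (hH : H ⊆ EU U) :
    EE p U (fun N => fr p k (EU (insert v U)) (H ∪ star v N)) = fr p k (EU U) H := by
  unfold fr
  have h1 : EU (Finset.univ : Finset V) \ EU U
      = star v U ∪ (EU (Finset.univ : Finset V) \ EU (insert v U)) := by
    rw [EU_insert hv]
    ext e
    simp only [Finset.mem_sdiff, Finset.mem_union]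
    constructor
    · rintro ⟨h1, h2⟩
      by_cases h3 : e ∈ star v U
      · exact Or.inl h3
      · exact Or.inr ⟨h1, fun h => h.elim h2 h3⟩
    · rintro (h | ⟨h1, h2⟩)
      · exact ⟨star_subset_EU hv h, fun h' =>
          Finset.disjoint_left.1 (EU_star_disjoint hv U) h' h⟩
      · exact ⟨h1, fun h => h2 (Or.inl h)⟩
  have hd : Disjoint (star v U) (EU (Finset.univ : Finset V) \ EU (insert v U)) := by
    rw [EU_insert hv, Finset.disjoint_left]
    intro e he h'
    exact (Finset.mem_sdiff.1 h').2 (Finset.mem_union_right _ he)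
  rw [h1, EE_union p hd, EE_star]
  apply EE_congr
  intro N _
  apply EE_congr
  intro G' _
  rw [Finset.union_assoc]

theorem MM_stage_H (hv : v ∉ U) (g : Finset (Sym2 V) → ℝ) :
    EE p (EU U) (fun H => g H * fr p k (EU U) H) = MM p k (fun G => g (G ∩ EU U)) := by
  rw [← MM_stage hv (fun H _ => g H)]
  apply EE_congr
  intro H hH
  rw [EE_mul_left, fr_tower hv hH]

/-- Entropy telescoping for one stage. -/
theorem ent_stage (hv : v ∉ U) :
    EE p (EU U) (fun H => Ent p U (fun N => fr p k (EU (insert v U)) (H ∪ star v N)))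
      = EE p (EU (insert v U)) (fun H => xi (fr p k (EU (insert v U)) H))
        - EE p (EU U) (fun H => xi (fr p k (EU U) H)) := by
  have h1 : EE p (EU (insert v U)) (fun H => xi (fr p k (EU (insert v U)) H))
      = EE p (EU U) (fun H => EE p U (fun N =>
        xi (fr p k (EU (insert v U)) (H ∪ star v N)))) := by
    conv_lhs => rw [EU_insert hv, EE_union p (EU_star_disjoint hv U)]
    apply EE_congr
    intro H _
    rw [EE_star, ← EU_insert hv]
  rw [h1, ← EE_sub]
  apply EE_congr
  intro H hH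
  unfold Ent
  rw [fr_tower hv hH]

end stage

end Pool.Agent.Q299.CY
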