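import Pool.Agent.Q299.CY.Ep

/-!
Sums over lists (walks) and counting lemmas.
-/

set_option linter.unusedSectionVars false

namespace Pool.Agent.Q299.CY

open Finset

variable {V : Type*} [Fintype V] [DecidableEq V]

/-- Sum over all lists of length `L`. -/
noncomputable def sw : ℕ → (List V → ℝ) → ℝ
  | 0, F => F []
  | L + 1, F => ∑ y, sw L (fun l => F (y :: l))

theorem sw_zero (F : List V → ℝ) : sw 0 F = F [] := rfl

theorem sw_succ (L : ℕ) (F : List V → ℝ) : sw (L + 1) F = ∑ y, sw L (fun l => F (y :: l)) := rfl

theorem sw_congr {L : ℕ} {F G : List V → ℝ} (h : ∀ l, l.length = L → F l = G l) :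
    sw L F = sw L G := by
  induction L generalizing F G with
  | zero => exact h [] rfl
  | succ L ih =>
    rw [sw_succ, sw_succ]
    apply Finset.sum_congr rfl
    intro y _
    apply ih
    intro l hl
    exact h _ (by simp [hl])

theorem sw_mono {L : ℕ} {F G : List V → ℝ} (h : ∀ l, l.length = L → F l ≤ G l) :
    sw L F ≤ sw L G := by
  induction L generalizing F G with
  | zero => exact h [] rfl
  | succ L ih =>
    rw [sw_succ, sw_succ]
    apply Finset.sum_le_sum
    intro y _
    apply ih
    intro l hl
    exact h _ (by simp [hl])

theorem sw_const_zero (L : ℕ) : sw L (fun _ : List V => (0:ℝ)) = 0 := by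
  induction L with
  | zero => rfl
  | succ L ih => rw [sw_succ]; simp [ih]

theorem sw_nonneg {L : ℕ} {F : List V → ℝ} (h : ∀ l, l.length = L → 0 ≤ F l) : 0 ≤ sw L F := by
  have := sw_mono (F := fun _ => (0:ℝ)) h
  rwa [sw_const_zero] at this

theorem sw_add (L : ℕ) (F G : List V → ℝ) : sw L (fun l => F l + G l) = sw L F + sw L G := by
  induction L generalizing F G with
  | zero => rfl
  | succ L ih =>
    rw [sw_succ, sw_succ, sw_succ, ← Finset.sum_add_distrib]
    apply Finset.sum_congr rfl
    intro y _
    exact ih _ _

theorem sw_sub (L : ℕ) (F G : List V → ℝ) : sw L (fun l => F l - G l) = sw L F - sw L G := by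
  induction L generalizing F G with
  | zero => rfl
  | succ L ih =>
    rw [sw_succ, sw_succ, sw_succ, ← Finset.sum_sub_distrib]
    apply Finset.sum_congr rfl
    intro y _
    exact ih _ _

theorem sw_mul_left (L : ℕ) (c : ℝ) (F : List V → ℝ) : sw L (fun l => c * F l) = c * sw L F := by
  induction L generalizing F with
  | zero => rfl
  | succ L ih =>
    rw [sw_succ, sw_succ, Finset.mul_sum]
    apply Finset.sum_congr rfl
    intro y _
    exact ih _

theorem sw_mul_right (L : ℕ) (c : ℝ) (F : List V → ℝ) : sw L (fun l => F l * c) = sw L F * c := by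
  rw [mul_comm, ← sw_mul_left]
  apply sw_congr
  intro l _
  ring

theorem sw_sum {ι : Type*} (L : ℕ) (T : Finset ι) (F : ι → List V → ℝ) :
    sw L (fun l => ∑ i ∈ T, F i l) = ∑ i ∈ T, sw L (F i) := by
  induction L generalizing F with
  | zero => rfl
  | succ L ih =>
    rw [sw_succ]
    have : ∀ i, sw (L + 1) (F i) = ∑ y, sw L (fun l => F i (y :: l)) := fun i => rfl
    simp_rw [this]
    rw [Finset.sum_comm]
    apply Finset.sum_congr rfl
    intro y _
    exact ih _

theorem sw_comm (L M : ℕ) (F : List V → List V → ℝ) :
    sw L (fun l => sw M (fun l' => F l l')) = sw M (fun l' => sw L (fun l => F l l')) := by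
  induction L generalizing F with
  | zero => rfl
  | succ L ih =>
    rw [sw_succ]
    have : ∀ l', sw (L + 1) (fun l => F l l') = ∑ y, sw L (fun l => F (y :: l) l') := fun _ => rfl
    simp_rw [this]
    rw [sw_sum]
    apply Finset.sum_congr rfl
    intro y _
    exact ih _

theorem sw_append (L M : ℕ) (F : List V → ℝ) :
    sw (L + M) F = sw L (fun l => sw M (fun l' => F (l ++ l'))) := by
  induction L generalizing F with
  | zero => rw [Nat.zero_add]; rfl
  | succ L ih =>
    rw [sw_succ, Nat.add_right_comm, sw_succ]
    apply Finset.sum_congr rfl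
    intro y _
    exact ih _

theorem EE_sw {α : Type*} [DecidableEq α] (p : ℝ) (S : Finset α) (L : ℕ)
    (F : Finset α → List V → ℝ) :
    EE p S (fun G => sw L (F G)) = sw L (fun l => EE p S (fun G => F G l)) := by
  induction L generalizing F with
  | zero => rfl
  | succ L ih =>
    rw [sw_succ]
    have : ∀ G, sw (L + 1) (F G) = ∑ y, sw L (fun l => F G (y :: l)) := fun _ => rfl
    simp_rw [this]
    rw [EE_sum]
    apply Finset.sum_congr rfl
    intro y _
    exact ih _

theorem sw_map (σ : Equiv.Perm V) (L : ℕ) (F : List V → ℝ) :
    sw L (fun l => F (l.map σ)) = sw L F := by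
  induction L generalizing F with
  | zero => rfl
  | succ L ih =>
    rw [sw_succ, sw_succ]
    rw [← Equiv.sum_comp σ (fun y => sw L (fun l => F (y :: l)))]
    apply Finset.sum_congr rfl
    intro y _
    exact ih (fun l => F (σ y :: l))

/-- The last vertex of `x :: l`. -/
def lst : V → List V → V
  | x, [] => x
  | _, y :: l => lst y l

/-- The edges of the walk `x :: l`. -/
def edg : V → List V → Finset (Sym2 V)
  | _, [] => ∅
  | x, y :: l => insert s(x, y) (edg y l)

theorem lst_mem (x : V) (l : List V) : lst x l ∈ x :: l := by
  induction l generalizing x with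
  | nil => simp [lst]
  | cons y l ih =>
    have := ih y
    simp only [lst]
    exact List.mem_cons_of_mem _ this

theorem lst_mem_tail {x : V} {l : List V} (h : l ≠ []) : lst x l ∈ l := by
  cases l with
  | nil => exact absurd rfl h
  | cons y l => exact lst_mem y l

theorem edg_mem {x : V} {l : List V} {e : Sym2 V} (h : e ∈ edg x l) : ∀ a ∈ e, a ∈ x :: l := by
  induction l generalizing x with
  | nil => simp [edg] at h
  | cons y l ih =>
    simp only [edg, Finset.mem_insert] at h
    intro a ha
    rcases h with h | h
    · subst h
      simp only [Sym2.mem_iff] at ha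
      rcases ha with rfl | rfl <;> simp
    · exact List.mem_cons_of_mem _ (ih h a ha)

theorem edg_not_mem {x y : V} {l : List V} (h : x ∉ y :: l) : s(x, y) ∉ edg y l := by
  intro h'
  exact h (edg_mem h' x (by simp))

/-- The number of new vertices. -/
def nw : Finset V → List V → ℕ
  | _, [] => 0
  | S, y :: l => (if y ∈ S then 0 else 1) + nw (insert y S) l

theorem nw_le (S : Finset V) (l : List V) : nw S l ≤ l.length := by
  induction l generalizing S with
  | nil => simp [nw]
  | cons y l ih =>
    have := ih (insert y S)
    simp only [nw, List.length_cons]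
    split_ifs <;> omega

theorem nw_eq_length {S : Finset V} {l : List V} (h : nw S l = l.length) :
    l.Nodup ∧ ∀ a ∈ l, a ∉ S := by
  induction l generalizing S with
  | nil => simp
  | cons y l ih =>
    have h1 := nw_le (insert y S) l
    simp only [nw, List.length_cons] at h
    by_cases hy : y ∈ S
    · simp only [hy, if_true] at h
      omega
    · simp only [hy, if_false] at h
      obtain ⟨h2, h3⟩ := ih (S := insert y S) (by omega)
      refine ⟨List.nodup_cons.2 ⟨?_, h2⟩, ?_⟩
      · intro hyl
        exact h3 y hyl (Finset.mem_insert_self y S)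
      · intro a ha
        rcases List.mem_cons.1 ha with rfl | ha
        · exact hy
        · intro haS
          exact h3 a ha (Finset.mem_insert_of_mem haS)

theorem nw_lt_of_not_nodup {x : V} {l : List V} (h : ¬ (x :: l).Nodup) : nw {x} l < l.length := by
  rcases (nw_le {x} l).lt_or_eq with h1 | h1
  · exact h1
  · exfalso
    obtain ⟨h2, h3⟩ := nw_eq_length h1
    apply h
    refine List.nodup_cons.2 ⟨fun hx => h3 x hx (Finset.mem_singleton_self x), h2⟩

theorem new_edges {x : V} {S : Finset V} {F : Finset (Sym2 V)} (hx : x ∈ S)
    (hF : ∀ e ∈ F, ∀ a ∈ e, a ∈ S) (l : List V) :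
    F.card + nw S l ≤ (edg x l ∪ F).card := by
  induction l generalizing x S F with
  | nil => simp [nw, edg]
  | cons y l ih =>
    have h := ih (x := y) (S := insert y S) (F := insert s(x, y) F) (Finset.mem_insert_self y S)
      (by
        intro e he a ha
        rcases Finset.mem_insert.1 he with rfl | he
        · simp only [Sym2.mem_iff] at ha
          rcases ha with rfl | rfl
          · exact Finset.mem_insert_of_mem hx
          · exact Finset.mem_insert_self _ _
        · exact Finset.mem_insert_of_mem (hF e he a ha))
    have e : edg x (y :: l) ∪ F = edg y l ∪ insert s(x, y) F := by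
      simp only [edg]
      ext z
      simp only [Finset.mem_union, Finset.mem_insert]
      tauto
    rw [e]
    refine le_trans ?_ h
    simp only [nw]
    by_cases hy : y ∈ S
    · simp only [hy, if_true]
      have := Finset.card_le_card (Finset.subset_insert s(x, y) F)
      omega
    · simp only [hy, if_false]
      have : s(x, y) ∉ F := fun h' => hy (hF _ h' y (by simp))
      rw [Finset.card_insert_of_notMem this]
      omega

theorem nw_le_edg (x : V) (l : List V) : nw {x} l ≤ (edg x l).card := by
  have := new_edges (x := x) (S := {x}) (F := ∅) (by simp) (by simp) l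
  simpa using this

theorem nw_append (S : Finset V) (l l' : List V) :
    nw S (l ++ l') = nw S l + nw (S ∪ l.toFinset) l' := by
  induction l generalizing S with
  | nil => simp [nw]
  | cons y l ih =>
    simp only [List.cons_append, nw, ih, List.toFinset_cons]
    have : insert y S ∪ l.toFinset = S ∪ insert y l.toFinset := by
      ext z; simp only [Finset.mem_union, Finset.mem_insert]; tauto
    rw [this]
    ring

theorem nw_pair (x : V) (l l' : List V) : nw {x} (l ++ l') ≤ (edg x l' ∪ edg x l).card := by
  have h1 := nw_le_edg x l
  have h2 := new_edges (x := x) (S := {x} ∪ l.toFinset) (F := edg x l) (by simp)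
    (by
      intro e he a ha
      have := edg_mem he a ha
      simpa using this) l'
  rw [nw_append]
  omega

theorem card_insert_le_real (y : V) (S : Finset V) :
    ((insert y S).card : ℝ) ≤ (S.card : ℝ) + 1 := by
  exact_mod_cast Finset.card_insert_le y S

theorem sum_step {p : ℝ} (hp : 0 ≤ p) (S : Finset V) :
    ∑ y : V, (if y ∈ S then (1:ℝ) else p) ≤ (Fintype.card V : ℝ) * p + S.card := by
  rw [← Finset.sum_filter_add_sum_filter_not Finset.univ (fun y => y ∈ S)]
  have e1 : ∑ y ∈ Finset.univ.filter (fun y => y ∈ S), (if y ∈ S then (1:ℝ) else p)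
      = (S.card : ℝ) := by
    rw [Finset.sum_congr rfl (g := fun _ => (1:ℝ))]
    · simp
    · intro y hy
      simp [(Finset.mem_filter.1 hy).2]
  have e2 : ∑ y ∈ Finset.univ.filter (fun y => ¬ y ∈ S), (if y ∈ S then (1:ℝ) else p)
      ≤ (Fintype.card V : ℝ) * p := by
    rw [Finset.sum_congr rfl (g := fun _ => p)]
    · rw [Finset.sum_const, nsmul_eq_mul]
      apply mul_le_mul_of_nonneg_right _ hp
      exact_mod_cast Finset.card_le_univ _
    · intro y hy
      simp [(Finset.mem_filter.1 hy).2]
  linarith

theorem cnt_all {p : ℝ} (hp : 0 ≤ p) (S : Finset V) (L : ℕ) :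
    sw L (fun l => p ^ (nw S l)) ≤ ((Fintype.card V : ℝ) * p + S.card + L) ^ L := by
  induction L generalizing S with
  | zero => simp [sw, nw]
  | succ L ih =>
    rw [sw_succ]
    have hb : ∀ y : V, sw L (fun l => p ^ (nw S (y :: l)))
        ≤ (if y ∈ S then (1:ℝ) else p)
          * ((Fintype.card V : ℝ) * p + S.card + (L + 1 : ℕ)) ^ L := by
      intro y
      have e : sw L (fun l => p ^ (nw S (y :: l)))
          = (if y ∈ S then (1:ℝ) else p) * sw L (fun l => p ^ (nw (insert y S) l)) := by
        rw [← sw_mul_left]
        apply sw_congr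
        intro l _
        simp only [nw]
        split_ifs
        · simp
        · rw [pow_add, pow_one]
      rw [e]
      apply mul_le_mul_of_nonneg_left _ (by split_ifs <;> positivity)
      refine (ih (insert y S)).trans ?_
      apply pow_le_pow_left₀ (by positivity)
      have := card_insert_le_real y S
      push_cast
      linarith
    refine (Finset.sum_le_sum (fun y _ => hb y)).trans ?_
    rw [← Finset.sum_mul, pow_succ, mul_comm]
    apply mul_le_mul_of_nonneg_left _ (by positivity)
    refine (sum_step hp S).trans ?_
    push_cast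
    linarith [(Nat.cast_nonneg L : (0:ℝ) ≤ L)]

theorem cnt_old {p : ℝ} (hp : 0 ≤ p) (S : Finset V) (L : ℕ) :
    sw L (fun l => if nw S l < l.length then p ^ (nw S l) else 0)
      ≤ L * (S.card + L) * ((Fintype.card V : ℝ) * p + S.card + L) ^ (L - 1) := by
  induction L generalizing S with
  | zero => simp [sw, nw]
  | succ L ih =>
    rw [sw_succ]
    set X : ℝ := (Fintype.card V : ℝ) * p + S.card + (L + 1 : ℕ) with hX
    have hX0 : 0 ≤ X := by positivity
    have hb : ∀ y : V, sw L (fun l => if nw S (y :: l) < (y :: l).length
          then p ^ (nw S (y :: l)) else 0)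
        ≤ (if y ∈ S then X ^ L else p * (L * (S.card + (L + 1 : ℕ)) * X ^ (L - 1))) := by
      intro y
      by_cases hy : y ∈ S
      · simp only [hy, if_true]
        refine le_trans ?_ ((cnt_all hp S L).trans (pow_le_pow_left₀ (by positivity) ?_ L))
        · apply sw_mono
          intro l _
          have : nw S (y :: l) = nw S l := by
            simp only [nw, hy, if_true, zero_add, Finset.insert_eq_of_mem hy]
          rw [this]
          split_ifs
          · exact le_refl _
          · positivity
        · rw [hX]; push_cast; linarith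
      · simp only [hy, if_false]
        have e : sw L (fun l => if nw S (y :: l) < (y :: l).length
              then p ^ (nw S (y :: l)) else 0)
            = p * sw L (fun l => if nw (insert y S) l < l.length
              then p ^ (nw (insert y S) l) else 0) := by
          rw [← sw_mul_left]
          apply sw_congr
          intro l _
          have h1 : nw S (y :: l) = 1 + nw (insert y S) l := by
            simp only [nw, hy, if_false]
          rw [h1, List.length_cons]
          by_cases h2 : nw (insert y S) l < l.length
          · rw [if_pos (by omega), if_pos h2, pow_add, pow_one]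
          · rw [if_neg (by omega), if_neg h2, mul_zero]
        rw [e]
        apply mul_le_mul_of_nonneg_left _ hp
        refine (ih (insert y S)).trans ?_
        have h1 := card_insert_le_real y S
        apply mul_le_mul
        · apply mul_le_mul_of_nonneg_left _ (by positivity)
          push_cast
          linarith
        · apply pow_le_pow_left₀ (by positivity)
          rw [hX]; push_cast; linarith
        · positivity
        · positivity
    refine (Finset.sum_le_sum (fun y _ => hb y)).trans ?_
    rw [← Finset.sum_filter_add_sum_filter_not Finset.univ (fun y => y ∈ S)]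
    have e1 : ∑ y ∈ Finset.univ.filter (fun y => y ∈ S),
        (if y ∈ S then X ^ L else p * (L * (S.card + (L + 1 : ℕ)) * X ^ (L - 1)))
        = S.card * X ^ L := by
      rw [Finset.sum_congr rfl (g := fun _ => X ^ L)]
      · simp
      · intro y hy
        simp [(Finset.mem_filter.1 hy).2]
    have e2 : ∑ y ∈ Finset.univ.filter (fun y => ¬ y ∈ S),
        (if y ∈ S then X ^ L else p * (L * (S.card + (L + 1 : ℕ)) * X ^ (L - 1)))
        ≤ (Fintype.card V : ℝ) * (p * (L * (S.card + (L + 1 : ℕ)) * X ^ (L - 1))) := by
      rw [Finset.sum_congr rfl (g := fun _ => p * (L * (S.card + (L + 1 : ℕ)) * X ^ (L - 1)))]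
      · rw [Finset.sum_const, nsmul_eq_mul]
        apply mul_le_mul_of_nonneg_right _ (by positivity)
        exact_mod_cast Finset.card_le_univ _
      · intro y hy
        simp [(Finset.mem_filter.1 hy).2]
    have e3 : (Fintype.card V : ℝ) * (p * (L * (S.card + (L + 1 : ℕ)) * X ^ (L - 1)))
        ≤ L * (S.card + (L + 1 : ℕ)) * X ^ L := by
      rcases Nat.eq_zero_or_pos L with hL | hL
      · subst hL; simp
      · have : X ^ L = X ^ (L - 1) * X := by
          rw [← pow_succ]; congr 1; omega
        rw [this]
        have h1 : (Fintype.card V : ℝ) * p ≤ X := by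
          rw [hX]; push_cast; linarith [(Nat.cast_nonneg L : (0:ℝ) ≤ L),
            (Nat.cast_nonneg S.card : (0:ℝ) ≤ S.card)]
        have h2 : 0 ≤ (L:ℝ) * (S.card + (L + 1 : ℕ)) * X ^ (L - 1) := by positivity
        nlinarith [mul_le_mul_of_nonneg_right h1 h2]
    have e4 : (0:ℝ) ≤ (L + 1 : ℕ) * X ^ L := by positivity
    rw [Nat.add_sub_cancel]
    calc _ ≤ (S.card : ℝ) * X ^ L + L * (S.card + (L + 1 : ℕ)) * X ^ L := by
          rw [e1]; linarith
      _ ≤ _ := by push_cast at *; nlinarith

end Pool.Agent.Q299.CY
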