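import Pool.Agent.Q299.CY.SW

/-!
Product weights, the new path lemma, the follow lemma, reversal.
-/

set_option linter.unusedSectionVars false

namespace Pool.Agent.Q299.CY

open Finset

variable {V : Type*} [Fintype V] [DecidableEq V]

/-- Product weight of a walk. -/
noncomputable def gw (p : ℝ) (F : Finset (Sym2 V)) : V → List V → ℝ
  | _, [] => 1
  | x, y :: l => (if s(x, y) ∈ F then 1 else p) * gw p F y l

theorem gw_nonneg {p : ℝ} (hp : 0 ≤ p) (F : Finset (Sym2 V)) (x : V) (l : List V) :
    0 ≤ gw p F x l := by
  induction l generalizing x with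
  | nil => simp [gw]
  | cons y l ih =>
    simp only [gw]
    have := ih y
    split_ifs <;> positivity

theorem gw_eq (p : ℝ) (F : Finset (Sym2 V)) {x : V} {l : List V} (h : (x :: l).Nodup) :
    p ^ ((edg x l \ F).card) = gw p F x l := by
  induction l generalizing x with
  | nil => simp [gw, edg]
  | cons y l ih =>
    have hx := (List.nodup_cons.1 h).1
    have hl := (List.nodup_cons.1 h).2
    have hne := edg_not_mem hx
    simp only [gw, edg]
    by_cases hF : s(x, y) ∈ F
    · rw [if_pos hF, one_mul, Finset.insert_sdiff_of_mem _ hF]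
      exact ih hl
    · rw [if_neg hF, Finset.insert_sdiff_of_notMem _ hF,
        Finset.card_insert_of_notMem (by simp [hne]), pow_succ, ih hl, mul_comm]

theorem sum_gstep {p : ℝ} (hp : 0 ≤ p) (S : Finset V) (F : Finset (Sym2 V))
    (hF : ∀ e ∈ F, ∀ a ∈ e, a ∈ S) (x : V) :
    ∑ y : V, (if s(x, y) ∈ F then (1:ℝ) else p) ≤ (Fintype.card V : ℝ) * p + S.card := by
  rw [← Finset.sum_filter_add_sum_filter_not Finset.univ (fun y => s(x, y) ∈ F)]
  have e1 : ∑ y ∈ Finset.univ.filter (fun y => s(x, y) ∈ F), (if s(x, y) ∈ F then (1:ℝ) else p)
      ≤ (S.card : ℝ) := by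
    rw [Finset.sum_congr rfl (g := fun _ => (1:ℝ))]
    · rw [Finset.sum_const, nsmul_eq_mul, mul_one]
      have : Finset.univ.filter (fun y => s(x, y) ∈ F) ⊆ S := by
        intro y hy
        exact hF _ (Finset.mem_filter.1 hy).2 y (by simp)
      exact_mod_cast Finset.card_le_card this
    · intro y hy
      simp [(Finset.mem_filter.1 hy).2]
  have e2 : ∑ y ∈ Finset.univ.filter (fun y => ¬ s(x, y) ∈ F),
      (if s(x, y) ∈ F then (1:ℝ) else p) ≤ (Fintype.card V : ℝ) * p := by
    rw [Finset.sum_congr rfl (g := fun _ => p)]
    · rw [Finset.sum_const, nsmul_eq_mul]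
      apply mul_le_mul_of_nonneg_right _ hp
      exact_mod_cast Finset.card_le_univ _
    · intro y hy
      simp [(Finset.mem_filter.1 hy).2]
  linarith

theorem sum_gstep' {p : ℝ} (hp : 0 ≤ p) (S : Finset V) (F : Finset (Sym2 V))
    (hF : ∀ e ∈ F, ∀ a ∈ e, a ∈ S) (y : V) :
    ∑ x : V, (if s(x, y) ∈ F then (1:ℝ) else p) ≤ (Fintype.card V : ℝ) * p + S.card := by
  have := sum_gstep hp S F hF y
  simpa only [Sym2.eq_swap] using this

/-- Total weight of walks ending in `S`, summed over all starting points. -/
theorem gw_end {p : ℝ} (hp : 0 ≤ p) (S : Finset V) (F : Finset (Sym2 V))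
    (hF : ∀ e ∈ F, ∀ a ∈ e, a ∈ S) (L : ℕ) :
    ∑ y : V, sw L (fun l => if lst y l ∈ S then gw p F y l else 0)
      ≤ S.card * ((Fintype.card V : ℝ) * p + S.card) ^ L := by
  induction L with
  | zero =>
    have e : ∑ y : V, sw 0 (fun l => if lst y l ∈ S then gw p F y l else 0)
        = ∑ y : V, (if y ∈ S then (1:ℝ) else 0) := Finset.sum_congr rfl (fun y _ => rfl)
    rw [e, pow_zero, mul_one, Finset.sum_ite_mem, Finset.univ_inter, Finset.sum_const,
      nsmul_eq_mul, mul_one]
  | succ L ih =>
    have e : ∑ y : V, sw (L + 1) (fun l => if lst y l ∈ S then gw p F y l else 0)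
        = ∑ z : V, (∑ y : V, (if s(y, z) ∈ F then (1:ℝ) else p))
          * sw L (fun l => if lst z l ∈ S then gw p F z l else 0) := by
      simp_rw [sw_succ]
      rw [Finset.sum_comm]
      apply Finset.sum_congr rfl
      intro z _
      rw [Finset.sum_mul]
      apply Finset.sum_congr rfl
      intro y _
      rw [← sw_mul_left]
      apply sw_congr
      intro l _
      by_cases h : lst z l ∈ S
      · have h' : lst y (z :: l) ∈ S := h
        rw [if_pos h, if_pos h']
        rfl
      · have h' : ¬ lst y (z :: l) ∈ S := h
        rw [if_neg h, if_neg h', mul_zero]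
    rw [e]
    calc _ ≤ ∑ z : V, ((Fintype.card V : ℝ) * p + S.card)
          * sw L (fun l => if lst z l ∈ S then gw p F z l else 0) := by
          apply Finset.sum_le_sum
          intro z _
          apply mul_le_mul_of_nonneg_right (sum_gstep' hp S F hF z)
          apply sw_nonneg
          intro l _
          split_ifs
          · exact gw_nonneg hp F z l
          · exact le_refl _
      _ = ((Fintype.card V : ℝ) * p + S.card)
          * ∑ z : V, sw L (fun l => if lst z l ∈ S then gw p F z l else 0) := by
          rw [Finset.mul_sum]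
      _ ≤ ((Fintype.card V : ℝ) * p + S.card)
          * (S.card * ((Fintype.card V : ℝ) * p + S.card) ^ L) :=
          mul_le_mul_of_nonneg_left ih (by positivity)
      _ = _ := by rw [pow_succ]; ring

/-- The new path lemma. -/
theorem gw_new {p : ℝ} (hp : 0 ≤ p) (S : Finset V) (F : Finset (Sym2 V))
    (hF : ∀ e ∈ F, ∀ a ∈ e, a ∈ S) (L : ℕ) (x : V) :
    sw L (fun l => if lst x l ∈ S ∧ ¬ edg x l ⊆ F then gw p F x l else 0)
      ≤ L * (p * S.card * ((Fintype.card V : ℝ) * p + S.card) ^ (L - 1)) := by
  induction L generalizing x with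
  | zero => simp [sw, edg]
  | succ L ih =>
    set X : ℝ := (Fintype.card V : ℝ) * p + S.card with hX
    have hX0 : 0 ≤ X := by positivity
    rw [sw_succ]
    have hb : ∀ y : V, sw L (fun l => if lst x (y :: l) ∈ S ∧ ¬ edg x (y :: l) ⊆ F
          then gw p F x (y :: l) else 0)
        ≤ (if s(x, y) ∈ F then L * (p * S.card * X ^ (L - 1)) else 0)
          + p * sw L (fun l => if lst y l ∈ S then gw p F y l else 0) := by
      intro y
      have hn : 0 ≤ sw L (fun l => if lst y l ∈ S then gw p F y l else 0) := by
        apply sw_nonneg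
        intro l _
        split_ifs
        · exact gw_nonneg hp F y l
        · exact le_refl _
      by_cases hy : s(x, y) ∈ F
      · rw [if_pos hy]
        have e : sw L (fun l => if lst x (y :: l) ∈ S ∧ ¬ edg x (y :: l) ⊆ F
            then gw p F x (y :: l) else 0)
            = sw L (fun l => if lst y l ∈ S ∧ ¬ edg y l ⊆ F then gw p F y l else 0) := by
          apply sw_congr
          intro l _
          simp only [lst, gw, edg, Finset.insert_subset_iff, hy, true_and, if_true, one_mul]
        rw [e]
        have := ih y
        have h2 := mul_nonneg hp hn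
        linarith
      · rw [if_neg hy, zero_add, ← sw_mul_left]
        apply sw_mono
        intro l _
        simp only [lst, gw, if_neg hy]
        have := mul_nonneg hp (gw_nonneg hp F y l)
        split_ifs with h1 h2 h2
        · exact le_refl _
        · exact absurd h1.1 h2
        · simpa using this
        · simp
    refine (Finset.sum_le_sum (fun y _ => hb y)).trans ?_
    rw [Finset.sum_add_distrib, ← Finset.mul_sum]
    have h1 := gw_end hp S F hF L
    have h2 : ∑ y : V, (if s(x, y) ∈ F then (L:ℝ) * (p * S.card * X ^ (L - 1)) else 0)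
        ≤ S.card * (L * (p * S.card * X ^ (L - 1))) := by
      rw [← Finset.sum_filter, Finset.sum_const, nsmul_eq_mul]
      apply mul_le_mul_of_nonneg_right _ (by positivity)
      have : Finset.univ.filter (fun y => s(x, y) ∈ F) ⊆ S := by
        intro y hy
        exact hF _ (Finset.mem_filter.1 hy).2 y (by simp)
      exact_mod_cast Finset.card_le_card this
    have h3 : (S.card : ℝ) * (L * (p * S.card * X ^ (L - 1))) ≤ L * (p * S.card * X ^ L) := by
      rcases Nat.eq_zero_or_pos L with hL | hL
      · subst hL; simp
      · have : X ^ L = X ^ (L - 1) * X := by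
          rw [← pow_succ]; congr 1; omega
        rw [this]
        have h4 : (S.card : ℝ) ≤ X := by
          rw [hX]
          have : 0 ≤ (Fintype.card V : ℝ) * p := by positivity
          linarith
        have h5 : 0 ≤ (L:ℝ) * (p * S.card * X ^ (L - 1)) := by positivity
        nlinarith [mul_le_mul_of_nonneg_right h4 h5]
    have h4 := mul_le_mul_of_nonneg_left h1 hp
    rw [Nat.add_sub_cancel]
    push_cast
    nlinarith

/-- The follow lemma. -/
theorem follow {x : V} {l q : List V} (hl : (x :: l).Nodup) (hq : (x :: q).Nodup)
    (h : edg x l ⊆ edg x q) : l <+: q := by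
  induction l generalizing x q with
  | nil => exact List.nil_prefix
  | cons y l ih =>
    cases q with
    | nil =>
      exfalso
      have := h (show s(x, y) ∈ edg x (y :: l) by simp [edg])
      simp [edg] at this
    | cons z q =>
      have hxl := (List.nodup_cons.1 hl).1
      have hxq := (List.nodup_cons.1 hq).1
      have h1 := h (show s(x, y) ∈ edg x (y :: l) by simp [edg])
      simp only [edg, Finset.mem_insert] at h1
      have hyz : y = z := by
        rcases h1 with h1 | h1
        · rw [Sym2.eq_iff] at h1
          rcases h1 with h1 | h1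
          · exact h1.2
          · rw [h1.2]; exact h1.1
        · exfalso
          exact hxq (edg_mem h1 x (by simp))
      subst hyz
      have h2 : edg y l ⊆ edg y q := by
        intro e he
        have h3 := h (show e ∈ edg x (y :: l) by simp [edg, he])
        simp only [edg, Finset.mem_insert] at h3
        rcases h3 with h3 | h3
        · exfalso
          subst h3
          exact edg_not_mem hxl he
        · exact h3
      have := ih (List.nodup_cons.1 hl).2 (List.nodup_cons.1 hq).2 h2
      exact List.cons_prefix_cons.2 ⟨rfl, this⟩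

/-- Edges of a full list. -/
def ed : List V → Finset (Sym2 V)
  | [] => ∅
  | x :: l => edg x l

theorem ed_cons_cons (x y : V) (l : List V) : ed (x :: y :: l) = insert s(x, y) (ed (y :: l)) := rfl

theorem ed_append (l1 l2 : List V) (x : V) :
    ed (l1 ++ x :: l2) = ed (l1 ++ [x]) ∪ ed (x :: l2) := by
  induction l1 with
  | nil => simp [ed, edg]
  | cons y l1 ih =>
    cases l1 with
    | nil =>
      simp only [List.cons_append, List.nil_append, ed_cons_cons]
      simp [ed, edg]
    | cons z l1 =>
      simp only [List.cons_append, ed_cons_cons] at ih ⊢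
      rw [ih, Finset.insert_union]

theorem ed_snoc (l : List V) (x y : V) : ed (l ++ [x, y]) = insert s(x, y) (ed (l ++ [x])) := by
  rw [ed_append]
  ext e
  simp only [ed, edg, Finset.mem_union, Finset.mem_insert, Finset.notMem_empty, or_false]
  tauto

theorem ed_reverse (l : List V) : ed l.reverse = ed l := by
  induction l with
  | nil => rfl
  | cons x l ih =>
    cases l with
    | nil => rfl
    | cons y l =>
      rw [ed_cons_cons, ← ih]
      have : (x :: y :: l).reverse = l.reverse ++ [y, x] := by simp
      rw [this, ed_snoc, Sym2.eq_swap]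
      congr 2
      simp

theorem lst_append (x y : V) (l l' : List V) : lst x (l ++ y :: l') = lst y l' := by
  induction l generalizing x with
  | nil => rfl
  | cons z l ih => exact ih z

theorem lst_concat (x y : V) (l : List V) : lst x (l ++ [y]) = y := lst_append x y l []

theorem edg_append (x y : V) (l l' : List V) :
    edg x (l ++ y :: l') = insert s(lst x l, y) (edg x l ∪ edg y l') := by
  induction l generalizing x with
  | nil => simp [edg, lst]
  | cons z l ih =>
    simp only [List.cons_append, edg, lst]
    rw [ih]
    ext e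
    simp only [Finset.mem_insert, Finset.mem_union]
    tauto

/-- Reversal of a path. -/
theorem exists_reverse {x : V} {l : List V} (hn : (x :: l).Nodup) :
    ∃ l', l'.length = l.length ∧ (lst x l :: l').Nodup ∧ edg (lst x l) l' = edg x l
      ∧ lst (lst x l) l' = x ∧ (∀ a, a ∈ lst x l :: l' ↔ a ∈ x :: l) := by
  have key : ∀ (l : List V) (x : V), (x :: l).reverse = lst x l :: ((x :: l).reverse).tail := by
    intro l
    induction l with
    | nil => intro x; rfl
    | cons y l ih =>
      intro x
      have h1 := ih y
      have h2 : (x :: y :: l).reverse = (y :: l).reverse ++ [x] := by simp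
      rw [h2, h1]
      simp [lst]
  have hlast : ∀ (m : List V) (z : V), m ≠ [] → z :: m.tail = m → True := fun _ _ _ _ => trivial
  refine ⟨((x :: l).reverse).tail, by simp, ?_, ?_, ?_, ?_⟩
  · rw [← key l x]
    exact List.nodup_reverse.2 hn
  · have : edg (lst x l) ((x :: l).reverse.tail) = ed ((x :: l).reverse) := by
      conv_rhs => rw [key l x]
      rfl
    rw [this, ed_reverse]
    rfl
  · cases l with
    | nil => rfl
    | cons y l =>
      have h2 : (x :: y :: l).reverse = (y :: l).reverse ++ [x] := by simp
      rw [h2]
      have h3 : ((y :: l).reverse ++ [x]).tail = (y :: l).reverse.tail ++ [x] := by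
        rw [key l y]; rfl
      rw [h3, lst_concat]
  · intro a
    rw [← key l x]
    exact List.mem_reverse

end Pool.Agent.Q299.CY
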