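import Pool.Agent.Q299.CY.Walks
import Pool.Agent.Q299.CY.EntK

/-!
One exposure stage: preparations.
-/

set_option linter.unusedSectionVars false

namespace Pool.Agent.Q299.CY

open Finset Classical

variable {V : Type*} [Fintype V] [DecidableEq V]

theorem sq_root_ge {a b : ℝ} (ha : 0 ≤ a) (hb : 0 < b) :
    a * Real.log b + 2 * a - 2 * (Real.sqrt a * Real.sqrt b) ≤ a * Real.log a := by
  rcases ha.lt_or_eq with h | h
  · have h1 : Real.log (Real.sqrt b / Real.sqrt a) ≤ Real.sqrt b / Real.sqrt a - 1 :=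
      Real.log_le_sub_one_of_pos (by positivity)
    rw [Real.log_div (by positivity) (by positivity), Real.log_sqrt hb.le, Real.log_sqrt h.le] at h1
    have h2 := mul_le_mul_of_nonneg_left h1 h.le
    have h3 : a * (Real.sqrt b / Real.sqrt a - 1) = Real.sqrt a * Real.sqrt b - a := by
      have : a * (Real.sqrt b / Real.sqrt a) = Real.sqrt a * Real.sqrt b := by
        rw [mul_div_assoc', div_eq_iff (by positivity)]
        have hh := Real.mul_self_sqrt h.le
        calc a * Real.sqrt b = (Real.sqrt a * Real.sqrt a) * Real.sqrt b := by rw [hh]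
          _ = _ := by ring
      rw [mul_sub, this, mul_one]
    rw [h3] at h2
    linarith
  · rw [← h]; simp

/-- The relative entropy function. -/
noncomputable def phi (p q : ℝ) : ℝ :=
  q * Real.log (q / p) + (1 - q) * Real.log ((1 - q) / (1 - p))

theorem Psi_low {p q a f : ℝ} (t : ℝ) (hq0 : 0 < q) (hqp : q ≤ p) (hp1 : p < 1) (ha : 0 ≤ a)
    (haf : a ≤ p * f) (hf : 0 ≤ f) :
    a * Real.log (q / p) + (f - a) * Real.log ((1 - q) / (1 - p))
      + (1 / (4 * p)) * (2 * t * (a - q * f) - t ^ 2 * f) ≤ Psi p a f := by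
  have hp0 : 0 < p := by linarith
  rcases hf.lt_or_eq with hf' | hf'
  swap
  · have ha0 : a = 0 := by rw [← hf'] at haf; linarith
    rw [← hf', ha0]
    simp [Psi, xi]
  rw [Real.log_div hq0.ne' hp0.ne', Real.log_div (by linarith) (by linarith)]
  unfold Psi xi
  have hfa : 0 ≤ f - a := by nlinarith
  have hb : 0 < q * f := by positivity
  have h1 := xlog_ge (x := f - a) (t := (1 - q) * f) hfa (mul_pos (by linarith) hf')
  have h2 := sq_root_ge (a := a) (b := q * f) ha hb
  rw [Real.log_mul (by linarith) hf'.ne'] at h1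
  rw [Real.log_mul hq0.ne' hf'.ne'] at h2
  set ra := Real.sqrt a
  set rb := Real.sqrt (q * f)
  have hra : ra * ra = a := Real.mul_self_sqrt ha
  have hrb : rb * rb = q * f := Real.mul_self_sqrt hb.le
  have hra0 : 0 ≤ ra := Real.sqrt_nonneg _
  have hrb0 : 0 ≤ rb := Real.sqrt_nonneg _
  have h3 : (a - q * f) ^ 2 ≤ 4 * p * f * (ra - rb) ^ 2 := by
    have e : (a - q * f) ^ 2 = (ra - rb) ^ 2 * (ra + rb) ^ 2 := by
      rw [← hra, ← hrb]; ring
    rw [e, mul_comm]
    apply mul_le_mul_of_nonneg_right _ (sq_nonneg _)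
    have h4 : q * f ≤ p * f := mul_le_mul_of_nonneg_right hqp hf
    nlinarith [sq_nonneg (ra - rb)]
  have h5 : (1 / (4 * p)) * (2 * t * (a - q * f) - t ^ 2 * f) ≤ (ra - rb) ^ 2 := by
    have h6 : (2 * t * (a - q * f) - t ^ 2 * f) * f ≤ (a - q * f) ^ 2 := by
      nlinarith [sq_nonneg (a - q * f - t * f)]
    have h7 : (2 * t * (a - q * f) - t ^ 2 * f) * f ≤ (4 * p * (ra - rb) ^ 2) * f := by
      nlinarith
    have h8 := le_of_mul_le_mul_right h7 hf'
    rw [one_div, inv_mul_le_iff₀ (by positivity)]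
    linarith
  nlinarith

section stage

variable {p : ℝ} {k : ℕ} {U : Finset V} {v : V}

/-- The star density of a stage. -/
noncomputable def hs (p : ℝ) (k : ℕ) (v : V) (U : Finset V) (H : Finset (Sym2 V)) :
    Finset V → ℝ := fun N => fr p k (EU (insert v U)) (H ∪ star v N)

theorem hs_anti (hp0 : 0 ≤ p) (hp1 : p ≤ 1) (H : Finset (Sym2 V)) : Antitone (hs p k v U H) := by
  intro N M h
  exact fr_anti hp0 hp1 _ (Finset.union_subset_union_right (star_mono h))

theorem hs_nonneg (hp0 : 0 ≤ p) (hp1 : p ≤ 1) (H : Finset (Sym2 V)) (N : Finset V) :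
    0 ≤ hs p k v U H N := fr_nonneg hp0 hp1 _ _

theorem hs_total (hv : v ∉ U) {H : Finset (Sym2 V)} (hH : H ⊆ EU U) :
    EE p U (hs p k v U H) = fr p k (EU U) H := fr_tower hv hH

theorem MM_stage_mass (hv : v ∉ U) {x : V} (hx : x ∈ U) (g : Finset (Sym2 V) → ℝ) :
    EE p (EU U) (fun H => g H * mass p U (hs p k v U H) x)
      = MM p k (fun G => g (G ∩ EU U) * adj G x v) := by
  have h1 := MM_stage (p := p) (k := k) hv (fun H N => g H * ic (x ∈ N))
  have h2 : MM p k (fun G => g (G ∩ EU U) * adj G x v)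
      = MM p k (fun G => g (G ∩ EU U) * ic (x ∈ nb v U G)) := by
    apply MM_congr
    intro G _
    congr 1
    rw [adj_eq_ic]
    apply ic_congr
    unfold nb
    rw [Finset.mem_filter]
    exact ⟨fun h => ⟨hx, h⟩, fun h => h.2⟩
  rw [h2, ← h1]
  apply EE_congr
  intro H _
  unfold mass
  rw [← EE_mul_left]
  apply EE_congr
  intro N _
  unfold hs
  by_cases h : x ∈ N
  · rw [if_pos h, ic_pos h, mul_one]
  · rw [if_neg h, ic_neg h]; ring

theorem adj_inter {x y : V} (hx : x ∈ U) (hy : y ∈ U) (hxy : x ≠ y) (G : Finset (Sym2 V)) :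
    adj (G ∩ EU U) x y = adj G x y := by
  rw [adj_eq_ic, adj_eq_ic]
  apply ic_congr
  rw [Finset.mem_inter, mk_mem_EU]
  exact ⟨fun h => h.1, fun h => ⟨h, hxy, hx, hy⟩⟩

/-- Centred degree. -/
noncomputable def Yc (q : ℝ) (U : Finset V) (x : V) (H : Finset (Sym2 V)) : ℝ :=
  ∑ y ∈ U.erase x, adj H x y - ((U.card : ℝ) - 1) * q

theorem card_erase_real {x : V} (hx : x ∈ U) : ((U.erase x).card : ℝ) = (U.card : ℝ) - 1 := by
  rw [Finset.card_erase_of_mem hx]
  have : 1 ≤ U.card := Finset.card_pos.2 ⟨x, hx⟩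
  push_cast [Nat.cast_sub this]
  ring

theorem Yc_inter {q : ℝ} {x : V} (hx : x ∈ U) (G : Finset (Sym2 V)) :
    Yc q U x (G ∩ EU U) = Yc q U x G := by
  unfold Yc
  congr 1
  apply Finset.sum_congr rfl
  intro y hy
  exact adj_inter hx (Finset.mem_of_mem_erase hy) (Finset.ne_of_mem_erase hy).symm G

variable {q s : ℝ}

theorem MM_Y (hM : Mom V p k q s) {x : V} (hx : x ∈ U) :
    MM p k (fun G => Yc q U x G) = 0 := by
  unfold Yc
  rw [MM_sub, MM_sum, MM_const]
  rw [Finset.sum_congr rfl (g := fun _ => q * ZZ V p k)]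
  · rw [Finset.sum_const, nsmul_eq_mul, card_erase_real hx]
    ring
  · intro y hy
    exact hM.one x y (Finset.ne_of_mem_erase hy).symm

theorem MM_Y_adj (hM : Mom V p k q s) {x z : V} (hx : x ∈ U) (hz : z ∉ U) :
    MM p k (fun G => Yc q U x G * adj G x z) = ((U.card : ℝ) - 1) * s * ZZ V p k := by
  have hxz : x ≠ z := fun h => hz (h ▸ hx)
  have e : ∀ G, Yc q U x G * adj G x z
      = ∑ y ∈ U.erase x, adj G x y * adj G x z - (((U.card : ℝ) - 1) * q) * adj G x z := by
    intro G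
    unfold Yc
    rw [sub_mul, Finset.sum_mul]
  simp_rw [e]
  rw [MM_sub, MM_sum, MM_mul_left, hM.one x z hxz]
  rw [Finset.sum_congr rfl (g := fun _ => (s + q ^ 2) * ZZ V p k)]
  · rw [Finset.sum_const, nsmul_eq_mul, card_erase_real hx]
    ring
  · intro y hy
    have hyU := Finset.mem_of_mem_erase hy
    exact hM.two x y z (Finset.ne_of_mem_erase hy).symm hxz (fun h => hz (h ▸ hyU))

theorem MM_Y_sq (hM : Mom V p k q s) {x : V} (hx : x ∈ U) :
    MM p k (fun G => Yc q U x G ^ 2)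
      = ((U.card : ℝ) - 1) * (q - q ^ 2 + ((U.card : ℝ) - 2) * s) * ZZ V p k := by
  have e : ∀ G, Yc q U x G ^ 2
      = ∑ y ∈ U.erase x, ∑ y' ∈ U.erase x, adj G x y * adj G x y'
        - (2 * (((U.card : ℝ) - 1) * q)) * Yc q U x G - (((U.card : ℝ) - 1) * q) ^ 2 := by
    intro G
    unfold Yc
    rw [← Finset.sum_mul_sum]
    ring
  simp_rw [e]
  rw [MM_sub, MM_sub, MM_sum, MM_mul_left, MM_Y hM hx, MM_const]
  have h1 : ∀ y ∈ U.erase x, MM p k (fun G => ∑ y' ∈ U.erase x, adj G x y * adj G x y')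
      = (q + ((U.card : ℝ) - 2) * (s + q ^ 2)) * ZZ V p k := by
    intro y hy
    rw [MM_sum, ← Finset.add_sum_erase _ _ hy]
    have h2 : MM p k (fun G => adj G x y * adj G x y) = q * ZZ V p k := by
      simp_rw [adj_sq]
      exact hM.one x y (Finset.ne_of_mem_erase hy).symm
    rw [h2, Finset.sum_congr rfl (g := fun _ => (s + q ^ 2) * ZZ V p k)]
    · rw [Finset.sum_const, nsmul_eq_mul]
      have h3 : (((U.erase x).erase y).card : ℝ) = (U.card : ℝ) - 2 := by
        rw [card_erase_real hy, card_erase_real hx]; ring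
      rw [h3]
      ring
    · intro y' hy'
      have h3 := Finset.mem_of_mem_erase hy'
      exact hM.two x y y' (Finset.ne_of_mem_erase hy).symm (Finset.ne_of_mem_erase h3).symm
        (Finset.ne_of_mem_erase hy').symm
  rw [Finset.sum_congr rfl h1, Finset.sum_const, nsmul_eq_mul, card_erase_real hx]
  ring

theorem psi_stage_aux (hp0 : 0 < p) (hp1 : p < 1) (hM : Mom V p k q s) (hv : v ∉ U) {x : V}
    (hx : x ∈ U) (t : ℝ) :
    ZZ V p k * (phi p q) + (1 / (4 * p)) * (2 * t * (((U.card : ℝ) - 1) * s)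
      - t ^ 2 * (((U.card : ℝ) - 1) * (q - q ^ 2 + ((U.card : ℝ) - 2) * s))) * ZZ V p k
    ≤ EE p (EU U) (fun H => Psi p (mass p U (hs p k v U H) x) (fr p k (EU U) H)) := by
  set A := Real.log (q / p) with hA
  set B := Real.log ((1 - q) / (1 - p)) with hB
  have h1 : EE p (EU U) (fun H => (A * mass p U (hs p k v U H) x
      + B * fr p k (EU U) H - B * mass p U (hs p k v U H) x)
      + (((1 / (4 * p)) * (2 * t) * Yc q U x H) * mass p U (hs p k v U H) x
      - ((1 / (4 * p)) * (2 * t) * q * Yc q U x H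
        + (1 / (4 * p)) * t ^ 2 * Yc q U x H ^ 2) * fr p k (EU U) H))
      ≤ EE p (EU U) (fun H => Psi p (mass p U (hs p k v U H) x) (fr p k (EU U) H)) := by
    apply EE_mono hp0.le hp1.le
    intro H hH
    have ha : 0 ≤ mass p U (hs p k v U H) x :=
      mass_nonneg hp0.le hp1.le (fun N _ => hs_nonneg hp0.le hp1.le H N) x
    have haf : mass p U (hs p k v U H) x ≤ p * fr p k (EU U) H := by
      have := mass_le_p (V := U) hp0.le hp1.le (hs_anti hp0.le hp1.le (k := k) (v := v) (U := U) H)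
        (hs_nonneg hp0.le hp1.le H) x
      rwa [hs_total hv hH] at this
    have hf := fr_nonneg (k := k) hp0.le hp1.le (EU U) H
    have := Psi_low (t * Yc q U x H) hM.q_pos hM.q_le hp1 ha haf hf
    refine le_trans (le_of_eq ?_) this
    rw [← hA, ← hB]
    ring
  refine le_trans (le_of_eq ?_) h1
  have e1 : ∀ c : ℝ, EE p (EU U) (fun H => c * mass p U (hs p k v U H) x) = c * (q * ZZ V p k) := by
    intro c
    rw [MM_stage_mass hv hx (fun _ => c), MM_mul_left, hM.one x v (fun h => hv (h ▸ hx))]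
  have e2 : ∀ c : ℝ, EE p (EU U) (fun H => c * fr p k (EU U) H) = c * ZZ V p k := by
    intro c
    rw [MM_stage_H hv (fun _ => c), MM_const]
  have e3 : ∀ c : ℝ, EE p (EU U) (fun H => (c * Yc q U x H) * mass p U (hs p k v U H) x)
      = c * (((U.card : ℝ) - 1) * s * ZZ V p k) := by
    intro c
    rw [MM_stage_mass hv hx (fun H => c * Yc q U x H), ← MM_Y_adj hM hx hv, ← MM_mul_left]
    apply MM_congr
    intro G _
    rw [Yc_inter hx]
    ring
  have e4 : ∀ c d : ℝ, EE p (EU U) (fun H => (c * Yc q U x H + d * Yc q U x H ^ 2)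
      * fr p k (EU U) H)
      = d * (((U.card : ℝ) - 1) * (q - q ^ 2 + ((U.card : ℝ) - 2) * s) * ZZ V p k) := by
    intro c d
    rw [MM_stage_H hv (fun H => c * Yc q U x H + d * Yc q U x H ^ 2), ← MM_Y_sq hM hx,
      ← MM_mul_left]
    have : MM p k (fun G => c * Yc q U x (G ∩ EU U) + d * Yc q U x (G ∩ EU U) ^ 2)
        = MM p k (fun G => c * Yc q U x G + d * Yc q U x G ^ 2) := by
      apply MM_congr
      intro G _
      rw [Yc_inter hx]
    rw [this, MM_add, MM_mul_left, MM_Y hM hx]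
    ring
  rw [EE_add, EE_sub, EE_sub, EE_add, e1, e2, e1, e3, e4]
  unfold phi
  rw [← hA, ← hB]
  ring

/-- The first part of the entropy at one stage. -/
theorem psi_stage (hp0 : 0 < p) (hp1 : p < 1) (hM : Mom V p k q s) (hv : v ∉ U) {x : V}
    (hx : x ∈ U) :
    ZZ V p k * (phi p q + max s 0 / (4 * p) - 1 / (2 * U.card))
    ≤ EE p (EU U) (fun H => Psi p (mass p U (hs p k v U H) x) (fr p k (EU U) H)) := by
  have hZ := ZZ_pos (V := V) (k := k) hp0 hp1
  have hj1 : 1 ≤ U.card := Finset.card_pos.2 ⟨x, hx⟩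
  have hjr : (1:ℝ) ≤ U.card := by exact_mod_cast hj1
  have h0 := psi_stage_aux hp0 hp1 hM hv hx 0
  simp only [mul_zero, zero_mul, ne_eq, OfNat.ofNat_ne_zero, not_false_eq_true, zero_pow,
    sub_zero, add_zero] at h0
  by_cases hs : s ≤ 0
  · rw [max_eq_right hs, zero_div, add_zero]
    refine le_trans ?_ h0
    apply mul_le_mul_of_nonneg_left _ hZ.le
    have : 0 ≤ 1 / (2 * (U.card : ℝ)) := by positivity
    linarith
  push Not at hs
  rw [max_eq_left hs.le]
  by_cases hj : U.card = 1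
  · refine le_trans ?_ h0
    apply mul_le_mul_of_nonneg_left _ hZ.le
    rw [hj]
    have h1 : s / (4 * p) ≤ 1 / 4 := by
      rw [div_le_div_iff₀ (by positivity) (by norm_num)]
      have := hM.s_le.trans hM.q_le
      linarith
    norm_num
    linarith
  · have hj2 : 2 ≤ U.card := by omega
    have hjr2 : (2:ℝ) ≤ U.card := by exact_mod_cast hj2
    set j : ℝ := (U.card : ℝ) with hjdef
    have h1 := psi_stage_aux hp0 hp1 hM hv hx (1 / (j - 1))
    refine le_trans ?_ h1
    have hjm : 0 < j - 1 := by linarith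
    have e : 2 * (1 / (j - 1)) * ((j - 1) * s) - (1 / (j - 1)) ^ 2 *
        ((j - 1) * (q - q ^ 2 + (j - 2) * s))
        = 2 * s - (q - q ^ 2 + (j - 2) * s) / (j - 1) := by
      field_simp
    rw [e]
    have h2 : s - q / (j - 1) ≤ 2 * s - (q - q ^ 2 + (j - 2) * s) / (j - 1) := by
      rw [div_eq_mul_inv, div_eq_mul_inv]
      have h3 : (j - 1) * (j - 1)⁻¹ = 1 := mul_inv_cancel₀ hjm.ne'
      have h4 : 0 < (j - 1)⁻¹ := by positivity
      have h5 : 0 ≤ (q ^ 2 + s) * (j - 1)⁻¹ := by positivity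
      nlinarith
    have h3 : q / (j - 1) / (4 * p) ≤ 1 / (2 * j) := by
      rw [div_div, div_le_div_iff₀ (by positivity) (by positivity)]
      have hq := hM.q_le
      have hq0 := hM.q_pos
      nlinarith
    have h4 : s / (4 * p) - 1 / (2 * j) ≤
        (1 / (4 * p)) * (2 * s - (q - q ^ 2 + (j - 2) * s) / (j - 1)) := by
      have h5 := mul_le_mul_of_nonneg_left h2 (by positivity : (0:ℝ) ≤ 1 / (4 * p))
      have e2 : (1 / (4 * p)) * (s - q / (j - 1)) = s / (4 * p) - q / (j - 1) / (4 * p) := by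
        ring
      rw [e2] at h5
      linarith
    have h5 := mul_le_mul_of_nonneg_left h4 hZ.le
    nlinarith

end stage

end Pool.Agent.Q299.CY
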