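import Pool.Agent.Q299.CY.Stage

/-!
One exposure stage: walks from the new vertex.
-/

set_option linter.unusedSectionVars false

namespace Pool.Agent.Q299.CY

open Finset Classical

variable {V : Type*} [Fintype V] [DecidableEq V]

section stage

variable {p : ℝ} {k : ℕ} {U : Finset V} {v : V} {q s : ℝ}

theorem edg_subset_EU {x : V} {l : List V} {G : Finset (Sym2 V)}
    (hn : x ∉ l) {y : V} (h : edg y l ⊆ G ∩ EU (insert x U)) (hyx : y ≠ x) :
    edg y l ⊆ G ∩ EU U := by
  intro e he
  have h1 := Finset.mem_inter.1 (h he)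
  refine Finset.mem_inter.2 ⟨h1.1, ?_⟩
  rw [mem_EU] at h1 ⊢
  refine ⟨h1.2.1, fun a ha => ?_⟩
  have h2 := h1.2.2 a ha
  rcases Finset.mem_insert.1 h2 with h3 | h3
  · exfalso
    have h4 := edg_mem he a ha
    rw [h3] at h4
    rcases List.mem_cons.1 h4 with h5 | h5
    · exact hyx h5.symm
    · exact hn h5
  · exact h3

/-- Walks from `v` are nonreturning walks or returning walks. -/
theorem walk_split (hv : v ∉ U) (G : Finset (Sym2 V)) (L : ℕ) :
    uw (adj (G ∩ EU (insert v U))) (L + 1) v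
      ≤ ∑ x ∈ U, adj G x v * uw (adj (G ∩ EU U)) L x
        + sw (L + 1) (fun l => ic (¬ (v :: l).Nodup ∧ edg v l ⊆ G)) := by
  rw [uw_sw, sw_succ, sw_succ]
  have h1 : ∑ x ∈ U, adj G x v * uw (adj (G ∩ EU U)) L x
      = ∑ x : V, ic (x ∈ U) * (adj G x v * uw (adj (G ∩ EU U)) L x) := by
    rw [← Finset.sum_subset (Finset.subset_univ U)]
    · apply Finset.sum_congr rfl
      intro x hx
      rw [ic_pos hx, one_mul]
    · intro x _ hx
      rw [ic_neg hx, zero_mul]
  rw [h1, ← Finset.sum_add_distrib]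
  apply Finset.sum_le_sum
  intro y _
  rw [uw_sw, ← mul_assoc, ← sw_mul_left, ← sw_add]
  apply sw_mono
  intro l _
  by_cases h : edg v (y :: l) ⊆ G ∩ EU (insert v U)
  · rw [ic_pos h]
    by_cases hn : (v :: y :: l).Nodup
    · have h2 : s(v, y) ∈ G ∩ EU (insert v U) := h (by simp [edg])
      have hvy : v ∉ y :: l := (List.nodup_cons.1 hn).1
      have hyv : y ≠ v := fun h' => hvy (by rw [h']; simp)
      have hyU : y ∈ U := by
        have := (mk_mem_EU.1 (Finset.mem_inter.1 h2).2).2.2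
        rcases Finset.mem_insert.1 this with h3 | h3
        · exact absurd h3 hyv
        · exact h3
      have h3 : edg y l ⊆ G ∩ EU U := by
        apply edg_subset_EU (fun h' => hvy (List.mem_cons_of_mem _ h')) _ hyv
        intro e he
        exact h (by simp [edg, he])
      rw [ic_pos hyU, ic_pos h3, adj_eq_ic, ic_pos (by rw [Sym2.eq_swap]; exact
        (Finset.mem_inter.1 h2).1)]
      have := ic_nonneg (¬ (v :: y :: l).Nodup ∧ edg v (y :: l) ⊆ G)
      linarith
    · have h2 : edg v (y :: l) ⊆ G := h.trans Finset.inter_subset_left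
      rw [ic_pos (P := ¬ (v :: y :: l).Nodup ∧ edg v (y :: l) ⊆ G) ⟨hn, h2⟩]
      have : 0 ≤ ic (y ∈ U) * adj G y v * ic (edg y l ⊆ G ∩ EU U) :=
        mul_nonneg (mul_nonneg (ic_nonneg _) (adj_nonneg _ _ _)) (ic_nonneg _)
      linarith
  · rw [ic_neg h]
    have h1 : 0 ≤ ic (y ∈ U) * adj G y v * ic (edg y l ⊆ G ∩ EU U) :=
      mul_nonneg (mul_nonneg (ic_nonneg _) (adj_nonneg _ _ _)) (ic_nonneg _)
    have h2 := ic_nonneg (¬ (v :: y :: l).Nodup ∧ edg v (y :: l) ⊆ G)
    linarith

theorem uw_zero_of_not_mem {W : Finset V} {G : Finset (Sym2 V)} (hG : G ⊆ EU W) (L : ℕ) {x : V}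
    (hx : x ∉ W) : uw (adj G) (L + 1) x = 0 := by
  simp only [uw]
  apply Finset.sum_eq_zero
  intro y _
  rw [adj_zero hG (Or.inl hx), zero_mul]

theorem uw_perm (σ : Equiv.Perm V) (G : Finset (Sym2 V)) (L : ℕ) (x : V) :
    uw (adj (G.map (pm σ))) L (σ x) = uw (adj G) L x := by
  induction L generalizing x with
  | zero => rfl
  | succ L ih =>
    simp only [uw]
    rw [← Equiv.sum_comp σ]
    apply Finset.sum_congr rfl
    intro y _
    rw [adj_perm, ih]

theorem MM_uw_exch {W : Finset V} {u w : V} (hu : u ∈ W) (hw : w ∈ W) (L : ℕ) :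
    MM p k (fun G => uw (adj (G ∩ EU W)) L u) = MM p k (fun G => uw (adj (G ∩ EU W)) L w) := by
  set σ := Equiv.swap u w with hσ
  have hW : W.map σ.toEmbedding = W := by
    ext z
    rw [Finset.mem_map]
    have key : ∀ a ∈ W, σ a ∈ W := by
      intro a ha
      rw [hσ]
      by_cases h1 : a = u
      · rw [h1, Equiv.swap_apply_left]; exact hw
      · by_cases h2 : a = w
        · rw [h2, Equiv.swap_apply_right]; exact hu
        · rw [Equiv.swap_apply_of_ne_of_ne h1 h2]; exact ha
    constructor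
    · rintro ⟨a, ha, rfl⟩
      exact key a ha
    · intro hz
      exact ⟨σ z, key z hz, by simp [hσ]⟩
  rw [← MM_perm σ (fun G => uw (adj (G ∩ EU W)) L w)]
  apply MM_congr
  intro G _
  have h1 : G.map (pm σ) ∩ EU W = (G ∩ EU W).map (pm σ) := by
    rw [pm_inter, pm_EU, hW]
  rw [h1]
  have h2 : w = σ u := by rw [hσ, Equiv.swap_apply_left]
  rw [h2, uw_perm]

theorem MM_S (hM : Mom V p k q s) (W : Finset V) :
    MM p k (fun G => ∑ x, ∑ y, adj (G ∩ EU W) x y)
      = (W.card : ℝ) * ((W.card : ℝ) - 1) * q * ZZ V p k := by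
  rw [MM_sum]
  have h1 : ∀ x, MM p k (fun G => ∑ y, adj (G ∩ EU W) x y)
      = if x ∈ W then ((W.card : ℝ) - 1) * q * ZZ V p k else 0 := by
    intro x
    rw [MM_sum]
    by_cases hx : x ∈ W
    · rw [if_pos hx]
      have h2 : ∀ y, MM p k (fun G => adj (G ∩ EU W) x y)
          = if y ∈ W.erase x then q * ZZ V p k else 0 := by
        intro y
        by_cases hy : y ∈ W.erase x
        · rw [if_pos hy, ← hM.one x y (Finset.ne_of_mem_erase hy).symm]
          apply MM_congr
          intro G _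
          exact adj_inter hx (Finset.mem_of_mem_erase hy) (Finset.ne_of_mem_erase hy).symm G
        · rw [if_neg hy]
          have : ∀ G : Finset (Sym2 V), adj (G ∩ EU W) x y = 0 := by
            intro G
            apply adj_zero Finset.inter_subset_right
            by_cases hxy : x = y
            · exact Or.inr (Or.inr hxy)
            · exact Or.inr (Or.inl (fun h => hy (Finset.mem_erase.2 ⟨fun h' => hxy h'.symm, h⟩)))
          simp_rw [this]
          rw [MM_const, zero_mul]
      rw [Finset.sum_congr rfl (fun y _ => h2 y), Finset.sum_ite_mem, Finset.univ_inter,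
        Finset.sum_const, nsmul_eq_mul, card_erase_real hx]
      ring
    · rw [if_neg hx]
      apply Finset.sum_eq_zero
      intro y _
      have : ∀ G : Finset (Sym2 V), adj (G ∩ EU W) x y = 0 :=
        fun G => adj_zero Finset.inter_subset_right (Or.inl hx)
      simp_rw [this]
      rw [MM_const, zero_mul]
  rw [Finset.sum_congr rfl (fun x _ => h1 x), Finset.sum_ite_mem, Finset.univ_inter,
    Finset.sum_const, nsmul_eq_mul]
  ring

/-- Mean number of walks from `v` inside `W`. -/
theorem MM_walks_lower (hp0 : 0 < p) (hp1 : p < 1) (hM : Mom V p k q s) {W : Finset V}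
    (hv : v ∈ W) (L : ℕ) :
    ((((W.card : ℝ) - 1) * q) ^ (L + 1)) * ZZ V p k
      ≤ MM p k (fun G => uw (adj (G ∩ EU W)) (L + 1) v) := by
  have hne : W.Nonempty := ⟨v, hv⟩
  have hc : (0:ℝ) < W.card := by exact_mod_cast hne.card_pos
  have hc1 : (1:ℝ) ≤ W.card := by exact_mod_cast hne.card_pos
  set t : ℝ := ((W.card : ℝ) - 1) * q with ht
  have ht0 : 0 ≤ t := mul_nonneg (by linarith) hM.q_pos.le
  -- sum over all starting points
  have h1 : MM p k (fun G => ∑ x, uw (adj (G ∩ EU W)) (L + 1) x)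
      = W.card * MM p k (fun G => uw (adj (G ∩ EU W)) (L + 1) v) := by
    rw [MM_sum]
    have : ∀ x, MM p k (fun G => uw (adj (G ∩ EU W)) (L + 1) x)
        = if x ∈ W then MM p k (fun G => uw (adj (G ∩ EU W)) (L + 1) v) else 0 := by
      intro x
      by_cases hx : x ∈ W
      · rw [if_pos hx]
        exact MM_uw_exch hx hv _
      · rw [if_neg hx]
        have : ∀ G : Finset (Sym2 V), uw (adj (G ∩ EU W)) (L + 1) x = 0 :=
          fun G => uw_zero_of_not_mem Finset.inter_subset_right L hx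
        simp_rw [this]
        rw [MM_const, zero_mul]
    rw [Finset.sum_congr rfl (fun x _ => this x), Finset.sum_ite_mem, Finset.univ_inter,
      Finset.sum_const, nsmul_eq_mul]
  have h2 : MM p k (fun G => W.card * (t ^ (L + 1) + (L + 1) * t ^ L *
        ((∑ x, ∑ y, adj (G ∩ EU W) x y) / W.card - t)))
      ≤ MM p k (fun G => ∑ x, uw (adj (G ∩ EU W)) (L + 1) x) := by
    apply MM_mono hp0.le hp1.le
    intro G _
    have h3 := blakley_roy (A := adj (G ∩ EU W)) (adj_nonneg _) (adj_symm _) (U := W)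
      (fun x y hx => adj_zero Finset.inter_subset_right (Or.inl hx)) hne L
    have h4 : 0 ≤ ∑ x, ∑ y, adj (G ∩ EU W) x y :=
      Finset.sum_nonneg (fun x _ => Finset.sum_nonneg (fun y _ => adj_nonneg _ _ _))
    have h5 := pow_tangent (x := (∑ x, ∑ y, adj (G ∩ EU W) x y) / W.card) (t := t)
      (by positivity) ht0 L
    exact (mul_le_mul_of_nonneg_left h5 hc.le).trans h3
  have h3 : MM p k (fun G => W.card * (t ^ (L + 1) + (L + 1) * t ^ L *
        ((∑ x, ∑ y, adj (G ∩ EU W) x y) / W.card - t)))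
      = W.card * (t ^ (L + 1) * ZZ V p k) := by
    have e : ∀ G : Finset (Sym2 V), W.card * (t ^ (L + 1) + (L + 1) * t ^ L *
        ((∑ x, ∑ y, adj (G ∩ EU W) x y) / W.card - t))
        = ((L + 1) * t ^ L) * (∑ x, ∑ y, adj (G ∩ EU W) x y)
          + W.card * (t ^ (L + 1) - (L + 1) * t ^ L * t) := by
      intro G
      field_simp
      ring
    simp_rw [e]
    rw [MM_add, MM_mul_left, MM_S hM W, MM_const, ht]
    ring
  rw [h3, h1] at h2
  exact le_of_mul_le_mul_left h2 hc

/-- Lower bound for the mean number of nonreturning walks. -/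
theorem MM_w_lower (hp0 : 0 < p) (hp1 : p < 1) (hM : Mom V p k q s) (hv : v ∉ U) (L : ℕ) :
    (((U.card : ℝ) * q) ^ (L + 1) - (L + 1 : ℕ) * (1 + (L + 1 : ℕ)) *
      ((Fintype.card V : ℝ) * p + 1 + (L + 1 : ℕ)) ^ L) * ZZ V p k
      ≤ ∑ x ∈ U, MM p k (fun G => adj G x v * uw (adj (G ∩ EU U)) L x) := by
  have h1 := MM_walks_lower hp0 hp1 hM (W := insert v U) (v := v) (Finset.mem_insert_self v U) L
  rw [Finset.card_insert_of_notMem hv] at h1
  have h2 : MM p k (fun G => uw (adj (G ∩ EU (insert v U))) (L + 1) v)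
      ≤ MM p k (fun G => ∑ x ∈ U, adj G x v * uw (adj (G ∩ EU U)) L x
        + sw (L + 1) (fun l => ic (¬ (v :: l).Nodup ∧ edg v l ⊆ G))) :=
    MM_mono hp0.le hp1.le (fun G _ => walk_split hv G L)
  rw [MM_add, MM_sum] at h2
  have h3 : MM p k (fun G => sw (L + 1) (fun l => ic (¬ (v :: l).Nodup ∧ edg v l ⊆ G)))
      ≤ ((L + 1 : ℕ) * (1 + (L + 1 : ℕ)) *
      ((Fintype.card V : ℝ) * p + 1 + (L + 1 : ℕ)) ^ L) * ZZ V p k := by
    have hmono : Monotone (fun G : Finset (Sym2 V) =>
        sw (L + 1) (fun l => ic (¬ (v :: l).Nodup ∧ edg v l ⊆ G))) := by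
      intro G H h
      apply sw_mono
      intro l _
      exact ic_mono (fun h' => ⟨h'.1, h'.2.trans h⟩)
    refine (MM_harris hp0.le hp1.le hmono).trans ?_
    apply mul_le_mul_of_nonneg_right _ (ZZ_pos hp0 hp1).le
    exact EE_mn hp0.le hp1.le _ (L + 1) v
  push_cast at *
  have e : ((U.card : ℝ) + 1 - 1) = U.card := by ring
  rw [e] at h1
  nlinarith

/-- Closed walks with a further edge. -/
theorem MM_closed (hp0 : 0 < p) (hp1 : p < 1) (hv : v ∉ U) {x : V} {L : ℕ} (hL : 0 < L) :
    MM p k (fun G => mw (G ∩ EU U) L x x * adj G x v)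
      ≤ (p * (L * (1 + L) * ((Fintype.card V : ℝ) * p + 1 + L) ^ (L - 1))) * ZZ V p k := by
  have hmono : Monotone (fun G : Finset (Sym2 V) => mw (G ∩ EU U) L x x * adj G x v) := by
    intro G H h
    exact mul_le_mul (mw_mono (Finset.inter_subset_inter_right h) _ _ _) (adj_mono h _ _)
      (adj_nonneg _ _ _) (mw_nonneg _ _ _ _)
  refine (MM_harris hp0.le hp1.le hmono).trans ?_
  apply mul_le_mul_of_nonneg_right _ (ZZ_pos hp0 hp1).le
  have h1 := cnt_old hp0.le ({x} : Finset V) L
  simp only [Finset.card_singleton, Nat.cast_one] at h1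
  refine le_trans ?_ (mul_le_mul_of_nonneg_left h1 hp0.le)
  have e : ∀ G : Finset (Sym2 V), mw (G ∩ EU U) L x x * adj G x v
      = sw L (fun l => ic (edg x l ⊆ G ∩ EU U ∧ lst x l = x) * adj G x v) := by
    intro G
    rw [mw_sw, sw_mul_right]
  simp_rw [e]
  rw [EE_sw, ← sw_mul_left]
  apply sw_mono
  intro l hl
  have hlne : l ≠ [] := by
    intro h
    rw [h] at hl
    simp at hl
    omega
  by_cases hcond : edg x l ⊆ EU U ∧ lst x l = x
  · have hnd : ¬ (x :: l).Nodup := by
      intro h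
      have := lst_mem_tail (x := x) hlne
      rw [hcond.2] at this
      exact (List.nodup_cons.1 h).1 this
    rw [if_pos (nw_lt_of_not_nodup hnd)]
    have hnot : s(x, v) ∉ edg x l := by
      intro h
      exact hv (mk_mem_EU.1 (hcond.1 h)).2.2
    refine (EE_mono hp0.le hp1.le (g := fun G => ic (insert s(x, v) (edg x l) ⊆ G)) ?_).trans ?_
    · intro G _
      rw [adj_eq_ic, ← ic_and]
      apply ic_mono
      rintro ⟨⟨h1, _⟩, h2⟩
      exact Finset.insert_subset h2 (h1.trans Finset.inter_subset_left)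
    · refine (EE_ic_subset_le hp0.le _ _).trans ?_
      rw [Finset.card_insert_of_notMem hnot, pow_succ, mul_comm]
      exact mul_le_mul_of_nonneg_left (pow_le_pow_p hp0.le hp1.le (nw_le_edg x l)) hp0.le
  · have : EE p (EU (Finset.univ : Finset V)) (fun G => ic (edg x l ⊆ G ∩ EU U ∧ lst x l = x)
        * adj G x v) = EE p (EU (Finset.univ : Finset V)) (fun _ => 0) := by
      apply EE_congr
      intro G _
      rw [ic_neg, zero_mul]
      rintro ⟨h1, h2⟩
      exact hcond ⟨h1.trans Finset.inter_subset_right, h2⟩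
    rw [this, EE_const]
    apply mul_nonneg hp0.le
    split_ifs <;> positivity

/-- The error matrix in expectation. -/
theorem MM_RR (hp0 : 0 < p) (hp1 : p < 1) (U : Finset V) :
    MM p k (fun G => ∑ x ∈ U, ∑ z ∈ U, RR k (G ∩ EU U) x z)
      ≤ ((Fintype.card V : ℝ) * (((2 * k - 2 : ℕ) : ℝ) * (1 + (2 * k - 2 : ℕ)) *
        ((Fintype.card V : ℝ) * p + 1 + (2 * k - 2 : ℕ)) ^ (2 * k - 2 - 1)
        * (1 + p * ((Fintype.card V : ℝ) * p + 1 + (2 * k - 2 : ℕ)) ^ (2 * k - 2))))
        * ZZ V p k := by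
  set L : ℕ := 2 * k - 2 with hL
  set X : ℝ := (Fintype.card V : ℝ) * p + 1 + L with hX
  have h1 : MM p k (fun G => ∑ x ∈ U, ∑ z ∈ U, RR k (G ∩ EU U) x z)
      ≤ MM p k (fun G => ∑ x : V, ∑ z : V, RR k G x z) := by
    apply MM_mono hp0.le hp1.le
    intro G _
    calc ∑ x ∈ U, ∑ z ∈ U, RR k (G ∩ EU U) x z ≤ ∑ x ∈ U, ∑ z : V, RR k G x z := by
          apply Finset.sum_le_sum
          intro x _
          calc ∑ z ∈ U, RR k (G ∩ EU U) x z ≤ ∑ z ∈ U, RR k G x z :=
                Finset.sum_le_sum (fun z _ => RR_mono Finset.inter_subset_left x z)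
            _ ≤ ∑ z : V, RR k G x z := Finset.sum_le_sum_of_subset_of_nonneg
                (Finset.subset_univ U) (fun z _ _ => RR_nonneg k G x z)
      _ ≤ ∑ x : V, ∑ z : V, RR k G x z := Finset.sum_le_sum_of_subset_of_nonneg
          (Finset.subset_univ U) (fun x _ _ => Finset.sum_nonneg (fun z _ => RR_nonneg k G x z))
  refine h1.trans ?_
  have hmono : Monotone (fun G : Finset (Sym2 V) => ∑ x : V, ∑ z : V, RR k G x z) := by
    intro G H h
    exact Finset.sum_le_sum (fun x _ => Finset.sum_le_sum (fun z _ => RR_mono h x z))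
  refine (MM_harris hp0.le hp1.le hmono).trans ?_
  apply mul_le_mul_of_nonneg_right _ (ZZ_pos hp0 hp1).le
  rw [EE_sum]
  have h2 : ∀ x : V, EE p (EU (Finset.univ : Finset V)) (fun G => ∑ z : V, RR k G x z)
      ≤ (L : ℝ) * (1 + L) * X ^ (L - 1) * (1 + p * X ^ L) := by
    intro x
    have h3 : EE p (EU (Finset.univ : Finset V)) (fun G => ∑ z : V, RR k G x z)
        ≤ EE p (EU (Finset.univ : Finset V)) (fun G =>
          sw L (fun l => ic (¬ (x :: l).Nodup ∧ edg x l ⊆ G)) + ∑ z, mp G L x z) := by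
      apply EE_mono hp0.le hp1.le
      intro G _
      have h4 : ∑ z : V, RR k G x z ≤ ∑ z : V, (mn G L x z + mp G L x z) := by
        apply Finset.sum_le_sum
        intro z _
        unfold RR
        split_ifs
        · exact add_nonneg (mn_nonneg _ _ _ _) (mp_nonneg _ _ _ _)
        · exact le_refl _
      refine h4.trans ?_
      rw [Finset.sum_add_distrib]
      apply add_le_add_left
      unfold mn
      rw [← sw_sum]
      apply sw_mono
      intro l _
      rw [Finset.sum_eq_single (lst x l)]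
      · exact ic_mono (fun h => ⟨h.1, h.2.1⟩)
      · intro z _ hz
        exact ic_neg (fun h => hz h.2.2.symm)
      · intro h
        exact absurd (Finset.mem_univ _) h
    refine h3.trans ?_
    rw [EE_add]
    have h5 := EE_mn hp0.le hp1.le (EU (Finset.univ : Finset V)) L x
    have h6 := EE_mp hp0.le hp1.le (EU (Finset.univ : Finset V)) L x
    calc _ ≤ (L : ℝ) * (1 + L) * X ^ (L - 1) + (L * (p * (1 + L) * X ^ (L - 1))) * X ^ L :=
          add_le_add h5 h6
      _ = _ := by ring
  refine (Finset.sum_le_sum (fun x _ => h2 x)).trans ?_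
  rw [Finset.sum_const, nsmul_eq_mul, Finset.card_univ]

end stage

end Pool.Agent.Q299.CY
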