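import Pool.Agent.Q299.CY.Stage2

/-!
The entropy lower bound.
-/

set_option linter.unusedSectionVars false

namespace Pool.Agent.Q299.CY

open Finset Classical

variable {V : Type*} [Fintype V] [DecidableEq V]

section stage

variable {p : ℝ} {k : ℕ} {U : Finset V} {v : V} {q s : ℝ}

theorem hs_zero (hk : 2 ≤ k) (hv : v ∉ U) {H : Finset (Sym2 V)} (hH : H ⊆ EU U) {x z : V}
    (h : conf k H x z) {N : Finset V} (hx : x ∈ N) (hz : z ∈ N) : hs p k v U H N = 0 := by
  unfold hs fr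
  have : EE p (EU (Finset.univ : Finset V) \ EU (insert v U)) (fun G => aA k (H ∪ star v N ∪ G))
      = EE p (EU (Finset.univ : Finset V) \ EU (insert v U)) (fun _ => 0) := by
    apply EE_congr
    intro G _
    unfold aA
    rw [if_pos]
    exact Cyc_mono Finset.subset_union_left (cyc_of_conf hk hv hH hx hz h)
  rw [this, EE_const]

theorem sum_BB (hk : 2 ≤ k) (H : Finset (Sym2 V)) (x z : V) :
    ∑ y, mw H (k - 1) y x * mw H (k - 1) y z = mw H (2 * k - 2) x z := by
  have h1 : 2 * k - 2 = (k - 1) + (k - 1) := by omega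
  rw [h1, ← mw_add]
  apply Finset.sum_congr rfl
  intro y _
  rw [mw_symm H (k - 1) y x]

/-- The pointwise quadratic bound. -/
theorem quad_point (hk : 2 ≤ k) (hp0 : 0 < p) (hp1 : p < 1) (hv : v ∉ U)
    {H : Finset (Sym2 V)} (hH : H ⊆ EU U) (t : ℝ) :
    (1 / (U.card : ℝ)) * (2 * t * (∑ x ∈ U, uw (adj H) (k - 1) x * mass p U (hs p k v U H) x)
      - t ^ 2 * fr p k (EU U) H)
    ≤ (∑ y, (∑ x ∈ U, mw H (k - 1) y x * mass p U (hs p k v U H) x) ^ 2)
      / EE p U (hs p k v U H) := by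
  rw [hs_total hv hH]
  set a := fun x => mass p U (hs p k v U H) x with ha
  set f := fr p k (EU U) H with hf
  have hf0 : 0 ≤ f := fr_nonneg hp0.le hp1.le _ _
  have hQ0 : 0 ≤ ∑ y, (∑ x ∈ U, mw H (k - 1) y x * a x) ^ 2 :=
    Finset.sum_nonneg (fun y _ => sq_nonneg _)
  rcases Nat.eq_zero_or_pos U.card with hj | hj
  · rw [hj]
    simp only [Nat.cast_zero, div_zero, zero_mul]
    exact div_nonneg hQ0 hf0
  have hjr : (0:ℝ) < U.card := by exact_mod_cast hj
  have hu : ∑ x ∈ U, uw (adj H) (k - 1) x * a x = ∑ y, ∑ x ∈ U, mw H (k - 1) y x * a x := by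
    rw [Finset.sum_comm]
    apply Finset.sum_congr rfl
    intro x _
    rw [← Finset.sum_mul, ← sum_mw]
    congr 1
    apply Finset.sum_congr rfl
    intro y _
    exact mw_symm H (k - 1) x y
  rw [hu]
  set T := fun y => ∑ x ∈ U, mw H (k - 1) y x * a x with hT
  have hTz : ∀ y, y ∉ U → T y = 0 := by
    intro y hy
    apply Finset.sum_eq_zero
    intro x _
    have h1 : ∑ z, mw H (k - 1) y z = 0 := by
      rw [sum_mw]
      have : k - 1 = (k - 2) + 1 := by omega
      rw [this]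
      exact uw_zero_of_not_mem hH _ hy
    have h2 := (Finset.sum_eq_zero_iff_of_nonneg (fun z _ => mw_nonneg H (k - 1) y z)).1 h1 x
      (Finset.mem_univ x)
    rw [h2, zero_mul]
  have hsumT : ∑ y, T y = ∑ y ∈ U, T y := by
    symm
    exact Finset.sum_subset (Finset.subset_univ U) (fun y _ hy => hTz y hy)
  have hsq : (∑ y, T y) ^ 2 ≤ U.card * ∑ y, T y ^ 2 := by
    rw [hsumT]
    refine (sq_sum_le_card_mul_sum_sq (s := U) (f := T)).trans ?_
    apply mul_le_mul_of_nonneg_left _ hjr.le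
    exact Finset.sum_le_sum_of_subset_of_nonneg (Finset.subset_univ U)
      (fun y _ _ => sq_nonneg _)
  set u := ∑ y, T y with hudef
  rcases hf0.lt_or_eq with hfp | hfz
  · rw [le_div_iff₀ hfp]
    have h1 : 2 * t * u - t ^ 2 * f ≤ u ^ 2 / f := by
      rw [le_div_iff₀ hfp]
      nlinarith [sq_nonneg (u - t * f)]
    have h2 : u ^ 2 / f * f = u ^ 2 := by field_simp
    have h3 : (2 * t * u - t ^ 2 * f) * f ≤ u ^ 2 := by
      rw [← h2]
      exact mul_le_mul_of_nonneg_right h1 hfp.le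
    have h4 : (1 / (U.card : ℝ)) * (2 * t * u - t ^ 2 * f) * f
        = (1 / (U.card : ℝ)) * ((2 * t * u - t ^ 2 * f) * f) := by ring
    rw [h4, one_div, inv_mul_le_iff₀ hjr]
    exact h3.trans hsq
  · have ha0 : ∀ x, a x = 0 := by
      intro x
      have h1 : EE p U (hs p k v U H) = 0 := by rw [hs_total hv hH, ← hf, ← hfz]
      exact mass_zero_of_EE_zero hp0.le hp1.le (fun N _ => hs_nonneg hp0.le hp1.le H N) h1 x
    have hT0 : ∀ y, T y = 0 := fun y => Finset.sum_eq_zero (fun x _ => by rw [ha0, mul_zero])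
    have hu0 : u = 0 := Finset.sum_eq_zero (fun y _ => hT0 y)
    rw [hu0, ← hfz]
    simp

/-- Error of a stage. -/
noncomputable def serr (n p : ℝ) (k : ℕ) : ℝ :=
  n * p ^ 2 * (((2 * k - 2 : ℕ) : ℝ) * (1 + (2 * k - 2 : ℕ)) *
        (n * p + 1 + (2 * k - 2 : ℕ)) ^ (2 * k - 2 - 1))
        * (1 + p * (n * p + 1 + (2 * k - 2 : ℕ)) ^ (2 * k - 2))

/-- Returning walks. -/
noncomputable def sret (n p : ℝ) (k : ℕ) : ℝ := k * (1 + k) * (n * p + 1 + k) ^ (k - 1)

/-- Gain of a stage. -/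
noncomputable def sgain (n p q s : ℝ) (k : ℕ) (j : ℝ) : ℝ :=
  j * (phi p q + max s 0 / (4 * p)) - 1 / 2
    + (1 / 2) * ((1 / j) * (((j * q) ^ k) ^ 2 - 2 * (j * q) ^ k * sret n p k)) - serr n p k

theorem stage_E (hk : 2 ≤ k) (hp0 : 0 < p) (hp1 : p < 1) (hM : Mom V p k q s) (hv : v ∉ U) :
    ZZ V p k * sgain (Fintype.card V) p q s k U.card
    ≤ EE p (EU (insert v U)) (fun H => xi (fr p k (EU (insert v U)) H))
        - EE p (EU U) (fun H => xi (fr p k (EU U) H)) := by
  set n : ℝ := (Fintype.card V : ℝ) with hn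
  set Z := ZZ V p k with hZdef
  set j : ℝ := (U.card : ℝ) with hj
  set L : ℕ := 2 * k - 2 with hL
  set X : ℝ := n * p + 1 + L with hX
  have hZ : 0 < Z := ZZ_pos hp0 hp1
  have hn0 : 0 ≤ n := Nat.cast_nonneg _
  have hX0 : 0 ≤ X := by positivity
  have hj0 : 0 ≤ j := Nat.cast_nonneg _
  have hjn : j ≤ n := by rw [hj, hn]; exact_mod_cast Finset.card_le_univ U
  rw [← ent_stage hv]
  set t : ℝ := (j * q) ^ k with ht
  have hq0 := hM.q_pos
  have ht0 : 0 ≤ t := by positivity
  -- pointwise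
  have hpt : ∀ H ⊆ EU U, (∑ x ∈ U, Psi p (mass p U (hs p k v U H) x) (fr p k (EU U) H))
      + ((1 / 2) * ((1 / j) * (2 * t)) *
        (∑ x ∈ U, uw (adj H) (k - 1) x * mass p U (hs p k v U H) x)
      - ((1 / 2) * ((1 / j) * t ^ 2)) * fr p k (EU U) H
      - (1 / 2) * p * ∑ x ∈ U, mw H L x x * mass p U (hs p k v U H) x
      - (1 / 2) * p ^ 2 * ((∑ x ∈ U, ∑ z ∈ U, RR k H x z) * fr p k (EU U) H))
      ≤ Ent p U (fun N => fr p k (EU (insert v U)) (H ∪ star v N)) := by
    intro H hH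
    have h1 := ent_lower hp0 hp1 (Finset.univ : Finset V) (fun y x => mw H (k - 1) y x)
      (RR k H) (RR_nonneg k H) (RR_self k H) U.card U (hs p k v U H) rfl
      (hs_anti hp0.le hp1.le H) (hs_nonneg hp0.le hp1.le H) (by
        intro x _ z _ hxz
        rw [sum_BB hk]
        rcases RR_prop (k := k) H hxz with h | ⟨h, hc⟩
        · exact Or.inl h
        · exact Or.inr ⟨h, fun N hx hz => hs_zero hk hv hH hc hx hz⟩)
    have h2 := quad_point hk hp0 hp1 hv hH t
    rw [hs_total hv hH] at h1 h2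
    have h3 : ∀ x, ∑ y, mw H (k - 1) y x ^ 2 = mw H L x x := by
      intro x
      rw [← sum_BB hk]
      apply Finset.sum_congr rfl
      intro y _
      ring
    simp_rw [h3] at h1
    have h4 : Ent p U (hs p k v U H)
        = Ent p U (fun N => fr p k (EU (insert v U)) (H ∪ star v N)) := rfl
    rw [h4] at h1
    refine le_trans ?_ h1
    nlinarith
  refine le_trans ?_ (EE_mono hp0.le hp1.le hpt)
  -- evaluate
  have e1 : EE p (EU U) (fun H => ∑ x ∈ U, Psi p (mass p U (hs p k v U H) x) (fr p k (EU U) H))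
      ≥ Z * (j * (phi p q + max s 0 / (4 * p)) - 1 / 2) := by
    rw [EE_sum]
    rcases Nat.eq_zero_or_pos U.card with h0 | h0
    · have hU : U = ∅ := Finset.card_eq_zero.1 h0
      rw [hj, h0, hU]
      simp only [Nat.cast_zero, zero_mul, Finset.sum_empty]
      nlinarith
    · have h1 := Finset.sum_le_sum (fun x (hx : x ∈ U) => psi_stage hp0 hp1 hM hv hx)
      rw [Finset.sum_const, nsmul_eq_mul] at h1
      refine le_trans (le_of_eq ?_) h1
      have hjp : (0:ℝ) < j := by rw [hj]; exact_mod_cast h0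
      rw [← hj, ← hZdef]
      have e0 : j * (Z * (phi p q + max s 0 / (4 * p) - 1 / (2 * j)))
          = Z * (j * (phi p q + max s 0 / (4 * p)) - (1 / 2) * (j / j)) := by ring
      rw [e0, div_self hjp.ne', mul_one]
  have e2 : EE p (EU U) (fun H => ∑ x ∈ U, uw (adj H) (k - 1) x * mass p U (hs p k v U H) x)
      ≥ (t - sret n p k) * Z := by
    rw [EE_sum]
    have h1 := MM_w_lower hp0 hp1 hM hv (k - 1)
    have hk1 : k - 1 + 1 = k := by omega
    rw [hk1] at h1
    refine le_trans (le_of_eq ?_) (h1.trans (le_of_eq ?_))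
    · rfl
    · apply Finset.sum_congr rfl
      intro x hx
      rw [MM_stage_mass hv hx (fun H => uw (adj H) (k - 1) x)]
      apply MM_congr
      intro G _
      ring
  have e3 : EE p (EU U) (fun H => fr p k (EU U) H) = Z := by
    have := MM_stage_H (p := p) (k := k) hv (fun _ => 1)
    simp only [one_mul] at this
    rw [this, MM_one]
  have e4 : EE p (EU U) (fun H => ∑ x ∈ U, mw H L x x * mass p U (hs p k v U H) x)
      ≤ j * ((p * (L * (1 + L) * X ^ (L - 1))) * Z) := by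
    rw [EE_sum]
    have : ∀ x ∈ U, EE p (EU U) (fun H => mw H L x x * mass p U (hs p k v U H) x)
        ≤ (p * (L * (1 + L) * X ^ (L - 1))) * Z := by
      intro x hx
      rw [MM_stage_mass hv hx (fun H => mw H L x x)]
      exact MM_closed hp0 hp1 hv (by omega)
    refine (Finset.sum_le_sum this).trans ?_
    rw [Finset.sum_const, nsmul_eq_mul]
  have e5 : EE p (EU U) (fun H => (∑ x ∈ U, ∑ z ∈ U, RR k H x z) * fr p k (EU U) H)
      ≤ (n * ((L : ℝ) * (1 + L) * X ^ (L - 1) * (1 + p * X ^ L))) * Z := by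
    rw [MM_stage_H hv (fun H => ∑ x ∈ U, ∑ z ∈ U, RR k H x z)]
    exact MM_RR hp0 hp1 U
  rw [EE_add, EE_sub, EE_sub, EE_sub, EE_mul_left, EE_mul_left, EE_mul_left, EE_mul_left, e3]
  have hs1 : 0 ≤ (1 / 2) * ((1 / j) * (2 * t)) := by positivity
  have h2 := mul_le_mul_of_nonneg_left e2 hs1
  have h4 := mul_le_mul_of_nonneg_left e4 (by positivity : (0:ℝ) ≤ (1 / 2) * p)
  have h5 := mul_le_mul_of_nonneg_left e5 (by positivity : (0:ℝ) ≤ (1 / 2) * p ^ 2)
  set A : ℝ := (L : ℝ) * (1 + L) * X ^ (L - 1) with hA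
  have hA0 : 0 ≤ A := by positivity
  have hserr : serr n p k = n * p ^ 2 * A * (1 + p * X ^ L) := rfl
  have h6 : (1 / 2) * p * (j * (p * A * Z)) + (1 / 2) * p ^ 2 * (n * (A * (1 + p * X ^ L)) * Z)
      ≤ Z * serr n p k := by
    rw [hserr]
    have h7 : (1 / 2) * p * (j * (p * A * Z)) ≤ (1 / 2) * p * (n * (p * A * Z)) := by
      apply mul_le_mul_of_nonneg_left _ (by positivity)
      exact mul_le_mul_of_nonneg_right hjn (by positivity)
    have h8 : 0 ≤ p ^ 2 * n * A * Z * (p * X ^ L) := by positivity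
    nlinarith
  unfold sgain
  rw [← ht]
  have e6 : Z * (j * (phi p q + max s 0 / (4 * p)) - 1 / 2
      + 1 / 2 * (1 / j * (t ^ 2 - 2 * t * sret n p k)) - serr n p k)
      = Z * (j * (phi p q + max s 0 / (4 * p)) - 1 / 2)
        + ((1 / 2) * ((1 / j) * (2 * t)) * ((t - sret n p k) * Z)
          - (1 / 2) * ((1 / j) * t ^ 2) * Z) - Z * serr n p k := by ring
  rw [e6]
  linarith

/-- Telescoping. -/
theorem telescope (hk : 2 ≤ k) (hp0 : 0 < p) (hp1 : p < 1) (hM : Mom V p k q s)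
    (U : Finset V) :
    xi (ZZ V p k) + ZZ V p k * ∑ i ∈ Finset.range U.card, sgain (Fintype.card V) p q s k i
      ≤ EE p (EU U) (fun H => xi (fr p k (EU U) H)) := by
  induction U using Finset.induction_on with
  | empty =>
    rw [EU_empty, EE_empty, fr_empty]
    simp
  | insert v U hv ih =>
    rw [Finset.card_insert_of_notMem hv, Finset.sum_range_succ, mul_add]
    have := stage_E hk hp0 hp1 hM hv
    linarith

theorem sum_pow_ge (k : ℕ) (n : ℕ) :
    ((n:ℝ) ^ (k + 1)) / (k + 1) ≤ ∑ i ∈ Finset.range (n + 1), (i:ℝ) ^ k := by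
  induction n with
  | zero =>
    simp only [Nat.cast_zero]
    rw [zero_pow (by omega), zero_div]
    apply Finset.sum_nonneg
    intro i _
    positivity
  | succ n ih =>
    rw [Finset.sum_range_succ]
    have h1 := pow_tangent (x := (n:ℝ)) (t := ((n + 1 : ℕ) : ℝ)) (by positivity) (by positivity) k
    have h2 : ((n + 1 : ℕ) : ℝ) ^ (k + 1) / (k + 1) ≤ (n:ℝ) ^ (k + 1) / (k + 1)
        + ((n + 1 : ℕ) : ℝ) ^ k := by
      rw [div_add' _ _ _ (by positivity)]
      apply div_le_div_of_nonneg_right _ (by positivity)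
      push_cast at h1 ⊢
      nlinarith
    linarith

/-- The entropy lower bound. -/
theorem E_bound (hk : 2 ≤ k) (hp0 : 0 < p) (hp1 : p < 1) (hM : Mom V p k q s) {m : ℕ}
    (hm : Fintype.card V = m + 1) :
    ((m + 1 : ℝ) * m / 2) * (phi p q + max s 0 / (4 * p)) + ((m:ℝ) * q) ^ (2 * k) / (4 * k)
      - (m + 1) / 2 - ((m + 1 : ℝ) * q) ^ k * sret (m + 1) p k - (m + 1) * serr (m + 1) p k
      ≤ - Real.log (ZZ V p k) := by
  have hZ := ZZ_pos (V := V) (k := k) hp0 hp1
  have h1 := telescope hk hp0 hp1 hM (Finset.univ : Finset V)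
  have hend : EE p (EU (Finset.univ : Finset V))
      (fun H => xi (fr p k (EU (Finset.univ : Finset V)) H)) = 0 := by
    have : EE p (EU (Finset.univ : Finset V))
      (fun H => xi (fr p k (EU (Finset.univ : Finset V)) H))
      = EE p (EU (Finset.univ : Finset V)) (fun _ => 0) := by
      apply EE_congr
      intro G _
      rw [fr_univ, xi_aA]
    rw [this, EE_const]
  rw [hend, Finset.card_univ, hm] at h1
  have h2 : ∑ i ∈ Finset.range (m + 1), sgain ((m + 1 : ℕ) : ℝ) p q s k i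
      ≤ - Real.log (ZZ V p k) := by
    have h3 : ZZ V p k * (∑ i ∈ Finset.range (m + 1), sgain ((m + 1 : ℕ) : ℝ) p q s k i)
        ≤ ZZ V p k * (- Real.log (ZZ V p k)) := by
      unfold xi at h1
      linarith
    exact le_of_mul_le_mul_left h3 hZ
  refine le_trans ?_ h2
  push_cast
  have hq0 := hM.q_pos
  have hret : 0 ≤ sret ((m:ℝ) + 1) p k := by unfold sret; positivity
  -- termwise lower bound
  have hterm : ∀ i ∈ Finset.range (m + 1), (i:ℝ) * (phi p q + max s 0 / (4 * p)) - 1 / 2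
      + (1 / 2) * q ^ (2 * k) * (i:ℝ) ^ (2 * k - 1)
      - ((m + 1 : ℝ)) ^ (k - 1) * q ^ k * sret ((m:ℝ) + 1) p k - serr ((m:ℝ) + 1) p k
      ≤ sgain ((m:ℝ) + 1) p q s k i := by
    intro i hi
    have him : (i:ℝ) ≤ m + 1 := by
      have := Finset.mem_range.1 hi
      exact_mod_cast this.le
    unfold sgain
    rcases Nat.eq_zero_or_pos i with h0 | h0
    · subst h0
      have h3 : 0 ≤ ((m + 1 : ℝ)) ^ (k - 1) * q ^ k * sret ((m:ℝ) + 1) p k := by positivity
      have h4 : ((0:ℕ):ℝ) ^ (2 * k - 1) = 0 := by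
        rw [Nat.cast_zero]; exact zero_pow (by omega)
      rw [h4]
      simp only [Nat.cast_zero, div_zero, zero_mul, mul_zero]
      linarith
    · have hip : (0:ℝ) < i := by exact_mod_cast h0
      have e1 : (1 / (i:ℝ)) * (((i * q) ^ k) ^ 2 - 2 * (i * q) ^ k * sret ((m:ℝ) + 1) p k)
          = q ^ (2 * k) * (i:ℝ) ^ (2 * k - 1)
            - 2 * ((i:ℝ) ^ (k - 1) * q ^ k * sret ((m:ℝ) + 1) p k) := by
        have e2 : ((i * q) ^ k) ^ 2 = q ^ (2 * k) * ((i:ℝ) ^ (2 * k - 1) * i) := by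
          rw [← pow_succ]
          have : 2 * k - 1 + 1 = 2 * k := by omega
          rw [this, ← pow_mul, mul_pow, mul_comm k 2]
          ring
        have e3 : (i * q) ^ k = q ^ k * ((i:ℝ) ^ (k - 1) * i) := by
          rw [← pow_succ]
          have : k - 1 + 1 = k := by omega
          rw [this, mul_pow]
          ring
        rw [e2, e3]
        field_simp
      rw [e1]
      have h3 : (i:ℝ) ^ (k - 1) * q ^ k * sret ((m:ℝ) + 1) p k
          ≤ ((m + 1 : ℝ)) ^ (k - 1) * q ^ k * sret ((m:ℝ) + 1) p k := by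
        apply mul_le_mul_of_nonneg_right _ hret
        apply mul_le_mul_of_nonneg_right _ (by positivity)
        exact pow_le_pow_left₀ hip.le him _
      linarith
  refine le_trans ?_ (Finset.sum_le_sum hterm)
  rw [Finset.sum_sub_distrib, Finset.sum_sub_distrib, Finset.sum_add_distrib,
    Finset.sum_sub_distrib, ← Finset.sum_mul, ← Finset.mul_sum]
  simp only [Finset.sum_const, Finset.card_range, nsmul_eq_mul]
  have hg : ∑ i ∈ Finset.range (m + 1), (i:ℝ) = (m + 1 : ℝ) * m / 2 := by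
    have := Finset.sum_range_id_mul_two (m + 1)
    have h3 : ((∑ i ∈ Finset.range (m + 1), i : ℕ) : ℝ) * 2 = (m + 1 : ℝ) * m := by
      have h4 : ((∑ i ∈ Finset.range (m + 1), i) * 2 : ℕ) = (m + 1) * m := by
        rw [this, Nat.add_sub_cancel]
      exact_mod_cast h4
    push_cast at h3
    linarith
  rw [hg]
  have hp1' := sum_pow_ge (2 * k - 1) m
  have e2k : 2 * k - 1 + 1 = 2 * k := by omega
  rw [e2k] at hp1'
  have e2k' : (((2 * k - 1 : ℕ) : ℝ) + 1) = 2 * k := by
    have : ((2 * k - 1 + 1 : ℕ) : ℝ) = ((2 * k : ℕ) : ℝ) := by rw [e2k]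
    push_cast at this
    exact this
  rw [e2k'] at hp1'
  have h3 := mul_le_mul_of_nonneg_left hp1' (by positivity : (0:ℝ) ≤ (1 / 2) * q ^ (2 * k))
  have e3 : ((m:ℝ) * q) ^ (2 * k) / (4 * k) = (1 / 2) * q ^ (2 * k) * ((m:ℝ) ^ (2 * k) / (2 * k)) := by
    rw [mul_pow]
    ring
  have e4 : ((m + 1 : ℝ) * q) ^ k * sret (m + 1) p k
      = (m + 1) * ((m + 1 : ℝ) ^ (k - 1) * q ^ k * sret ((m:ℝ) + 1) p k) := by
    have : k = k - 1 + 1 := by omega
    rw [mul_pow]
    conv_lhs => rw [this, pow_succ (m + 1 : ℝ)]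
    have h5 : k - 1 + 1 = k := by omega
    rw [h5]
    ring
  rw [e3, e4]
  push_cast
  linarith

end stage

end Pool.Agent.Q299.CY
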