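import Pool.Agent.Q299.CY.Meas
import Pool.Agent.Q299.CY.Kap

/-!
Walk counts and their expectations.
-/

set_option linter.unusedSectionVars false

namespace Pool.Agent.Q299.CY

open Finset Classical

variable {V : Type*} [Fintype V] [DecidableEq V]

/-- Indicator. -/
noncomputable def ic (P : Prop) : ℝ := if P then 1 else 0

theorem ic_nonneg (P : Prop) : 0 ≤ ic P := by unfold ic; split_ifs <;> norm_num

theorem ic_le_one (P : Prop) : ic P ≤ 1 := by unfold ic; split_ifs <;> norm_num

theorem ic_pos {P : Prop} (h : P) : ic P = 1 := by unfold ic; rw [if_pos h]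

theorem ic_neg {P : Prop} (h : ¬ P) : ic P = 0 := by unfold ic; rw [if_neg h]

theorem ic_mono {P Q : Prop} (h : P → Q) : ic P ≤ ic Q := by
  by_cases hP : P
  · rw [ic_pos hP, ic_pos (h hP)]
  · rw [ic_neg hP]; exact ic_nonneg Q

theorem ic_and (P Q : Prop) : ic (P ∧ Q) = ic P * ic Q := by
  unfold ic
  by_cases hP : P <;> by_cases hQ : Q <;> simp [hP, hQ]

theorem ic_congr {P Q : Prop} (h : P ↔ Q) : ic P = ic Q := by
  by_cases hP : P
  · rw [ic_pos hP, ic_pos (h.1 hP)]
  · rw [ic_neg hP, ic_neg (fun h' => hP (h.2 h'))]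

theorem adj_eq_ic (G : Finset (Sym2 V)) (x y : V) : adj G x y = ic (s(x, y) ∈ G) := by
  unfold adj ic
  by_cases h : s(x, y) ∈ G
  · rw [if_pos h, if_pos h]
  · rw [if_neg h, if_neg h]

theorem sw_single_le {L : ℕ} {F : List V → ℝ} (h : ∀ l, 0 ≤ F l) (l : List V)
    (hl : l.length = L) : F l ≤ sw L F := by
  induction L generalizing F l with
  | zero =>
    have : l = [] := List.length_eq_zero_iff.1 hl
    rw [this]; exact le_refl _
  | succ L ih =>
    cases l with
    | nil => simp at hl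
    | cons y l =>
      rw [sw_succ]
      refine (ih (F := fun l => F (y :: l)) (fun l => h _) l (by simpa using hl)).trans ?_
      exact Finset.single_le_sum (f := fun y => sw L (fun l => F (y :: l)))
        (fun y _ => sw_nonneg (fun l _ => h _)) (Finset.mem_univ y)

theorem sw_diag (L : ℕ) (F : List V → List V → ℝ) :
    sw L (fun l => sw L (fun l' => if l = l' then F l l' else 0)) = sw L (fun l => F l l) := by
  induction L generalizing F with
  | zero => simp [sw]
  | succ L ih =>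
    rw [sw_succ, sw_succ]
    apply Finset.sum_congr rfl
    intro y _
    rw [← ih (fun l l' => F (y :: l) (y :: l'))]
    apply sw_congr
    intro l _
    rw [sw_succ]
    rw [Finset.sum_eq_single y]
    · apply sw_congr
      intro l' _
      simp
    · intro z _ hz
      have : ∀ l', (if y :: l = z :: l' then F (y :: l) (z :: l') else 0) = 0 := by
        intro l'
        rw [if_neg]
        intro h
        exact hz (List.cons.inj h).1.symm
      simp_rw [this]
      exact sw_const_zero L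
    · intro h
      exact absurd (Finset.mem_univ y) h

theorem sw_prod (L : ℕ) (F G : List V → ℝ) :
    sw L F * sw L G = sw L (fun l => sw L (fun l' => F l * G l')) := by
  rw [← sw_mul_right]
  apply sw_congr
  intro l _
  rw [sw_mul_left]

/-- The adjacency matrix. -/
noncomputable def adjM (H : Finset (Sym2 V)) : Matrix V V ℝ := Matrix.of (adj H)

/-- The number of walks of length `L` from `x` to `z`. -/
noncomputable def mw (H : Finset (Sym2 V)) (L : ℕ) (x z : V) : ℝ := (adjM H ^ L) x z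

theorem mw_sw (H : Finset (Sym2 V)) (L : ℕ) (x z : V) :
    mw H L x z = sw L (fun l => ic (edg x l ⊆ H ∧ lst x l = z)) := by
  induction L generalizing x with
  | zero =>
    simp only [mw, pow_zero, sw, edg, lst, Finset.empty_subset, true_and, ic]
    rw [Matrix.one_apply]
  | succ L ih =>
    have e : mw H (L + 1) x z = ∑ y, adj H x y * mw H L y z := by
      simp only [mw]
      rw [pow_succ', Matrix.mul_apply]
      rfl
    rw [e, sw_succ]
    apply Finset.sum_congr rfl
    intro y _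
    rw [ih, ← sw_mul_left]
    apply sw_congr
    intro l _
    rw [adj_eq_ic, ← ic_and]
    apply ic_congr
    simp only [edg, lst, Finset.insert_subset_iff]
    tauto

theorem mw_symm (H : Finset (Sym2 V)) (L : ℕ) (x z : V) : mw H L x z = mw H L z x := by
  unfold mw
  have h1 : (adjM H).transpose = adjM H := by
    ext a b
    exact adj_symm H b a
  have h2 : (adjM H ^ L).transpose = adjM H ^ L := by
    rw [Matrix.transpose_pow, h1]
  conv_lhs => rw [← h2]
  rfl

theorem mw_add (H : Finset (Sym2 V)) (L M : ℕ) (x z : V) :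
    ∑ y, mw H L x y * mw H M y z = mw H (L + M) x z := by
  unfold mw
  rw [pow_add, Matrix.mul_apply]

theorem mw_nonneg (H : Finset (Sym2 V)) (L : ℕ) (x z : V) : 0 ≤ mw H L x z := by
  rw [mw_sw]; exact sw_nonneg (fun l _ => ic_nonneg _)

theorem mw_mono {G H : Finset (Sym2 V)} (h : G ⊆ H) (L : ℕ) (x z : V) :
    mw G L x z ≤ mw H L x z := by
  rw [mw_sw, mw_sw]
  apply sw_mono
  intro l _
  exact ic_mono (fun h1 => ⟨h1.1.trans h, h1.2⟩)

theorem uw_sw (H : Finset (Sym2 V)) (L : ℕ) (x : V) :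
    uw (adj H) L x = sw L (fun l => ic (edg x l ⊆ H)) := by
  induction L generalizing x with
  | zero => simp [uw, sw, edg, ic]
  | succ L ih =>
    simp only [uw]
    rw [sw_succ]
    apply Finset.sum_congr rfl
    intro y _
    rw [ih, ← sw_mul_left]
    apply sw_congr
    intro l _
    rw [adj_eq_ic, ← ic_and]
    apply ic_congr
    simp only [edg, Finset.insert_subset_iff]

theorem sum_mw (H : Finset (Sym2 V)) (L : ℕ) (x : V) :
    ∑ z, mw H L x z = uw (adj H) L x := by
  rw [uw_sw]
  simp_rw [mw_sw]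
  rw [← sw_sum]
  apply sw_congr
  intro l _
  simp_rw [ic_and]
  rw [← Finset.mul_sum]
  have : ∑ z, ic (lst x l = z) = 1 := by
    rw [Finset.sum_eq_single (lst x l)]
    · exact ic_pos rfl
    · intro z _ hz
      exact ic_neg (fun h => hz h.symm)
    · intro h
      exact absurd (Finset.mem_univ _) h
  rw [this, mul_one]

/-- Paths. -/
noncomputable def ms (H : Finset (Sym2 V)) (L : ℕ) (x z : V) : ℝ :=
  sw L (fun l => ic ((x :: l).Nodup ∧ edg x l ⊆ H ∧ lst x l = z))

/-- Walks which are not paths. -/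
noncomputable def mn (H : Finset (Sym2 V)) (L : ℕ) (x z : V) : ℝ :=
  sw L (fun l => ic (¬ (x :: l).Nodup ∧ edg x l ⊆ H ∧ lst x l = z))

/-- Ordered pairs of distinct paths. -/
noncomputable def mp (H : Finset (Sym2 V)) (L : ℕ) (x z : V) : ℝ :=
  sw L (fun l => sw L (fun l' => ic (l ≠ l' ∧ ((x :: l).Nodup ∧ edg x l ⊆ H ∧ lst x l = z)
    ∧ ((x :: l').Nodup ∧ edg x l' ⊆ H ∧ lst x l' = z))))

theorem mw_eq (H : Finset (Sym2 V)) (L : ℕ) (x z : V) : mw H L x z = ms H L x z + mn H L x z := by
  unfold ms mn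
  rw [mw_sw, ← sw_add]
  apply sw_congr
  intro l _
  by_cases h : (x :: l).Nodup
  · rw [ic_neg (P := ¬ (x :: l).Nodup ∧ _) (fun h' => h'.1 h), add_zero]
    exact ic_congr (by tauto)
  · rw [ic_neg (P := (x :: l).Nodup ∧ _) (fun h' => h h'.1), zero_add]
    exact ic_congr (by tauto)

theorem ms_sq (H : Finset (Sym2 V)) (L : ℕ) (x z : V) :
    ms H L x z * ms H L x z = ms H L x z + mp H L x z := by
  unfold ms mp
  rw [sw_prod]
  conv_rhs => rw [← sw_diag L (fun l l' => ic ((x :: l).Nodup ∧ edg x l ⊆ H ∧ lst x l = z)),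
    ← sw_add]
  apply sw_congr
  intro l _
  rw [← sw_add]
  apply sw_congr
  intro l' _
  rw [← ic_and]
  by_cases h : l = l'
  · subst h
    rw [if_pos rfl, ic_neg (P := l ≠ l ∧ _) (fun h' => h'.1 rfl), add_zero]
    exact ic_congr (by tauto)
  · rw [if_neg h, zero_add]
    exact ic_congr (by tauto)

theorem ms_dich {k : ℕ} (H : Finset (Sym2 V)) (x z : V) :
    ms H (2 * k - 2) x z = 0 ∨ conf k H x z := by
  by_cases h : conf k H x z
  · exact Or.inr h
  · left
    unfold ms
    have : ∀ l : List V, l.length = 2 * k - 2 →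
        ic ((x :: l).Nodup ∧ edg x l ⊆ H ∧ lst x l = z) = 0 := by
      intro l hl
      rw [ic_neg]
      rintro ⟨h1, h2, h3⟩
      exact h ⟨l, hl, h1, h2, h3⟩
    rw [sw_congr this, sw_const_zero]

theorem mw_conf {k : ℕ} {H : Finset (Sym2 V)} {x z : V} (h : conf k H x z) :
    1 ≤ mw H (2 * k - 2) x z := by
  obtain ⟨l, h1, h2, h3, h4⟩ := h
  rw [mw_sw]
  have := sw_single_le (F := fun l => ic (edg x l ⊆ H ∧ lst x l = z)) (fun l => ic_nonneg _) l h1
  rw [ic_pos ⟨h3, h4⟩] at this
  exact this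

/-- The error matrix. -/
noncomputable def RR (k : ℕ) (H : Finset (Sym2 V)) (x z : V) : ℝ :=
  if x = z then 0 else mn H (2 * k - 2) x z + mp H (2 * k - 2) x z

theorem mn_nonneg (H : Finset (Sym2 V)) (L : ℕ) (x z : V) : 0 ≤ mn H L x z :=
  sw_nonneg (fun l _ => ic_nonneg _)

theorem mp_nonneg (H : Finset (Sym2 V)) (L : ℕ) (x z : V) : 0 ≤ mp H L x z :=
  sw_nonneg (fun l _ => sw_nonneg (fun l' _ => ic_nonneg _))

theorem RR_nonneg (k : ℕ) (H : Finset (Sym2 V)) (x z : V) : 0 ≤ RR k H x z := by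
  unfold RR
  split_ifs
  · exact le_refl _
  · exact add_nonneg (mn_nonneg _ _ _ _) (mp_nonneg _ _ _ _)

theorem RR_self (k : ℕ) (H : Finset (Sym2 V)) (x : V) : RR k H x x = 0 := by
  unfold RR; rw [if_pos rfl]

theorem mn_mono {G H : Finset (Sym2 V)} (h : G ⊆ H) (L : ℕ) (x z : V) :
    mn G L x z ≤ mn H L x z := by
  apply sw_mono
  intro l _
  exact ic_mono (fun h1 => ⟨h1.1, h1.2.1.trans h, h1.2.2⟩)

theorem mp_mono {G H : Finset (Sym2 V)} (h : G ⊆ H) (L : ℕ) (x z : V) :
    mp G L x z ≤ mp H L x z := by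
  apply sw_mono
  intro l _
  apply sw_mono
  intro l' _
  exact ic_mono (fun h1 => ⟨h1.1, ⟨h1.2.1.1, h1.2.1.2.1.trans h, h1.2.1.2.2⟩,
    ⟨h1.2.2.1, h1.2.2.2.1.trans h, h1.2.2.2.2⟩⟩)

theorem RR_mono {k : ℕ} {G H : Finset (Sym2 V)} (h : G ⊆ H) (x z : V) :
    RR k G x z ≤ RR k H x z := by
  unfold RR
  split_ifs
  · exact le_refl _
  · exact add_le_add (mn_mono h _ _ _) (mp_mono h _ _ _)

theorem RR_prop {k : ℕ} (H : Finset (Sym2 V)) {x z : V} (hxz : x ≠ z) :
    (mw H (2 * k - 2) x z - RR k H x z ≤ 0) ∨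
      (mw H (2 * k - 2) x z - RR k H x z ≤ 1 ∧ conf k H x z) := by
  have h1 := mw_eq H (2 * k - 2) x z
  have h2 := ms_sq H (2 * k - 2) x z
  unfold RR
  rw [if_neg hxz]
  rcases ms_dich (k := k) H x z with h | h
  · left
    rw [h] at h1 h2
    linarith [mp_nonneg H (2 * k - 2) x z]
  · right
    refine ⟨?_, h⟩
    nlinarith [sq_nonneg (ms H (2 * k - 2) x z - 1)]

section expect

variable {p : ℝ}

theorem EE_ic_subset_le (hp0 : 0 ≤ p) (S F : Finset (Sym2 V)) :
    EE p S (fun G => ic (F ⊆ G)) ≤ p ^ F.card := by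
  have := EE_contains_le hp0 S F
  refine le_trans (le_of_eq ?_) this
  apply EE_congr
  intro G _
  unfold ic
  congr

theorem pow_le_pow_p (hp0 : 0 ≤ p) (hp1 : p ≤ 1) {m n : ℕ} (h : m ≤ n) : p ^ n ≤ p ^ m :=
  pow_le_pow_of_le_one hp0 hp1 h

/-- Expected number of walks which are not paths. -/
theorem EE_mn (hp0 : 0 ≤ p) (hp1 : p ≤ 1) (S : Finset (Sym2 V)) (L : ℕ) (x : V) :
    EE p S (fun G => sw L (fun l => ic (¬ (x :: l).Nodup ∧ edg x l ⊆ G)))
      ≤ L * (1 + L) * ((Fintype.card V : ℝ) * p + 1 + L) ^ (L - 1) := by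
  rw [EE_sw]
  have h1 := cnt_old hp0 ({x} : Finset V) L
  simp only [Finset.card_singleton, Nat.cast_one] at h1
  refine le_trans ?_ h1
  apply sw_mono
  intro l _
  by_cases h : (x :: l).Nodup
  · have : EE p S (fun G => ic (¬ (x :: l).Nodup ∧ edg x l ⊆ G)) = EE p S (fun _ => 0) := by
      apply EE_congr
      intro G _
      rw [ic_neg (fun h' => h'.1 h)]
    rw [this, EE_const]
    split_ifs <;> positivity
  · rw [if_pos (nw_lt_of_not_nodup h)]
    refine le_trans (EE_mono hp0 hp1 (g := fun G => ic (edg x l ⊆ G))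
      (fun G _ => ic_mono (fun h' => h'.2))) ?_
    exact (EE_ic_subset_le hp0 S _).trans (pow_le_pow_p hp0 hp1 (nw_le_edg x l))

theorem toFinset_card_le (x : V) {l : List V} {L : ℕ} (hl : l.length = L) :
    ((x :: l).toFinset.card : ℝ) ≤ 1 + L := by
  have := List.toFinset_card_le (x :: l)
  simp only [List.length_cons, hl] at this
  have h2 : ((x :: l).toFinset.card : ℝ) ≤ ((L + 1 : ℕ) : ℝ) := by exact_mod_cast this
  push_cast at h2
  linarith

/-- Expected number of pairs of distinct paths with common ends. -/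
theorem EE_mp (hp0 : 0 ≤ p) (hp1 : p ≤ 1) (S : Finset (Sym2 V)) (L : ℕ) (x : V) :
    EE p S (fun G => ∑ z, mp G L x z)
      ≤ (L * (p * (1 + L) * ((Fintype.card V : ℝ) * p + 1 + L) ^ (L - 1)))
        * ((Fintype.card V : ℝ) * p + 1 + L) ^ L := by
  set X : ℝ := (Fintype.card V : ℝ) * p + 1 + L with hX
  have hX0 : 0 ≤ X := by positivity
  -- sum over z
  have e1 : ∀ G, ∑ z, mp G L x z ≤ sw L (fun l => sw L (fun l' =>
      ic ((x :: l).Nodup ∧ ((x :: l').Nodup ∧ lst x l' ∈ (x :: l).toFinset ∧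
        ¬ edg x l' ⊆ edg x l) ∧ edg x l' ∪ edg x l ⊆ G))) := by
    intro G
    unfold mp
    rw [← sw_sum]
    apply sw_mono
    intro l hl
    rw [← sw_sum]
    apply sw_mono
    intro l' hl'
    -- only z = lst x l contributes
    rw [Finset.sum_eq_single (lst x l)]
    · apply ic_mono
      rintro ⟨h1, ⟨h2, h3, _⟩, ⟨h4, h5, h6⟩⟩
      refine ⟨h2, ⟨h4, ?_, ?_⟩, Finset.union_subset h5 h3⟩
      · rw [h6, List.mem_toFinset]
        exact lst_mem x l
      · intro h7
        have h8 := follow h4 h2 h7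
        have h9 := h8.eq_of_length (by omega)
        exact h1 h9.symm
    · intro z _ hz
      apply ic_neg
      rintro ⟨_, ⟨_, _, h⟩, _⟩
      exact hz h.symm
    · intro h
      exact absurd (Finset.mem_univ _) h
  refine (EE_mono hp0 hp1 (fun G _ => e1 G)).trans ?_
  rw [EE_sw]
  have e2 : sw L (fun l => EE p S (fun G => sw L (fun l' =>
      ic ((x :: l).Nodup ∧ ((x :: l').Nodup ∧ lst x l' ∈ (x :: l).toFinset ∧
        ¬ edg x l' ⊆ edg x l) ∧ edg x l' ∪ edg x l ⊆ G))))
      ≤ sw L (fun l => (L * (p * (1 + L) * X ^ (L - 1))) * p ^ (nw {x} l)) := by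
    apply sw_mono
    intro l hl
    rw [EE_sw]
    have hF : ∀ e ∈ edg x l, ∀ a ∈ e, a ∈ (x :: l).toFinset := by
      intro e he a ha
      rw [List.mem_toFinset]
      exact edg_mem he a ha
    have h1 := gw_new hp0 (x :: l).toFinset (edg x l) hF L x
    have hc := toFinset_card_le x hl
    have h2 : (L:ℝ) * (p * ((x :: l).toFinset.card : ℝ) * ((Fintype.card V : ℝ) * p
        + ((x :: l).toFinset.card : ℝ)) ^ (L - 1)) ≤ L * (p * (1 + L) * X ^ (L - 1)) := by
      apply mul_le_mul_of_nonneg_left _ (Nat.cast_nonneg L)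
      apply mul_le_mul
      · exact mul_le_mul_of_nonneg_left hc hp0
      · apply pow_le_pow_left₀ (by positivity)
        rw [hX]; linarith
      · positivity
      · positivity
    have h3 : sw L (fun l' => EE p S (fun G =>
        ic ((x :: l).Nodup ∧ ((x :: l').Nodup ∧ lst x l' ∈ (x :: l).toFinset ∧
        ¬ edg x l' ⊆ edg x l) ∧ edg x l' ∪ edg x l ⊆ G)))
        ≤ sw L (fun l' => p ^ (nw {x} l) * (if lst x l' ∈ (x :: l).toFinset ∧ ¬ edg x l' ⊆ edg x l
          then gw p (edg x l) x l' else 0)) := by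
      apply sw_mono
      intro l' hl'
      by_cases hcond : (x :: l).Nodup ∧ ((x :: l').Nodup ∧ lst x l' ∈ (x :: l).toFinset ∧
        ¬ edg x l' ⊆ edg x l)
      · rw [if_pos ⟨hcond.2.2.1, hcond.2.2.2⟩]
        refine (EE_mono hp0 hp1 (g := fun G => ic (edg x l' ∪ edg x l ⊆ G))
          (fun G _ => ic_mono (fun h' => h'.2.2))).trans ?_
        refine (EE_ic_subset_le hp0 S _).trans ?_
        have e3 : (edg x l' ∪ edg x l).card = (edg x l).card + (edg x l' \ edg x l).card := by
          rw [add_comm, ← Finset.card_sdiff_add_card]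
        rw [e3, pow_add, gw_eq p (edg x l) hcond.2.1]
        apply mul_le_mul_of_nonneg_right _ (gw_nonneg hp0 _ _ _)
        exact pow_le_pow_p hp0 hp1 (nw_le_edg x l)
      · have : EE p S (fun G => ic ((x :: l).Nodup ∧ ((x :: l').Nodup ∧
            lst x l' ∈ (x :: l).toFinset ∧ ¬ edg x l' ⊆ edg x l) ∧ edg x l' ∪ edg x l ⊆ G))
            = EE p S (fun _ => 0) := by
          apply EE_congr
          intro G _
          rw [ic_neg (fun h' => hcond ⟨h'.1, h'.2.1⟩)]
        rw [this, EE_const]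
        apply mul_nonneg (by positivity)
        split_ifs
        · exact gw_nonneg hp0 _ _ _
        · exact le_refl _
    refine h3.trans ?_
    rw [sw_mul_left, mul_comm]
    exact mul_le_mul_of_nonneg_right (h1.trans h2) (by positivity)
  refine e2.trans ?_
  rw [sw_mul_left]
  apply mul_le_mul_of_nonneg_left _ (by positivity)
  have := cnt_all hp0 ({x} : Finset V) L
  simpa using this

end expect

end Pool.Agent.Q299.CY
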